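import Pool.Agent.MP_a25fb7_an.Mg.LowSum
import Mathlib

-- part MP_a25fb7_an.Core
section

/-!
The core estimate: the level sets of the uncentered maximal function move little under a small
translation, in the mean over all levels.
-/

set_option autoImplicit false
set_option linter.unusedSectionVars false
open MeasureTheory Metric Set Module
open scoped ENNReal

namespace Pool.Agent.MP_a25fb7_an

variable {E : Type*} [NormedAddCommGroup E] [InnerProductSpace ℝ E] [FiniteDimensional ℝ E]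
  [MeasurableSpace E] [BorelSpace E] (μ : Measure E) [μ.IsAddHaarMeasure]

/-- the exceptional set at level `l` -/
def Xb (f : E → ℝ) (Ω : Set E) (h : E) (l : ℝ) : Set E :=
  {x | x ∉ Ul μ f l ∧ (∀ y, dist y x ≤ 5 * ‖h‖ → f y ≤ l) ∧ ∃ z r, x + h ∈ ball z r ∧
    l * μ.real (ball z r) < ∫ y in ball z r, f y ∂μ ∧ (‖h‖ ≤ r → ball z (7 * r) ⊆ Ω)}

lemma Xb_cover {δ e ε : ℝ} {J : Set (E × ℝ)} (hδ : 0 < δ) (hδ1 : δ ≤ 1 / 4) (he : 0 < e)
    (hε : 0 < ε) (hε1 : ε ≤ 1 / 16) (he1 : 2 * e ≤ ε) (he2 : 2 * e ≤ (1 / 2) ^ (finrank ℝ E + 1))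
    (hJ1 : ∀ j ∈ J, 1 ≤ j.2 ∧ j.2 ≤ 2)
    (hJ2 : ∀ (z : E) (r : ℝ), 1 ≤ r → r < 2 → ∃ j ∈ J, dist z j.1 < δ ∧ j.2 ≤ r ∧ r < j.2 + δ)
    (hcmp : ∀ (k : ℤ) (j : E × ℝ), 1 ≤ j.2 →
      μ.real (cb k j (2 * δ)) ≤ (1 + e) * μ.real (cb k j (-(2 * δ))))
    {f : E → ℝ} (hf : Continuous f) {Ω : Set E} {h x : E} {l : ℝ} (hx : x ∈ Xb μ f Ω h l) :
    ∃ (k : ℤ) (j : J), x ∈ Sh (Ul μ f l) δ k j.1 h ∧
      ((cb k j.1 (-(2 * δ)) ⊆ Ω ∧ l ∈ LamM μ (Ul μ f) f δ 4 (ENNReal.ofReal e) k j.1) ∨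
        (ball ((2 : ℝ) ^ k • j.1.1) (6 * 2 ^ k) ⊆ Ω ∧ l ∈ LamL μ f δ ε k j.1)) := by
  obtain ⟨hxU, hle, z, r, hxh, hav, hΩ⟩ := hx
  have hBU := ball_subset_Ul μ hav
  have hh : 0 < ‖h‖ := by
    rw [norm_pos_iff]
    rintro rfl
    exact hxU (hBU (by simpa using hxh))
  have hd : dist (x + h) x = ‖h‖ := by simp
  have hnear : ∀ y ∈ ball (x + h) (2 * (2 * ‖h‖)), f y ≤ l := fun y hy => hle y (by
    rw [mem_ball] at hy; linarith [dist_triangle y (x + h) x])
  have hr : 2 * ‖h‖ < r := by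
    by_contra hcon
    have hsub : ball z r ⊆ ball (x + h) (2 * (2 * ‖h‖)) := ball_subset_ball' (by
      rw [mem_ball, dist_comm] at hxh; linarith)
    have := setIntegral_mono_on (integrableOn_ball μ hf z r)
      (integrableOn_ball μ (continuous_const (y := l)) z r) measurableSet_ball
      fun y hy => hnear y (hsub hy)
    rw [setIntegral_const, smul_eq_mul] at this
    linarith
  have hΩ' := hΩ (by linarith)
  have key : ∀ z' r', x + h ∈ ball z' r' → 2 * ‖h‖ < r' → ball z' r' ⊆ Ul μ f l →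
      ∃ (k : ℤ) (j : J), InCell δ k j.1 z' r' ∧ x ∈ Sh (Ul μ f l) δ k j.1 h ∧
        ¬ ball ((2 : ℝ) ^ k • j.1.1) (4 * 2 ^ k) ⊆ Ul μ f l := by
    intro z' r' h1 h2 h3
    obtain ⟨k, hk1, hk2⟩ := exists_mem_Ico_zpow (x := r') (by linarith) (one_lt_two (α := ℝ))
    obtain ⟨j, hj, hc⟩ := exists_cell hJ2 z' hk1 hk2
    obtain ⟨a1, a2, a3⟩ := hc.radius hδ1 (hJ1 _ hj).1 (hJ1 _ hj).2
    rw [zpow_add_one₀ two_ne_zero] at hk2
    refine ⟨k, ⟨j, hj⟩, hc, ⟨hxU, by linarith, z', r', hc, h1, h3⟩, fun hcon => hxU (hcon ?_)⟩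
    rw [mem_ball] at h1 ⊢
    linarith [dist_triangle_left x z' (x + h), dist_triangle x z' ((2 : ℝ) ^ k • j.1)]
  by_cases hden : μ.real (ball z r ∩ {x | l < f x}) ≤ ε * μ.real (ball z r)
  · obtain ⟨k, j, hc, h1, h2⟩ := key z r hxh hr hBU
    obtain ⟨a1, a2, a3⟩ := hc.radius hδ1 (hJ1 _ j.2).1 (hJ1 _ j.2).2
    refine ⟨k, j, h1, Or.inr ⟨Subset.trans (ball_subset_ball' ?_) hΩ', h2, z, r, hc, hav, hden⟩⟩
    rw [dist_comm]; linarith
  · obtain ⟨z', r', b1, b2, b3, b4, b5⟩ := halving μ (S := {x | l < f x})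
      (measurableSet_lt measurable_const hf.measurable) hxh (s := 2 * ‖h‖) (by linarith) hε
      (by linarith) (Set.disjoint_left.2 fun y hy hy' => absurd (hnear y hy) (not_le.2 hy'))
      (not_le.1 hden)
    obtain ⟨k, j, hc, h1, h2⟩ := key z' r' b1 b3 (b2.trans hBU)
    have hB : 0 ≤ μ.real (ball z' r') := measureReal_nonneg
    refine ⟨k, j, h1, Or.inl ⟨(hc.inner' hδ).trans (b2.trans (Subset.trans (ball_subset_ball
      (by linarith)) hΩ')), medium_of_ball μ hδ he.le hc (hcmp _ _ (hJ1 _ j.2).1) (b2.trans hBU) h2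
      ((mul_le_mul_of_nonneg_right he1 hB).trans b4)
      ((mul_le_mul_of_nonneg_right he2 hB).trans (b5.trans (le_of_eq ?_)))⟩⟩
    congr 2
    ext y
    simp

theorem core_bound : ∃ C : ℝ≥0∞, C ≠ ∞ ∧ ∀ {f : E → ℝ} {γ : E → ℝ≥0∞} {Ω : Set E} (h : E),
    UG f γ → Continuous f → Measurable γ → MeasurableSet Ω →
    ∫⁻ l, μ (Xb μ f Ω h l) ≤ C * ENNReal.ofReal ‖h‖ * ∫⁻ y in Ω, γ y ∂μ := by
  classical
  obtain ⟨ε, hε, hε1, hlow⟩ := low_sum μ
  set e : ℝ := min ε ((1 / 2) ^ (finrank ℝ E + 1)) / 2 with he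
  have he0 : 0 < e := by positivity
  have he1 : 2 * e ≤ ε := by linarith [min_le_left ε ((1 / 2) ^ (finrank ℝ E + 1))]
  have he2 : 2 * e ≤ (1 / 2) ^ (finrank ℝ E + 1) := by
    linarith [min_le_right ε ((1 / 2) ^ (finrank ℝ E + 1))]
  obtain ⟨δ, hδ, hδ1, hcmp⟩ := cb_compare μ he0
  obtain ⟨J, hJ, hJ1, hJ2, hJ3⟩ := grid_exists μ hδ
  obtain ⟨C1, hC1, hL⟩ := hlow δ e J hδ hδ1 he0 (by linarith) hJ hJ1 hJ2 hJ3 hcmp
  obtain ⟨C2, hC2, hM⟩ := medium_sum μ (ENNReal.ofReal_pos.2 he0).ne' ENNReal.ofReal_ne_top hδ hδ1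
    4 hJ hJ1 hJ3
  obtain ⟨C3, hC3, hS⟩ := cell_shift μ
  refine ⟨C3 * (C2 + C1), by finiteness, ?_⟩
  intro f γ Ω h hug hf hγ hΩ
  have := hJ.to_subtype
  set Λ : ℤ → J → Set ℝ := fun k j =>
    (if cb k j.1 (-(2 * δ)) ⊆ Ω then LamM μ (Ul μ f) f δ 4 (ENNReal.ofReal e) k j.1 else ∅) ∪
    (if ball ((2 : ℝ) ^ k • j.1.1) (6 * 2 ^ k) ⊆ Ω then LamL μ f δ ε k j.1 else ∅) with hΛ
  have h1 : ∀ l, μ (Xb μ f Ω h l) ≤ ∑' k : ℤ, ∑' j : J, (toMeasurable volume (Λ k j)).indicator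
      (fun _ => C3 * ENNReal.ofReal ‖h‖ * wt E k) l := by
    intro l
    have hsub : Xb μ f Ω h l ⊆ ⋃ k : ℤ, ⋃ j : J,
        if l ∈ Λ k j then Sh (Ul μ f l) δ k j.1 h else ∅ := by
      intro x hx
      obtain ⟨k, j, a1, a2⟩ := Xb_cover μ hδ hδ1 he0 hε hε1 he1 he2 hJ1 hJ2 hcmp hf hx
      refine mem_iUnion₂.2 ⟨k, j, ?_⟩
      rw [if_pos]
      · exact a1
      · rcases a2 with ⟨a, b⟩ | ⟨a, b⟩
        · exact Or.inl (by rwa [if_pos a])
        · exact Or.inr (by rwa [if_pos a])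
    refine (measure_mono hsub).trans ((measure_iUnion_le _).trans (ENNReal.tsum_le_tsum fun k =>
      (measure_iUnion_le _).trans (ENNReal.tsum_le_tsum fun j => ?_)))
    split_ifs with hl
    · rw [indicator_of_mem (subset_toMeasurable _ _ hl)]
      exact hS _ _ _ _ _ hδ1 (hJ1 _ j.2).1 (hJ1 _ j.2).2
    · simp
  have m1 : ∀ (k : ℤ) (j : J), Measurable ((toMeasurable volume (Λ k j)).indicator
      (fun _ => C3 * ENNReal.ofReal ‖h‖ * wt E k)) := fun k j =>
    measurable_const.indicator (measurableSet_toMeasurable _ _)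
  refine (lintegral_mono h1).trans ?_
  rw [lintegral_tsum fun k => (Measurable.tsum (m1 k)).aemeasurable]
  simp only [lintegral_tsum fun j => (m1 _ j).aemeasurable,
    lintegral_indicator (measurableSet_toMeasurable _ _), setLIntegral_const, measure_toMeasurable]
  calc _ ≤ ∑' k : ℤ, ∑' j : J, C3 * ENNReal.ofReal ‖h‖ * (wt E k *
        (if cb k j.1 (-(2 * δ)) ⊆ Ω then
          volume (LamM μ (Ul μ f) f δ 4 (ENNReal.ofReal e) k j.1) else 0) + wt E k *
        (if ball ((2 : ℝ) ^ k • j.1.1) (6 * 2 ^ k) ⊆ Ω then volume (LamL μ f δ ε k j.1) else 0)) := by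
        refine ENNReal.tsum_le_tsum fun k => ENNReal.tsum_le_tsum fun j => ?_
        rw [mul_assoc _ (wt E k), ← mul_add]
        refine mul_le_mul_right (mul_le_mul_right ((measure_union_le _ _).trans
          (add_le_add ?_ ?_)) _) _ <;> split_ifs <;> simp
    _ ≤ C3 * ENNReal.ofReal ‖h‖ * (C2 * ∫⁻ y in Ω, γ y ∂μ + C1 * ∫⁻ y in Ω, γ y ∂μ) := by
        simp only [ENNReal.tsum_mul_left (a := C3 * ENNReal.ofReal ‖h‖), ENNReal.tsum_add]
        exact mul_le_mul_right (add_le_add (hM (Ul_anti μ f) hug hf hγ hΩ) (hL hug hf hγ hΩ)) _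
    _ = _ := by ring

end Pool.Agent.MP_a25fb7_an

end

-- part MP_a25fb7_an.Max
section

/-!
The uncentered maximal function and the translation estimate for continuous functions.
-/

set_option autoImplicit false
set_option linter.unusedSectionVars false
open MeasureTheory Metric Set Module
open scoped ENNReal

namespace Pool.Agent.MP_a25fb7_an

variable {E : Type*} [NormedAddCommGroup E] [InnerProductSpace ℝ E] [FiniteDimensional ℝ E]
  [MeasurableSpace E] [BorelSpace E] (μ : Measure E) [μ.IsAddHaarMeasure]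

/-- the uncentered maximal function with exponent `s` -/
noncomputable def Mb (s : ℝ) (Φ : E → ℝ≥0∞) (x : E) : ℝ≥0∞ :=
  ⨆ z : E, ⨆ r : ℝ, ⨆ (_ : x ∈ ball z r), (μ (ball z r) ^ s)⁻¹ * ∫⁻ y in ball z r, Φ y ∂μ

lemma le_Mb (s : ℝ) (Φ : E → ℝ≥0∞) {x z : E} {r : ℝ} (h : x ∈ ball z r) :
    (μ (ball z r) ^ s)⁻¹ * ∫⁻ y in ball z r, Φ y ∂μ ≤ Mb μ s Φ x :=
  le_iSup_of_le z (le_iSup₂_of_le (f := fun (r : ℝ) (_ : x ∈ ball z r) =>
    (μ (ball z r) ^ s)⁻¹ * ∫⁻ y in ball z r, Φ y ∂μ) r h le_rfl)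

lemma lt_Mb_iff {s : ℝ} {Φ : E → ℝ≥0∞} {x : E} {t : ℝ≥0∞} : t < Mb μ s Φ x ↔
    ∃ z r, x ∈ ball z r ∧ t < (μ (ball z r) ^ s)⁻¹ * ∫⁻ y in ball z r, Φ y ∂μ := by
  simp only [Mb, lt_iSup_iff, exists_prop]

lemma measurable_Mb (s : ℝ) (Φ : E → ℝ≥0∞) : Measurable (Mb μ s Φ) := by
  refine measurable_of_Ioi fun t => IsOpen.measurableSet ?_
  rw [isOpen_iff_forall_mem_open]
  intro x hx
  obtain ⟨z, r, h1, h2⟩ := (lt_Mb_iff μ).1 hx
  exact ⟨ball z r, fun y hy => (lt_Mb_iff μ).2 ⟨z, r, hy, h2⟩, isOpen_ball, h1⟩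

lemma Mb_le_add (s : ℝ) {Φ Ψ D : E → ℝ≥0∞} (hD : Measurable D) (h : ∀ y, Φ y ≤ Ψ y + D y) (x : E) :
    Mb μ s Φ x ≤ Mb μ s Ψ x + Mb μ s D x := by
  refine iSup_le fun z => iSup₂_le fun r hx => ?_
  refine le_trans ?_ (add_le_add (le_Mb μ s Ψ hx) (le_Mb μ s D hx))
  rw [← mul_add, ← lintegral_add_right _ hD]
  exact mul_le_mul_right (lintegral_mono h) _

lemma lt_avg_iff {z : E} {r : ℝ} (hr : 0 < r) {t I : ℝ≥0∞} :
    t < (μ (ball z r) ^ (1 : ℝ))⁻¹ * I ↔ t * μ (ball z r) < I := by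
  rw [ENNReal.rpow_one, ← ENNReal.div_eq_inv_mul,
    ENNReal.lt_div_iff_mul_lt (Or.inl (ball_pos μ z hr).ne') (Or.inl (ball_ne_top μ z r))]

lemma avg_le_iff {z : E} {r : ℝ} (hr : 0 < r) {t I : ℝ≥0∞} :
    (μ (ball z r) ^ (1 : ℝ))⁻¹ * I ≤ t ↔ I ≤ t * μ (ball z r) := by
  rw [← not_lt, lt_avg_iff μ hr, not_lt]

lemma weak_Mb (w : E → ℝ≥0∞) (t : ℝ≥0∞) :
    t * μ {x | t < Mb μ 1 w x} ≤ ENNReal.ofReal (4 ^ finrank ℝ E) * ∫⁻ y, w y ∂μ := by
  refine le_trans (mul_le_mul_right (measure_mono fun x hx => ?_) _) (weak_type μ w t)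
  obtain ⟨z, r, h1, h2⟩ := (lt_Mb_iff μ).1 hx
  exact ⟨z, r, h1, (lt_avg_iff μ (pos_of_mem_ball h1)).1 h2⟩

lemma lint_eq_ofReal {f : E → ℝ} (hf : Continuous f) (h0 : ∀ x, 0 ≤ f x) (z : E) (r : ℝ) :
    ∫⁻ y in ball z r, ENNReal.ofReal (f y) ∂μ = ENNReal.ofReal (∫ y in ball z r, f y ∂μ) :=
  (ofReal_integral_eq_lintegral_ofReal (integrableOn_ball μ hf z r)
    (Filter.Eventually.of_forall h0)).symm

lemma avg_real_iff {f : E → ℝ} (hf : Continuous f) (h0 : ∀ x, 0 ≤ f x) {z : E} {r l : ℝ}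
    (hr : 0 < r) (hl : 0 ≤ l) :
    ENNReal.ofReal l < (μ (ball z r) ^ (1 : ℝ))⁻¹ * ∫⁻ y in ball z r, ENNReal.ofReal (f y) ∂μ ↔
      l * μ.real (ball z r) < ∫ y in ball z r, f y ∂μ := by
  rw [lt_avg_iff μ hr, lint_eq_ofReal μ hf h0, ← ofReal_measureReal (ball_ne_top μ z r),
    ← ENNReal.ofReal_mul hl,
    ENNReal.ofReal_lt_ofReal_iff_of_nonneg (mul_nonneg hl measureReal_nonneg)]

lemma self_le_Mb {f : E → ℝ} (hf : Continuous f) (x : E) :
    ENNReal.ofReal (f x) ≤ Mb μ 1 (fun y => ENNReal.ofReal (f y)) x := by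
  refine le_of_forall_lt_imp_le_of_dense fun t ht => ?_
  have ho : IsOpen {y | t < ENNReal.ofReal (f y)} :=
    isOpen_lt continuous_const (ENNReal.continuous_ofReal.comp hf)
  obtain ⟨r, hr, hsub⟩ := Metric.isOpen_iff.1 ho x ht
  refine le_trans ?_ (le_Mb μ 1 _ (mem_ball_self hr))
  rw [ENNReal.rpow_one, ← ENNReal.div_eq_inv_mul, ENNReal.le_div_iff_mul_le
    (Or.inl (ball_pos μ x hr).ne') (Or.inl (ball_ne_top μ x r)), ← setLIntegral_const]
  exact setLIntegral_mono' measurableSet_ball fun y hy => le_of_lt (hsub hy)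

lemma layer (a b c : ℝ≥0∞) : a - (b + c) ≤
    volume {l : ℝ | 0 ≤ l ∧ b ≤ ENNReal.ofReal l ∧ ENNReal.ofReal l + c < a} := by
  rcases eq_or_ne b ∞ with rfl | hb
  · simp
  rcases eq_or_ne c ∞ with rfl | hc
  · simp
  lift b to NNReal using hb
  lift c to NNReal using hc
  rcases eq_or_ne a ∞ with rfl | ha
  · refine le_trans (le_top.trans (Real.volume_Ici (a := b)).ge) (measure_mono fun l hl => ?_)
    refine ⟨b.2.trans hl, ?_, by finiteness⟩
    rw [← ENNReal.ofReal_coe_nnreal]; exact ENNReal.ofReal_le_ofReal hl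
  lift a to NNReal using ha
  refine le_trans ?_ (measure_mono (s := Ico (b : ℝ) (a - c)) fun l hl => ?_)
  · rw [Real.volume_Ico, ← ENNReal.coe_add, ← ENNReal.ofReal_coe_nnreal,
      ← ENNReal.ofReal_coe_nnreal, ← ENNReal.ofReal_sub _ (NNReal.coe_nonneg _)]
    refine ENNReal.ofReal_le_ofReal (le_of_eq ?_)
    push_cast; ring
  · have hl0 : 0 ≤ l := b.2.trans hl.1
    refine ⟨hl0, ?_, ?_⟩
    · rw [← ENNReal.ofReal_coe_nnreal]; exact ENNReal.ofReal_le_ofReal hl.1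
    · rw [← ENNReal.ofReal_coe_nnreal, ← ENNReal.ofReal_coe_nnreal,
        ← ENNReal.ofReal_add hl0 c.coe_nonneg,
        ENNReal.ofReal_lt_ofReal_iff_of_nonneg (add_nonneg hl0 c.coe_nonneg)]
      linarith [hl.2]

lemma ofReal_le_abs (a b : ℝ) : ENNReal.ofReal a ≤ ENNReal.ofReal b + ENNReal.ofReal |a - b| :=
  (ofReal_le_add a b).trans (add_le_add le_rfl (ENNReal.ofReal_le_ofReal (le_abs_self _)))

lemma avg_shift {f : E → ℝ} {γ : E → ℝ≥0∞} (hug : UG f γ) (hf : Measurable f) (hγ : Measurable γ)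
    {x h z : E} {r : ℝ} {K : ℝ≥0∞} (hx : x + h ∈ ball z r) (hr : ‖h‖ ≤ r)
    (hK : ∫⁻ y in ball z (2 * r), γ y ∂μ ≤ K * μ (ball z r)) :
    (μ (ball z r) ^ (1 : ℝ))⁻¹ * ∫⁻ y in ball z r, ENNReal.ofReal (f y) ∂μ ≤
      Mb μ 1 (fun y => ENNReal.ofReal (f y)) x + ENNReal.ofReal ‖h‖ * K := by
  have hr0 := pos_of_mem_ball hx
  have hx' : x ∈ ball (z - h) r := by
    rw [mem_ball, dist_eq_norm] at hx ⊢
    rwa [show x - (z - h) = x + h - z by abel]
  have h1 := (avg_le_iff μ hr0).1 (le_Mb μ 1 (fun y => ENNReal.ofReal (f y)) hx')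
  rw [Measure.addHaar_ball_center, ← Measure.addHaar_ball_center μ z] at h1
  have h2 := hug.transBd μ hγ (measurableSet_ball (x := z) (ε := 2 * r)) h (ball (z - h) r)
    measurableSet_ball fun q hq t ht => by
      rw [mem_ball, dist_eq_norm] at hq ⊢
      have e : q + t • h - z = (q - (z - h)) - (1 - t) • h := by module
      have e2 : ‖(1 - t) • h‖ ≤ r := by
        rw [norm_smul, Real.norm_of_nonneg (by linarith [ht.2])]
        nlinarith [ht.1, norm_nonneg h]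
      rw [e]; linarith [norm_sub_le (q - (z - h)) ((1 - t) • h)]
  have h3 : ∫⁻ y in ball z r, ENNReal.ofReal (f y) ∂μ =
      ∫⁻ y in ball (z - h) r, ENNReal.ofReal (f (y + h)) ∂μ := by
    rw [← lintegral_indicator measurableSet_ball, ← lintegral_indicator measurableSet_ball,
      ← lintegral_add_right_eq_self _ h]
    refine lintegral_congr fun y => ?_
    have e : y + h ∈ ball z r ↔ y ∈ ball (z - h) r := by
      rw [mem_ball, mem_ball, dist_eq_norm, dist_eq_norm, show y - (z - h) = y + h - z by abel]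
    by_cases hy : y ∈ ball (z - h) r
    · rw [indicator_of_mem hy, indicator_of_mem (e.2 hy)]
    · rw [indicator_of_notMem hy, indicator_of_notMem (fun h => hy (e.1 h))]
  rw [avg_le_iff μ hr0, h3, add_mul, mul_assoc]
  refine (lintegral_mono fun y => ofReal_le_abs (f (y + h)) (f y)).trans ?_
  rw [lintegral_add_left hf.ennreal_ofReal]
  exact add_le_add h1 (h2.trans (mul_le_mul_right hK _))

/-- the translation estimate for the maximal function of a continuous function -/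
theorem shift_cont : ∃ c C : ℝ≥0∞, c ≠ ∞ ∧ C ≠ ∞ ∧ ∀ {f : E → ℝ} {γ w S : E → ℝ≥0∞} {L : ℝ≥0∞}
    (h : E), UG f γ → Continuous f → (∀ x, 0 ≤ f x) → Measurable γ → Measurable w →
    Measurable S → (∀ y, γ y ≤ L + w y) →
    (∀ x y, dist y x ≤ 5 * ‖h‖ → ENNReal.ofReal (f y) ≤ ENNReal.ofReal (f x) + S x) →
    ∫⁻ x, (Mb μ 1 (fun y => ENNReal.ofReal (f y)) (x + h) -
      (Mb μ 1 (fun y => ENNReal.ofReal (f y)) x + S x + ENNReal.ofReal ‖h‖ * (c * L))) ∂μ ≤
      C * ENNReal.ofReal ‖h‖ * ∫⁻ y, w y ∂μ := by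
  obtain ⟨C, hC, hcore⟩ := core_bound μ
  set d := finrank ℝ E with hd
  refine ⟨ENNReal.ofReal (2 ^ d) + 1,
    C * (ENNReal.ofReal (7 ^ d) * ENNReal.ofReal (4 ^ d) + 1), by finiteness, by finiteness, ?_⟩
  intro f γ w S L h hug hf h0 hγ hw hS hL hsup
  set M := Mb μ 1 (fun y => ENNReal.ofReal (f y)) with hM
  have mM : Measurable M := measurable_Mb μ 1 _
  set t : ℝ≥0∞ := L / ENNReal.ofReal (7 ^ d) with ht
  have h7 : ENNReal.ofReal (7 ^ d) * t = L :=
    ENNReal.mul_div_cancel (ENNReal.ofReal_pos.2 (by positivity)).ne' ENNReal.ofReal_ne_top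
  set Ω : Set E := {x | t < Mb μ 1 w x} with hΩ
  have mΩ : MeasurableSet Ω := measurableSet_lt measurable_const (measurable_Mb μ 1 w)
  set c := ENNReal.ofReal ‖h‖ * ((ENNReal.ofReal (2 ^ d) + 1) * L) with hc
  set Y : Set (E × ℝ) := {p | 0 ≤ p.2 ∧ M p.1 + S p.1 ≤ ENNReal.ofReal p.2 ∧
    ENNReal.ofReal p.2 + c < M (p.1 + h)} with hY
  have mY : MeasurableSet Y := by
    refine (measurableSet_le measurable_const measurable_snd).inter
      ((measurableSet_le ((mM.add hS).comp measurable_fst) measurable_snd.ennreal_ofReal).inter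
      (measurableSet_lt (measurable_snd.ennreal_ofReal.add_const c)
        (mM.comp (measurable_fst.add_const h))))
  have h1 : ∀ l, (fun x => (x, l)) ⁻¹' Y ⊆ Xb μ f Ω h l := by
    rintro l x ⟨hl, a1, a2⟩
    simp only at hl a1 a2
    obtain ⟨z, r, hx, a3⟩ := (lt_Mb_iff μ).1 a2
    have hr := pos_of_mem_ball hx
    refine ⟨?_, fun y hy => ?_, z, r, hx, (avg_real_iff μ hf h0 hr hl).1
      (lt_of_le_of_lt le_self_add a3), fun hhr => ?_⟩
    · rintro ⟨z', r', hx', a4⟩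
      have := ((avg_real_iff μ hf h0 (pos_of_mem_ball hx') hl).2 a4).trans_le (le_Mb μ 1 _ hx')
      exact absurd (le_self_add.trans a1) (not_le.2 this)
    · rw [← ENNReal.ofReal_le_ofReal_iff hl]
      exact (hsup x y hy).trans ((add_le_add (self_le_Mb μ hf x) le_rfl).trans a1)
    · intro p hp
      by_contra hcon
      have b1 : ∫⁻ y in ball z (7 * r), w y ∂μ ≤ L * μ (ball z r) := by
        have := (avg_le_iff μ (by linarith)).1 ((le_Mb μ 1 w hp).trans (not_lt.1 hcon))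
        refine this.trans ((mul_le_mul_right (ball_le_mul μ z z (by norm_num) le_rfl) t).trans
          (le_of_eq ?_))
        rw [← mul_assoc, mul_comm t, h7]
      have b2 : ∫⁻ y in ball z (2 * r), γ y ∂μ ≤ (ENNReal.ofReal (2 ^ d) + 1) * L * μ (ball z r) := by
        refine (lintegral_mono hL).trans ?_
        rw [lintegral_add_right _ hw, setLIntegral_const, add_mul, add_mul, one_mul]
        refine add_le_add ?_ ((lintegral_mono_set (ball_subset_ball (by linarith))).trans b1)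
        refine (mul_le_mul_right (ball_le_mul μ z z (by norm_num) le_rfl) L).trans (le_of_eq ?_)
        ring
      have b3 := avg_shift μ hug hf.measurable hγ hx hhr b2
      exact absurd (a3.trans_le (b3.trans (add_le_add (le_self_add.trans a1) le_rfl))) (lt_irrefl _)
  calc _ ≤ ∫⁻ x, volume (Prod.mk x ⁻¹' Y) ∂μ := lintegral_mono fun x => layer _ _ _
    _ = ∫⁻ l, μ ((fun x => (x, l)) ⁻¹' Y) := by
        rw [← Measure.prod_apply mY, Measure.prod_apply_symm mY]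
    _ ≤ ∫⁻ l, μ (Xb μ f Ω h l) := lintegral_mono fun l => measure_mono (h1 l)
    _ ≤ C * ENNReal.ofReal ‖h‖ * ∫⁻ y in Ω, γ y ∂μ := hcore h hug hf hγ mΩ
    _ ≤ C * ENNReal.ofReal ‖h‖ *
        ((ENNReal.ofReal (7 ^ d) * ENNReal.ofReal (4 ^ d) + 1) * ∫⁻ y, w y ∂μ) := by
        refine mul_le_mul_right ((lintegral_mono hL).trans ?_) _
        rw [lintegral_add_right _ hw, setLIntegral_const, add_mul, one_mul, ← h7, mul_assoc,
          mul_assoc]
        exact add_le_add (mul_le_mul_right (weak_Mb μ w t) _) (setLIntegral_le_lintegral _ _)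
    _ = _ := by ring

end Pool.Agent.MP_a25fb7_an

end

-- part MP_a25fb7_an.Zero
section

/-!
Averages over small balls, and the translation estimate for the maximal function of a function
with an integrable upper gradient.
-/

set_option autoImplicit false
set_option linter.unusedSectionVars false
open MeasureTheory Metric Set Module Filter Topology
open scoped ENNReal

namespace Pool.Agent.MP_a25fb7_an

variable {E : Type*} [NormedAddCommGroup E] [InnerProductSpace ℝ E] [FiniteDimensional ℝ E]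
  [MeasurableSpace E] [BorelSpace E] (μ : Measure E) [μ.IsAddHaarMeasure]

lemma lint_le_add {α : Type*} [MeasurableSpace α] {ν : Measure α} {f g k : α → ℝ≥0∞}
    (hg : Measurable g) (h : ∀ᵐ x ∂ν, f x ≤ g x + k x) :
    ∫⁻ x, f x ∂ν ≤ ∫⁻ x, g x ∂ν + ∫⁻ x, k x ∂ν := by
  rw [← lintegral_add_left hg]; exact lintegral_mono_ae h

lemma lint_le_add' {α : Type*} [MeasurableSpace α] {ν : Measure α} {f g k : α → ℝ≥0∞}
    (hk : Measurable k) (h : ∀ x, f x ≤ g x + k x) :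
    ∫⁻ x, f x ∂ν ≤ ∫⁻ x, g x ∂ν + ∫⁻ x, k x ∂ν := by
  rw [← lintegral_add_right _ hk]; exact lintegral_mono h

/-- `γ` is an upper gradient of `F` along almost every translate of each segment -/
def AUG (F : E → ℝ) (γ : E → ℝ≥0∞) : Prop :=
  ∀ (u : E) (a b : ℝ), a ≤ b → ∀ᵐ x ∂μ, ENNReal.ofReal |F (x + b • u) - F (x + a • u)| ≤
    ENNReal.ofReal ‖u‖ * ∫⁻ t in Ioo a b, γ (x + t • u)

lemma AUG.transBd {F : E → ℝ} {γ : E → ℝ≥0∞} (h : AUG μ F γ) (hγ : Measurable γ) :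
    TransBd μ F univ (∫⁻ y, γ y ∂μ) := by
  intro w A hA _
  calc ∫⁻ q in A, ENNReal.ofReal |F (q + w) - F q| ∂μ
      ≤ ∫⁻ q in A, ENNReal.ofReal ‖w‖ * (∫⁻ t in Ioo (0 : ℝ) 1, γ (q + t • w)) ∂μ := by
        refine lintegral_mono_ae (ae_restrict_of_ae ?_)
        filter_upwards [h w 0 1 zero_le_one] with q hq
        simpa using hq
    _ ≤ _ := by
        rw [lintegral_const_mul' _ _ ENNReal.ofReal_ne_top]
        refine mul_le_mul_right ?_ _
        simpa using seg_lintegral μ hγ MeasurableSet.univ hA w fun _ _ _ _ => mem_univ _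

/-- average over the ball of radius `δ` -/
noncomputable def avE (δ : ℝ) (Φ : E → ℝ≥0∞) (x : E) : ℝ≥0∞ :=
  (μ (ball 0 δ))⁻¹ * ∫⁻ y in ball (0 : E) δ, Φ (x + y) ∂μ

lemma measurable_avE (δ : ℝ) {Φ : E → ℝ≥0∞} (hΦ : Measurable Φ) : Measurable (avE μ δ Φ) :=
  ((hΦ.comp measurable_add).lintegral_prod_right' (ν := μ.restrict (ball 0 δ))).const_mul _

lemma av_const {δ : ℝ} (hδ : 0 < δ) (L : ℝ≥0∞) :
    (μ (ball 0 δ))⁻¹ * ∫⁻ _ in ball (0 : E) δ, L ∂μ = L := by
  rw [setLIntegral_const, mul_comm, mul_assoc,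
    ENNReal.mul_inv_cancel (ball_pos μ 0 hδ).ne' (ball_ne_top μ 0 δ), mul_one]

lemma inv_ball_ne_top {δ : ℝ} (hδ : 0 < δ) : (μ (ball (0 : E) δ))⁻¹ ≠ ∞ :=
  ENNReal.inv_ne_top.2 (ball_pos μ 0 hδ).ne'

lemma lintegral_avE {δ : ℝ} (hδ : 0 < δ) {Φ : E → ℝ≥0∞} (hΦ : Measurable Φ) :
    ∫⁻ x, avE μ δ Φ x ∂μ = ∫⁻ x, Φ x ∂μ := by
  unfold avE
  rw [lintegral_const_mul' _ _ (inv_ball_ne_top μ hδ),
    lintegral_lintegral_swap (f := fun x y => Φ (x + y)) (hΦ.comp measurable_add).aemeasurable]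
  simp only [lintegral_add_right_eq_self]
  exact av_const μ hδ _

lemma avE_le (δ : ℝ) (Φ : E → ℝ≥0∞) (x : E) : avE μ δ Φ x ≤ (μ (ball 0 δ))⁻¹ * ∫⁻ y, Φ y ∂μ := by
  refine mul_le_mul_right ((setLIntegral_le_lintegral _ _).trans (le_of_eq ?_)) _
  exact lintegral_add_left_eq_self Φ x

lemma avE_near {δ : ℝ} (w : E → ℝ≥0∞) {x p : E} (h : dist p x ≤ δ) :
    avE μ δ w p ≤ ENNReal.ofReal (2 ^ finrank ℝ E) * avE μ (2 * δ) w x := by
  unfold avE
  rw [← mul_assoc]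
  refine mul_le_mul' (le_of_eq ?_) ?_
  · rw [Measure.addHaar_ball_mul_of_pos μ 0 two_pos, ENNReal.mul_inv
      (Or.inl (ENNReal.ofReal_pos.2 (by positivity)).ne') (Or.inl ENNReal.ofReal_ne_top),
      ← mul_assoc, ENNReal.mul_inv_cancel (ENNReal.ofReal_pos.2 (by positivity)).ne'
        ENNReal.ofReal_ne_top, one_mul]
  · rw [← lintegral_indicator measurableSet_ball, ← lintegral_indicator measurableSet_ball,
      ← lintegral_add_left_eq_self (indicator (ball 0 (2 * δ)) _) (p - x)]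
    refine lintegral_mono fun y => ?_
    by_cases hy : y ∈ ball (0 : E) δ
    · have : p - x + y ∈ ball (0 : E) (2 * δ) := by
        rw [mem_ball_zero_iff] at hy ⊢
        rw [dist_eq_norm] at h
        linarith [norm_add_le (p - x) y]
      rw [indicator_of_mem hy, indicator_of_mem this, ← add_assoc, add_sub_cancel]
    · rw [indicator_of_notMem hy]; exact zero_le

lemma ofReal_abs_le {a b c : ℝ≥0∞} (ha : a ≠ ∞) (hb : b ≠ ∞) (h1 : a ≤ b + c) (h2 : b ≤ a + c) :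
    ENNReal.ofReal |a.toReal - b.toReal| ≤ c := by
  rcases eq_or_ne c ∞ with rfl | hc
  · exact le_top
  have h3 := ENNReal.toReal_mono (ENNReal.add_ne_top.2 ⟨hb, hc⟩) h1
  have h4 := ENNReal.toReal_mono (ENNReal.add_ne_top.2 ⟨ha, hc⟩) h2
  rw [ENNReal.toReal_add hb hc] at h3
  rw [ENNReal.toReal_add ha hc] at h4
  rw [← ENNReal.ofReal_toReal hc]
  exact ENNReal.ofReal_le_ofReal (abs_le.2 ⟨by linarith, by linarith⟩)

lemma AUG.ug {F : E → ℝ} {γ : E → ℝ≥0∞} (h : AUG μ F γ) (hF : Measurable F) (hγ : Measurable γ)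
    (hfin : ∫⁻ y, ENNReal.ofReal (F y) ∂μ ≠ ∞) {δ : ℝ} (hδ : 0 < δ) :
    UG (fun x => (avE μ δ (fun y => ENNReal.ofReal (F y)) x).toReal) (avE μ δ γ) := by
  intro q u a b hab
  have hne : ∀ x, avE μ δ (fun y => ENNReal.ofReal (F y)) x ≠ ∞ := fun x =>
    ne_top_of_le_ne_top (ENNReal.mul_ne_top (inv_ball_ne_top μ hδ) hfin) (avE_le μ δ _ x)
  have h1 := (measurePreserving_add_left μ q).quasiMeasurePreserving.ae (h u a b hab)
  have mG : Measurable (Function.uncurry fun (y : E) (t : ℝ) => γ (q + y + t • u)) :=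
    hγ.comp ((measurable_const.add measurable_fst).add (measurable_snd.smul_const u))
  have key : ∀ s t : ℝ, (∀ y, |F (q + y + s • u) - F (q + y + t • u)| =
      |F (q + y + b • u) - F (q + y + a • u)|) →
      avE μ δ (fun y => ENNReal.ofReal (F y)) (q + s • u) ≤
      avE μ δ (fun y => ENNReal.ofReal (F y)) (q + t • u) +
        ENNReal.ofReal ‖u‖ * ∫⁻ t in Ioo a b, avE μ δ γ (q + t • u) := by
    intro s t hst
    unfold avE
    simp only [add_right_comm q _ _]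
    rw [lintegral_const_mul' _ _ (inv_ball_ne_top μ hδ), mul_left_comm, ← mul_add,
      ← lintegral_lintegral_swap mG.aemeasurable,
      ← lintegral_const_mul' _ _ ENNReal.ofReal_ne_top]
    refine mul_le_mul_right (lint_le_add
      ((hF.comp ((measurable_const.add measurable_id).add_const _)).ennreal_ofReal)
      (ae_restrict_of_ae ?_)) _
    filter_upwards [h1] with y hy
    rw [← hst] at hy
    exact (ofReal_le_abs _ _).trans (add_le_add le_rfl hy)
  exact ofReal_abs_le (hne _) (hne _) (key b a fun _ => rfl) (key a b fun _ => abs_sub_comm _ _)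

lemma UG.seg {f : E → ℝ} {γ : E → ℝ≥0∞} (h : UG f γ) {x y : E} {K : ℝ≥0∞}
    (hK : ∀ p, dist p x ≤ dist y x → γ p ≤ K) :
    ENNReal.ofReal |f y - f x| ≤ ENNReal.ofReal (dist y x) * K := by
  have h1 := h x (y - x) 0 1 zero_le_one
  simp only [one_smul, zero_smul, add_zero, add_sub_cancel] at h1
  rw [dist_eq_norm]
  refine h1.trans (mul_le_mul_right ((setLIntegral_mono' (g := fun _ => K) measurableSet_Ioo
    fun t ht => hK _ ?_).trans (by simp)) _)
  rw [dist_eq_norm, dist_eq_norm, add_sub_cancel_left, norm_smul, Real.norm_of_nonneg ht.1.le]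
  exact mul_le_of_le_one_left (norm_nonneg _) ht.2.le

lemma UG.continuous {f : E → ℝ} {γ : E → ℝ≥0∞} (h : UG f γ) {K : ℝ≥0∞} (hK : K ≠ ∞)
    (hγ : ∀ p, γ p ≤ K) : Continuous f := by
  refine (LipschitzWith.of_dist_le_mul (K := K.toNNReal) fun y x => ?_).continuous
  have := ENNReal.toReal_mono (ENNReal.mul_ne_top ENNReal.ofReal_ne_top hK)
    (h.seg (x := x) (y := y) fun p _ => hγ p)
  rwa [ENNReal.toReal_mul, ENNReal.toReal_ofReal (abs_nonneg _), ENNReal.toReal_ofReal dist_nonneg,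
    mul_comm] at this

lemma tsub_chain (A B D c e : ℝ≥0∞) : A - (B + (e + c)) ≤ (A - (D + e)) + (D - (B + c)) := by
  rw [tsub_le_iff_right]
  calc A ≤ (A - (D + e)) + (D + e) := le_tsub_add
    _ ≤ (A - (D + e)) + ((D - (B + c)) + (B + c) + e) := by gcongr; exact le_tsub_add
    _ = _ := by ring

lemma subadd {G : E → ℝ≥0∞} (hG : Measurable G) {δ : ℝ} (hδ : 0 < δ) {a b : ℝ≥0∞}
    (h : ∀ h : E, ‖h‖ ≤ δ →
      ∫⁻ x, (G (x + h) - (G x + ENNReal.ofReal ‖h‖ * a)) ∂μ ≤ ENNReal.ofReal ‖h‖ * b) (h' : E) :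
    ∫⁻ x, (G (x + h') - (G x + ENNReal.ofReal ‖h'‖ * a)) ∂μ ≤ ENNReal.ofReal ‖h'‖ * b := by
  have key : ∀ u : E, ‖u‖ ≤ δ → ∀ n : ℕ,
      ∫⁻ x, (G (x + (n : ℝ) • u) - (G x + n * (ENNReal.ofReal ‖u‖ * a))) ∂μ ≤
        n * (ENNReal.ofReal ‖u‖ * b) := by
    intro u hu n
    induction n with
    | zero => simp
    | succ n ih =>
      rw [← lintegral_add_right_eq_self _ u] at ih
      simp only [Nat.cast_succ, add_mul, one_mul]
      refine le_trans ?_ (add_le_add ih (h u hu))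
      refine lint_le_add' ((hG.comp (measurable_id.add_const u)).sub (hG.add_const _)) fun x => ?_
      have : x + ((n : ℝ) + 1) • u = x + u + (n : ℝ) • u := by module
      rw [this]
      exact tsub_chain _ _ _ _ _
  obtain ⟨n, hn⟩ := exists_nat_gt (‖h'‖ / δ)
  have hn0 : (0 : ℝ) < n := lt_of_le_of_lt (by positivity) hn
  have e1 : ‖(n : ℝ)⁻¹ • h'‖ = (n : ℝ)⁻¹ * ‖h'‖ := by
    rw [norm_smul, Real.norm_of_nonneg (by positivity)]
  have := key ((n : ℝ)⁻¹ • h') (by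
    rw [e1, ← div_eq_inv_mul, div_le_iff₀ hn0]
    rw [div_lt_iff₀ hδ] at hn; linarith) n
  have e2 : (n : ℝ≥0∞) * ENNReal.ofReal ‖(n : ℝ)⁻¹ • h'‖ = ENNReal.ofReal ‖h'‖ := by
    rw [e1, ← ENNReal.ofReal_natCast, ← ENNReal.ofReal_mul hn0.le, ← mul_assoc,
      mul_inv_cancel₀ hn0.ne', one_mul]
  simpa only [← mul_assoc, e2, smul_smul, mul_inv_cancel₀ hn0.ne', one_smul] using this

lemma lint_le_of_approx {Φ : E → ℝ≥0∞} {K : ℝ≥0∞} (h : ∀ t : ℝ≥0∞, t ≠ 0 → t ≠ ∞ →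
    ∃ (Ψ : E → ℝ≥0∞) (S : Set E), Measurable Ψ ∧ μ S ≤ t ∧ ∫⁻ x, Ψ x ∂μ ≤ K ∧
      ∀ x, x ∉ S → Φ x ≤ Ψ x + t) : ∫⁻ x, Φ x ∂μ ≤ K := by
  choose Ψ S h1 h2 h3 h4 using fun n : ℕ => h (2⁻¹ ^ n) (by simp) (by simp)
  have h5 : ∑' n, μ (S n) ≠ ∞ := by
    refine ne_top_of_le_ne_top ?_ (ENNReal.tsum_le_tsum h2)
    simp [ENNReal.tsum_geometric]
  refine le_trans (lintegral_mono_ae ?_) ((lintegral_liminf_le (u := atTop) h1).trans
    (liminf_le_of_frequently_le' (Eventually.of_forall h3).frequently))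
  filter_upwards [ae_eventually_notMem h5] with x hx
  refine ENNReal.le_of_forall_pos_le_add fun ε hε _ => ?_
  rw [← tsub_le_iff_right]
  refine le_liminf_of_le (by isBoundedDefault) ?_
  have h6 : ∀ᶠ n : ℕ in atTop, (2⁻¹ : ℝ≥0∞) ^ n < ε :=
    (ENNReal.tendsto_pow_atTop_nhds_zero_of_lt_one (by simp)).eventually
      (gt_mem_nhds (ENNReal.coe_pos.2 hε))
  filter_upwards [hx, h6] with n a1 a2
  rw [tsub_le_iff_right]
  exact (h4 n x a1).trans (add_le_add le_rfl a2.le)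

/-- the translation estimate for the Hardy-Littlewood maximal function -/
theorem shift_zero : ∃ c C : ℝ≥0∞, c ≠ ∞ ∧ C ≠ ∞ ∧ ∀ {F : E → ℝ} {γ w : E → ℝ≥0∞} {L : ℝ≥0∞}
    (h : E), AUG μ F γ → Measurable F → Measurable γ → Measurable w →
    ∫⁻ y, ENNReal.ofReal (F y) ∂μ ≠ ∞ → ∫⁻ y, γ y ∂μ ≠ ∞ → (∀ y, γ y ≤ L + w y) →
    ∫⁻ x, (Mb μ 1 (fun y => ENNReal.ofReal (F y)) (x + h) -
      (Mb μ 1 (fun y => ENNReal.ofReal (F y)) x + ENNReal.ofReal ‖h‖ * (c * L))) ∂μ ≤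
      ENNReal.ofReal ‖h‖ * (C * ∫⁻ y, w y ∂μ) := by
  obtain ⟨c, C, hc, hC, hcont⟩ := shift_cont μ
  set d := finrank ℝ E with hd
  refine ⟨c + 5, C + 5 * ENNReal.ofReal (2 ^ d), by finiteness, by finiteness, ?_⟩
  intro F γ w L h hug hF hγ hw hFt hγt hL
  set Φ : E → ℝ≥0∞ := fun y => ENNReal.ofReal (F y) with hΦ
  have mΦ : Measurable Φ := hF.ennreal_ofReal
  have hne : ∀ δ, 0 < δ → ∀ x, avE μ δ Φ x ≠ ∞ := fun δ hδ x =>
    ne_top_of_le_ne_top (ENNReal.mul_ne_top (inv_ball_ne_top μ hδ) hFt) (avE_le μ δ _ x)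
  have step : ∀ δ, 0 < δ → ∫⁻ x, (Mb μ 1 (avE μ δ Φ) (x + h) -
      (Mb μ 1 (avE μ δ Φ) x + ENNReal.ofReal ‖h‖ * ((c + 5) * L))) ∂μ ≤
      ENNReal.ofReal ‖h‖ * ((C + 5 * ENNReal.ofReal (2 ^ d)) * ∫⁻ y, w y ∂μ) := by
    intro δ hδ
    have h1 := hug.ug μ hF hγ hFt hδ
    have h2 := h1.continuous (ENNReal.mul_ne_top (inv_ball_ne_top μ hδ) hγt) (avE_le μ δ γ)
    have h3 : ∀ y, avE μ δ γ y ≤ L + avE μ δ w y := by
      intro y
      refine (mul_le_mul_right (lintegral_mono fun p => hL (y + p)) _).trans (le_of_eq ?_)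
      rw [lintegral_add_left measurable_const, mul_add, av_const μ hδ]
      rfl
    have e : (fun y => ENNReal.ofReal (avE μ δ Φ y).toReal) = avE μ δ Φ :=
      funext fun y => ENNReal.ofReal_toReal (hne δ hδ y)
    refine subadd μ (measurable_Mb μ 1 _) (δ := δ / 5) (by positivity) (fun u hu => ?_) h
    set N : E → ℝ≥0∞ := fun x => ENNReal.ofReal ‖u‖ * (5 * ENNReal.ofReal (2 ^ d)) *
      avE μ (2 * δ) w x with hN
    have mN : Measurable N := (measurable_avE μ _ hw).const_mul _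
    have h4 := hcont (S := fun x => ENNReal.ofReal ‖u‖ * (5 * L) + N x) u h1 h2
      (fun _ => ENNReal.toReal_nonneg) (measurable_avE μ δ hγ) (measurable_avE μ δ hw)
      (mN.const_add _) h3 (fun x y hy => by
        refine (ofReal_le_abs _ _).trans (add_le_add le_rfl ((h1.seg (K := L +
          ENNReal.ofReal (2 ^ d) * avE μ (2 * δ) w x) fun p hp => (h3 p).trans
          (add_le_add le_rfl (avE_near μ w (by linarith)))).trans ?_))
        refine (mul_le_mul_left (ENNReal.ofReal_le_ofReal hy) _).trans (le_of_eq ?_)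
        rw [ENNReal.ofReal_mul (by norm_num), hN, ENNReal.ofReal_ofNat]
        ring)
    rw [e, lintegral_avE μ hδ hw] at h4
    have h5 : ∫⁻ x, N x ∂μ = ENNReal.ofReal ‖u‖ * (5 * ENNReal.ofReal (2 ^ d)) * ∫⁻ y, w y ∂μ := by
      rw [hN, lintegral_const_mul _ (measurable_avE μ _ hw), lintegral_avE μ (by linarith) hw]
    refine le_trans ?_ ((add_le_add h4 h5.le).trans (le_of_eq (by ring)))
    rw [← lintegral_add_right _ mN]
    refine lintegral_mono fun x => ?_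
    rw [tsub_le_iff_right]
    refine (le_tsub_add (a := Mb μ 1 (avE μ δ Φ) x + (ENNReal.ofReal ‖u‖ * (5 * L) + N x) +
      ENNReal.ofReal ‖u‖ * (c * L))).trans (le_of_eq ?_)
    generalize Mb μ 1 (avE μ δ Φ) (x + u) - _ = A
    ring
  refine lint_le_of_approx μ fun t ht htt => ?_
  set D : ℝ → E → ℝ≥0∞ := fun δ x => (μ (ball 0 δ))⁻¹ *
    ∫⁻ y in ball (0 : E) δ, ENNReal.ofReal |F (x + y) - F x| ∂μ with hD
  have mD0 : Measurable (Function.uncurry fun x y : E => ENNReal.ofReal |F (x + y) - F x|) :=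
    ((hF.comp measurable_add).sub (hF.comp measurable_fst)).abs.ennreal_ofReal
  have mD : ∀ δ, Measurable (D δ) := fun δ =>
    (mD0.lintegral_prod_right' (ν := μ.restrict (ball 0 δ))).const_mul _
  have hD1 : ∀ δ, 0 < δ → ∫⁻ x, D δ x ∂μ ≤ ENNReal.ofReal δ * ∫⁻ y, γ y ∂μ := by
    intro δ hδ
    rw [hD, lintegral_const_mul' _ _ (inv_ball_ne_top μ hδ),
      lintegral_lintegral_swap mD0.aemeasurable, ← av_const μ hδ (ENNReal.ofReal δ * _)]
    refine mul_le_mul_right (setLIntegral_mono' measurableSet_ball fun y hy => ?_) _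
    have := hug.transBd μ hγ y univ MeasurableSet.univ fun _ _ _ _ => mem_univ _
    rw [Measure.restrict_univ] at this
    exact this.trans (mul_le_mul_left (ENNReal.ofReal_le_ofReal (mem_ball_zero_iff.1 hy).le) _)
  set X := ENNReal.ofReal (4 ^ d) * ∫⁻ y, γ y ∂μ with hX
  have hXt : X ≠ ∞ := ENNReal.mul_ne_top ENNReal.ofReal_ne_top hγt
  have ht2 : t / 2 ≠ 0 := by simp [ht]
  have ht2' : t / 2 ≠ ∞ := ENNReal.div_ne_top htt two_ne_zero
  obtain ⟨δ, hδ, hδX⟩ := ENNReal.exists_nnreal_pos_mul_lt hXt (mul_ne_zero ht2 ht2)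
  have hδ' : (0 : ℝ) < δ := hδ
  have hS : μ {x | t / 2 < Mb μ 1 (D δ) x} ≤ t / 2 := by
    refine (ENNReal.mul_le_mul_iff_right ht2 ht2').1 ((weak_Mb μ _ _).trans
      ((mul_le_mul_right (hD1 δ hδ') _).trans (le_trans (le_of_eq ?_) hδX.le)))
    rw [ENNReal.ofReal_coe_nnreal, hX]; ring
  refine ⟨fun x => Mb μ 1 (avE μ δ Φ) (x + h) - (Mb μ 1 (avE μ δ Φ) x +
      ENNReal.ofReal ‖h‖ * ((c + 5) * L)), {x | t / 2 < Mb μ 1 (D δ) x} ∪ (· + h) ⁻¹' {x | t / 2 < Mb μ 1 (D δ) x},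
    ((measurable_Mb μ 1 _).comp (measurable_id.add_const h)).sub
      ((measurable_Mb μ 1 _).add_const _), ?_, step δ hδ', fun x hx => ?_⟩
  · refine (measure_union_le _ _).trans ?_
    rw [measure_preimage_add_right]
    exact (add_le_add hS hS).trans (ENNReal.add_halves t).le
  · rw [mem_union, not_or] at hx
    have a1 : Mb μ 1 (D δ) x ≤ t / 2 := not_lt.1 hx.1
    have a2 : Mb μ 1 (D δ) (x + h) ≤ t / 2 := not_lt.1 hx.2
    have b1 : ∀ y, Φ y ≤ avE μ δ Φ y + D δ y := by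
      intro y
      rw [← av_const μ hδ' (Φ y), hD, avE, ← mul_add]
      refine mul_le_mul_right (lint_le_add (mΦ.comp (measurable_const.add measurable_id))
        (Eventually.of_forall fun p => ?_)) _
      rw [abs_sub_comm]; exact ofReal_le_abs _ _
    have b2 : ∀ y, avE μ δ Φ y ≤ Φ y + D δ y := by
      intro y
      rw [← av_const μ hδ' (Φ y), hD, avE, ← mul_add, ← lintegral_add_left measurable_const]
      exact mul_le_mul_right (lintegral_mono fun p => ofReal_le_abs _ _) _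
    have c1 := (Mb_le_add μ 1 (mD δ) b1 (x + h)).trans (add_le_add le_rfl a2)
    have c2 := (Mb_le_add μ 1 (mD δ) b2 x).trans (add_le_add le_rfl a1)
    rw [tsub_le_iff_right]
    refine c1.trans ((add_le_add ((le_tsub_add (a := Mb μ 1 (avE μ δ Φ) x +
      ENNReal.ofReal ‖h‖ * ((c + 5) * L))).trans (add_le_add le_rfl (add_le_add c2 le_rfl)))
      le_rfl).trans (le_of_eq ?_))
    beta_reduce
    generalize Mb μ 1 (avE μ δ Φ) (x + h) - _ = A
    conv_rhs => rw [← ENNReal.add_halves t]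
    ring

end Pool.Agent.MP_a25fb7_an

end

-- part MP_a25fb7_an.Frac
section

/-!
The translation estimate for the fractional maximal function.
-/

set_option autoImplicit false
set_option linter.unusedSectionVars false
open MeasureTheory Metric Set Module Filter Topology
open scoped ENNReal

namespace Pool.Agent.MP_a25fb7_an

variable {E : Type*} [NormedAddCommGroup E] [InnerProductSpace ℝ E] [FiniteDimensional ℝ E]
  [MeasurableSpace E] [BorelSpace E] (μ : Measure E) [μ.IsAddHaarMeasure]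

/-- the fractional average over a ball -/
noncomputable def aB (s : ℝ) (Φ : E → ℝ≥0∞) (z : E) (r : ℝ) : ℝ≥0∞ :=
  (μ (ball z r) ^ s)⁻¹ * ∫⁻ y in ball z r, Φ y ∂μ

lemma ball_rpow_ne_zero (z : E) {r : ℝ} (hr : 0 < r) (s : ℝ) : μ (ball z r) ^ s ≠ 0 :=
  (ENNReal.rpow_pos (ball_pos μ z hr) (ball_ne_top μ z r)).ne'

lemma ball_rpow_ne_top (z : E) {r : ℝ} (hr : 0 < r) (s : ℝ) : μ (ball z r) ^ s ≠ ∞ :=
  ENNReal.rpow_ne_top_of_ne_zero (ball_pos μ z hr).ne' (ball_ne_top μ z r)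

lemma frac_select (s : ℝ) (Φ : E → ℝ≥0∞) {x z : E} {r K : ℝ} (hr : 0 < r) (hK : 1 < K)
    (h : Mb μ s Φ x < aB μ s Φ z r) :
    ∃ r', r ≤ r' ∧ aB μ s Φ z r ≤ aB μ s Φ z r' ∧ aB μ s Φ z (K * r') ≤ aB μ s Φ z r' := by
  by_contra hcon
  push Not at hcon
  have key : ∀ n : ℕ, aB μ s Φ z r ≤ aB μ s Φ z (K ^ n * r) := by
    intro n
    induction n with
    | zero => simp
    | succ n ih =>
      rw [pow_succ', mul_assoc]
      exact ih.trans (hcon _ (le_mul_of_one_le_left hr.le (one_le_pow₀ hK.le)) ih).le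
  obtain ⟨n, hn⟩ := pow_unbounded_of_one_lt (dist x z / r) hK
  rw [div_lt_iff₀ hr] at hn
  exact absurd ((key n).trans (le_Mb μ s Φ (mem_ball.2 hn))) (not_le.2 h)

lemma frac_gain {s : ℝ} (hs0 : 0 ≤ s) (hs1 : s ≤ 1) (Φ : E → ℝ≥0∞) {x h z : E} {r : ℝ}
    (hx : x + h ∈ ball z r) (hM : Mb μ s Φ x ≤ aB μ s Φ z r) :
    aB μ s Φ z r ≤ Mb μ s Φ x +
      ENNReal.ofReal (‖h‖ / r * (finrank ℝ E * 2 ^ finrank ℝ E + 1)) * aB μ s Φ z r := by
  have hr := pos_of_mem_ball hx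
  set d := finrank ℝ E with hd
  have h0 : 0 ≤ ‖h‖ / r := by positivity
  have hc : (0 : ℝ) ≤ d * 2 ^ d := by positivity
  rcases le_total r ‖h‖ with hh | hh
  · refine le_trans (le_mul_of_one_le_left zero_le (ENNReal.one_le_ofReal.2 ?_)) le_add_self
    have : 1 ≤ ‖h‖ / r := (one_le_div hr).2 hh
    nlinarith
  have h1 : ‖h‖ / r ≤ 1 := (div_le_one hr).2 hh
  have hx' : x ∈ ball z (r + ‖h‖) := by
    rw [mem_ball] at hx ⊢
    have : dist (x + h) x = ‖h‖ := by simp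
    linarith [dist_triangle_left x z (x + h)]
  have h2 : μ (ball z (r + ‖h‖)) ^ s ≤ ENNReal.ofReal ((1 + ‖h‖ / r) ^ d) * μ (ball z r) ^ s := by
    refine (ENNReal.rpow_le_rpow (ball_le_mul μ z z (s := r) (c := 1 + ‖h‖ / r) (by positivity)
      (le_of_eq (by field_simp))) hs0).trans ?_
    rw [ENNReal.mul_rpow_of_nonneg _ _ hs0]
    refine mul_le_mul_left ((ENNReal.rpow_le_rpow_of_exponent_le (ENNReal.one_le_ofReal.2
      (one_le_pow₀ (by linarith))) hs1).trans (by simp [hd])) _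
  have h3 : (μ (ball z r) ^ s)⁻¹ ≤
      ENNReal.ofReal ((1 + ‖h‖ / r) ^ d) * (μ (ball z (r + ‖h‖)) ^ s)⁻¹ := by
    rw [← div_eq_mul_inv, ENNReal.le_div_iff_mul_le (Or.inl (ball_rpow_ne_zero μ z (by positivity) s))
      (Or.inl (ball_rpow_ne_top μ z (by positivity) s))]
    refine (mul_le_mul_right h2 _).trans (le_of_eq ?_)
    rw [mul_left_comm, ENNReal.inv_mul_cancel (ball_rpow_ne_zero μ z hr s)
      (ball_rpow_ne_top μ z hr s), mul_one]
  have h4 : (1 + ‖h‖ / r) ^ d ≤ 1 + ‖h‖ / r * (d * 2 ^ d + 1) := by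
    have := one_add_pow_le h0 h1 d
    norm_num at this
    nlinarith
  calc aB μ s Φ z r ≤ ENNReal.ofReal ((1 + ‖h‖ / r) ^ d) * aB μ s Φ z (r + ‖h‖) := by
        rw [aB, aB, ← mul_assoc]
        exact mul_le_mul' h3 (lintegral_mono_set (ball_subset_ball (by linarith [norm_nonneg h])))
    _ ≤ ENNReal.ofReal (1 + ‖h‖ / r * (d * 2 ^ d + 1)) * Mb μ s Φ x :=
        mul_le_mul' (ENNReal.ofReal_le_ofReal h4) (le_Mb μ s Φ hx')
    _ ≤ _ := by
        rw [ENNReal.ofReal_add zero_le_one (by positivity), add_mul, ENNReal.ofReal_one, one_mul]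
        gcongr

lemma frac_thin {s : ℝ} (hs0 : 0 ≤ s) (hs1 : s < 1) (hd : finrank ℝ E ≠ 0) :
    ∃ K : ℝ, 1 ≤ K ∧ ∀ {F : E → ℝ} {z : E} {r ρ : ℝ}, Measurable F →
      ∫⁻ y, ENNReal.ofReal (F y) ∂μ ≠ ∞ → 0 < ρ → ρ ≤ r → r ≤ 2 * ρ →
      aB μ s (fun y => ENNReal.ofReal (F y)) z (2 * K * r) ≤
        aB μ s (fun y => ENNReal.ofReal (F y)) z r →
      ∫⁻ y in ball z r, ENNReal.ofReal (F y) ∂μ ≤ 4 * ∫⁻ y in ball z r, Qn μ F (K * ρ) y ∂μ := by
  set d := finrank ℝ E with hdd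
  have h1 : Tendsto (fun K : ℝ => ((2 * K) ^ d) ^ (1 - s)) atTop atTop :=
    (tendsto_rpow_atTop (by linarith)).comp ((tendsto_pow_atTop hd).comp
      (tendsto_id.const_mul_atTop two_pos))
  obtain ⟨K, hK1, hK2⟩ := ((eventually_ge_atTop 1).and (h1.eventually_ge_atTop (8 * 4 ^ d))).exists
  refine ⟨K, hK1, ?_⟩
  intro F z r ρ hF hfin hρ hρr hr2 ha
  have hr : 0 < r := by linarith
  have hv := unit_real_pos μ
  set I := ∫⁻ y in ball z r, ENNReal.ofReal (F y) ∂μ with hI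
  have hIt : I ≠ ∞ := ne_top_of_le_ne_top hfin (setLIntegral_le_lintegral _ _)
  rcases eq_or_ne I 0 with h0 | h0
  · rw [h0]; exact zero_le
  have hI0 : 0 < I.toReal := ENNReal.toReal_pos h0 hIt
  set X : ℝ := (2 * K) ^ d with hX
  have hX0 : 0 < X := by positivity
  have h2 : ∫⁻ y in ball z (2 * K * r), ENNReal.ofReal (F y) ∂μ ≤ ENNReal.ofReal (X ^ s) * I := by
    have e : μ (ball z (2 * K * r)) ^ s = ENNReal.ofReal (X ^ s) * μ (ball z r) ^ s := by
      rw [Measure.addHaar_ball_mul_of_pos μ z (by positivity), ENNReal.mul_rpow_of_nonneg _ _ hs0,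
        ENNReal.ofReal_rpow_of_pos (by positivity), Measure.addHaar_ball_center μ z]
    have := mul_le_mul_right ha (μ (ball z (2 * K * r)) ^ s)
    rw [aB, aB, ← mul_assoc, ENNReal.mul_inv_cancel (ball_rpow_ne_zero μ z (by positivity) s)
      (ball_rpow_ne_top μ z (by positivity) s), one_mul, e, mul_assoc (ENNReal.ofReal _),
      ← mul_assoc (μ (ball z r) ^ s), ENNReal.mul_inv_cancel (ball_rpow_ne_zero μ z hr s) (ball_rpow_ne_top μ z hr s),
      one_mul] at this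
    exact this
  have h3 := ENNReal.toReal_mono (ENNReal.mul_ne_top ENNReal.ofReal_ne_top hIt) h2
  rw [ENNReal.toReal_mul, ENNReal.toReal_ofReal (by positivity)] at h3
  set B := μ.real (ball z r) with hB
  have hB1 : B = r ^ d * μ.real (ball 0 1) := ball_real μ z hr
  have hB0 : 0 < B := by rw [hB1]; positivity
  set l := I.toReal / B / 2 with hl
  have hl0 : 0 < l := by positivity
  have hlB : I.toReal = 2 * l * B := by rw [hl]; field_simp
  have h4 : ∀ y ∈ ball z r, ENNReal.ofReal (F y) ≤ ENNReal.ofReal l + 2 * Qn μ F (K * ρ) y := by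
    intro y hy
    refine (ofReal_le_add _ l).trans (add_le_add le_rfl ((thin_up' μ hF (κ := 1 / 4) (σ := K * ρ)
      (by positivity) (by norm_num) (by norm_num) ?_).trans (by norm_num)))
    have a1 : ball y (K * ρ) ⊆ ball z (2 * K * r) := ball_subset_ball' (by
      rw [mem_ball] at hy; nlinarith)
    have a2 := cheb μ (g := F) (T := ball y (K * ρ) ∩ {x | l < F x}) (measurableSet_ball.inter
      (measurableSet_lt measurable_const hF)) (inter_subset_left.trans a1) hl0.le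
      (fun x hx => le_of_lt hx.2) (ne_top_of_le_ne_top hfin (setLIntegral_le_lintegral _ _))
    have a3 : X * B ≤ 4 ^ d * μ.real (ball y (K * ρ)) := by
      rw [ball_real μ y (by positivity), hB1, hX, ← mul_assoc, ← mul_assoc, ← mul_pow, ← mul_pow]
      refine mul_le_mul_of_nonneg_right (pow_le_pow_left₀ (by positivity) ?_ d) hv.le
      nlinarith
    have a4 : X ^ s * (8 * 4 ^ d) ≤ X := by
      refine (mul_le_mul_of_nonneg_left hK2 (by positivity)).trans (le_of_eq ?_)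
      rw [← Real.rpow_add hX0]; simp
    have a5 : X ^ s * B * 8 ≤ μ.real (ball y (K * ρ)) := by
      have : 4 ^ d * (X ^ s * B * 8) ≤ 4 ^ d * μ.real (ball y (K * ρ)) := by
        linarith [mul_le_mul_of_nonneg_right a4 hB0.le]
      exact le_of_mul_le_mul_left this (by positivity)
    refine le_of_mul_le_mul_left (a := l) ?_ hl0
    rw [hlB] at h3
    linarith [mul_le_mul_of_nonneg_left a5 hl0.le]
  have h5 : I ≤ I / 2 + 2 * ∫⁻ y in ball z r, Qn μ F (K * ρ) y ∂μ := by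
    refine (setLIntegral_mono' measurableSet_ball h4).trans (le_of_eq ?_)
    rw [lintegral_add_left measurable_const, lintegral_const_mul _ (measurable_Qn μ hF _),
      setLIntegral_const, ← ofReal_measureReal (ball_ne_top μ z r), ← ENNReal.ofReal_mul hl0.le,
      ← ENNReal.ofReal_toReal hIt, ← ENNReal.ofReal_ofNat 2, ← ENNReal.ofReal_div_of_pos two_pos,
      hlB]
    congr 2; ring
  have h6 : I / 2 ≤ 2 * ∫⁻ y in ball z r, Qn μ F (K * ρ) y ∂μ := by
    refine (ENNReal.add_le_add_iff_left (ENNReal.div_ne_top hIt two_ne_zero)).1 ?_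
    rwa [ENNReal.add_halves]
  calc I = I / 2 + I / 2 := (ENNReal.add_halves I).symm
    _ ≤ _ := (add_le_add h6 h6).trans (le_of_eq (by ring))

lemma lint_ball_eq {R : ℝ} (hR : 0 < R) (Q : E → ℝ≥0∞) (p : E) :
    ∫⁻ y in ball p R, Q y ∂μ = μ (ball 0 R) * avE μ R Q p := by
  rw [avE, ← mul_assoc, ENNReal.mul_inv_cancel (ball_pos μ 0 hR).ne' (ball_ne_top μ 0 R), one_mul,
    ← lintegral_indicator measurableSet_ball, ← lintegral_indicator measurableSet_ball,
    ← lintegral_add_left_eq_self _ p]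
  refine lintegral_congr fun y => ?_
  by_cases hy : y ∈ ball (0 : E) R
  · rw [indicator_of_mem hy, indicator_of_mem (by simpa using hy)]
  · rw [indicator_of_notMem hy, indicator_of_notMem (by simpa using hy)]

lemma rpow_split (x : ℝ≥0∞) {q : ℝ} (hq : 1 ≤ q) : x ^ q = x * x ^ (q - 1) := by
  conv_lhs => rw [show q = 1 + (q - 1) by ring]
  rw [ENNReal.rpow_add_of_nonneg _ _ zero_le_one (by linarith), ENNReal.rpow_one]

theorem shift_frac {s : ℝ} (hs0 : 0 < s) (hs1 : s < 1) (hd : finrank ℝ E ≠ 0) :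
    ∃ C : ℝ≥0∞, C ≠ ∞ ∧ ∀ {F : E → ℝ} {Γ : ℝ≥0∞} (h : E), Measurable F →
      ∫⁻ y, ENNReal.ofReal (F y) ∂μ ≠ ∞ → TransBd μ F univ Γ →
      ∫⁻ x, (Mb μ s (fun y => ENNReal.ofReal (F y)) (x + h) -
        Mb μ s (fun y => ENNReal.ofReal (F y)) x) ^ s⁻¹ ∂μ ≤
        (ENNReal.ofReal ‖h‖ * (C * Γ)) ^ s⁻¹ := by
  obtain ⟨K, hK, hthin⟩ := frac_thin μ hs0.le hs1 hd
  set d := finrank ℝ E with hdd
  set v := μ (ball (0 : E) 1) with hv
  have hvt : v ≠ ∞ := ball_ne_top μ 0 1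
  set C1 : ℝ≥0∞ := ENNReal.ofReal (d * 2 ^ d + 1) * (v ^ s)⁻¹ * 4 with hC1
  have hC1t : C1 ≠ ∞ := ENNReal.mul_ne_top (ENNReal.mul_ne_top ENNReal.ofReal_ne_top
    (ENNReal.inv_ne_top.2 (ball_rpow_ne_zero μ 0 one_pos s))) (by simp)
  refine ⟨C1 * (ENNReal.ofReal (4 ^ d) * v) ^ s * (ENNReal.ofReal K * 2), ENNReal.mul_ne_top
    (ENNReal.mul_ne_top hC1t (ENNReal.rpow_ne_top_of_nonneg hs0.le (by finiteness)))
    (by finiteness), ?_⟩
  intro F Γ h hF hfin hT
  have hq : 1 ≤ s⁻¹ := (one_le_inv₀ hs0).2 hs1.le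
  have hq0 : 0 ≤ s⁻¹ := by linarith
  set Φ : E → ℝ≥0∞ := fun y => ENNReal.ofReal (F y) with hΦ
  set θ : ℤ → E → ℝ≥0∞ := fun k p => ENNReal.ofReal ((2 : ℝ) ^ k)⁻¹ *
    ∫⁻ y in ball p (4 * 2 ^ k), Qn μ F (K * 2 ^ k) y ∂μ with hθ
  set Θ : ℤ → ℝ≥0∞ := fun k => ENNReal.ofReal ((2 : ℝ) ^ k)⁻¹ * ∫⁻ y, Qn μ F (K * 2 ^ k) y ∂μ
    with hΘ
  set T := ENNReal.ofReal K * 2 * Γ with hTd
  have hsum : ∑' k, Θ k ≤ T := by
    rw [hTd, mul_assoc]
    refine le_trans (le_of_eq ?_) (mul_le_mul_right (thin_sum μ hF hT (σ := K) (by linarith)) _)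
    rw [← ENNReal.tsum_mul_left]
    refine tsum_congr fun k => ?_
    have : core (univ : Set E) (K * 2 ^ k) = univ := by ext; simp [core]
    rw [this, Measure.restrict_univ, ← mul_assoc, ← ENNReal.ofReal_mul (by linarith), hΘ]
    field_simp
  have hθT : ∀ k p, θ k p ≤ T := fun k p =>
    (mul_le_mul_right (setLIntegral_le_lintegral _ _) _).trans ((ENNReal.le_tsum k).trans hsum)
  have eθ : ∀ k, θ k = fun p => ENNReal.ofReal ((2 : ℝ) ^ k)⁻¹ * (μ (ball 0 (4 * 2 ^ k)) *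
      avE μ (4 * 2 ^ k) (Qn μ F (K * 2 ^ k)) p) := fun k => funext fun p => by
    rw [← lint_ball_eq μ (by positivity)]
  have mθ : ∀ k, Measurable (θ k) := fun k => by
    rw [eθ]; exact ((measurable_avE μ _ (measurable_Qn μ hF _)).const_mul _).const_mul _
  have mθ' : ∀ k, Measurable fun x => θ k (x + h) := fun k =>
    (mθ k).comp (measurable_id.add_const h)
  set A := ENNReal.ofReal ‖h‖ * C1 with hA
  set W : ℤ → ℝ≥0∞ := fun k => ENNReal.ofReal ((2 ^ k) ^ d) with hW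
  have hW0 : ∀ k, W k ≠ 0 := fun k => (ENNReal.ofReal_pos.2 (by positivity)).ne'
  have hpt : ∀ x, (Mb μ s Φ (x + h) - Mb μ s Φ x) ^ s⁻¹ ≤
      ∑' k, (A * (W k ^ s)⁻¹ * θ k (x + h)) ^ s⁻¹ := by
    intro x
    rw [ENNReal.rpow_inv_le_iff hs0, tsub_le_iff_left]
    refine iSup_le fun z => iSup₂_le fun r hx => ?_
    by_cases hM : Mb μ s Φ x < aB μ s Φ z r
    swap
    · exact (not_lt.1 hM).trans le_self_add
    obtain ⟨r', a1, a2, a3⟩ := frac_select μ s Φ (pos_of_mem_ball hx) (K := 2 * K) (by linarith) hM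
    have hx' : x + h ∈ ball z r' := ball_subset_ball a1 hx
    have hr' := pos_of_mem_ball hx'
    obtain ⟨k, hk1, hk2⟩ := exists_mem_Ico_zpow hr' (one_lt_two (α := ℝ))
    rw [zpow_add_one₀ two_ne_zero] at hk2
    have hρ : (0 : ℝ) < 2 ^ k := by positivity
    refine a2.trans ((frac_gain μ hs0.le hs1.le Φ hx' (hM.le.trans a2)).trans (add_le_add le_rfl ?_))
    rw [← ENNReal.rpow_inv_le_iff hs0]
    refine le_trans (ENNReal.rpow_le_rpow ?_ hq0) (ENNReal.le_tsum k)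
    have b1 := hthin hF hfin hρ hk1 (by linarith) a3
    have b2 : (μ (ball z r') ^ s)⁻¹ ≤ (W k ^ s)⁻¹ * (v ^ s)⁻¹ := by
      rw [← ENNReal.mul_inv (Or.inr (ball_rpow_ne_top μ 0 one_pos s))
        (Or.inr (ball_rpow_ne_zero μ 0 one_pos s)), ← ENNReal.mul_rpow_of_nonneg _ _ hs0.le,
        ENNReal.inv_le_inv]
      refine ENNReal.rpow_le_rpow ?_ hs0.le
      exact (ball_vol μ z hρ).ge.trans (measure_mono (ball_subset_ball hk1))
    have b3 : ball z r' ⊆ ball (x + h) (4 * 2 ^ k) := ball_subset_ball' (by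
      rw [mem_ball, dist_comm] at hx'; linarith)
    have b4 : ENNReal.ofReal (‖h‖ / r' * (d * 2 ^ d + 1)) ≤ ENNReal.ofReal ‖h‖ *
        ENNReal.ofReal ((2 : ℝ) ^ k)⁻¹ * ENNReal.ofReal (d * 2 ^ d + 1) := by
      rw [← ENNReal.ofReal_mul (norm_nonneg _), ← ENNReal.ofReal_mul (by positivity),
        ← div_eq_mul_inv]
      refine ENNReal.ofReal_le_ofReal ?_
      gcongr
    refine (mul_le_mul' b4 (mul_le_mul' b2 (b1.trans
      (mul_le_mul_right (lintegral_mono_set b3) _)))).trans (le_of_eq ?_)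
    simp only [hA, hC1, hθ]
    ring
  have hterm : ∀ k, ∫⁻ x, (A * (W k ^ s)⁻¹ * θ k (x + h)) ^ s⁻¹ ∂μ ≤
      A ^ s⁻¹ * T ^ (s⁻¹ - 1) * (ENNReal.ofReal (4 ^ d) * v) * Θ k := by
    intro k
    have e1 : ((W k ^ s)⁻¹) ^ s⁻¹ = (W k)⁻¹ := by
      rw [ENNReal.inv_rpow, ENNReal.rpow_rpow_inv hs0.ne']
    calc _ ≤ ∫⁻ x, A ^ s⁻¹ * (W k)⁻¹ * T ^ (s⁻¹ - 1) * θ k (x + h) ∂μ := by
          refine lintegral_mono fun x => ?_
          rw [ENNReal.mul_rpow_of_nonneg _ _ hq0, ENNReal.mul_rpow_of_nonneg _ _ hq0, e1,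
            rpow_split (θ k _) hq, mul_assoc _ (T ^ _), mul_comm (T ^ _)]
          exact mul_le_mul_right (mul_le_mul_right
            (ENNReal.rpow_le_rpow (hθT _ _) (by linarith)) _) _
      _ = _ := by
          rw [lintegral_const_mul _ (mθ' k), lintegral_add_right_eq_self (θ k) h, eθ,
            lintegral_const_mul' _ _ ENNReal.ofReal_ne_top,
            lintegral_const_mul' _ _ (ball_ne_top μ _ _),
            lintegral_avE μ (by positivity) (measurable_Qn μ hF _), ball_vol μ 0 (by positivity),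
            mul_pow, ENNReal.ofReal_mul (by positivity)]
          have e2 : (W k)⁻¹ * W k = 1 := ENNReal.inv_mul_cancel (hW0 k) ENNReal.ofReal_ne_top
          calc _ = A ^ s⁻¹ * T ^ (s⁻¹ - 1) * (ENNReal.ofReal (4 ^ d) * v) * Θ k *
                ((W k)⁻¹ * W k) := by simp only [hΘ, hW]; ring
            _ = _ := by rw [e2, mul_one]
  refine (lintegral_mono hpt).trans ?_
  rw [lintegral_tsum fun k => (((mθ' k).const_mul _).pow_const _).aemeasurable]
  refine (ENNReal.tsum_le_tsum hterm).trans ?_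
  rw [ENNReal.tsum_mul_left]
  refine (mul_le_mul_right hsum _).trans (le_of_eq ?_)
  rw [show ENNReal.ofReal ‖h‖ * (C1 * (ENNReal.ofReal (4 ^ d) * v) ^ s * (ENNReal.ofReal K * 2) * Γ)
    = A * (ENNReal.ofReal (4 ^ d) * v) ^ s * T by rw [hA, hTd]; ring,
    ENNReal.mul_rpow_of_nonneg _ T hq0, ENNReal.mul_rpow_of_nonneg A _ hq0,
    ENNReal.rpow_rpow_inv hs0.ne', rpow_split T hq]
  ring

lemma Mb_ae_lt_top {s : ℝ} (hs0 : 0 < s) (hs1 : s ≤ 1) {Φ : E → ℝ≥0∞} (hfin : ∫⁻ y, Φ y ∂μ ≠ ∞) :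
    ∀ᵐ x ∂μ, Mb μ s Φ x < ∞ := by
  have h1 : μ {x | Mb μ 1 Φ x = ∞} = 0 := by
    by_contra hcon
    obtain ⟨n, hn⟩ := ENNReal.exists_nat_mul_gt hcon
      (ENNReal.mul_ne_top (ENNReal.ofReal_ne_top (r := 4 ^ finrank ℝ E)) hfin)
    refine absurd (le_trans (mul_le_mul_right (measure_mono fun x hx => ?_) _) (weak_Mb μ Φ n))
      (not_le.2 hn)
    rw [mem_ofPred_eq] at hx ⊢
    rw [hx]; exact ENNReal.natCast_lt_top n
  filter_upwards [measure_eq_zero_iff_ae_notMem.1 h1] with x hx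
  refine lt_of_le_of_lt (b := Mb μ 1 Φ x ^ s * (∫⁻ y, Φ y ∂μ) ^ (1 - s))
    (iSup_le fun z => iSup₂_le fun r hr => ?_) (ENNReal.mul_lt_top
      (ENNReal.rpow_lt_top_of_nonneg hs0.le hx) (ENNReal.rpow_lt_top_of_nonneg (by linarith) hfin))
  refine le_trans (le_of_eq ?_) (mul_le_mul' (ENNReal.rpow_le_rpow (le_Mb μ 1 Φ hr) hs0.le)
    (ENNReal.rpow_le_rpow (setLIntegral_le_lintegral (ball z r) Φ) (by linarith)))
  rw [ENNReal.mul_rpow_of_nonneg _ _ hs0.le, ENNReal.rpow_one, ENNReal.inv_rpow, mul_assoc,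
    ← ENNReal.rpow_add_of_nonneg _ _ hs0.le (by linarith)]
  simp

end Pool.Agent.MP_a25fb7_an

end

-- part MP_a25fb7_an.Compact
section

/-!
Weak compactness of equi-integrable families that are bounded in `L^q`, `1 ≤ q ≤ 2`.
-/

set_option autoImplicit false
set_option linter.unusedSectionVars false
open MeasureTheory Metric Set Filter Topology
open scoped ENNReal

namespace Pool.Agent.MP_a25fb7_an

lemma exists_weak_ulim {H : Type*} [NormedAddCommGroup H] [InnerProductSpace ℝ H] [CompleteSpace H]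
    (U : Ultrafilter ℕ) (g : ℕ → H) {R : ℝ} (hg : ∀ n, ‖g n‖ ≤ R) :
    ∃ G : H, ∀ φ : H, Tendsto (fun n => inner ℝ (g n) φ) U (𝓝 (inner ℝ G φ)) := by
  have hc := WeakDual.isCompact_closedBall (𝕜 := ℝ) (E := H) 0 R
  obtain ⟨T, -, hT⟩ := hc.ultrafilter_le_nhds'
    (U.map fun n => StrongDual.toWeakDual (InnerProductSpace.toDual ℝ H (g n)))
    (by
      rw [Ultrafilter.mem_map]
      refine univ_mem' fun n => ?_
      simpa using hg n)
  refine ⟨(InnerProductSpace.toDual ℝ H).symm (WeakDual.toStrongDual T), fun φ => ?_⟩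
  have := ((WeakDual.eval_continuous φ).tendsto T).comp hT
  rw [InnerProductSpace.toDual_symm_apply]
  exact this

lemma weak_mem_of_closed {H : Type*} [NormedAddCommGroup H] [InnerProductSpace ℝ H]
    [CompleteSpace H] {U : Ultrafilter ℕ} {g : ℕ → H} {G : H}
    (h : ∀ φ : H, Tendsto (fun n => inner ℝ (g n) φ) U (𝓝 (inner ℝ G φ))) {K : Set H}
    (h1 : Convex ℝ K) (h2 : IsClosed K) (h3 : ∀ n, g n ∈ K) : G ∈ K := by
  by_contra hcon
  obtain ⟨f, u, hf1, hf2⟩ := geometric_hahn_banach_closed_point h1 h2 hcon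
  have h4 := h ((InnerProductSpace.toDual ℝ H).symm f)
  simp only [real_inner_comm ((InnerProductSpace.toDual ℝ H).symm f),
    InnerProductSpace.toDual_symm_apply] at h4
  exact absurd (le_of_tendsto' h4 fun n => (hf1 _ (h3 n)).le) (not_le.2 hf2)

variable {α : Type*} [MeasurableSpace α] {μ : Measure α}

lemma convex_eLp {p : ℝ≥0∞} (hp : 1 ≤ p) (R : ℝ≥0∞) :
    Convex ℝ {g : Lp ℝ 2 μ | eLpNorm g p μ ≤ R} := by
  intro x hx y hy a b ha hb hab
  have e : ⇑(a • x + b • y) =ᵐ[μ] a • ⇑x + b • ⇑y := by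
    filter_upwards [Lp.coeFn_add (a • x) (b • y), Lp.coeFn_smul a x, Lp.coeFn_smul b y]
      with t h1 h2 h3
    rw [h1, Pi.add_apply, h2, h3]; rfl
  rw [mem_ofPred_eq, eLpNorm_congr_ae e]
  refine (eLpNorm_add_le ((Lp.aestronglyMeasurable x).const_smul a)
    ((Lp.aestronglyMeasurable y).const_smul b) hp).trans ?_
  rw [eLpNorm_const_smul, eLpNorm_const_smul, Real.enorm_of_nonneg ha, Real.enorm_of_nonneg hb]
  calc _ ≤ ENNReal.ofReal a * R + ENNReal.ofReal b * R :=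
        add_le_add (mul_le_mul_right hx _) (mul_le_mul_right hy _)
    _ = R := by rw [← add_mul, ← ENNReal.ofReal_add ha hb, hab]; simp

lemma isClosed_eLp (p R : ℝ≥0∞) : IsClosed {g : Lp ℝ 2 μ | eLpNorm g p μ ≤ R} :=
  IsSeqClosed.isClosed fun x _ hx hlim => eLpNorm_le_of_tendstoInMeasure
    (Eventually.of_forall hx) (tendstoInMeasure_of_tendsto_Lp hlim)
    fun n => Lp.aestronglyMeasurable (x n)

/-- truncation at height `L` -/
def tr (L t : ℝ) : ℝ := max (-L) (min L t)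

lemma tr_le {L : ℝ} (hL : 0 ≤ L) (t : ℝ) :
    |tr L t| ≤ |t| ∧ |tr L t| ≤ L ∧ ‖tr L t - t‖ₑ ≤ ENNReal.ofReal (|t| - L) := by
  unfold tr
  refine ⟨?_, ?_, ?_⟩
  · rw [abs_le]; constructor
    · exact le_max_of_le_right (le_min (by linarith [abs_nonneg t]) (neg_abs_le t))
    · exact max_le (by linarith [abs_nonneg t]) ((min_le_right _ _).trans (le_abs_self t))
  · exact abs_le.2 ⟨le_max_left _ _, max_le (by linarith) (min_le_left _ _)⟩
  · rcases le_total t (-L) with h | h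
    · rw [min_eq_right (by linarith), max_eq_left h, Real.enorm_of_nonneg (by linarith),
        abs_of_nonpos (by linarith)]
      exact ENNReal.ofReal_le_ofReal (by linarith)
    rcases le_total t L with h' | h'
    · rw [min_eq_right h', max_eq_right h]; simp
    · rw [min_eq_left h', max_eq_right (by linarith), ← enorm_neg,
        Real.enorm_of_nonneg (by linarith), abs_of_nonneg (by linarith)]
      exact ENNReal.ofReal_le_ofReal (by linarith)

lemma measurable_tr (L : ℝ) : Measurable (tr L) :=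
  measurable_const.max (measurable_const.min measurable_id)

lemma eLpNorm_two_le {g : α → ℝ} {q L : ℝ} (hq1 : 1 ≤ q) (hq2 : q ≤ 2) {A : ℝ≥0∞}
    (h1 : ∀ x, |g x| ≤ L) (h2 : eLpNorm g (ENNReal.ofReal q) μ ≤ A) :
    eLpNorm g 2 μ ≤ (ENNReal.ofReal L ^ (2 - q) * A ^ q) ^ (1 / 2 : ℝ) := by
  rw [eLpNorm_eq_lintegral_rpow_enorm_toReal (ENNReal.ofReal_pos.2 (by linarith)).ne'
    ENNReal.ofReal_ne_top, ENNReal.toReal_ofReal (by linarith), one_div,
    ENNReal.rpow_inv_le_iff (by linarith)] at h2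
  rw [eLpNorm_eq_lintegral_rpow_enorm_toReal two_ne_zero ENNReal.ofNat_ne_top, ENNReal.toReal_ofNat]
  refine ENNReal.rpow_le_rpow (le_trans ?_ (mul_le_mul_right h2 _)) (by norm_num)
  rw [← lintegral_const_mul' _ _
    (ENNReal.rpow_ne_top_of_nonneg (by linarith) ENNReal.ofReal_ne_top)]
  refine lintegral_mono fun x => ?_
  conv_lhs => rw [show (2 : ℝ) = (2 - q) + q by ring]
  rw [ENNReal.rpow_add_of_nonneg _ _ (by linarith) (by linarith)]
  refine mul_le_mul_left (ENNReal.rpow_le_rpow ?_ (by linarith)) _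
  rw [Real.enorm_eq_ofReal_abs]
  exact ENNReal.ofReal_le_ofReal (h1 x)

lemma bdd_pair {φ a b : α → ℝ} {M : ℝ} {ε : ℝ≥0∞} (hφ : AEStronglyMeasurable φ μ)
    (hM0 : 0 ≤ M) (hM : ∀ x, ‖φ x‖ ≤ M) (ha : Integrable (fun x => φ x * a x) μ)
    (hab : AEStronglyMeasurable (a - b) μ) (h : eLpNorm (a - b) 1 μ ≤ ε) (hε : ε ≠ ∞) :
    |∫ x, φ x * a x ∂μ - ∫ x, φ x * b x ∂μ| ≤ M * ε.toReal := by
  have h1 : Integrable (a - b) μ := memLp_one_iff_integrable.1 ⟨hab, h.trans_lt hε.lt_top⟩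
  have h2 : Integrable (fun x => φ x * (a - b) x) μ := h1.bdd_mul hφ (Eventually.of_forall hM)
  have h3 : ∫ x, φ x * b x ∂μ = ∫ x, φ x * a x ∂μ - ∫ x, φ x * (a - b) x ∂μ := by
    rw [← integral_sub ha h2]
    exact integral_congr_ae (Eventually.of_forall fun x => by simp only [Pi.sub_apply]; ring)
  rw [h3, sub_sub_cancel]
  refine (norm_integral_le_integral_norm _).trans ((integral_mono h2.norm (h1.norm.const_mul M)
    fun x => ?_).trans ?_)
  · simp only [norm_mul]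
    exact mul_le_mul_of_nonneg_right (hM x) (norm_nonneg _)
  · rw [integral_const_mul, integral_norm_eq_lintegral_enorm hab, ← eLpNorm_one_eq_lintegral_enorm]
    exact mul_le_mul_of_nonneg_left (ENNReal.toReal_mono hε h) hM0

theorem exists_weak_limit {D : ℕ → α → ℝ} (hD : ∀ n, Measurable (D n)) {q : ℝ} (hq1 : 1 ≤ q)
    (hq2 : q ≤ 2) {A : ℝ≥0∞} (hA : A ≠ ∞) (h1 : ∀ n, eLpNorm (D n) (ENNReal.ofReal q) μ ≤ A)
    (h2 : ∀ ε : ℝ≥0∞, ε ≠ 0 → ∃ L : ℝ, 0 ≤ L ∧ ∀ n, ∫⁻ x, ENNReal.ofReal (|D n x| - L) ∂μ ≤ ε) :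
    ∃ G : α → ℝ, StronglyMeasurable G ∧ eLpNorm G (ENNReal.ofReal q) μ ≤ A ∧
      ∀ (φ : α → ℝ) (M c : ℝ), MemLp φ 2 μ → 0 ≤ M → (∀ x, ‖φ x‖ ≤ M) →
        Tendsto (fun n => ∫ x, φ x * D n x ∂μ) atTop (𝓝 c) → ∫ x, φ x * G x ∂μ = c := by
  choose L hL0 hL using fun k : ℕ => h2 (2⁻¹ ^ k) (by simp)
  have hq : 1 ≤ ENNReal.ofReal q := ENNReal.one_le_ofReal.2 hq1
  set T : ℕ → ℕ → α → ℝ := fun k n x => tr (L k) (D n x) with hT
  have mT : ∀ k n, AEStronglyMeasurable (T k n) μ := fun k n =>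
    ((measurable_tr _).comp (hD n)).aestronglyMeasurable
  have hTq : ∀ k n, eLpNorm (T k n) (ENNReal.ofReal q) μ ≤ A := fun k n =>
    (eLpNorm_mono fun x => (tr_le (hL0 k) _).1).trans (h1 n)
  have hT2 := fun k n => eLpNorm_two_le hq1 hq2 (fun x => (tr_le (hL0 k) (D n x)).2.1) (hTq k n)
  have hfin : ∀ k, (ENNReal.ofReal (L k) ^ (2 - q) * A ^ q) ^ (1 / 2 : ℝ) ≠ ∞ := fun k =>
    ENNReal.rpow_ne_top_of_nonneg (by norm_num) (ENNReal.mul_ne_top
      (ENNReal.rpow_ne_top_of_nonneg (by linarith) ENNReal.ofReal_ne_top)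
      (ENNReal.rpow_ne_top_of_nonneg (by linarith) hA))
  have hmem : ∀ k n, MemLp (T k n) 2 μ := fun k n => ⟨mT k n, (hT2 k n).trans_lt (hfin k).lt_top⟩
  have hTD : ∀ k n, eLpNorm (T k n - D n) 1 μ ≤ 2⁻¹ ^ k := fun k n => by
    rw [eLpNorm_one_eq_lintegral_enorm]
    exact (lintegral_mono fun x => (tr_le (hL0 k) _).2.2).trans (hL k n)
  set U : Ultrafilter ℕ := Ultrafilter.of atTop with hU
  have hUle : (U : Filter ℕ) ≤ atTop := Ultrafilter.of_le _
  choose G hG using fun k => exists_weak_ulim U (fun n => (hmem k n).toLp _) (R := _) fun n => by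
    rw [Lp.norm_toLp]; exact ENNReal.toReal_mono (hfin k) (hT2 k n)
  have mG : ∀ k, AEStronglyMeasurable (G k) μ := fun k => Lp.aestronglyMeasurable _
  have hGq : ∀ k, eLpNorm (G k) (ENNReal.ofReal q) μ ≤ A := fun k =>
    weak_mem_of_closed (hG k) (convex_eLp hq A) (isClosed_eLp _ A) fun n => by
      rw [mem_ofPred_eq, eLpNorm_congr_ae (hmem k n).coeFn_toLp]; exact hTq k n
  have hGc : ∀ k j, eLpNorm (⇑(G k) - ⇑(G j)) 1 μ ≤ 2⁻¹ ^ k + 2⁻¹ ^ j := by
    intro k j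
    rw [← eLpNorm_congr_ae (Lp.coeFn_sub _ _)]
    refine weak_mem_of_closed (U := U) (g := fun n => (hmem k n).toLp _ - (hmem j n).toLp _)
      (fun φ => ?_) (convex_eLp le_rfl _) (isClosed_eLp _ _) fun n => ?_
    · simp only [inner_sub_left]; exact (hG k φ).sub (hG j φ)
    · rw [mem_ofPred_eq, ← MemLp.toLp_sub, eLpNorm_congr_ae (MemLp.coeFn_toLp _),
        show T k n - T j n = (T k n - D n) - (T j n - D n) by abel]
      exact (eLpNorm_sub_le ((mT k n).sub (hD n).aestronglyMeasurable)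
        ((mT j n).sub (hD n).aestronglyMeasurable) le_rfl).trans (add_le_add (hTD k n) (hTD j n))
  have hpow : ∀ {k j : ℕ}, k ≤ j → (2⁻¹ : ℝ≥0∞) ^ j ≤ 2⁻¹ ^ k := fun h =>
    pow_le_pow_right_of_le_one' (by simp) h
  obtain ⟨G0, mG0, hG0⟩ := exists_stronglyMeasurable_limit_of_tendsto_ae mG
    (Lp.ae_tendsto_of_cauchy_eLpNorm mG le_rfl (B := fun N => 2⁻¹ ^ N * 3)
      (by rw [ENNReal.tsum_mul_right, ENNReal.tsum_geometric]; simp [ENNReal.mul_eq_top])
      fun N n m hn hm => ((hGc n m).trans (add_le_add (hpow hn) (hpow hm))).trans_lt (by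
        rw [← mul_two]
        exact ENNReal.mul_lt_mul_right (by simp) (by simp) (by norm_num)))
  refine ⟨G0, mG0, Lp.eLpNorm_le_of_ae_tendsto (Eventually.of_forall hGq) mG hG0, ?_⟩
  intro φ M c hφ hM0 hM hc
  have hG1 : ∀ k, eLpNorm (⇑(G k) - G0) 1 μ ≤ 2⁻¹ ^ k + 2⁻¹ ^ k := by
    intro k
    refine Lp.eLpNorm_le_of_ae_tendsto (u := atTop) (f := fun j => ⇑(G k) - ⇑(G j)) ?_
      (fun j => (mG k).sub (mG j)) ?_
    · filter_upwards [eventually_ge_atTop k] with j hj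
      exact (hGc k j).trans (add_le_add le_rfl (hpow hj))
    · filter_upwards [hG0] with x hx
      exact tendsto_const_nhds.sub hx
  have hin : ∀ g : Lp ℝ 2 μ, inner ℝ g (hφ.toLp φ) = ∫ x, φ x * g x ∂μ := fun g => by
    rw [L2.inner_def]
    refine integral_congr_ae ?_
    filter_upwards [hφ.coeFn_toLp] with x hx
    rw [hx]; simp
  have key : ∀ k : ℕ, |∫ x, φ x * G0 x ∂μ - c| ≤ 3 * M * 2⁻¹ ^ k := by
    intro k
    have a1 := bdd_pair hφ.1 hM0 hM (hφ.integrable_mul (Lp.memLp (G k)))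
      ((mG k).sub mG0.aestronglyMeasurable) (hG1 k) (by simp)
    have a2 : |∫ x, φ x * G k x ∂μ - c| ≤ M * (2⁻¹ ^ k : ℝ≥0∞).toReal := by
      have t1 := hG k (hφ.toLp φ)
      simp only [hin] at t1
      refine le_of_tendsto' (t1.sub (hc.mono_left hUle)).abs fun n => ?_
      rw [integral_congr_ae (g := fun x => φ x * T k n x) (by
        filter_upwards [(hmem k n).coeFn_toLp] with x hx; rw [hx])]
      exact bdd_pair hφ.1 hM0 hM (hφ.integrable_mul (hmem k n))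
        ((mT k n).sub (hD n).aestronglyMeasurable) (hTD k n) (by simp)
    rw [ENNReal.toReal_add (by simp) (by simp)] at a1
    simp only [ENNReal.toReal_pow, ENNReal.toReal_inv, ENNReal.toReal_ofNat] at a1 a2
    rw [abs_le] at *
    constructor <;> linarith [a1.1, a1.2, a2.1, a2.2]
  have lim : Tendsto (fun k : ℕ => 3 * M * 2⁻¹ ^ k) atTop (𝓝 (3 * M * 0)) :=
    (tendsto_pow_atTop_nhds_zero_of_lt_one (by norm_num) (by norm_num)).const_mul _
  have := ge_of_tendsto' lim key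
  rw [mul_zero] at this
  exact sub_eq_zero.1 (abs_nonpos_iff.1 this)

end Pool.Agent.MP_a25fb7_an

end

-- part MP_a25fb7_an.Weak
section

/-!
A function whose difference quotients are bounded in `L^q` and equi-integrable has a weak gradient
in `L^q`.
-/

set_option autoImplicit false
set_option linter.unusedSectionVars false
open MeasureTheory Metric Set Module Filter Topology
open scoped ENNReal

namespace Pool.Agent.MP_a25fb7_an

variable {E : Type*} [NormedAddCommGroup E] [InnerProductSpace ℝ E] [FiniteDimensional ℝ E]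
  [MeasurableSpace E] [BorelSpace E] (μ : Measure E) [μ.IsAddHaarMeasure]

/-- difference quotient -/
noncomputable def Dq (u : E → ℝ) (h x : E) : ℝ := (u (x + h) - u x) / ‖h‖

lemma measurable_Dq {u : E → ℝ} (hu : Measurable u) (h : E) : Measurable (Dq u h) :=
  ((hu.comp (measurable_id.add_const h)).sub hu).div_const _

lemma locInt_of_Dq {u : E → ℝ} (hu : Measurable u) {L : ℝ}
    (h : ∀ h, ∫⁻ x, ENNReal.ofReal (|Dq u h x| - L) ∂μ ≤ 1) : LocallyIntegrable u μ := by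
  intro x
  refine ⟨ball x 1, ball_mem_nhds x one_pos, hu.aestronglyMeasurable, ?_⟩
  have mF : Measurable (Function.uncurry fun y v : E => ‖u (y + v) - u y‖ₑ) :=
    ((hu.comp measurable_add).sub (hu.comp measurable_fst)).enorm
  have h1 : ∫⁻ y in ball x 1, ∫⁻ v in ball (0 : E) 2, ‖u (y + v) - u y‖ₑ ∂μ ∂μ ≠ ∞ := by
    rw [lintegral_lintegral_swap mF.aemeasurable]
    refine ne_top_of_le_ne_top ?_ (setLIntegral_mono' (g := fun _ =>
      2 * (ENNReal.ofReal L * μ (ball x 1) + 1)) measurableSet_ball fun v hv => ?_)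
    · rw [setLIntegral_const]
      exact ENNReal.mul_ne_top (ENNReal.mul_ne_top (by simp) (ENNReal.add_ne_top.2
        ⟨ENNReal.mul_ne_top ENNReal.ofReal_ne_top measure_ball_lt_top.ne, by simp⟩))
        measure_ball_lt_top.ne
    · have hv' := mem_ball_zero_iff.1 hv
      have a1 : ∀ y, ‖u (y + v) - u y‖ₑ ≤
          2 * (ENNReal.ofReal L + ENNReal.ofReal (|Dq u v y| - L)) := by
        intro y
        refine le_trans ?_ (mul_le_mul_right ENNReal.ofReal_add_le _)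
        rw [Real.enorm_eq_ofReal_abs, ← ENNReal.ofReal_ofNat 2, ← ENNReal.ofReal_mul zero_le_two]
        refine ENNReal.ofReal_le_ofReal ?_
        rcases eq_or_ne v 0 with rfl | h0
        · simp
        have hp : 0 < ‖v‖ := norm_pos_iff.2 h0
        rw [add_sub_cancel, Dq, abs_div, abs_norm, ← mul_div_assoc, le_div_iff₀ hp]
        nlinarith [abs_nonneg (u (y + v) - u y)]
      refine (lintegral_mono a1).trans ?_
      rw [lintegral_const_mul' _ _ (by simp), lintegral_add_left measurable_const,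
        setLIntegral_const]
      exact mul_le_mul_right (add_le_add le_rfl
        ((setLIntegral_le_lintegral _ _).trans (h v))) _
  obtain ⟨y, hy, hy'⟩ := Measure.exists_mem_of_measure_ne_zero_of_ae
    (measure_ball_pos μ x one_pos).ne'
    (ae_lt_top (mF.lintegral_prod_right' (ν := μ.restrict (ball 0 2))) h1)
  have h2 : ∫⁻ p in ball x 1, ‖u p‖ₑ ∂μ ≤ ∫⁻ v in ball (0 : E) 2, ‖u (y + v)‖ₑ ∂μ := by
    rw [← lintegral_indicator measurableSet_ball, ← lintegral_indicator measurableSet_ball,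
      ← lintegral_add_left_eq_self _ y]
    refine lintegral_mono fun v => ?_
    by_cases hv : y + v ∈ ball x 1
    · have : v ∈ ball (0 : E) 2 := by
        rw [mem_ball] at hy hv
        have e : dist (y + v) y = ‖v‖ := by simp
        rw [mem_ball_zero_iff]
        linarith [dist_triangle_right (y + v) y x]
      rw [indicator_of_mem hv, indicator_of_mem this]
    · rw [indicator_of_notMem hv]; exact zero_le
  refine h2.trans_lt (lt_of_le_of_lt (lintegral_mono (g := fun v => ‖u y‖ₑ + ‖u (y + v) - u y‖ₑ)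
    fun v => ?_) ?_)
  · simpa using enorm_add_le (u y) (u (y + v) - u y)
  · rw [lintegral_add_left measurable_const, setLIntegral_const]
    exact ENNReal.add_lt_top.2 ⟨ENNReal.mul_lt_top enorm_lt_top measure_ball_lt_top, hy'⟩

lemma tendsto_Dq {u φ : E → ℝ} (hu : LocallyIntegrable u μ) (hφ : ContDiff ℝ (⊤ : ℕ∞) φ)
    (hc : HasCompactSupport φ) {v : E} (hv : ‖v‖ = 1) :
    Tendsto (fun n : ℕ => ∫ x, φ x * Dq u (((n : ℝ) + 1)⁻¹ • v) x ∂μ) atTop
      (𝓝 (-∫ x, u x * fderiv ℝ φ x v ∂μ)) := by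
  obtain ⟨C, hC⟩ := ContDiff.lipschitzWith_of_hasCompactSupport hc hφ (by simp)
  set K := cthickening 1 (tsupport φ) with hK
  have hKc : IsCompact K := IsCompact.cthickening hc
  have h1 := hC.integral_inv_smul_sub_mul_tendsto_integral_lineDeriv_mul
    ((integrable_indicator_iff hKc.measurableSet).2 (hu.integrableOn_isCompact hKc)) (-v)
  have h2 : Tendsto (fun n : ℕ => ((n : ℝ) + 1)⁻¹) atTop (𝓝[>] 0) :=
    tendsto_inv_atTop_nhdsGT_zero.comp (tendsto_atTop_add_const_right _ 1 tendsto_natCast_atTop_atTop)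
  have h3 : ∫ x, lineDeriv ℝ φ x (-v) * K.indicator u x ∂μ = -∫ x, u x * fderiv ℝ φ x v ∂μ := by
    rw [← integral_neg]
    refine integral_congr_ae (Eventually.of_forall fun x => ?_)
    simp only [(hφ.differentiable (by simp)).differentiableAt.lineDeriv_eq_fderiv, map_neg]
    by_cases hx : x ∈ K
    · rw [indicator_of_mem hx]; ring
    · have : fderiv ℝ φ x = 0 := by
        by_contra hcon
        exact hx (self_subset_cthickening _ (support_fderiv_subset ℝ hcon))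
      simp [this]
  rw [← h3]
  refine (h1.comp h2).congr fun n => ?_
  set t : ℝ := ((n : ℝ) + 1)⁻¹ with ht
  have ht0 : 0 < t := by positivity
  have ht1 : t ≤ 1 := inv_le_one_of_one_le₀ (by linarith [n.cast_nonneg (α := ℝ)])
  have hn : ‖t • v‖ = t := by rw [norm_smul, hv, mul_one, Real.norm_of_nonneg ht0.le]
  have i1 : Integrable (fun x => φ x * u x) μ :=
    hu.integrable_smul_left_of_hasCompactSupport hφ.continuous hc
  have i2 : Integrable (fun x => φ (x + t • -v) * u x) μ :=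
    hu.integrable_smul_left_of_hasCompactSupport (hφ.continuous.comp (continuous_add_const _))
      (hc.comp_homeomorph (Homeomorph.addRight (t • -v)))
  have i3 : Integrable (fun x => φ x * u (x + t • v)) μ := by
    simpa using i2.comp_add_right (t • v)
  have e1 : ∫ x, φ (x + t • -v) * u x ∂μ = ∫ x, φ x * u (x + t • v) ∂μ := by
    rw [← integral_add_right_eq_self _ (t • v)]; simp
  calc ∫ x, (t⁻¹ • (φ (x + t • -v) - φ x)) * K.indicator u x ∂μ
      = ∫ x, t⁻¹ * (φ (x + t • -v) * u x - φ x * u x) ∂μ := by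
        refine integral_congr_ae (Eventually.of_forall fun x => ?_)
        by_cases hx : x ∈ K
        · simp only [indicator_of_mem hx, smul_eq_mul]; ring
        · have a1 : φ x = 0 := by
            by_contra hcon
            exact hx (self_subset_cthickening _ (subset_tsupport _ hcon))
          have a2 : φ (x + t • -v) = 0 := by
            by_contra hcon
            refine hx (mem_cthickening_of_dist_le _ _ 1 _ (subset_tsupport _ hcon) ?_)
            simpa [hn] using ht1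
          simp only [a1, a2, sub_self, smul_zero, zero_mul, mul_zero]
    _ = ∫ x, t⁻¹ * (φ x * u (x + t • v) - φ x * u x) ∂μ := by
        rw [integral_const_mul, integral_const_mul, integral_sub i2 i1, integral_sub i3 i1, e1]
    _ = _ := by
        refine integral_congr_ae (Eventually.of_forall fun x => ?_)
        simp only [Dq, hn]; ring

theorem weak_grad {u : E → ℝ} (hu : Measurable u) {q : ℝ} (hq1 : 1 ≤ q) (hq2 : q ≤ 2) {A : ℝ≥0∞}
    (hA : A ≠ ∞) (h1 : ∀ h, eLpNorm (Dq u h) (ENNReal.ofReal q) μ ≤ A)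
    (h2 : ∀ ε : ℝ≥0∞, ε ≠ 0 → ∃ L : ℝ, 0 ≤ L ∧ ∀ h, ∫⁻ x, ENNReal.ofReal (|Dq u h x| - L) ∂μ ≤ ε) :
    LocallyIntegrable u μ ∧ ∃ G : E → E, LocallyIntegrable G μ ∧
      (∀ φ : E → ℝ, ContDiff ℝ (⊤ : ℕ∞) φ → HasCompactSupport φ → ∀ v : E,
        ∫ x, u x * fderiv ℝ φ x v ∂μ = -∫ x, φ x * inner ℝ (G x) v ∂μ) ∧
      eLpNorm G (ENNReal.ofReal q) μ ≤ finrank ℝ E * A := by
  obtain ⟨L, -, hL'⟩ := h2 1 one_ne_zero
  have hloc := locInt_of_Dq μ hu hL'
  have hq : 1 ≤ ENNReal.ofReal q := ENNReal.one_le_ofReal.2 hq1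
  set b := stdOrthonormalBasis ℝ E with hb
  choose g mg hg1 hg2 using fun i => exists_weak_limit (μ := μ)
    (D := fun n : ℕ => Dq u (((n : ℝ) + 1)⁻¹ • b i)) (fun n => measurable_Dq hu _) hq1 hq2 hA
    (fun n => h1 _) fun ε hε => (h2 ε hε).imp fun L hL => ⟨hL.1, fun n => hL.2 _⟩
  have mgi : ∀ i, AEStronglyMeasurable (fun x => g i x • b i) μ := fun i =>
    (mg i).aestronglyMeasurable.smul_const _
  have hG : eLpNorm (∑ i, fun x => g i x • b i) (ENNReal.ofReal q) μ ≤ finrank ℝ E * A := by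
    refine (eLpNorm_sum_le (fun i _ => mgi i) hq).trans ((Finset.sum_le_sum (g := fun _ => A)
      fun i _ => le_trans (eLpNorm_mono fun x => ?_) (hg1 i)).trans (by simp))
    rw [norm_smul, b.orthonormal.1 i, mul_one]
  have hmem : MemLp (∑ i, fun x => g i x • b i) (ENNReal.ofReal q) μ :=
    ⟨Finset.aestronglyMeasurable_sum _ fun i _ => mgi i,
      hG.trans_lt (ENNReal.mul_lt_top (ENNReal.natCast_lt_top _) hA.lt_top)⟩
  refine ⟨hloc, _, hmem.locallyIntegrable hq, fun φ hφ hc v => ?_, hG⟩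
  obtain ⟨M, hM⟩ := hφ.continuous.bounded_above_of_compact_support hc
  have key : ∀ i, ∫ x, φ x * g i x ∂μ = -∫ x, u x * fderiv ℝ φ x (b i) ∂μ := fun i =>
    hg2 i φ M _ (hφ.continuous.memLp_of_hasCompactSupport hc) ((norm_nonneg _).trans (hM 0)) hM
      (tendsto_Dq μ hloc hφ hc (b.orthonormal.1 i))
  have i1 : ∀ i, Integrable (fun x => u x * fderiv ℝ φ x (b i)) μ := fun i =>
    hloc.integrable_smul_right_of_hasCompactSupport
      ((hφ.continuous_fderiv (by simp)).clm_apply continuous_const) (hc.fderiv_apply ℝ _)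
  have i2 : ∀ i, Integrable (fun x => φ x * g i x) μ := fun i =>
    (MemLp.locallyIntegrable ⟨(mg i).aestronglyMeasurable, (hg1 i).trans_lt hA.lt_top⟩
      hq).integrable_smul_left_of_hasCompactSupport hφ.continuous hc
  calc ∫ x, u x * fderiv ℝ φ x v ∂μ
      = ∫ x, ∑ i, inner ℝ (b i) v * (u x * fderiv ℝ φ x (b i)) ∂μ := by
        refine integral_congr_ae (Eventually.of_forall fun x => ?_)
        conv_lhs => rw [← b.sum_repr' v]
        simp only [map_sum, map_smul, smul_eq_mul, Finset.mul_sum]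
        exact Finset.sum_congr rfl fun i _ => by ring
    _ = -∫ x, ∑ i, inner ℝ (b i) v * (φ x * g i x) ∂μ := by
        rw [integral_finsetSum _ fun i _ => (i1 i).const_mul _,
          integral_finsetSum _ fun i _ => (i2 i).const_mul _, ← Finset.sum_neg_distrib]
        refine Finset.sum_congr rfl fun i _ => ?_
        rw [integral_const_mul, integral_const_mul, key]; ring
    _ = _ := by
        congr 1
        refine integral_congr_ae (Eventually.of_forall fun x => ?_)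
        simp only [Finset.sum_apply, sum_inner, inner_smul_left, conj_trivial, Finset.mul_sum]
        exact Finset.sum_congr rfl fun i _ => by ring

lemma equi_of_gt_one {u : E → ℝ} {q : ℝ} (hq : 1 < q) {A : ℝ≥0∞} (hA : A ≠ ∞)
    (h1 : ∀ h, eLpNorm (Dq u h) (ENNReal.ofReal q) μ ≤ A) (ε : ℝ≥0∞) (hε : ε ≠ 0) :
    ∃ L : ℝ, 0 ≤ L ∧ ∀ h, ∫⁻ x, ENNReal.ofReal (|Dq u h x| - L) ∂μ ≤ ε := by
  obtain ⟨δ, hδ, hδ'⟩ := ENNReal.exists_nnreal_pos_mul_lt
    (ENNReal.rpow_ne_top_of_nonneg (y := q) (by linarith) hA) hε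
  have hδ0 : (0 : ℝ) < δ := hδ
  refine ⟨(δ : ℝ)⁻¹ ^ (q - 1)⁻¹, by positivity, fun h => ?_⟩
  have h2 := h1 h
  rw [eLpNorm_eq_lintegral_rpow_enorm_toReal (ENNReal.ofReal_pos.2 (by linarith)).ne'
    ENNReal.ofReal_ne_top, ENNReal.toReal_ofReal (by linarith), one_div,
    ENNReal.rpow_inv_le_iff (by linarith)] at h2
  refine le_trans ?_ ((mul_le_mul_right h2 _).trans hδ'.le)
  rw [← lintegral_const_mul' _ _ ENNReal.coe_ne_top]
  refine lintegral_mono fun x => ?_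
  set t := |Dq u h x| with ht
  have ht0 : 0 ≤ t := abs_nonneg _
  have hL0 : 0 < (δ : ℝ)⁻¹ ^ (q - 1)⁻¹ := by positivity
  rcases le_total t ((δ : ℝ)⁻¹ ^ (q - 1)⁻¹) with a | a
  · rw [ENNReal.ofReal_of_nonpos (by linarith)]; exact zero_le
  rw [Real.enorm_eq_ofReal_abs, ← ht, ENNReal.ofReal_rpow_of_nonneg ht0 (by linarith),
    ← ENNReal.ofReal_coe_nnreal, ← ENNReal.ofReal_mul hδ0.le]
  refine ENNReal.ofReal_le_ofReal ?_
  have b1 := Real.rpow_le_rpow hL0.le a (show 0 ≤ q - 1 by linarith)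
  rw [Real.rpow_inv_rpow (by positivity) (by linarith), inv_le_iff_one_le_mul₀' hδ0] at b1
  have b2 : t ^ q = t ^ (q - 1) * t := by
    rw [← Real.rpow_add_one (by linarith)]; simp
  rw [b2, ← mul_assoc]
  nlinarith

end Pool.Agent.MP_a25fb7_an

end

-- part MP_a25fb7_an.Sob
section

/-!
Weak gradients are upper gradients along almost every segment; the main theorem.
-/

set_option autoImplicit false
set_option linter.unusedSectionVars false
open MeasureTheory Metric Set Module Filter Topology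
open scoped ENNReal

namespace Pool.Agent.MP_a25fb7_an

variable {E : Type*} [NormedAddCommGroup E] [InnerProductSpace ℝ E] [FiniteDimensional ℝ E]
  [MeasurableSpace E] [BorelSpace E] (μ : Measure E) [μ.IsAddHaarMeasure]

lemma integrable_shear {G : E → ℝ} (mG : Measurable G) (hG : Integrable G μ) (u : E) (a b : ℝ) :
    Integrable (fun p : E × ℝ => G (p.1 + p.2 • u)) (μ.prod (volume.restrict (Ioc a b))) := by
  have m : Measurable fun p : E × ℝ => G (p.1 + p.2 • u) :=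
    mG.comp (measurable_fst.add (measurable_snd.smul_const u))
  refine (integrable_prod_iff' m.aestronglyMeasurable).2
    ⟨Eventually.of_forall fun t => hG.comp_add_right (t • u), ?_⟩
  have : ∀ t : ℝ, ∫ x, ‖G (x + t • u)‖ ∂μ = ∫ x, ‖G x‖ ∂μ := fun t =>
    integral_add_right_eq_self (fun x => ‖G x‖) _
  simp only [this]
  exact integrable_const _

lemma line_ae {f : E → ℝ} {g : E → E} (mg : Measurable g) (hf : Integrable f μ)
    (hg : Integrable g μ)
    (hw : ∀ φ : E → ℝ, ContDiff ℝ (⊤ : ℕ∞) φ → HasCompactSupport φ → ∀ v : E,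
      ∫ x, f x * fderiv ℝ φ x v ∂μ = -∫ x, φ x * inner ℝ (g x) v ∂μ) (u : E) {a b : ℝ}
    (hab : a ≤ b) :
    ∀ᵐ x ∂μ, f (x + b • u) - f (x + a • u) = ∫ t in Ioc a b, inner ℝ (g (x + t • u)) u := by
  have mG : Measurable fun x => inner ℝ (g x) u := mg.inner_const
  have hG : Integrable (fun x => inner ℝ (g x) u) μ := hg.inner_const u
  have i1 := integrable_shear μ mG hG u a b
  refine ae_eq_of_integral_contDiff_smul_eq
    ((hf.comp_add_right _).sub (hf.comp_add_right _)).locallyIntegrable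
    i1.integral_prod_left.locallyIntegrable fun φ hφ hc => ?_
  obtain ⟨M, hM⟩ := hφ.continuous.bounded_above_of_compact_support hc
  have hφ' : Continuous fun x => fderiv ℝ φ x u :=
    (hφ.continuous_fderiv (by simp)).clm_apply continuous_const
  obtain ⟨M', hM'⟩ := hφ'.bounded_above_of_compact_support (hc.fderiv_apply ℝ _)
  have e1 : ∀ s : ℝ, ∫ x, φ x * f (x + s • u) ∂μ = ∫ x, f x * φ (x - s • u) ∂μ := fun s => by
    rw [← integral_add_right_eq_self (fun x => f x * φ (x - s • u)) (s • u)]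
    simp [mul_comm]
  have j1 : ∀ s : ℝ, Integrable (fun x => φ x * f (x + s • u)) μ := fun s =>
    (hf.comp_add_right _).bdd_mul hφ.continuous.aestronglyMeasurable (Eventually.of_forall hM)
  have j2 : ∀ s : ℝ, Integrable (fun x => f x * φ (x - s • u)) μ := fun s =>
    hf.mul_bdd (hφ.continuous.comp (continuous_sub_right _)).aestronglyMeasurable
      (Eventually.of_forall fun x => hM _)
  have e2 : ∀ x, φ (x - b • u) - φ (x - a • u) = ∫ t in Ioc a b, -fderiv ℝ φ (x - t • u) u := by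
    intro x
    rw [← intervalIntegral.integral_of_le hab]
    refine (intervalIntegral.integral_eq_sub_of_hasDerivAt (f := fun t => φ (x - t • u))
      (fun t _ => ?_) ((hφ'.comp (by fun_prop)).neg.intervalIntegrable _ _)).symm
    have h1 : HasDerivAt (fun t : ℝ => x - t • u) (-u) t := by
      simpa using ((hasDerivAt_id t).smul_const u).const_sub x
    simpa [Function.comp_def] using ((hφ.differentiable (by simp)) (x - t • u)).hasFDerivAt.comp_hasDerivAt t h1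
  have i2 : Integrable (fun p : E × ℝ => f p.1 * -fderiv ℝ φ (p.1 - p.2 • u) u)
      (μ.prod (volume.restrict (Ioc a b))) :=
    (hf.comp_fst _).mul_bdd (c := M') (hφ'.comp (by fun_prop)).neg.aestronglyMeasurable
      (Eventually.of_forall fun p => by rw [norm_neg]; exact hM' _)
  have i3 : Integrable (fun p : E × ℝ => φ p.1 * inner ℝ (g (p.1 + p.2 • u)) u)
      (μ.prod (volume.restrict (Ioc a b))) :=
    i1.bdd_mul (hφ.continuous.comp continuous_fst).aestronglyMeasurable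
      (Eventually.of_forall fun p => hM _)
  calc ∫ x, φ x • (f (x + b • u) - f (x + a • u)) ∂μ
      = ∫ x, f x * (φ (x - b • u) - φ (x - a • u)) ∂μ := by
        simp only [smul_eq_mul, mul_sub]
        rw [integral_sub (j1 b) (j1 a), integral_sub (j2 b) (j2 a), e1, e1]
    _ = ∫ x, (∫ t in Ioc a b, f x * -fderiv ℝ φ (x - t • u) u) ∂μ := by
        simp only [e2, integral_const_mul]
    _ = ∫ t in Ioc a b, ∫ x, f x * -fderiv ℝ φ (x - t • u) u ∂μ := integral_integral_swap i2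
    _ = ∫ t in Ioc a b, ∫ x, φ x * inner ℝ (g (x + t • u)) u ∂μ := by
        refine integral_congr_ae (Eventually.of_forall fun t => ?_)
        have := hw (fun x => φ (x - t • u)) (hφ.comp (contDiff_id.sub contDiff_const))
          (hc.comp_homeomorph (Homeomorph.subRight (t • u))) u
        simp only [fderiv_comp_sub] at this
        simp only [mul_neg, integral_neg, this, neg_neg]
        rw [← integral_add_right_eq_self _ (t • u)]
        simp
    _ = ∫ x, (∫ t in Ioc a b, φ x * inner ℝ (g (x + t • u)) u) ∂μ :=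
        (integral_integral_swap i3).symm
    _ = _ := by simp only [smul_eq_mul, integral_const_mul]

lemma aug_of_weak {f : E → ℝ} {g : E → E} (mg : Measurable g) (hf : Integrable f μ)
    (hg : Integrable g μ)
    (hw : ∀ φ : E → ℝ, ContDiff ℝ (⊤ : ℕ∞) φ → HasCompactSupport φ → ∀ v : E,
      ∫ x, f x * fderiv ℝ φ x v ∂μ = -∫ x, φ x * inner ℝ (g x) v ∂μ) :
    AUG μ (fun x => |f x|) (fun x => ‖g x‖ₑ) := by
  intro u a b hab
  filter_upwards [line_ae μ mg hf hg hw u hab] with x hx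
  refine (ENNReal.ofReal_le_ofReal (abs_abs_sub_abs_le _ _)).trans ?_
  rw [hx, ← Real.enorm_eq_ofReal_abs, ← lintegral_const_mul' _ _ ENNReal.ofReal_ne_top,
    restrict_Ioo_eq_restrict_Ioc]
  refine (enorm_integral_le_lintegral_enorm _).trans (lintegral_mono fun t => ?_)
  rw [Real.enorm_eq_ofReal_abs, ← ofReal_norm, ← ENNReal.ofReal_mul (norm_nonneg _), mul_comm]
  exact ENNReal.ofReal_le_ofReal (abs_real_inner_le_norm _ _)

lemma toReal_abs_le {a b : ℝ≥0∞} (ha : a ≠ ∞) (hb : b ≠ ∞) {c : ℝ} (hc : 0 ≤ c) :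
    ENNReal.ofReal (|a.toReal - b.toReal| - c) ≤
      (a - (b + ENNReal.ofReal c)) + (b - (a + ENNReal.ofReal c)) := by
  have key : ∀ {a b : ℝ≥0∞}, a ≠ ∞ → b ≠ ∞ → ENNReal.ofReal (a.toReal - b.toReal - c) ≤
      a - (b + ENNReal.ofReal c) := by
    intro a b ha hb
    rw [sub_sub, ENNReal.ofReal_sub _ (by positivity), ENNReal.ofReal_add ENNReal.toReal_nonneg hc,
      ENNReal.ofReal_toReal ha, ENNReal.ofReal_toReal hb]
  rcases abs_cases (a.toReal - b.toReal) with h | h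
  · rw [h.1]; exact (key ha hb).trans le_self_add
  · rw [h.1, neg_sub]; exact (key hb ha).trans le_add_self

lemma toReal_pow_le {a b : ℝ≥0∞} (ha : a ≠ ∞) (hb : b ≠ ∞) (q : ℝ) :
    ‖a.toReal - b.toReal‖ₑ ^ q ≤ (a - b) ^ q + (b - a) ^ q := by
  rcases le_total b a with h | h
  · refine le_trans (le_of_eq ?_) le_self_add
    rw [← ENNReal.toReal_sub_of_le h ha, Real.enorm_toReal (ENNReal.sub_ne_top ha)]
  · refine le_trans (le_of_eq ?_) le_add_self
    rw [enorm_sub_rev, ← ENNReal.toReal_sub_of_le h hb, Real.enorm_toReal (ENNReal.sub_ne_top hb)]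

lemma Dq_eLp {M : E → ℝ≥0∞} (mM : Measurable M) (hM : ∀ᵐ x ∂μ, M x < ∞) {q : ℝ} (hq : 1 ≤ q)
    {A : ℝ≥0∞} (h : ∀ h : E, ∫⁻ x, (M (x + h) - M x) ^ q ∂μ ≤ (ENNReal.ofReal ‖h‖ * A) ^ q) (v : E) :
    eLpNorm (Dq (fun x => (M x).toReal) v) (ENNReal.ofReal q) μ ≤ 2 * A := by
  rcases eq_or_ne v 0 with rfl | h0
  · have : Dq (fun x => (M x).toReal) (0 : E) = 0 := by funext x; simp [Dq]
    simp [this]
  have hp : 0 < ‖v‖ := norm_pos_iff.2 h0
  have e : Dq (fun x => (M x).toReal) v = ‖v‖⁻¹ • fun x => (M (x + v)).toReal - (M x).toReal := by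
    funext x; simp [Dq, div_eq_inv_mul]
  have h1 : eLpNorm (fun x => (M (x + v)).toReal - (M x).toReal) (ENNReal.ofReal q) μ ≤
      2 * (ENNReal.ofReal ‖v‖ * A) := by
    rw [eLpNorm_eq_lintegral_rpow_enorm_toReal (ENNReal.ofReal_pos.2 (by linarith)).ne'
      ENNReal.ofReal_ne_top, ENNReal.toReal_ofReal (by linarith), one_div,
      ENNReal.rpow_inv_le_iff (by linarith)]
    have h2 := h (-v)
    rw [← lintegral_add_right_eq_self _ v, norm_neg] at h2
    simp only [add_neg_cancel_right] at h2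
    refine le_trans (lint_le_add (((mM.comp (measurable_id.add_const v)).sub mM).pow_const q) ?_)
      ((add_le_add (h v) h2).trans ?_)
    · filter_upwards [hM, (measurePreserving_add_right μ v).quasiMeasurePreserving.ae hM]
        with x a1 a2
      exact toReal_pow_le a2.ne a1.ne q
    · rw [← two_mul, ENNReal.mul_rpow_of_nonneg 2 _ (by linarith)]
      exact mul_le_mul_left (ENNReal.le_rpow_self_of_one_le one_le_two hq) _
  rw [e, eLpNorm_const_smul]
  refine (mul_le_mul_right h1 _).trans (le_of_eq ?_)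
  rw [Real.enorm_of_nonneg (by positivity), mul_left_comm, ← mul_assoc (ENNReal.ofReal _),
    ← ENNReal.ofReal_mul (by positivity), inv_mul_cancel₀ hp.ne']
  simp

lemma Dq_equi {M : E → ℝ≥0∞} (mM : Measurable M) (hM : ∀ᵐ x ∂μ, M x < ∞) {L : ℝ} (hL : 0 ≤ L)
    {ε : ℝ≥0∞} (h : ∀ h : E, ∫⁻ x, (M (x + h) - (M x + ENNReal.ofReal ‖h‖ * ENNReal.ofReal L)) ∂μ ≤
      ENNReal.ofReal ‖h‖ * ε) (v : E) :
    ∫⁻ x, ENNReal.ofReal (|Dq (fun x => (M x).toReal) v x| - L) ∂μ ≤ 2 * ε := by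
  rcases eq_or_ne v 0 with rfl | h0
  · simp [Dq, ENNReal.ofReal_of_nonpos (neg_nonpos.2 hL)]
  have hp : 0 < ‖v‖ := norm_pos_iff.2 h0
  have h2 := h (-v)
  rw [← lintegral_add_right_eq_self _ v, norm_neg] at h2
  simp only [add_neg_cancel_right] at h2
  refine (ENNReal.mul_le_mul_iff_right (ENNReal.ofReal_pos.2 hp).ne' ENNReal.ofReal_ne_top).1 ?_
  rw [← lintegral_const_mul' _ _ ENNReal.ofReal_ne_top]
  refine le_trans (lint_le_add ((mM.comp (measurable_id.add_const v)).sub (mM.add_const _)) ?_)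
    ((add_le_add (h v) h2).trans (le_of_eq (by ring)))
  filter_upwards [hM, (measurePreserving_add_right μ v).quasiMeasurePreserving.ae hM]
    with x a1 a2
  rw [← ENNReal.ofReal_mul hp.le, ← ENNReal.ofReal_mul hp.le]
  refine le_trans (le_of_eq ?_) (toReal_abs_le a2.ne a1.ne (by positivity))
  congr 1
  rw [Dq, abs_div, abs_norm]; field_simp

lemma tail_small {γ : E → ℝ≥0∞} (hγ : Measurable γ) (hfin : ∫⁻ x, γ x ∂μ ≠ ∞) :
    Tendsto (fun n : ℕ => ∫⁻ x, (γ x - n) ∂μ) atTop (𝓝 0) := by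
  have := tendsto_lintegral_of_dominated_convergence (μ := μ) (F := fun (n : ℕ) x => γ x - n)
    (f := fun _ => 0) γ (fun n => hγ.sub_const _)
    (fun n => Eventually.of_forall fun x => tsub_le_self) hfin ?_
  · simpa using this
  filter_upwards [ae_lt_top hγ hfin] with x hx
  obtain ⟨N, hN⟩ := ENNReal.exists_nat_gt hx.ne
  refine tendsto_const_nhds.congr' ?_
  filter_upwards [eventually_ge_atTop N] with n hn
  exact (tsub_eq_zero_of_le (hN.le.trans (Nat.cast_le.2 hn))).symm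

theorem main_meas {s : ℝ} (hs0 : 1 / 2 ≤ s) (hs1 : s ≤ 1) (hd : finrank ℝ E ≠ 0) :
    ∃ C : ℝ≥0∞, C ≠ ∞ ∧ ∀ (f : E → ℝ) (g : E → E), Measurable f → Measurable g →
      Integrable f μ → Integrable g μ →
      (∀ φ : E → ℝ, ContDiff ℝ (⊤ : ℕ∞) φ → HasCompactSupport φ → ∀ v : E,
        ∫ x, f x * fderiv ℝ φ x v ∂μ = -∫ x, φ x * inner ℝ (g x) v ∂μ) →
      (∀ᵐ x ∂μ, Mb μ s (fun y => ‖f y‖ₑ) x < ∞) ∧
      LocallyIntegrable (fun x => (Mb μ s (fun y => ‖f y‖ₑ) x).toReal) μ ∧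
      ∃ G : E → E, LocallyIntegrable G μ ∧
        (∀ φ : E → ℝ, ContDiff ℝ (⊤ : ℕ∞) φ → HasCompactSupport φ → ∀ v : E,
          ∫ x, (Mb μ s (fun y => ‖f y‖ₑ) x).toReal * fderiv ℝ φ x v ∂μ =
            -∫ x, φ x * inner ℝ (G x) v ∂μ) ∧
        eLpNorm G (ENNReal.ofReal s⁻¹) μ ≤ C * eLpNorm g 1 μ := by
  have hs : 0 < s := by linarith
  have hq1 : 1 ≤ s⁻¹ := (one_le_inv₀ hs).2 hs1
  have hq2 : s⁻¹ ≤ 2 := by rw [inv_le_comm₀ hs two_pos]; linarith
  have key : ∃ C : ℝ≥0∞, C ≠ ∞ ∧ ∀ (F : E → ℝ) (γ : E → ℝ≥0∞), AUG μ F γ → Measurable F →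
      Measurable γ → ∫⁻ y, ENNReal.ofReal (F y) ∂μ ≠ ∞ → ∫⁻ y, γ y ∂μ ≠ ∞ →
      (∀ h, eLpNorm (Dq (fun x => (Mb μ s (fun y => ENNReal.ofReal (F y)) x).toReal) h)
        (ENNReal.ofReal s⁻¹) μ ≤ 2 * (C * ∫⁻ y, γ y ∂μ)) ∧
      ∀ ε : ℝ≥0∞, ε ≠ 0 → ∃ L : ℝ, 0 ≤ L ∧ ∀ h, ∫⁻ x, ENNReal.ofReal
        (|Dq (fun x => (Mb μ s (fun y => ENNReal.ofReal (F y)) x).toReal) h x| - L) ∂μ ≤ ε := by
    rcases hs1.eq_or_lt with rfl | hs1'
    · obtain ⟨c, C, hc, hC, h⟩ := shift_zero μ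
      refine ⟨C, hC, fun F γ hug hF hγ hFt hγt => ⟨fun v => ?_, fun ε hε => ?_⟩⟩
      · refine Dq_eLp μ (measurable_Mb μ _ _) (Mb_ae_lt_top μ hs hs1 hFt) hq1 (fun u => ?_) v
        simpa using h (L := 0) u hug hF hγ hγ hFt hγt fun y => by simp
      · have h1 : Tendsto (fun n : ℕ => 2 * (C * ∫⁻ x, (γ x - n) ∂μ)) atTop (𝓝 (2 * (C * 0))) :=
          ENNReal.Tendsto.const_mul (ENNReal.Tendsto.const_mul (tail_small μ hγ hγt) (Or.inr hC))
            (Or.inr (by simp))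
        rw [mul_zero, mul_zero] at h1
        obtain ⟨n, hn⟩ := (h1.eventually (gt_mem_nhds (pos_iff_ne_zero.2 hε))).exists
        refine ⟨(c * n).toReal, ENNReal.toReal_nonneg, fun v => le_trans (Dq_equi μ
          (measurable_Mb μ _ _) (Mb_ae_lt_top μ hs hs1 hFt) ENNReal.toReal_nonneg (fun u => ?_) v)
          hn.le⟩
        rw [ENNReal.ofReal_toReal (ENNReal.mul_ne_top hc (ENNReal.natCast_ne_top n))]
        exact h u hug hF hγ (hγ.sub_const _) hFt hγt fun y => le_add_tsub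
    · obtain ⟨C, hC, h⟩ := shift_frac μ hs hs1' hd
      refine ⟨C, hC, fun F γ hug hF hγ hFt hγt => ?_⟩
      have h1 := Dq_eLp μ (measurable_Mb μ _ _) (Mb_ae_lt_top μ hs hs1 hFt) hq1
        fun u => h u hF hFt (hug.transBd μ hγ)
      exact ⟨h1, equi_of_gt_one μ ((one_lt_inv₀ hs).2 hs1') (by finiteness) h1⟩
  obtain ⟨C, hC, key⟩ := key
  refine ⟨finrank ℝ E * (2 * C), by finiteness, fun f g mf mg hf hg hw => ?_⟩
  have e : (fun y => ‖f y‖ₑ) = fun y => ENNReal.ofReal |f y| :=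
    funext fun y => Real.enorm_eq_ofReal_abs _
  have hFt : ∫⁻ y, ENNReal.ofReal |f y| ∂μ ≠ ∞ := by rw [← e]; exact hf.2.ne
  obtain ⟨h1, h2⟩ := key _ _ (aug_of_weak μ mg hf hg hw) mf.abs mg.enorm hFt hg.2.ne
  obtain ⟨a1, G, a2, a3, a4⟩ := weak_grad μ (measurable_Mb μ _ _).ennreal_toReal hq1 hq2
    (ENNReal.mul_ne_top (by simp) (ENNReal.mul_ne_top hC hg.2.ne)) h1 h2
  rw [e]
  refine ⟨Mb_ae_lt_top μ hs hs1 hFt, a1, G, a2, a3, a4.trans (le_of_eq ?_)⟩
  rw [eLpNorm_one_eq_lintegral_enorm]; ring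

end Pool.Agent.MP_a25fb7_an

end
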