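import Pool.Agent.MP_a25fb7_an.Cn.B
import Pool.Agent.MP_a25fb7_an.Mg.Sob
import Pool.Agent.MP_a25fb7_an.Cn.GlueA

attribute [-instance] AddQuantale.instAddLeftMono NonUnitalNonAssocRing.toAddCommGroup
  IdemSemiring.toCanonicallyOrderedAdd Valued.toUniformSpace AddGroupWithOne.toAddGroup
  littleWedderburn NonUnitalNonAssocSemiring.toDistrib NonUnitalNonAssocSemiring.toAddCommMonoid
  Algebra.toSMul AddQuantale.instAddRightMono Ring.toAddCommGroup GrpTypeEquivalenceGrp.grpGroup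
  NumberField.to_charZero RightPreLieAlgebra.toModule NonUnitalSeminormedRing.toPseudoMetricSpace
  IdemSemiring.toMulLeftMono Quantale.instMulRightMono LeftPreLieAlgebra.toModule
  NonarchimedeanAddGroup.toIsTopologicalAddGroup MulSemiringAction.toDistribMulAction
  CompactSpace.sigmaCompact LieRing.toAddCommGroup Quantale.instMulLeftMono
  NonAssocSemiring.toAddCommMonoidWithOne LinearOrderedCommMonoidWithZero.toPosMulStrictMono
  AlexandrovDiscrete.toLocallyCompactSpace NonUnitalNonAssocSemiring.toMulZeroClass RKHS.instFunLike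
  CStarAlgebra.toNormedRing NonUnitalCStarAlgebra.toNonUnitalNormedRing NormedCommRing.toCommRing
  CategoryTheory.CountableCategory.countableObj Field.toDivisionRing IdemSemiring.toSemiring
  NonUnitalNormedCommRing.toNonUnitalSeminormedCommRing instSMulZeroClass
  AddCommGroupWithOne.toAddGroupWithOne NormedDivisionRing.toNormedRing EuclideanDomain.toCommRing
  IsTopologicalSemiring.toIsSemitopologicalSemiring SeminormedCommRing.toCommRing
  CStarAlgebra.instOrderClosedTopology Action.FintypeCat.instMulActionObjFiniteOf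
  IdemSemiring.toMulRightMono continuousSub_of_discreteTopology IsScalarTower.complexToReal
  IsOrderedCancelMonoid.toIsOrderedMonoid Group.IsPerfect.subsingleton_of_isMulCommutative
  AddCommGroupWithOne.toAddCommGroup SeminormedRing.toNonUnitalSeminormedRing
  instSeparatelyContinuousMulOfContinuousMul CoalgHomClass.toSemilinearMapClass
  ProperSMul.toContinuousSMul AddCommMonoidWithOne.toAddCommMonoid
  CommMonTypeEquivalenceCommMon.commMonCommMonoid MulZeroOneClass.toMulZeroClass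
  CanonicallyOrderedAdd.toMulLeftMono TotallySeparatedSpace.t2Space
  IsTopologicalTorsor.toContinuousSMul SeminormedCommGroup.toPseudoMetricSpace BooleanRing.toCommRing
  LieAdmissibleAlgebra.toSMulCommClass BooleanRing.toRing LieAdmissibleAlgebra.toIsScalarTower
  LinearOrderedCommMonoidWithZero.toIsBotZeroClass NonUnitalNormedCommRing.toNonUnitalNormedRing
  CommCStarAlgebra.toNormedCommRing LinearOrderedCommMonoidWithZero.toIsOrderedMonoid
  IsTopologicalSemiring.toContinuousAdd instZeroLEOneClass DiscreteMeasurableSpace.toMeasurableMul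
  PolishSpace.toSecondCountableTopology instLindelofSpaceOfSigmaCompactSpace
  NonUnitalAlgSemiHomClass.toDistribMulActionSemiHomClass LeftPreLieAlgebra.toIsScalarTower
  DiscreteUniformity.instCompleteSpace spectralNorm.completeSpace RightPreLieAlgebra.toIsScalarTower

-- part MP_a25fb7_an.Cn.C
section

section
set_option autoImplicit false
set_option linter.unusedSectionVars false
open MeasureTheory Metric Set Module
open scoped ENNReal

namespace Pool.Agent.MP_a25fb7_an.Cn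

variable {E : Type*} [NormedAddCommGroup E] [InnerProductSpace ℝ E] [FiniteDimensional ℝ E]
  [MeasurableSpace E] [BorelSpace E] (μ : Measure E) [μ.IsAddHaarMeasure]

lemma loc_ee_pos (J : ℕ) : 0 < ee J := by unfold ee; positivity
lemma loc_ee_succ (J : ℕ) : ee J = 2 * ee (J + 1) := by unfold ee; ring
lemma loc_ee_anti {J J' : ℕ} (h : J ≤ J') : ee J' ≤ ee J :=
  pow_le_pow_of_le_one (by norm_num) (by norm_num) h
lemma loc_ee_le (J : ℕ) : ee J ≤ 1 := pow_le_one₀ (by norm_num) (by norm_num)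
lemma loc_lam_eq (J : ℕ) : lam J = ee (J + 1) ^ 22 := by
  unfold lam rho ee
  rw [← pow_mul, show (1 / 4 : ℝ) = (1 / 2) ^ 2 by norm_num, ← pow_mul]; congr 1; ring
lemma loc_lam_pos (J : ℕ) : 0 < lam J := by rw [loc_lam_eq]; exact pow_pos (loc_ee_pos _) _
lemma loc_lam_anti {J J' : ℕ} (h : J ≤ J') : lam J' ≤ lam J := by
  rw [loc_lam_eq, loc_lam_eq]
  exact pow_le_pow_left₀ (loc_ee_pos _).le (loc_ee_anti (by omega)) _
lemma loc_lam_le (J : ℕ) {k : ℕ} (hk : k ≤ 22) : lam J ≤ ee J ^ k := by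
  rw [loc_lam_eq]
  exact (pow_le_pow_left₀ (loc_ee_pos _).le (loc_ee_anti (by omega)) _).trans
    (pow_le_pow_of_le_one (loc_ee_pos _).le (loc_ee_le _) hk)

lemma loc_good_norm {n v : E} (hn : ‖n‖ = 1) {ε : ℝ} (h : ‖v‖ ≤ ε) : Good n v ε := by
  refine ⟨?_, fun u _ hu => ?_⟩
  · have := abs_real_inner_le_norm n v
    rw [hn, one_mul, abs_le] at this; linarith
  · have := real_inner_le_norm u v
    nlinarith only [norm_nonneg v, h, hu, this]

lemma loc_good_mono {n v : E} {ε ε' : ℝ} (h : Good n v ε) (h' : ε ≤ ε') : Good n v ε' :=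
  ⟨by linarith [h.1], fun u h1 h2 => (h.2 u h1 h2).trans h'⟩

lemma loc_good_neg {n : E} (hn : ‖n‖ = 1) {t : ℝ} (ht : t ≤ 0) : Good n (t • (-n)) 0 := by
  refine ⟨?_, fun u h1 _ => ?_⟩
  · rw [inner_smul_right, inner_neg_right, real_inner_self_eq_norm_sq, hn]; linarith
  · rw [inner_smul_right, inner_neg_right, real_inner_comm, h1]; simp

lemma loc_sum_le (a b : ℕ) {W : ℝ} (hW : 0 ≤ W) :
    ∑ J ∈ Finset.Icc a b, ee J * AA W J ≤ 10 * W := by
  have h : ∀ J, ee J * AA W J = W * (9 / 10) ^ J := fun J => by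
    unfold ee AA; rw [mul_left_comm, ← mul_pow]; norm_num
  simp_rw [h, ← Finset.mul_sum]
  have := (summable_geometric_of_lt_one (r := 9 / 10) (by norm_num) (by norm_num)).sum_le_tsum
    (Finset.Icc a b) fun _ _ => by positivity
  rw [tsum_geometric_of_lt_one (by norm_num) (by norm_num)] at this
  nlinarith only [hW, this]

/-- the logic of section 4 for abstract sequences -/
lemma loc_abs {n e G : E} (hn : ‖n‖ = 1) (he : ‖e‖ = 1) (hen : ‖e - n‖ ≤ 1 / 10) {C W Rr : ℝ}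
    (hC : 1 ≤ C) (hW : 0 < W) {J0 : ℕ} (hJ0 : 10 ^ 6 * C ^ 2 * ee J0 ≤ 1) {U Gj : ℕ → E}
    {T Θ P b ρ : ℕ → ℝ} {D : ℕ → E → Prop} {opt : ℕ → Prop} (hρ : ∀ J, 0 ≤ ρ J)
    (hRr : ∀ m, ∑ J ∈ Finset.Icc J0 m, ρ J / ee J ^ 4 ≤ Rr)
    (hU : ∀ J, U (J + 1) = U J + Gj J) (hP : ∀ J, P J = inner ℝ n (U J))
    (hlim : ∀ ε : ℝ, 0 < ε → ∀ᶠ m in Filter.atTop, ‖G - U m‖ ≤ ε ∧ |Θ m| ≤ ε)
    (s1 : ∀ J, b J ≤ C * AA W J) (s2 : ∀ J, |T J| ≤ C * (max (P J) 0 + AA W J))
    (s4 : ∀ J, Good n (U J) (C * (ee J * max (P J) 0 + AA W J / ee J)))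
    (s5 : ∀ J (c : ℝ), c = 0 ∨ c = 1 → Good n (Gj J + (c * (T J - T (J + 1))) • n)
      (C * (ee J * (max (P (J + 1)) 0 + AA W J) + b J / ee J)))
    (hL : ∀ J a, D J a → ‖Gj J - (T J - T (J + 1)) • a‖ ≤ C * ee J * (max (P (J + 1)) 0 + AA W J))
    (hT : ∀ J J' J'' a (h : ℝ), (J' = J ∨ J' + 1 = J) → (J'' = J ∨ J'' + 1 = J) → D J' a → 0 < h →
      h ≤ 1 → h ≤ ‖a + n‖ → C * ee J ^ 3 ≤ h ^ 2 →
      -(C / h ^ 4 * (ee J ^ 3 * h ^ 2 * AA W J + b J'' + lam J * (max (P J) 0 + AA W J))) ≤ Θ J)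
    (hLL : ∀ J a a', D J a → D (J + 1) a' → C * ee J ≤ 1 → ee (J + 1) ≤ ‖a' - a‖ →
      |Θ (J + 1)| ≤ C * ee J ^ 3 * AA W J)
    (hD : ∀ J a, D J a → ‖a‖ = 1) (om : ∀ J, opt J → opt (J + 1))
    (ho : ∀ J, opt J → Θ J ≤ T J ∧ T J ≤ 0)
    (tri : ∀ J, J0 ≤ J → b (J + 1) ≤ ρ (J + 1) ∨ AA W (J + 1) / ee (J + 1) ^ 5 < P (J + 1) ∨
      ∃ a, D (J + 1) a ∧ opt J) :
    ‖G‖ / 2 - inner ℝ e G ≤ 10 ^ 7 * C ^ 4 * (W * (9 / 5) ^ J0 / ee J0 ^ 4 + Rr) := by
  classical
  have ep := loc_ee_pos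
  have e1 := loc_ee_le
  have hA : ∀ J, 0 < AA W J := fun J => by unfold AA; positivity
  have hAs : ∀ J, AA W (J + 1) = 9 / 5 * AA W J := fun J => by unfold AA; ring
  have hp : ∀ J, 0 ≤ max (P J) 0 := fun J => le_max_right _ _
  have hsm : ∀ J, J0 ≤ J → C * ee J ≤ 1 := fun J h => by
    have := loc_ee_anti h
    nlinarith only [mul_le_mul_of_nonneg_left this (by positivity : 0 ≤ C ^ 2), hC, hJ0]
  set L : ℕ → Prop := fun J => J0 < J ∧ P J ≤ AA W J / ee J ^ 5 ∧ ∃ a, D J a ∧ opt (J - 1) with hLd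
  have hex : ∀ J, ∃ a : E, (L J → D J a) ∧ (¬ L J → opt J → a = -n) ∧ (¬ opt J → a = 0) := by
    intro J
    by_cases h : L J
    · obtain ⟨h1, -, a, h3, h4⟩ := id h
      refine ⟨a, fun _ => h3, fun h' => absurd h h', fun h' => absurd ?_ h'⟩
      have := om _ h4; rwa [Nat.sub_add_cancel (by omega)] at this
    · by_cases h' : opt J
      · exact ⟨-n, fun h'' => absurd h'' h, fun _ _ => rfl, fun h'' => absurd h' h''⟩
      · exact ⟨0, fun h'' => absurd h'' h, fun _ h'' => absurd h'' h', fun _ => rfl⟩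
  choose a aL aS a0 using hex
  have Lo : ∀ J, L (J + 1) → opt J := fun J h => by obtain ⟨-, -, _, -, h⟩ := h; simpa using h
  have Lo' : ∀ J, L J → opt J := fun J h => by
    obtain ⟨J, rfl⟩ : ∃ j, J = j + 1 := ⟨J - 1, by have := h.1; omega⟩
    exact om _ (Lo _ h)
  have a1 : ∀ J, ‖a J‖ ≤ 1 := fun J => by
    by_cases h : L J
    · exact (hD _ _ (aL J h)).le
    by_cases h' : opt J
    · rw [aS J h h', norm_neg, hn]
    · rw [a0 J h']; simp
  set b' : ℕ → ℝ := fun J => ρ J + if J = J0 then C * AA W J else 0 with hb'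
  have hb0 : ∀ J, 0 ≤ b' J := fun J => by
    have := hρ J; have := hA J; simp only [hb']; split_ifs <;> positivity
  have hS : ∀ J, J0 ≤ J → ¬ L J → b J ≤ b' J + C * ee J ^ 5 * max (P J) 0 := by
    intro J hJ h
    have h0 : 0 ≤ C * ee J ^ 5 * max (P J) 0 := by have := ep J; have := hp J; positivity
    rcases hJ.eq_or_lt with rfl | hJ
    · simp only [hb', if_true]; linarith only [s1 J0, hρ J0, h0]
    obtain ⟨J, rfl⟩ : ∃ j, J = j + 1 := ⟨J - 1, by omega⟩
    have h5 : AA W (J + 1) / ee (J + 1) ^ 5 < P (J + 1) → b (J + 1) ≤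
        b' (J + 1) + C * ee (J + 1) ^ 5 * max (P (J + 1)) 0 := fun h1 => by
      rw [div_lt_iff₀ (pow_pos (ep _) _)] at h1
      have h2 := mul_le_mul_of_nonneg_right (le_max_left (P (J + 1)) 0) (pow_pos (ep (J + 1)) 5).le
      nlinarith only [s1 (J + 1), hb0 (J + 1), hC, h1, h2]
    rcases tri J (by omega) with h1 | h1 | h1
    · simp only [hb', if_neg hJ.ne']; linarith only [h0, h1]
    · exact h5 h1
    · by_contra hc
      exact h ⟨hJ, not_lt.1 fun h2 => hc (h5 h2), by simpa only [add_tsub_cancel_right, exists_and_right] using h1⟩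
  set r : ℕ → ℝ := fun J => 40 * C * (ee J * AA W J + b' J / ee J ^ 4) with hr
  have q0 : ∀ J, 0 ≤ b' J / ee J ^ 4 := fun J => div_nonneg (hb0 J) (pow_pos (ep J) 4).le
  have q1 : ∀ J, 0 < ee J * AA W J := fun J => mul_pos (ep J) (hA J)
  have r0 : ∀ J, 0 ≤ r J := fun J => by have := q0 J; have := q1 J; positivity
  have hTT : ∀ J J' J'', J0 ≤ J'' → (J' = J ∨ J' + 1 = J) → (J'' = J ∨ J'' + 1 = J) → L J' →
      ¬ L J'' → opt J → ee J ≤ ‖a J' + n‖ → |T J| ≤ C * (2 * (ee J * AA W J) +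
        16 * (b' J'' / ee J'' ^ 4) + ee J * (32 * C * max (P J'') 0 + max (P J) 0)) := by
    intro J J' J'' h1 h2 h3 h4 h5 h6 h7
    have hJ : J0 ≤ J := by omega
    have k1 := hT J J' J'' _ _ h2 h3 (aL _ h4) (ep J) (e1 J) h7 (by
      nlinarith only [hsm J hJ])
    have k2 := hS _ h1 h5
    have k3 : ee J ≤ ee J'' ∧ ee J'' ≤ 2 * ee J := by
      rcases h3 with rfl | rfl
      · exact ⟨le_rfl, by linarith only [ep J'']⟩
      · rw [loc_ee_succ J'']; exact ⟨by linarith only [ep (J'' + 1)], le_rfl⟩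
    have k4 : b' J'' ≤ ee J ^ 4 * (16 * (b' J'' / ee J'' ^ 4)) := by
      have := mul_le_mul_of_nonneg_right (pow_le_pow_left₀ (ep _).le k3.2 4) (q0 J'')
      rw [mul_div_cancel₀ _ (pow_pos (ep _) _).ne'] at this; linarith only [this]
    have k5 := mul_le_mul_of_nonneg_right (pow_le_pow_left₀ (ep _).le k3.2 5)
      (mul_nonneg (by linarith only [hC] : 0 ≤ C) (hp J''))
    have k6 := mul_le_mul_of_nonneg_right (loc_lam_le J (k := 5) (by norm_num))
      (add_nonneg (hp J) (hA J).le)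
    rw [abs_of_nonpos (ho J h6).2]
    refine (neg_le_neg (ho J h6).1).trans ((neg_le.1 k1).trans ?_)
    rw [div_mul_eq_mul_div, mul_div_assoc]
    refine mul_le_mul_of_nonneg_left ?_ (by linarith only [hC])
    rw [div_le_iff₀ (pow_pos (ep _) _)]
    linarith only [k2, k4, k5, k6]
  have main : ∀ ε : ℝ, 0 < ε → ‖G‖ / 2 - inner ℝ e G ≤ 100 * (100 * C ^ 2) *
      (1000 * C ^ 2 * (W * (9 / 5) ^ J0 / ee J0 ^ 4 + Rr) + ε) := by
    intro ε hε
    obtain ⟨m, ⟨hm1, hm2⟩, hm⟩ := ((hlim ε hε).and (Filter.eventually_gt_atTop J0)).exists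
    have hUm : ∀ J, J0 ≤ J → U J = U J0 + ∑ i ∈ Finset.Ico J0 J, Gj i := by
      intro J hJ
      induction J, hJ using Nat.le_induction with
      | base => simp
      | succ J hJ ih => rw [Finset.sum_Ico_succ_top hJ, hU, ih, add_assoc]
    have hW' : W ≤ W * (9 / 5) ^ J0 / ee J0 ^ 4 := by
      rw [le_div_iff₀ (pow_pos (ep _) _)]
      exact mul_le_mul_of_nonneg_left ((pow_le_one₀ (ep _).le (e1 _)).trans
        (one_le_pow₀ (by norm_num))) hW.le
    have hR0 : 0 ≤ Rr := (Finset.sum_nonneg fun J _ => div_nonneg (hρ J) (pow_pos (ep J) 4).le).trans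
      (hRr 0)
    have hsum := loc_sum_le J0 m hW.le
    have hC2 : C ≤ C ^ 2 := by nlinarith only [hC]
    refine blockAlg hn he hen hm (C := 100 * C ^ 2) (by linarith only [hC, hC2]) (by linarith only [hJ0]) hε.le
      (U0 := U J0) (V := G - U m) (Gj := Gj) (a := a) (T := T) (P := P) (r := r)
      (A := fun J => 4 * C ^ 2 * AA W J) r0 (fun J => by have := hA J; positivity) ?_ ?_ ?_ ?_ ?_
      ?_ ?_ ?_ ?_ ?_ hm1
    · have h1 : ∑ J ∈ Finset.Icc J0 m, b' J / ee J ^ 4 ≤ Rr + C * AA W J0 / ee J0 ^ 4 := by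
        simp only [hb', add_div, Finset.sum_add_distrib, ite_div, zero_div, Finset.sum_ite_eq']
        rw [if_pos (Finset.mem_Icc.2 ⟨le_rfl, hm.le⟩)]
        linarith only [hRr m]
      simp only [hr, ← Finset.mul_sum, Finset.sum_add_distrib]
      rw [mul_div_assoc] at h1
      unfold AA at h1
      have h2 := hW.le.trans hW'
      nlinarith only [mul_nonneg (by linarith only [hC] : 0 ≤ C) h2, mul_nonneg (by linarith only [hC] : 0 ≤ C) hR0, hC, hW', hsum, h1]
    · simp_rw [mul_left_comm (ee _), ← Finset.mul_sum]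
      nlinarith only [hW, hW', hR0, hsum]
    · rw [← hUm m hm.le]; abel
    · intro J hJ
      rw [hP, hUm J (Finset.mem_Icc.1 hJ).1, inner_add_right, inner_sum]
    · refine loc_good_mono (s4 J0) ?_
      have h1 : AA W J0 / ee J0 ≤ b' J0 / ee J0 ^ 4 := by
        refine div_le_div₀ (hb0 _) ?_ (pow_pos (ep _) _) (pow_le_of_le_one (ep _).le (e1 _) (by simp))
        simp only [hb', if_true]; nlinarith only [hρ J0, hA J0, hC]
      have h2 := mul_nonneg (ep J0).le (hp J0)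
      simp only [hr]
      nlinarith only [q0 J0, q1 J0, hC, hC2, h1, h2]
    · intro J hJ
      have hJ' := (Finset.mem_Ico.1 hJ).1
      have h2 := mul_nonneg (ep J).le (hp J)
      have h3 := mul_nonneg (ep J).le (hp (J + 1))
      have h4 := q0 J
      have h5 := q1 J
      by_cases h : L J
      · refine loc_good_mono (loc_good_norm hn (hL _ _ (aL J h))) ?_
        simp only [hr]; nlinarith only [hC, hC2, h2, h3, h4, h5]
      have h6 : b J / ee J ≤ b' J / ee J ^ 4 + C * (ee J * max (P J) 0) := by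
        rw [div_le_iff₀ (ep J)]
        have k1 : b' J ≤ b' J / ee J ^ 4 * ee J := by
          have := mul_le_mul_of_nonneg_left
            (pow_le_of_le_one (ep J).le (e1 J) (show 4 ≠ 0 by simp)) h4
          rwa [div_mul_cancel₀ _ (pow_pos (ep _) _).ne'] at this
        have k2 := mul_le_mul_of_nonneg_right (pow_le_pow_of_le_one (ep J).le (e1 J)
          (show 2 ≤ 5 by norm_num)) (mul_nonneg (by linarith only [hC] : 0 ≤ C) (hp J))
        linarith only [hS J hJ' h, k1, k2]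
      have h7 : C * (ee J * (max (P (J + 1)) 0 + AA W J) + b J / ee J) ≤
          100 * C ^ 2 * ee J * (max (P J) 0 + max (P (J + 1)) 0) + r J := by
        have := mul_le_mul_of_nonneg_left h6 (by linarith only [hC] : 0 ≤ C)
        simp only [hr]; nlinarith only [hC, hC2, h2, h3, h4, h5, this]
      by_cases h' : opt J
      · have := s5 J 1 (Or.inr rfl)
        rw [aS J h h', smul_neg, sub_neg_eq_add]
        rw [one_mul] at this
        exact loc_good_mono this h7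
      · have := s5 J 0 (Or.inl rfl)
        rw [a0 J h', smul_zero, sub_zero]
        rw [zero_mul, zero_smul, add_zero] at this
        exact loc_good_mono this h7
    · intro J _ hJ
      obtain ⟨J, rfl⟩ : ∃ j, J = j + 1 := ⟨J - 1, by omega⟩
      simp only [Nat.add_sub_cancel]
      have h2 := mul_nonneg (ep (J + 1)).le (hp J)
      have h3 := mul_nonneg (ep (J + 1)).le (hp (J + 1))
      have h4 := q0 J
      have h5 := q1 J
      have h4' := q0 (J + 1)
      have h5' := q1 (J + 1)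
      have hz : 0 ≤ 100 * C ^ 2 * ee (J + 1) * (max (P J) 0 + max (P (J + 1)) 0) + r J +
          r (J + 1) := by have := r0 J; have := r0 (J + 1); nlinarith
      by_cases o2 : opt (J + 1)
      swap
      · rw [a0 _ o2, a0 J fun h => o2 (om _ h), sub_zero, smul_zero]
        exact loc_good_norm hn (by simpa only [norm_zero] using hz)
      by_cases o1 : opt J
      swap
      · rw [a0 _ o1, aS _ (fun h => o1 (Lo _ h)) o2, sub_zero]
        exact loc_good_mono (loc_good_neg hn (ho _ o2).2) hz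
      refine loc_good_norm hn ?_
      rw [norm_smul, Real.norm_eq_abs]
      rcases le_total ‖a (J + 1) - a J‖ (ee (J + 1)) with c | c
      · refine (mul_le_mul (s2 _) c (norm_nonneg _) (by have := hA (J + 1); positivity)).trans ?_
        simp only [hr]; nlinarith only [hC, hC2, h2, h3, h4, h5, h4', h5']
      have c2 : ‖a (J + 1) - a J‖ ≤ 2 := (norm_sub_le _ _).trans (by linarith only [a1 J, a1 (J + 1)])
      refine (mul_le_mul_of_nonneg_left c2 (abs_nonneg _)).trans ?_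
      by_cases l1 : L J <;> by_cases l2 : L (J + 1)
      · have k1 := hLL J _ _ (aL _ l1) (aL _ l2) (hsm J (by omega)) c
        have k2 : |T (J + 1)| ≤ |Θ (J + 1)| := by
          rw [abs_of_nonpos (ho _ o2).2]; linarith only [neg_le_abs (Θ (J + 1)), (ho _ o2).1]
        have k3 := mul_le_mul_of_nonneg_right (pow_le_of_le_one (ep J).le (e1 J)
          (show 3 ≠ 0 by simp)) (mul_nonneg (by linarith only [hC] : 0 ≤ C) (hA J).le)
        simp only [hr]; nlinarith only [hC, h2, h3, h4, h5, h4', h5', k1, k2, k3]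
      · have k1 := hTT (J + 1) J (J + 1) (by omega) (Or.inr rfl) (Or.inl rfl) l1 l2 o2 (by
          rwa [aS _ l2 o2, ← norm_neg, neg_sub, sub_neg_eq_add] at c)
        simp only [hr]; nlinarith only [hC, hC2, h2, h3, h4, h5, h4', h5', k1]
      · have k1 := hTT (J + 1) (J + 1) J (by omega) (Or.inl rfl) (Or.inr rfl) l2 l1 o2 (by
          rwa [aS _ l1 o1, sub_neg_eq_add] at c)
        simp only [hr]; nlinarith only [hC, hC2, h2, h3, h4, h5, h4', h5', k1]
      · rw [aS _ l1 o1, aS _ l2 o2, sub_self, norm_zero] at c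
        exact absurd c (not_le.2 (ep _))
    · by_cases o : opt J0
      · rw [aS _ (fun h => lt_irrefl _ h.1) o]; exact loc_good_neg hn (ho _ o).2
      · rw [a0 _ o, smul_zero]; exact loc_good_norm hn (by simp)
    · intro J hJ
      have hJ' := (Finset.mem_Ico.1 hJ).1
      have h0 : 0 ≤ 4 * C ^ 2 * AA W J := by have := hA J; positivity
      by_cases o : opt J
      swap
      · rw [a0 _ o]; simpa only [inner_zero_right, mul_zero, Left.neg_nonpos_iff, ge_iff_le] using h0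
      have t0 := (ho _ o).2
      by_cases l : L J
      swap
      · rw [aS _ l o, inner_neg_right, real_inner_self_eq_norm_sq, hn]; linarith only [h0, t0]
      rcases le_total 1 ‖a J + n‖ with c | c
      · have k1 := hT J J J _ 1 (Or.inl rfl) (Or.inl rfl) (aL _ l) one_pos le_rfl c (by
          nlinarith only [hsm J hJ', pow_le_one₀ (ep J).le (e1 J) (n := 2)])
        have k2 : lam J * max (P J) 0 ≤ AA W J := by
          have := mul_le_mul (loc_lam_le J (k := 5) (by norm_num))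
            (max_le l.2.1 (div_pos (hA J) (pow_pos (ep J) 5)).le) (hp J) (pow_pos (ep J) 5).le
          rwa [mul_div_cancel₀ _ (pow_pos (ep _) _).ne'] at this
        have k3 := mul_le_mul_of_nonneg_right (loc_lam_le J (k := 0) (by norm_num)) (hA J).le
        have k4 := mul_le_mul_of_nonneg_right (pow_le_one₀ (ep J).le (e1 J) (n := 3)) (hA J).le
        have k5 : inner ℝ n (a J) ≤ (1 : ℝ) := by
          simpa [hn, hD _ _ (aL _ l)] using real_inner_le_norm n (a J)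
        have k6 : -(4 * C ^ 2 * AA W J) ≤ Θ J := by
          refine le_trans (neg_le_neg ?_) k1
          have k7 := mul_le_mul_of_nonneg_right hC (hA J).le
          have : ee J ^ 3 * 1 ^ 2 * AA W J + b J + lam J * (max (P J) 0 + AA W J) ≤
              4 * (C * AA W J) := by linarith only [s1 J, k2, k3, k4, k7]
          have := mul_le_mul_of_nonneg_left this (by linarith only [hC] : 0 ≤ C)
          simp only [one_pow, div_one] at this ⊢; linarith only [this]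
        nlinarith only [(ho _ o).1, t0, k5, k6]
      · have k1 : inner ℝ n (a J) ≤ (0 : ℝ) := by
          have := norm_add_sq_real (a J) n
          rw [hn, hD _ _ (aL _ l), real_inner_comm] at this
          nlinarith only [norm_nonneg (a J + n), c, this]
        linarith only [mul_nonneg_of_nonpos_of_nonpos t0 k1, h0]
    · by_cases o : opt (m - 1)
      · have o' := om _ o
        rw [Nat.sub_add_cancel (by omega)] at o'
        rw [norm_smul, Real.norm_eq_abs, abs_of_nonpos (ho _ o').2]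
        nlinarith only [a1 (m - 1), neg_le_abs (Θ m), (ho _ o').1, (ho _ o').2, hm2]
      · rw [a0 _ o]; simpa only [smul_zero, norm_zero] using hε.le
  refine le_of_forall_pos_le_add fun δ hδ => ?_
  have := main (δ / (10000 * C ^ 2)) (by positivity)
  have e2 : 100 * (100 * C ^ 2) * (δ / (10000 * C ^ 2)) = δ := by field_simp; norm_num
  linarith only [this, e2]

lemma loc_term {C W B : ℝ} (hC : 1 ≤ C) (hW : 0 < W) (J : ℕ) (hJ : C * ee (J + 1) ≤ 1)
    (hB : B ≤ W * (20 / 19) ^ lev (J + 1)) :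
    (ee (J + 1) ^ 4)⁻¹ * (C * (lam (J + 1) / (ee (J + 1) ^ 3) ^ 2 *
      (((ee (J + 1) ^ 5)⁻¹ + C) * AA W (J + 1) / (ee (J + 1) ^ 3 * AA W (J + 1)) + 1) + lam J) * B) ≤
      16 * C * W * (9 / 10) ^ J := by
  have ep := loc_ee_pos (J + 1)
  have e1 := loc_ee_le (J + 1)
  have hA : 0 < AA W (J + 1) := by unfold AA; positivity
  have h1 : (20 / 19 : ℝ) ^ lev (J + 1) ≤ 8 * (9 / 5) ^ J := by
    unfold lev
    rw [show 11 * (J + 1 + 2) = 33 + 11 * J by ring, pow_add, pow_mul]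
    exact mul_le_mul (by norm_num) (pow_le_pow_left₀ (by positivity) (by norm_num) _)
      (by positivity) (by norm_num)
  have h2 : (9 / 10 : ℝ) ^ J = 2 * ee (J + 1) * (9 / 5) ^ J := by
    rw [← loc_ee_succ]; unfold ee; rw [← mul_pow]; norm_num
  have l1 := loc_lam_le (J + 1) (k := 22) le_rfl
  have l0 := loc_lam_pos (J + 1)
  rw [loc_lam_eq J, h2]
  set x := ee (J + 1)
  have h3 : lam (J + 1) / (x ^ 3) ^ 2 * (((x ^ 5)⁻¹ + C) * AA W (J + 1) /
      (x ^ 3 * AA W (J + 1)) + 1) + x ^ 22 ≤ 4 * x ^ 5 := by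
    have k0 : ∀ m k : ℕ, m ≤ k → x ^ k ≤ x ^ m := fun m k h => pow_le_pow_of_le_one ep.le e1 h
    have k1 : lam (J + 1) / (x ^ 3) ^ 2 ≤ x ^ 16 := by
      rw [div_le_iff₀ (by positivity)]; exact l1.trans (le_of_eq (by ring))
    have k2 : x ^ 16 * (((x ^ 5)⁻¹ + C) * AA W (J + 1) / (x ^ 3 * AA W (J + 1)) + 1) =
        x ^ 8 + C * x * x ^ 12 + x ^ 16 := by field_simp
    have k3 := mul_le_mul_of_nonneg_right k1 (by positivity : 0 ≤ ((x ^ 5)⁻¹ + C) * AA W (J + 1) /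
      (x ^ 3 * AA W (J + 1)) + 1)
    have k4 := mul_le_mul_of_nonneg_right hJ (pow_pos ep 12).le
    linarith only [k0 5 8 (by norm_num), k0 5 12 (by norm_num), k0 5 16 (by norm_num), k0 5 22 (by norm_num), k2, k3, k4]
  have h4 : B ≤ W * (8 * (9 / 5) ^ J) := hB.trans (mul_le_mul_of_nonneg_left h1 hW.le)
  rw [inv_mul_le_iff₀ (by positivity)]
  refine (mul_le_mul_of_nonneg_left h4 (by positivity)).trans ?_
  refine (mul_le_mul_of_nonneg_right (mul_le_mul_of_nonneg_left h3 (by linarith only [hC]))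
    (by positivity)).trans (le_of_eq (by ring))

theorem blockLoc [Nontrivial E] : ∃ C : ℝ, 0 ≤ C ∧ ∀ {f : E → ℝ} {g : E → E} {S K W : ℝ}
    {n e : E} {q β : ℕ → E → ℝ}, Sm f g S K → ‖n‖ = 1 → ‖e‖ = 1 → ‖e - n‖ ≤ 1 / 10 → 0 < W →
    Bud μ g n q β W →
    ∃ R : E → ℝ≥0∞, Measurable R ∧ ∫⁻ x in ball (0 : E) 40, R x ∂μ ≤ ENNReal.ofReal (C * W) ∧
      ∀ x ∈ ball (0 : E) 40, ∀ s ∈ Icc (1 / 2 : ℝ) 8,
        (∀ s' ∈ Icc (1 / 2 : ℝ) 8, avF μ f x s' ≤ avF μ f x s) →
        ENNReal.ofReal (‖avF μ g x s‖ / 2 - inner ℝ e (avF μ g x s)) ≤ R x := by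
  obtain ⟨Ct, hCt, htent⟩ := tent_exists μ
  obtain ⟨C1, h1, hS⟩ := locS μ Ct
  obtain ⟨C2, h2, hL⟩ := locL μ Ct
  obtain ⟨C3, h3, hT⟩ := locT μ Ct
  obtain ⟨C4, h4, hLL⟩ := locLL μ Ct
  obtain ⟨C5, h5, hR⟩ := blockRare μ
  set C := C1 + C2 + C3 + C4 + C5 with hC
  have hC1 : 1 ≤ C := by linarith
  have ep := loc_ee_pos
  obtain ⟨J0, hJ0⟩ : ∃ J0, 10 ^ 6 * C ^ 2 * ee J0 ≤ 1 := by
    obtain ⟨J, hJ⟩ := exists_pow_lt_of_lt_one (x := 1 / (10 ^ 6 * C ^ 2)) (y := (1 / 2 : ℝ))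
      (by positivity) (by norm_num)
    rw [lt_div_iff₀ (by positivity)] at hJ
    exact ⟨J, by unfold ee; linarith⟩
  have hsm : ∀ J, J0 ≤ J → C * ee J ≤ 1 := fun J h => by
    have := loc_ee_anti h
    nlinarith only [mul_le_mul_of_nonneg_left this (by positivity : 0 ≤ C ^ 2), h1, h2, h3, h4, h5, hJ0]
  set c := (μ.real (ball (0 : E) (1 / 2)))⁻¹ * (10 ^ 7 * C ^ 4) with hc
  have hc0 : 0 ≤ c := by positivity
  refine ⟨c * ((9 / 5) ^ J0 / ee J0 ^ 4 * μ.real (ball (0 : E) 40) + 160 * C), by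
    have := ep J0; positivity, ?_⟩
  intro f g S K W n e q β hsm' hn he hen hW hB
  have hA : ∀ J, 0 < AA W J := fun J => by unfold AA; positivity
  have hex : ∀ J, ∃ Ra : E → ℝ≥0∞, Measurable Ra ∧
      ENNReal.ofReal (ee (J + 1) ^ 4)⁻¹ * ∫⁻ x in ball (0 : E) 40, Ra x ∂μ ≤
        ENNReal.ofReal (16 * C * W * (9 / 10) ^ J) ∧ (J0 ≤ J →
      ∀ x ∈ ball (0 : E) 40, ∀ s ∈ Icc (1 / 2 : ℝ) 8,
        ENNReal.ofReal (bb μ β x s (J + 1)) ≤ Ra x ∨
        ((ee (J + 1) ^ 5)⁻¹ + C) * AA W (J + 1) < ∫ y in ball x (s - 4 * lam (J + 1)),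
          (q (lev (J + 1)) y + β (lev (J + 1)) y) ∂μ ∨
        ∃ y0, CaseL μ q β W x s (J + 1) y0 ∧ 1 / 2 + lam J ≤ s ∧ s + lam J ≤ 8) := by
    intro J
    by_cases hJ : J0 ≤ J
    swap
    · exact ⟨0, measurable_zero, by simp only [Pi.zero_apply, lintegral_const, MeasurableSet.univ, Measure.restrict_apply, univ_inter, zero_mul, mul_zero, zero_le], fun h => absurd h hJ⟩
    have k1 := hsm (J + 1) (by omega)
    obtain ⟨Ra, m1, m2, m3⟩ := hR (fun y => q (lev (J + 1)) y + β (lev (J + 1)) y) (β (lev (J + 1)))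
      (lam (J + 1)) (lam J) (ee (J + 1) ^ 3) (ee (J + 1) ^ 3 * AA W (J + 1))
      (((ee (J + 1) ^ 5)⁻¹ + C) * AA W (J + 1)) ((hB.cq _).add (hB.cb _)) (hB.cb _)
      (fun y => add_nonneg (hB.nq _ y) (hB.nb _ y)) (hB.nb _) (loc_lam_pos _)
      (loc_lam_anti (by omega)) (by
        rw [loc_lam_eq]
        exact (pow_le_pow_left₀ (ep _).le (loc_ee_anti (show 1 ≤ J + 1 by omega)) _).trans
          (by norm_num only [ee])) (pow_pos (ep _) _) (pow_le_one₀ (ep _).le (loc_ee_le _)) (by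
        have := mul_le_mul (show C5 ≤ C by linarith only [h1, h2, h3, h4]) (loc_lam_le (J + 1) (k := 7) (by norm_num))
          (loc_lam_pos _).le (by linarith only [h1, h2, h3, h4, h5])
        nlinarith only [k1, this]) (mul_pos (pow_pos (ep _) _) (hA _))
      (by have := ep (J + 1); have := hA (J + 1); positivity)
    refine ⟨Ra, m1, (mul_le_mul_right m2 _).trans ?_, fun _ x hx s hs => ?_⟩
    · rw [← ENNReal.ofReal_mul (by have := ep (J + 1); positivity)]
      refine ENNReal.ofReal_le_ofReal (le_trans ?_ (loc_term hC1 hW J k1 (hB.tot _)))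
      have := ep (J + 1); have := hA (J + 1); have := loc_lam_pos J; have := loc_lam_pos (J + 1)
      have : 0 ≤ ∫ y in ball (0 : E) 64, β (lev (J + 1)) y ∂μ := integral_nonneg (hB.nb _)
      gcongr; linarith only [h1, h2, h3, h4]
    · rcases m3 x hx s hs with h | h | ⟨y0, h, h', h''⟩
      · exact Or.inl h
      · exact Or.inr (Or.inl h)
      · exact Or.inr (Or.inr ⟨y0, ⟨h, h'⟩, h''⟩)
  choose Ra mR iR tR using hex
  set Sg : E → ℝ≥0∞ := fun x => ∑' J, ENNReal.ofReal (ee (J + 1) ^ 4)⁻¹ * Ra J x with hSg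
  have mSg : Measurable Sg := Measurable.ennreal_tsum fun J => (mR J).const_mul _
  have hw0 : 0 ≤ W * (9 / 5) ^ J0 / ee J0 ^ 4 := by have := ep J0; positivity
  refine ⟨fun x => ENNReal.ofReal c * (ENNReal.ofReal (W * (9 / 5) ^ J0 / ee J0 ^ 4) + Sg x),
    (mSg.const_add _).const_mul _, ?_, fun x hx s hs hmax => ?_⟩
  · rw [lintegral_const_mul _ (mSg.const_add _), lintegral_add_left measurable_const, mul_assoc,
      ENNReal.ofReal_mul hc0, add_mul, ENNReal.ofReal_add (by have := ep J0; positivity)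
        (by positivity), setLIntegral_const]
    refine mul_le_mul_right (add_le_add (le_of_eq ?_) ?_) _
    · rw [← ofReal_measureReal measure_ball_lt_top.ne, ← ENNReal.ofReal_mul hw0]; congr 1; ring
    · rw [lintegral_tsum fun J => ((mR J).const_mul _).aemeasurable]
      refine (ENNReal.tsum_le_tsum fun J => (lintegral_const_mul _ (mR J)).le.trans (iR J)).trans ?_
      have hs := summable_geometric_of_lt_one (r := 9 / 10) (by norm_num) (by norm_num)
      rw [← ENNReal.ofReal_tsum_of_nonneg (fun J => by positivity) (hs.mul_left _), tsum_mul_left,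
        tsum_geometric_of_lt_one (by norm_num) (by norm_num)]
      exact ENNReal.ofReal_le_ofReal (le_of_eq (by ring))
  rcases eq_or_ne (Sg x) ∞ with hx' | hx'
  · have : ENNReal.ofReal c ≠ 0 := by
      have : 0 < μ.real (ball (0 : E) (1 / 2)) :=
        ENNReal.toReal_pos (measure_ball_pos μ _ (by norm_num)).ne' measure_ball_lt_top.ne
      exact (ENNReal.ofReal_pos.2 (by positivity)).ne'
    simp [hx', ENNReal.mul_top this]
  obtain ⟨χ, χp, ht, hopt⟩ := htent s hs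
  have hctx : Ctx μ g n q β W x s χ χp f S K Ct := ⟨hsm', hB, hn, hW, hx, hs, ht, hCt⟩
  obtain ⟨i1, i2, i3, i4⟩ := locId μ hctx
  have hfin : ∀ J, Ra J x ≠ ∞ := fun J h => by
    have := ENNReal.ne_top_of_tsum_ne_top hx' J
    rw [h, ENNReal.mul_top (ENNReal.ofReal_pos.2 (by have := ep (J + 1); positivity)).ne'] at this
    exact this rfl
  have hp : ∀ J, 0 ≤ max (PP μ g n x χ J) 0 := fun J => le_max_right _ _
  have hb : ∀ J, 0 ≤ bb μ β x s J := fun J => integral_nonneg (hB.nb _)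
  have key := loc_abs (G := ∫ y in ball x s, g y ∂μ) (Rr := (Sg x).toReal) hn he hen hC1 hW hJ0
    (U := fun J => vI μ g x (χ J)) (Gj := GG μ g x χ) (T := TT μ g x s χ)
    (Θ := fun J => sI μ g x s fun t => χp J t - χ J t) (P := PP μ g n x χ) (b := bb μ β x s)
    (ρ := fun J => if J = 0 then 0 else (Ra (J - 1) x).toReal)
    (D := fun J a => ∃ y0, CaseL μ q β W x s J y0 ∧ a = dir x y0)
    (opt := fun J => 1 / 2 + lam J ≤ s ∧ s + lam J ≤ 8)
    (fun J => by split_ifs <;> positivity) (fun m => ?_) i1 i2 i4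
    (fun J => (hS hctx J).1.trans (by have := hA J; gcongr; linarith only [h2, h3, h4, h5]))
    (fun J => (hS hctx J).2.1.trans (by have := hA J; have := hp J; gcongr; linarith only [h2, h3, h4, h5]))
    (fun J => loc_good_mono (hS hctx J).2.2.2.1 (by
      have := hA J; have := hp J; have := ep J; gcongr; linarith only [h2, h3, h4, h5]))
    (fun J c hc => loc_good_mono ((hS hctx J).2.2.2.2 c hc) (by
      have := hA J; have := hp (J + 1); have := ep J; have := hb J; gcongr; linarith only [h2, h3, h4, h5]))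
    (fun J a ⟨y0, h, h'⟩ => h' ▸ (hL hctx J y0 h).trans (by
      have := hA J; have := hp (J + 1); have := ep J; gcongr; linarith only [h1, h3, h4, h5]))
    (fun J J' J'' a h j1 j2 ⟨y0, k, k'⟩ k0 k1 k2 k3 => le_trans (neg_le_neg (by
      have := hA J; have := hp J; have := ep J; have := hb J''; have := loc_lam_pos J
      gcongr; linarith only [h1, h2, h4, h5])) (hT hctx J J' J'' y0 h j1 j2 k k0 k1 (k' ▸ k2) (le_trans (by
        have := ep J; gcongr; linarith only [h1, h2, h4, h5]) k3)))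
    (fun J a a' ⟨y0, k, k'⟩ ⟨y1, l, l'⟩ k1 k2 => (hLL hctx J y0 y1 k l (le_trans (by
      have := ep J; gcongr; linarith only [h1, h2, h3, h5]) k1) (k' ▸ l' ▸ k2)).trans (by
        have := hA J; have := ep J; gcongr; linarith only [h1, h2, h3, h5]))
    (fun J a ⟨y0, k, k'⟩ => ?_) (fun J h => ⟨by linarith only [h.1, loc_lam_anti (Nat.le_succ J)],
      by linarith only [h.2, loc_lam_anti (Nat.le_succ J)]⟩) (fun J h => ?_) (fun J hJ => ?_)
  · have hv : 0 < μ.real (ball (0 : E) (1 / 2)) :=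
      ENNReal.toReal_pos (measure_ball_pos μ _ (by norm_num)).ne' measure_ball_lt_top.ne
    have hv' : μ.real (ball (0 : E) (1 / 2)) ≤ μ.real (ball x s) := by
      rw [measureReal_def, measureReal_def, Measure.addHaar_ball_center μ x]
      exact ENNReal.toReal_mono measure_ball_lt_top.ne (measure_mono (ball_subset_ball hs.1))
    beta_reduce
    rw [← ENNReal.ofReal_toReal hx', ← ENNReal.ofReal_add hw0 ENNReal.toReal_nonneg,
      ← ENNReal.ofReal_mul hc0, avF_eq μ g x (by linarith only [hs.1]), norm_smul, inner_smul_right,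
      Real.norm_of_nonneg (by positivity), mul_div_assoc, ← mul_sub, hc, mul_assoc]
    refine ENNReal.ofReal_le_ofReal ((mul_le_mul_of_nonneg_left key (by positivity)).trans ?_)
    exact mul_le_mul_of_nonneg_right (inv_anti₀ hv hv') (by positivity)
  · refine le_trans (Finset.sum_le_sum_of_subset_of_nonneg (t := Finset.range (m + 1))
      (fun J hJ => Finset.mem_range.2 (Nat.lt_succ_of_le (Finset.mem_Icc.1 hJ).2))
      fun J _ _ => by have := ep J; split_ifs <;> positivity) ?_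
    rw [Finset.sum_range_succ', if_pos rfl, zero_div, add_zero, ← ENNReal.ofReal_le_iff_le_toReal hx',
      ENNReal.ofReal_sum_of_nonneg fun J _ => by have := ep (J + 1); split_ifs <;> positivity]
    refine le_trans (Finset.sum_le_sum fun J _ => le_of_eq ?_) (ENNReal.sum_le_tsum _)
    rw [if_neg (by omega), Nat.add_sub_cancel, div_eq_inv_mul,
      ENNReal.ofReal_mul (by have := ep (J + 1); positivity), ENNReal.ofReal_toReal (hfin J)]
  · have h0 : y0 - x ≠ 0 := fun h => by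
      have h6 := k.1
      have h7 := loc_lam_eq J
      have h8 := pow_le_pow_left₀ (ep _).le (loc_ee_anti (show 1 ≤ J + 1 by omega)) 22
      simp only [Shl, mem_setOf_eq, h, norm_zero, zero_sub, abs_neg] at h6
      norm_num [ee] at h8 h7
      linarith only [le_abs_self s, hs.1, h6, h8, h7]
    rw [k']; exact norm_smul_inv_norm h0
  · have l0 := loc_lam_pos J
    have o1 := (hopt x J hsm').1 (hmax _ ⟨by linarith only [h.1], by linarith only [h, l0]⟩)
    have o2 := (hopt x J hsm').2 (hmax _ ⟨by linarith only [h, l0], h.2⟩)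
    rw [i3] at o2
    exact ⟨by linarith only [o2], by unfold TT; linarith only [o1]⟩
  · rcases tR J hJ x hx s hs with h | h | ⟨y0, h, h'⟩
    · left
      rw [if_neg (by omega), Nat.add_sub_cancel]
      exact (ENNReal.ofReal_le_iff_le_toReal (hfin J)).1 h
    · right; left
      have := (hS hctx (J + 1)).2.2.1
      rw [div_eq_inv_mul]
      nlinarith only [hA (J + 1), h2, h3, h4, h5, h, this]
    · exact Or.inr (Or.inr ⟨_, ⟨y0, h, rfl⟩, h'⟩)

end Pool.Agent.MP_a25fb7_an.Cn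

end

section
/-!
Runs along a lattice line inside the superlevel sets of a function `M`.
-/

set_option autoImplicit false
set_option linter.unusedSectionVars false
open MeasureTheory Metric Set Module Filter Topology
open scoped ENNReal

namespace Pool.Agent.MP_a25fb7_an.Cn

variable {E : Type*} [NormedAddCommGroup E] [InnerProductSpace ℝ E] [FiniteDimensional ℝ E]
  [MeasurableSpace E] [BorelSpace E] (μ : Measure E) [μ.IsAddHaarMeasure]

/-- start outside `U`, walk `i` steps inside `U` and arrive in `T` -/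
def evRun (U T : Set E) (v : E) (i : ℕ) : Set E :=
  {x | x ∉ U ∧ (∀ l : ℕ, 1 ≤ l → l ≤ i → x + (l : ℝ) • v ∈ U) ∧ x + (i : ℝ) • v ∈ T}

lemma ev_mRun {U T : Set E} (hU : MeasurableSet U) (hT : MeasurableSet T) (v : E)
    (i : ℕ) : MeasurableSet (evRun U T v i) := by
  refine hU.compl.inter (MeasurableSet.inter ?_ (measurable_add_const _ hT))
  show MeasurableSet {x | ∀ l : ℕ, 1 ≤ l → l ≤ i → x + (l : ℝ) • v ∈ U}
  simp only [ofPred_forall]
  exact MeasurableSet.iInter fun l => MeasurableSet.iInter fun _ => MeasurableSet.iInter fun _ =>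
    measurable_add_const _ hU

lemma ev_run_sum {U T : Set E} (hU : MeasurableSet U) (hT : MeasurableSet T) (v : E) :
    ∑' i, μ (evRun U T v i) ≤ μ T := by
  set A : ℕ → Set E := fun i => (fun z => z + -((i : ℝ) • v)) ⁻¹' evRun U T v i with hA
  have m : ∀ i, MeasurableSet (A i) := fun i =>
    measurable_add_const _ (ev_mRun hU hT v i)
  have key : ∀ i j, i < j → Disjoint (A i) (A j) := by
    intro i j hij
    refine Set.disjoint_left.2 fun z hi hj => hi.1 ?_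
    have h := hj.2.1 (j - i) (by omega) (by omega)
    rw [Nat.cast_sub hij.le] at h
    rwa [show z + -((j : ℝ) • v) + ((j : ℝ) - i) • v = z + -((i : ℝ) • v) by module] at h
  have hd : Pairwise (Function.onFun Disjoint A) := fun i j hij =>
    (lt_or_gt_of_ne hij).elim (key i j) fun h => (key j i h).symm
  calc ∑' i, μ (evRun U T v i) = ∑' i, μ (A i) :=
        tsum_congr fun i => (measure_preimage_add_right μ _ _).symm
    _ = μ (⋃ i, A i) := (measure_iUnion hd m).symm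
    _ ≤ μ T := measure_mono (iUnion_subset fun i z hz => by simpa using hz.2.2)

/-- the levels at which `x` starts a run of length `i` -/
noncomputable def evLev (M : E → ℝ) (T : Set (E × ℝ)) (v : E) (i : ℕ) (x : E) : ℝ≥0∞ :=
  volume {t : ℝ | x ∈ evRun {y | t < M y} {y | (y, t) ∈ T} v i}

lemma ev_msLev {M : E → ℝ} (hM : Measurable M) {T : Set (E × ℝ)} (hT : MeasurableSet T)
    (v : E) (i : ℕ) :
    MeasurableSet {p : E × ℝ | p.1 ∈ evRun {y | p.2 < M y} {y | (y, p.2) ∈ T} v i} := by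
  refine (measurableSet_lt measurable_snd (hM.comp measurable_fst)).compl.inter
    (MeasurableSet.inter ?_ (((measurable_fst.add_const _).prodMk measurable_snd) hT))
  show MeasurableSet {p : E × ℝ | ∀ l : ℕ, 1 ≤ l → l ≤ i → p.2 < M (p.1 + (l : ℝ) • v)}
  simp only [ofPred_forall]
  exact MeasurableSet.iInter fun l => MeasurableSet.iInter fun _ => MeasurableSet.iInter fun _ =>
    measurableSet_lt measurable_snd (hM.comp (measurable_fst.add_const _))

lemma ev_mLev {M : E → ℝ} (hM : Measurable M) {T : Set (E × ℝ)} (hT : MeasurableSet T)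
    (v : E) (i : ℕ) : Measurable (evLev M T v i) :=
  measurable_measure_prodMk_left (ev_msLev hM hT v i)

lemma ev_swap {S : Set (E × ℝ)} (hS : MeasurableSet S) :
    ∫⁻ x, volume {t : ℝ | (x, t) ∈ S} ∂μ = ∫⁻ t : ℝ, μ {x | (x, t) ∈ S} :=
  (Measure.prod_apply hS).symm.trans (Measure.prod_apply_symm hS)

lemma ev_lev_sum {M : E → ℝ} (hM : Measurable M) {T : Set (E × ℝ)} (hT : MeasurableSet T) (v : E) :
    ∑' i, ∫⁻ x, evLev M T v i x ∂μ ≤ ∫⁻ z, volume {t : ℝ | (z, t) ∈ T} ∂μ := by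
  have h1 : ∀ i, ∫⁻ x, evLev M T v i x ∂μ =
      ∫⁻ t : ℝ, μ (evRun {y | t < M y} {y | (y, t) ∈ T} v i) := fun i =>
    ev_swap μ (ev_msLev hM hT v i)
  simp only [h1]
  have h2 : ∀ i, Measurable fun t : ℝ => μ (evRun {y | t < M y} {y | (y, t) ∈ T} v i) := fun i =>
    measurable_measure_prodMk_right (ev_msLev hM hT v i)
  rw [ev_swap μ hT, ← lintegral_tsum fun i => (h2 i).aemeasurable]
  exact lintegral_mono fun t => ev_run_sum μ (measurableSet_lt measurable_const hM)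
    (measurable_prodMk_right hT) v

/-- the levels between two functions over a set -/
def evBtw (S : Set E) (g g' : E → ℝ) : Set (E × ℝ) := {p | p.1 ∈ S ∧ g' p.1 ≤ p.2 ∧ p.2 < g p.1}

lemma ev_mBtw {S : Set E} (hS : MeasurableSet S) {g g' : E → ℝ} (hg : Measurable g)
    (hg' : Measurable g') : MeasurableSet (evBtw S g g') :=
  (measurable_fst hS).inter ((measurableSet_le (hg'.comp measurable_fst) measurable_snd).inter
    (measurableSet_lt measurable_snd (hg.comp measurable_fst)))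

lemma ev_lev_Btw {M : E → ℝ} (hM : Measurable M) {S : Set E} (hS : MeasurableSet S) {g g' : E → ℝ}
    (hg : Measurable g) (hg' : Measurable g') (v : E) :
    ∑' i, ∫⁻ x, evLev M (evBtw S g g') v i x ∂μ ≤ ∫⁻ z in S, ENNReal.ofReal (g z - g' z) ∂μ := by
  refine (ev_lev_sum μ hM (ev_mBtw hS hg hg') v).trans ?_
  rw [← lintegral_indicator hS]
  refine lintegral_mono fun z => ?_
  by_cases hz : z ∈ S
  · rw [indicator_of_mem hz, ← Real.volume_Ico]
    exact measure_mono fun t ht => ht.2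
  · rw [indicator_of_notMem hz]
    exact (measure_mono (t := ∅) fun t ht => hz ht.1).trans (by simp)

/-- pointwise form: the levels between `M x` and `Φ (x + v)` are covered by runs -/
lemma ev_point {f M Φ : E → ℝ} (hfM : ∀ x, f x ≤ M x) (hΦM : ∀ x, Φ x ≤ M x) {Z D Ω : Set E}
    {m j1 : ℕ} {t0 : ℝ} {v x : E} (h1 : 1 ≤ j1) (h2 : j1 < m)
    (hZ : ∀ j ≤ m, x + (j : ℝ) • v ∈ Z ∩ Ω) (hD : ∀ j, j1 ≤ j → j ≤ m → x + (j : ℝ) • v ∈ D)
    (ht0 : Φ (x + v) ≤ t0) :
    ENNReal.ofReal (Φ (x + v) - M x) ≤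
      ∑' i, evLev M (evBtw Z Φ fun z => Φ (z + v)) v i x +
      ∑' i, evLev M (evBtw Ω (fun z => f (z + v)) f) v i x +
      ((m - j1 : ℕ) : ℝ≥0∞)⁻¹ * ∑' i, evLev M (evBtw D (fun _ => t0) f) v i x := by
  set Tc := evBtw Z Φ fun z => Φ (z + v) with hTc
  set Ta := evBtw Ω (fun z => f (z + v)) f with hTa
  set Tb := evBtw D (fun _ => t0) f with hTb
  have step : ∀ j : ℕ, x + (j : ℝ) • v + v = x + ((j + 1 : ℕ) : ℝ) • v := fun j => by
    push_cast; module
  set Y : Set ℝ := {t | ∀ j ∈ Finset.Ioc j1 m,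
    x ∈ evRun {y | t < M y} {y | (y, t) ∈ Tb} v j} with hY
  have cover : Ico (M x) (Φ (x + v)) ⊆
      ((⋃ i, {t : ℝ | x ∈ evRun {y | t < M y} {y | (y, t) ∈ Tc} v i}) ∪
      (⋃ i, {t : ℝ | x ∈ evRun {y | t < M y} {y | (y, t) ∈ Ta} v i})) ∪ Y := by
    intro t ht
    have hx0 : x ∉ {y | t < M y} := not_lt.2 ht.1
    by_cases g1 : ∃ j : ℕ, j ≤ m ∧ Φ (x + ((j + 1 : ℕ) : ℝ) • v) ≤ t
    · classical
      obtain ⟨a1, a2⟩ := Nat.find_spec g1
      have a3 : ∀ l : ℕ, 1 ≤ l → l ≤ Nat.find g1 → t < Φ (x + (l : ℝ) • v) := fun l b1 b2 => by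
        have := Nat.find_min g1 (m := l - 1) (by omega)
        rw [show l - 1 + 1 = l by omega] at this
        exact not_le.1 fun h => this ⟨by omega, h⟩
      have a4 : 1 ≤ Nat.find g1 := by
        rcases Nat.eq_zero_or_pos (Nat.find g1) with h | h
        · rw [h] at a2
          exact absurd ht.2 (not_lt.2 (by simpa using a2))
        · exact h
      refine Or.inl (Or.inl (mem_iUnion.2 ⟨Nat.find g1, hx0,
        fun l b1 b2 => (a3 l b1 b2).trans_le (hΦM _), (hZ _ a1).1, ?_, a3 _ a4 le_rfl⟩))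
      show Φ (x + _ + v) ≤ t
      rwa [step]
    · have a3 : ∀ l : ℕ, 1 ≤ l → l ≤ m → x + (l : ℝ) • v ∈ {y | t < M y} := fun l b1 b2 => by
        refine lt_of_lt_of_le (not_le.1 fun h => g1 ⟨l - 1, by omega, ?_⟩) (hΦM _)
        rwa [show l - 1 + 1 = l by omega]
      by_cases g2 : ∃ j : ℕ, j < m ∧ t < f (x + ((j + 1 : ℕ) : ℝ) • v)
      · classical
        obtain ⟨a1, a2⟩ := Nat.find_spec g2
        refine Or.inl (Or.inr (mem_iUnion.2 ⟨Nat.find g2, hx0, fun l b1 b2 => a3 l b1 (by omega),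
          (hZ _ a1.le).2, ?_, ?_⟩))
        · show f (x + _) ≤ t
          rcases Nat.eq_zero_or_pos (Nat.find g2) with h | h
          · rw [h]; simpa using (hfM x).trans ht.1
          · have := Nat.find_min g2 (m := Nat.find g2 - 1) (by omega)
            rw [show Nat.find g2 - 1 + 1 = Nat.find g2 by omega] at this
            exact not_lt.1 fun h' => this ⟨by omega, h'⟩
        · show t < f (x + _ + v)
          rwa [step]
      · refine Or.inr fun j hj => ?_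
        obtain ⟨b1, b2⟩ := Finset.mem_Ioc.1 hj
        refine ⟨hx0, fun l c1 c2 => a3 l c1 (by omega), hD j b1.le b2, ?_, ht.2.trans_le ht0⟩
        refine not_lt.1 fun h => g2 ⟨j - 1, by omega, ?_⟩
        rwa [show j - 1 + 1 = j by omega]
  have hY' : volume Y ≤ ((m - j1 : ℕ) : ℝ≥0∞)⁻¹ * ∑' i, evLev M Tb v i x := by
    have c1 : ((m - j1 : ℕ) : ℝ≥0∞) * volume Y ≤ ∑' i, evLev M Tb v i x := by
      refine le_trans ?_ (ENNReal.sum_le_tsum (Finset.Ioc j1 m))
      rw [← nsmul_eq_mul, ← Nat.card_Ioc]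
      exact Finset.card_nsmul_le_sum _ _ _ fun j hj => measure_mono fun t ht => ht j hj
    have c2 : ((m - j1 : ℕ) : ℝ≥0∞) ≠ 0 := Nat.cast_ne_zero.2 (by omega)
    calc volume Y = ((m - j1 : ℕ) : ℝ≥0∞)⁻¹ * (((m - j1 : ℕ) : ℝ≥0∞) * volume Y) := by
          rw [← mul_assoc, ENNReal.inv_mul_cancel c2 (ENNReal.natCast_ne_top _), one_mul]
      _ ≤ _ := mul_le_mul_right c1 _
  rw [← Real.volume_Ico]
  exact (measure_mono cover).trans ((measure_union_le _ _).trans (add_le_add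
    ((measure_union_le _ _).trans (add_le_add (measure_iUnion_le _) (measure_iUnion_le _))) hY'))

lemma ev_int {M : E → ℝ} (hM : Measurable M) {S : Set E} (hS : MeasurableSet S) {g g' : E → ℝ}
    (hg : Measurable g) (hg' : Measurable g') (v : E) :
    Measurable (fun x => ∑' i, evLev M (evBtw S g g') v i x) ∧
    ∫⁻ x, ∑' i, evLev M (evBtw S g g') v i x ∂μ ≤ ∫⁻ z in S, ENNReal.ofReal (g z - g' z) ∂μ := by
  have h := fun i => ev_mLev hM (ev_mBtw hS hg hg') v i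
  refine ⟨Measurable.tsum h, ?_⟩
  rw [lintegral_tsum fun i => (h i).aemeasurable]
  exact ev_lev_Btw μ hM hS hg hg' v

theorem blockEv {ι : Type*} (I : Finset ι) (v : E) {f M : E → ℝ} {Φ : ι → E → ℝ}
    {X Z D : ι → Set E} {Ω : Set E} {m j1 : ι → ℕ} {t : ι → ℝ} (hf : Measurable f)
    (hM : Measurable M) (hfM : ∀ x, f x ≤ M x) (hΦ : ∀ Q, Measurable (Φ Q))
    (hΦM : ∀ Q x, Φ Q x ≤ M x) (hX : ∀ Q, MeasurableSet (X Q)) (hZ : ∀ Q, MeasurableSet (Z Q))
    (hD : ∀ Q, MeasurableSet (D Q)) (hΩ : MeasurableSet Ω) (hj : ∀ Q ∈ I, 1 ≤ j1 Q ∧ j1 Q < m Q)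
    (hXZ : ∀ Q ∈ I, ∀ x ∈ X Q, ∀ j ≤ m Q, x + (j : ℝ) • v ∈ Z Q ∩ Ω)
    (hXD : ∀ Q ∈ I, ∀ x ∈ X Q, ∀ j, j1 Q ≤ j → j ≤ m Q → x + (j : ℝ) • v ∈ D Q)
    (ht : ∀ Q ∈ I, ∀ x ∈ X Q, Φ Q (x + v) ≤ t Q) :
    ∫⁻ x, ⨆ Q ∈ I, (X Q).indicator (fun x => ENNReal.ofReal (Φ Q (x + v) - M x)) x ∂μ ≤
      ∑ Q ∈ I, ∫⁻ z in Z Q, ENNReal.ofReal (Φ Q z - Φ Q (z + v)) ∂μ +
      ∫⁻ z in Ω, ENNReal.ofReal (f (z + v) - f z) ∂μ +
      ∑ Q ∈ I, ((m Q - j1 Q : ℕ) : ℝ≥0∞)⁻¹ * ∫⁻ z in D Q, ENNReal.ofReal (t Q - f z) ∂μ := by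
  have hc := fun Q => ev_int μ hM (hZ Q) (hΦ Q) (g' := fun z => Φ Q (z + v))
    ((hΦ Q).comp (measurable_add_const v)) v
  have ha := ev_int μ hM hΩ (g := fun z => f (z + v)) (hf.comp (measurable_add_const v)) hf v
  have hb := fun Q => ev_int μ hM (hD Q) (measurable_const (a := t Q)) hf v
  have mc := Finset.measurable_fun_sum I fun Q _ => (hc Q).1
  refine (lintegral_mono fun x => iSup₂_le fun Q hQ => ?_).trans
    (b := ∫⁻ x, (∑ Q ∈ I, ∑' i, evLev M (evBtw (Z Q) (Φ Q) fun z => Φ Q (z + v)) v i x +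
      ∑' i, evLev M (evBtw Ω (fun z => f (z + v)) f) v i x) +
      ∑ Q ∈ I, ((m Q - j1 Q : ℕ) : ℝ≥0∞)⁻¹ *
        ∑' i, evLev M (evBtw (D Q) (fun _ => t Q) f) v i x ∂μ) ?_
  · by_cases hx : x ∈ X Q
    · rw [indicator_of_mem hx]
      refine (ev_point hfM (hΦM Q) (hj Q hQ).1 (hj Q hQ).2 (hXZ Q hQ x hx) (hXD Q hQ x hx)
        (ht Q hQ x hx)).trans (add_le_add (add_le_add ?_ le_rfl) ?_)
      · exact Finset.single_le_sum (f := fun Q =>
          ∑' i, evLev M (evBtw (Z Q) (Φ Q) fun z => Φ Q (z + v)) v i x) (fun _ _ => zero_le) hQ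
      · exact Finset.single_le_sum (f := fun Q => ((m Q - j1 Q : ℕ) : ℝ≥0∞)⁻¹ *
          ∑' i, evLev M (evBtw (D Q) (fun _ => t Q) f) v i x) (fun _ _ => zero_le) hQ
    · rw [indicator_of_notMem hx]
      exact zero_le
  · rw [lintegral_add_left (mc.fun_add ha.1), lintegral_add_left mc,
      lintegral_finsetSum _ fun Q _ => (hc Q).1,
      lintegral_finsetSum _ fun Q _ => (hb Q).1.const_mul _]
    refine add_le_add (add_le_add (Finset.sum_le_sum fun Q _ => (hc Q).2) ha.2)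
      (Finset.sum_le_sum fun Q _ => ?_)
    rw [lintegral_const_mul _ (hb Q).1]
    exact mul_le_mul_right (hb Q).2 _

lemma ev_exists_net {δ : ℝ} (hδ : 0 < δ) :
    ∃ N : Finset E, (∀ v ∈ N, ‖v‖ = 1) ∧ ∀ n : E, ‖n‖ = 1 → ∃ v ∈ N, ‖v - n‖ ≤ δ := by
  obtain ⟨t, ht, hfin, hcov⟩ := (isCompact_sphere (0 : E) 1).finite_cover_balls hδ
  refine ⟨hfin.toFinset, fun v hv => by simpa using ht (hfin.mem_toFinset.1 hv), fun n hn => ?_⟩
  obtain ⟨v, hv, h⟩ := mem_iUnion₂.1 (hcov (show n ∈ sphere (0 : E) 1 by simpa using hn))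
  rw [mem_ball, dist_comm, dist_eq_norm] at h
  exact ⟨v, hfin.mem_toFinset.2 hv, h.le⟩

end Pool.Agent.MP_a25fb7_an.Cn

end

section
set_option autoImplicit false
set_option linter.unusedSectionVars false
open MeasureTheory Metric Set Module
open scoped ENNReal

namespace Pool.Agent.MP_a25fb7_an.Cn

variable {E : Type*} [NormedAddCommGroup E] [InnerProductSpace ℝ E] [FiniteDimensional ℝ E]
  [MeasurableSpace E] [BorelSpace E] (μ : Measure E) [μ.IsAddHaarMeasure]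

theorem cell_cont {f : E → ℝ} {g : E → E} {S K : ℝ} (h : Sm f g S K) : Continuous g :=
  (LipschitzWith.of_dist_le' (K := K) fun x y => by
    simpa only [dist_eq_norm] using h.lip x y).continuous

theorem cell_scale {f : E → ℝ} {g : E → E} {S K : ℝ} (h : Sm f g S K) (c : E) {r : ℝ}
    (hr : 0 < r) : Sm (fun y => r⁻¹ * f (c + r • y)) (fun y => g (c + r • y)) S (K * r) where
  cd := contDiff_const.mul (h.cd.comp (contDiff_const.add (contDiff_id.const_smul r)))
  gr x := by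
    have h1 : HasFDerivAt (fun y : E => c + r • y) (r • ContinuousLinearMap.id ℝ E) x :=
      ((hasFDerivAt_id x).const_smul r).const_add c
    have h2 := ((h.gr (c + r • x)).hasFDerivAt.comp x h1).const_mul r⁻¹
    rw [hasGradientAt_iff_hasFDerivAt]
    refine h2.congr_fderiv ?_
    ext v
    simp only [smul_apply, ContinuousLinearMap.comp_apply,
      ContinuousLinearMap.id_apply, map_smul, smul_eq_mul]
    rw [← mul_assoc, inv_mul_cancel₀ hr.ne', one_mul]
  bd x := h.bd _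
  lip x y := by
    refine (h.lip _ _).trans (le_of_eq ?_)
    rw [add_sub_add_left_eq_sub, ← smul_sub, norm_smul, Real.norm_of_nonneg hr.le, mul_assoc]

theorem cell_del {σ κ : ℕ → Measure E} {N : ℕ} (hF : Fam σ κ N) {g g' : E → E} {n : E}
    {W W' : ℝ} (hg : ∀ y ∈ ball (0 : E) 70, g y = g' y) (hW : W ≤ W') (hD : DelBd μ κ g n W) :
    DelBd μ κ g' n W' := by
  intro i
  refine le_trans (le_of_eq ?_) ((hD i).trans (by gcongr))
  refine setIntegral_congr_fun measurableSet_ball fun y hy => ?_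
  have e : gs κ g' i y = gs κ g i y := by
    refine integral_congr_ae ?_
    have h1 : ∀ᵐ u ∂κ i, u ∈ closedBall (0 : E) (2 * rho i) := hF.sk i
    filter_upwards [h1] with u hu
    refine (hg _ ?_).symm
    have h2 : rho i ≤ 1 := pow_le_one₀ (by norm_num) (by norm_num)
    rw [mem_ball_zero_iff] at hy ⊢
    rw [mem_closedBall_zero_iff] at hu
    linarith [norm_add_le y u]
  simp only [del, e]

theorem blockCell [Nontrivial E] : ∃ C : ℝ, 0 ≤ C ∧ ∀ {f : E → ℝ} {g : E → E} {S K : ℝ}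
    (Ω : Set E) (𝒬 : Finset (ℤ × E)) (n0 : ℕ) (η : ℝ), Sm f g S K → MeasurableSet Ω → μ Ω ≠ ∞ →
    0 < η → (∀ Q ∈ 𝒬, ball Q.2 (70 * (4 : ℝ) ^ Q.1) ⊆ Ω) →
    (∀ (k : ℤ) (y : E) (s : Finset (ℤ × E)), s ⊆ 𝒬 →
      (∀ Q ∈ s, Q.1 = k ∧ y ∈ ball Q.2 ((4 : ℝ) ^ k)) → s.card ≤ n0) →
    ∃ (n : ℤ × E → E) (W : ℤ × E → ℝ),
      (∀ Q ∈ 𝒬, ‖n Q‖ = 1 ∧ 0 ≤ W Q ∧ ∀ e : E, ‖e‖ = 1 → ‖e - n Q‖ ≤ 1 / 10 →
        CellOK μ (fun y => ((4 : ℝ) ^ Q.1)⁻¹ * f (Q.2 + (4 : ℝ) ^ Q.1 • y))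
          (fun y => g (Q.2 + (4 : ℝ) ^ Q.1 • y)) e (W Q)) ∧
      ∑ Q ∈ 𝒬, ((4 : ℝ) ^ Q.1) ^ finrank ℝ E * W Q ≤ C * n0 * ∫ y in Ω, ‖g y‖ ∂μ + η := by
  obtain ⟨CH, hCH, hH⟩ := blockH μ
  obtain ⟨CC, hCC, hCh⟩ := blockCh μ
  obtain ⟨CL, hCL, hL⟩ := blockLoc μ
  obtain ⟨C1, hC1⟩ : ∃ C1 : ℝ, C1 = 3 * CL + CC + 1 := ⟨_, rfl⟩
  have hC0 : 0 < C1 := by rw [hC1]; positivity
  refine ⟨C1 * CH, by positivity, ?_⟩
  intro f g S K Ω 𝒬 n0 η h hΩ hΩf hη hsub hov
  have hS : 0 ≤ S := (norm_nonneg _).trans (h.bd 0)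
  have hgc := cell_cont h
  have hgi : IntegrableOn g Ω μ :=
    Measure.integrableOn_of_bounded hΩf hgc.aestronglyMeasurable
      (Filter.Eventually.of_forall h.bd)
  obtain ⟨σ, κ, N, n, W, hQ, hsum⟩ := hH (Ω.indicator g) S 𝒬 n0 (hgc.measurable.indicator hΩ)
    (fun y => (norm_indicator_le_norm_self _ _).trans (h.bd y))
    ((integrable_indicator_iff hΩ).2 hgi) hov
  simp only [norm_indicator_eq_indicator_norm, integral_indicator hΩ] at hsum
  obtain ⟨δ, hδ⟩ : ∃ δ : ℤ × E → ℝ,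
      δ = fun Q => η / ((𝒬.card + 1) * C1 * ((4 : ℝ) ^ Q.1) ^ finrank ℝ E) := ⟨_, rfl⟩
  have hδ0 : ∀ Q, 0 < δ Q := fun Q => by rw [hδ]; positivity
  refine ⟨n, fun Q => C1 * (W Q + δ Q), fun Q hQm => ?_, ?_⟩
  · obtain ⟨hF, hn, hW, hD⟩ := hQ Q hQm
    have hW' : 0 < W Q + δ Q := add_pos_of_nonneg_of_pos hW (hδ0 Q)
    have hr : (0 : ℝ) < 4 ^ Q.1 := by positivity
    have hs := cell_scale h Q.2 hr
    have hD' : DelBd μ (κ Q) (fun y => g (Q.2 + (4 : ℝ) ^ Q.1 • y)) (n Q) (W Q + δ Q) := by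
      refine cell_del μ hF (fun y hy => indicator_of_mem (hsub Q hQm ?_) _)
        (le_add_of_nonneg_right (hδ0 Q).le) hD
      rw [mem_ball_zero_iff] at hy
      rw [mem_ball_iff_norm, add_sub_cancel_left, norm_smul, Real.norm_of_nonneg hr.le, mul_comm]
      exact mul_lt_mul_of_pos_right hy hr
    obtain ⟨q, β, hB⟩ := blockP μ hF hs.bd hs.lip hn hW'.le hD'
    refine ⟨hn, by positivity, fun e he hen => ⟨?_, ?_⟩⟩
    · obtain ⟨R, hR, hRi, hRx⟩ := hL hs hn he hen (by positivity) hB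
      refine ⟨R, hR, hRi.trans (ENNReal.ofReal_le_ofReal ?_), hRx⟩
      rw [hC1]
      linarith only [mul_nonneg hCC hW'.le, hW']
    · obtain ⟨t, ht, hti⟩ := hCh hF hs hn he hen hW'.le hD'
      refine ⟨t, ht, hti.trans (ENNReal.ofReal_le_ofReal ?_)⟩
      rw [hC1]
      linarith only [mul_nonneg hCL hW'.le, hW']
  · have e : ∀ Q : ℤ × E, ((4 : ℝ) ^ Q.1) ^ finrank ℝ E * (C1 * (W Q + δ Q)) =
        C1 * (((4 : ℝ) ^ Q.1) ^ finrank ℝ E * W Q) + η / (𝒬.card + 1) := fun Q => by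
      rw [hδ]
      field_simp
    simp only [e]
    rw [Finset.sum_add_distrib, ← Finset.mul_sum, Finset.sum_const, nsmul_eq_mul]
    have h1 : (𝒬.card : ℝ) * (η / (𝒬.card + 1)) ≤ η := by
      rw [← mul_div_assoc, div_le_iff₀ (by positivity)]
      linarith only [hη]
    have h2 := mul_le_mul_of_nonneg_left hsum hC0.le
    calc _ ≤ C1 * (CH * n0 * ∫ y in Ω, ‖g y‖ ∂μ) + η := add_le_add h2 h1
      _ = _ := by ring

end Pool.Agent.MP_a25fb7_an.Cn

end

section
set_option autoImplicit false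
set_option linter.unusedSectionVars false
open MeasureTheory Metric Set Module
open scoped ENNReal

namespace Pool.Agent.MP_a25fb7_an.Cn

variable {E : Type*} [NormedAddCommGroup E] [InnerProductSpace ℝ E] [FiniteDimensional ℝ E]
  [MeasurableSpace E] [BorelSpace E] (μ : Measure E) [μ.IsAddHaarMeasure]

theorem fin_cov {F : E → ℝ≥0∞} (hF : Measurable F) (c : E) {r : ℝ} (hr : 0 < r) :
    ∫⁻ x, F (r⁻¹ • (x - c)) ∂μ = ENNReal.ofReal (r ^ finrank ℝ E) * ∫⁻ y, F y ∂μ := by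
  rw [lintegral_sub_right_eq_self (fun x => F (r⁻¹ • x)) c,
    ← lintegral_map hF (measurable_const_smul r⁻¹), Measure.map_addHaar_smul μ (inv_ne_zero hr.ne'),
    lintegral_smul_measure, inv_pow, inv_inv, abs_of_pos (by positivity), smul_eq_mul]

theorem fin_cov_set {F : E → ℝ≥0∞} (hF : Measurable F) {A : Set E} (hA : MeasurableSet A) (c : E)
    {r : ℝ} (hr : 0 < r) :
    ∫⁻ x in (fun x => r⁻¹ • (x - c)) ⁻¹' A, F (r⁻¹ • (x - c)) ∂μ =
      ENNReal.ofReal (r ^ finrank ℝ E) * ∫⁻ y in A, F y ∂μ := by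
  have m : Measurable fun x : E => r⁻¹ • (x - c) := by fun_prop
  rw [← lintegral_indicator hA, ← fin_cov μ (hF.indicator hA) c hr, ← lintegral_indicator (m hA)]
  rfl

theorem fin_net : ∃ N : Finset E, ∀ n : E, ‖n‖ = 1 → ∃ v ∈ N, ‖v‖ = 1 ∧ ‖v - n‖ ≤ 1 / 10 := by
  obtain ⟨t, ht, hfin, hcov⟩ :=
    (isCompact_sphere (0 : E) 1).finite_cover_balls (show (0 : ℝ) < 1 / 10 by norm_num)
  refine ⟨hfin.toFinset, fun n hn => ?_⟩
  obtain ⟨v, hv, h⟩ := mem_iUnion₂.1 (hcov (show n ∈ sphere (0 : E) 1 by simpa using hn))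
  rw [mem_ball, dist_comm, dist_eq_norm] at h
  exact ⟨v, hfin.mem_toFinset.2 hv, by simpa using ht hv, h.le⟩

theorem fin_wd (e : E) : MeasurableSet (Wd e) := by
  unfold Wd
  measurability

theorem fin_mem_wd {e y : E} (he : ‖e‖ = 1) (hy : ‖y‖ ≤ 1) {τ : ℝ} (h1 : 20 ≤ τ) (h2 : τ ≤ 32) :
    y + τ • e ∈ Wd e := by
  have a1 : inner ℝ e (y + τ • e) = inner ℝ e y + τ := by
    rw [inner_add_right, inner_smul_right, real_inner_self_eq_norm_sq, he]; ring
  have a2 := abs_le.1 (abs_real_inner_le_norm e y)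
  rw [he, one_mul] at a2
  refine ⟨by rw [a1]; linarith, by rw [a1]; linarith, ?_⟩
  have a3 : y + τ • e - (inner ℝ e (y + τ • e) : ℝ) • e = y - (inner ℝ e y : ℝ) • e := by
    rw [a1]; module
  have a4 : ‖y - (inner ℝ e y : ℝ) • e‖ ^ 2 = ‖y‖ ^ 2 - inner ℝ e y ^ 2 := by
    rw [norm_sub_sq_real, inner_smul_right, norm_smul, he, real_inner_comm, Real.norm_eq_abs,
      mul_one, sq_abs]; ring
  rw [a3]
  nlinarith only [hy, a2, a4]

/-- `CellOK` in the original scale -/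
theorem fin_unscale {f : E → ℝ} {g : E → E} (hf : Measurable f) {e : E} (he : ‖e‖ = 1) (c : E)
    {r W : ℝ} (hr : 0 < r)
    (h : CellOK μ (fun y => r⁻¹ * f (c + r • y)) (fun y => g (c + r • y)) e W) :
    ∃ (R : E → ℝ≥0∞) (t : ℝ) (D : Set E), Measurable R ∧ MeasurableSet D ∧
      ∫⁻ x in ball c (40 * r), R x ∂μ ≤ ENNReal.ofReal (r ^ finrank ℝ E * W) ∧
      (∀ x ∈ ball c (40 * r), ∀ s ∈ Icc (r / 2) (8 * r),
        (∀ s' ∈ Icc (r / 2) (8 * r), avF μ f x s' ≤ avF μ f x s) →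
        ENNReal.ofReal (‖avF μ g x s‖ / 2 - inner ℝ e (avF μ g x s)) ≤ R x) ∧
      (∀ y ∈ ball c (2 * r), ∀ s ∈ Icc (r / 2) (8 * r), avF μ f y s ≤ t) ∧
      (∀ x ∈ ball c r, ∀ τ ∈ Icc (20 * r) (32 * r), x + τ • e ∈ D) ∧
      ∫⁻ z in D, ENNReal.ofReal (t - f z) ∂μ ≤
        ENNReal.ofReal r * ENNReal.ofReal (r ^ finrank ℝ E * W) := by
  obtain ⟨⟨R, mR, iR, hR⟩, t, ht, it⟩ := h
  have m : Measurable fun x : E => r⁻¹ • (x - c) := by fun_prop
  have e0 : ∀ x : E, c + r • r⁻¹ • (x - c) = x := fun x => by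
    rw [smul_inv_smul₀ hr.ne']; abel
  have e1 : ∀ (x z : E) (s : ℝ), c + r • (r⁻¹ • (x - c) + (s / r) • z) = x + s • z := fun x z s => by
    rw [smul_add, ← add_assoc, e0, smul_smul, mul_div_cancel₀ _ hr.ne']
  have ef : ∀ x s, avF μ (fun y => r⁻¹ * f (c + r • y)) (r⁻¹ • (x - c)) (s / r) =
      r⁻¹ * avF μ f x s := fun x s => by
    simp only [avF, e1, setAverage_eq, integral_const_mul, smul_eq_mul]; ring
  have eg : ∀ x s, avF μ (fun y => g (c + r • y)) (r⁻¹ • (x - c)) (s / r) = avF μ g x s :=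
    fun x s => by simp only [avF, e1]
  have eb : ∀ (x : E) (a : ℝ), r⁻¹ • (x - c) ∈ ball (0 : E) a ↔ x ∈ ball c (a * r) := fun x a => by
    rw [mem_ball_zero_iff, mem_ball_iff_norm, norm_smul, Real.norm_of_nonneg (by positivity),
      inv_mul_lt_iff₀ hr, mul_comm]
  have es : ∀ s : ℝ, s / r ∈ Icc (1 / 2 : ℝ) 8 ↔ s ∈ Icc (r / 2) (8 * r) := fun s => by
    rw [mem_Icc, mem_Icc, le_div_iff₀ hr, div_le_iff₀ hr, show 1 / 2 * r = r / 2 by ring]
  refine ⟨fun x => R (r⁻¹ • (x - c)), r * t, (fun x => r⁻¹ • (x - c)) ⁻¹' Wd e, mR.comp m,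
    m (fin_wd e), ?_, fun x hx s hs hm => ?_, fun y hy s hs => ?_, fun x hx τ hτ => ?_, ?_⟩
  · rw [show ball c (40 * r) = (fun x => r⁻¹ • (x - c)) ⁻¹' ball (0 : E) 40 from
      Set.ext fun x => (eb x 40).symm, fin_cov_set μ mR measurableSet_ball c hr,
      ENNReal.ofReal_mul (by positivity)]
    gcongr
  · rw [← eg]
    refine hR _ ((eb x 40).2 hx) _ ((es s).2 hs) fun s' hs' => ?_
    rw [← mul_div_cancel_right₀ s' hr.ne'] at hs' ⊢
    rw [ef, ef]
    exact mul_le_mul_of_nonneg_left (hm _ ((es _).1 hs')) (by positivity)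
  · have := ht _ ((eb y 2).2 hy) _ ((es s).2 hs)
    rwa [ef, inv_mul_le_iff₀ hr] at this
  · have a : r⁻¹ • (x + τ • e - c) = r⁻¹ • (x - c) + (τ / r) • e := by
      rw [div_eq_inv_mul]; module
    rw [mem_preimage, a]
    exact fin_mem_wd he (mem_ball_zero_iff.1 ((eb x 1).2 (by simpa using hx))).le
      ((le_div_iff₀ hr).2 hτ.1) ((div_le_iff₀ hr).2 hτ.2)
  · have mF : Measurable fun z : E => ENNReal.ofReal (t - r⁻¹ * f (c + r • z)) := by fun_prop
    have a := fin_cov_set μ mF (fin_wd e) c hr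
    simp only [e0] at a
    have b : ∀ z, ENNReal.ofReal (r * t - f z) =
        ENNReal.ofReal r * ENNReal.ofReal (t - r⁻¹ * f z) := fun z => by
      rw [← ENNReal.ofReal_mul hr.le, mul_sub, mul_inv_cancel_left₀ hr.ne']
    simp only [b]
    rw [lintegral_const_mul' _ _ ENNReal.ofReal_ne_top, a, ENNReal.ofReal_mul (by positivity)]
    gcongr

include μ in
theorem fin_up {f : E → ℝ} {g : E → E} {S K : ℝ} (h : Sm f g S K) (z v : E) :
    f (z + v) - f z ≤ ‖v‖ * ‖g z‖ + 2 * K * ‖v‖ ^ 2 := by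
  have a := avF_shift μ h (z + v) (-v) 0
  have h0 := (measure_ball_pos μ (0 : E) one_pos).ne'
  have h1 : μ (ball (0 : E) 1) ≠ ∞ := measure_ball_lt_top.ne
  simp only [avF, zero_smul, add_zero, setAverage_const h0 h1, add_neg_cancel_right, norm_neg,
    inner_neg_left] at a
  have b := real_inner_le_norm v (g (z + v))
  have c := h.lip (z + v) z
  rw [add_sub_cancel_left] at c
  have d := norm_le_insert' (g (z + v)) (g z)
  nlinarith only [norm_nonneg v, a, b, c, d]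

/-- the maximum over the radii of one scale -/
noncomputable def finPhi (f : E → ℝ) (r : ℝ) (x : E) : ℝ := sSup (avF μ f x '' Icc (r / 2) (8 * r))

theorem fin_phi {f : E → ℝ} (hf : Continuous f) {r : ℝ} (hr : 0 < r) :
    Continuous (finPhi μ f r) ∧ (∀ x, ∀ s ∈ Icc (r / 2) (8 * r), avF μ f x s ≤ finPhi μ f r x) ∧
      ∀ x, ∃ s ∈ Icc (r / 2) (8 * r), finPhi μ f r x = avF μ f x s := by
  have hc := continuous_avF μ hf
  have h1 : ∀ x, Continuous (avF μ f x) := fun x => hc.comp (Continuous.prodMk_right x)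
  refine ⟨isCompact_Icc.continuous_sSup hc, fun x s hs => le_csSup
    (isCompact_Icc.bddAbove_image (h1 x).continuousOn) (mem_image_of_mem _ hs), fun x => ?_⟩
  exact isCompact_Icc.exists_sSup_image_eq (nonempty_Icc.2 (by linarith)) (h1 x).continuousOn

theorem fin_K [Nontrivial E] {f : E → ℝ} {g : E → E} {S K : ℝ} (h : Sm f g S K) : 0 ≤ K := by
  obtain ⟨x, hx⟩ := exists_ne (0 : E)
  have := (norm_nonneg _).trans (h.lip x 0)
  rw [sub_zero] at this
  exact nonneg_of_mul_nonneg_left this (norm_pos_iff.2 hx)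

theorem fin_ofReal {ε a b c : ℝ} (hε : 0 ≤ ε) {R : ℝ≥0∞} (h : ENNReal.ofReal b ≤ R)
    (h' : a ≤ ε * b + c) : ENNReal.ofReal a ≤ ENNReal.ofReal ε * R + ENNReal.ofReal c := by
  refine (ENNReal.ofReal_le_ofReal h').trans (ENNReal.ofReal_add_le.trans ?_)
  rw [ENNReal.ofReal_mul hε]
  gcongr

/-- one direction and one step size -/
theorem fin_dir [Nontrivial E] {f M : E → ℝ} {g : E → E} {S K : ℝ} (h : Sm f g S K) {Ω : Set E}
    (hΩ : MeasurableSet Ω) (hM : Measurable M) (hfM : ∀ x, f x ≤ M x)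
    (hav : ∀ x s, 0 < s → avF μ f x s ≤ M x) {ι : Type*} (I : Finset ι) {c : ι → E} {r W : ι → ℝ}
    (hr : ∀ Q, 0 < r Q) (hsub : ∀ Q ∈ I, ball (c Q) (70 * r Q) ⊆ Ω) {e : E} (he : ‖e‖ = 1)
    (hc : ∀ Q ∈ I, CellOK μ (fun y => (r Q)⁻¹ * f (c Q + r Q • y)) (fun y => g (c Q + r Q • y)) e
      (W Q)) {ε : ℝ} (hε : 0 < ε) (hεr : ∀ Q ∈ I, 100 * ε ≤ r Q) :
    ∃ B : E → ℝ≥0∞, Measurable B ∧
      ∫⁻ x, B x ∂μ ≤ 6 * ∑ Q ∈ I, ENNReal.ofReal (r Q ^ finrank ℝ E * W Q) +
        2 * ∫⁻ y in Ω, ‖g y‖ₑ ∂μ + ENNReal.ofReal (K * ε) * (4 * (I.card + 1) * μ Ω) ∧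
      ∀ Q ∈ I, ∀ x ∈ ball (c Q) (r Q), ∀ s ∈ Icc (r Q) (4 * r Q),
        avF μ f x s = M x → ‖avF μ g x s‖ₑ ≤ B x := by
  classical
  have hf := h.cd.continuous
  have hK := fin_K h
  choose! R t D mR mD iR hR ht hD iD using fun Q hQ =>
    fin_unscale μ hf.measurable he (c Q) (hr Q) (hc Q hQ)
  set Φ : ι → E → ℝ := fun Q => finPhi μ f (r Q) with hΦ
  have cΦ := fun Q => (fin_phi μ hf (hr Q)).1
  have lΦ := fun Q => (fin_phi μ hf (hr Q)).2.1
  have eΦ := fun Q => (fin_phi μ hf (hr Q)).2.2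
  have ΦM : ∀ Q x, Φ Q x ≤ M x := fun Q x => by
    obtain ⟨s, hs, e⟩ := eΦ Q x
    exact e.trans_le (hav x s (lt_of_lt_of_le (half_pos (hr Q)) hs.1))
  set ν : ι → ℕ := fun Q => ⌈r Q / ε⌉₊ with hν
  have ν1 : ∀ Q, r Q ≤ ν Q * ε := fun Q => (div_le_iff₀ hε).1 (Nat.le_ceil _)
  have ν2 : ∀ Q, ν Q * ε ≤ r Q + ε := fun Q => by
    have := (Nat.ceil_lt_add_one (show 0 ≤ r Q / ε by have := hr Q; positivity)).le
    rw [div_add_one hε.ne', le_div_iff₀ hε] at this
    exact this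
  have ν0 : ∀ Q, 0 < ν Q := fun Q => Nat.ceil_pos.2 (div_pos (hr Q) hε)
  have nv : ‖ε • e‖ = ε := by rw [norm_smul, he, mul_one, Real.norm_of_nonneg hε.le]
  have h40 : ∀ Q ∈ I, ball (c Q) (40 * r Q) ⊆ Ω := fun Q hQ =>
    (ball_subset_ball (by linarith only [hr Q])).trans (hsub Q hQ)
  have ev := blockEv μ I (ε • e) (f := f) (M := M) (Φ := Φ) (X := fun Q => ball (c Q) (r Q))
    (Z := fun Q => ball (c Q) (40 * r Q)) (D := fun Q => if Q ∈ I then D Q else ∅) (Ω := Ω)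
    (m := fun Q => 30 * ν Q) (j1 := fun Q => 20 * ν Q) (t := t) hf.measurable hM hfM
    (fun Q => (cΦ Q).measurable) ΦM (fun _ => measurableSet_ball) (fun _ => measurableSet_ball)
    (fun Q => by split_ifs with hQ; exacts [mD Q hQ, MeasurableSet.empty]) hΩ
    (fun Q _ => by have := ν0 Q; constructor <;> omega)
    (fun Q hQ x hx j hj => by
      have a : x + (j : ℝ) • ε • e ∈ ball (c Q) (40 * r Q) := by
        have b : (j : ℝ) ≤ 30 * ν Q := by exact_mod_cast hj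
        rw [mem_ball_iff_norm] at hx ⊢
        rw [add_sub_right_comm]
        refine (norm_add_le _ _).trans_lt ?_
        rw [norm_smul, nv, Real.norm_natCast]
        nlinarith only [ν2 Q, hεr Q hQ, hε, hx, b]
      exact ⟨a, h40 Q hQ a⟩)
    (fun Q hQ x hx j hj hj' => by
      have b : (j : ℝ) ≤ 30 * ν Q := by exact_mod_cast hj'
      have b' : 20 * (ν Q : ℝ) ≤ j := by exact_mod_cast hj
      rw [if_pos hQ, smul_smul]
      exact hD Q hQ x hx _ ⟨by nlinarith only [ν1 Q, hε, b'], by nlinarith only [ν2 Q, hεr Q hQ, hε, b]⟩)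
    (fun Q hQ x hx => by
      obtain ⟨s, hs, e'⟩ := eΦ Q (x + ε • e)
      refine e'.trans_le (ht Q hQ _ ?_ s hs)
      rw [mem_ball_iff_norm] at hx ⊢
      rw [add_sub_right_comm]
      refine (norm_add_le _ _).trans_lt ?_
      rw [nv]
      linarith [hεr Q hQ])
  set A : E → ℝ≥0∞ := fun x => ⨆ Q ∈ I, (ball (c Q) (r Q)).indicator
    (fun x => ENNReal.ofReal (Φ Q (x + ε • e) - M x)) x with hA
  have mA : Measurable A := Measurable.biSup (I : Set ι) I.countable_toSet fun Q _ =>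
    ((((cΦ Q).measurable.comp (measurable_add_const _)).sub hM).ennreal_ofReal).indicator
      measurableSet_ball
  set ε' := ENNReal.ofReal ε with hε'
  set κ := ENNReal.ofReal (K * ε) with hκ
  have ε0 : ε' ≠ 0 := (ENNReal.ofReal_pos.2 hε).ne'
  have εt : ε' ≠ ∞ := ENNReal.ofReal_ne_top
  have eκ : ENNReal.ofReal (K * ε ^ 2) = ε' * κ := by
    rw [hε', hκ, ← ENNReal.ofReal_mul hε.le]; congr 1; ring
  set P : ι → ℝ≥0∞ := fun Q => ENNReal.ofReal (r Q ^ finrank ℝ E * W Q) with hP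
  have iR' : ∀ Q ∈ I, ∫⁻ x in ball (c Q) (40 * r Q), (R Q x + κ) ∂μ ≤ P Q + κ * μ Ω :=
    fun Q hQ => by
      rw [lintegral_add_right _ measurable_const, setLIntegral_const]
      exact add_le_add (iR Q hQ) (mul_le_mul_right (measure_mono (h40 Q hQ)) _)
  have sh : ∀ Q, ∀ x, ∀ s ∈ Icc (r Q / 2) (8 * r Q),
      avF μ f x s + ε * inner ℝ e (avF μ g x s) - K * ε ^ 2 ≤ Φ Q (x + ε • e) := fun Q x s hs => by
    have := avF_shift μ h x (ε • e) s
    rw [nv, real_inner_smul_left] at this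
    exact this.trans (lΦ Q _ s hs)
  have i1 : ∀ Q ∈ I, ∫⁻ z in ball (c Q) (40 * r Q), ENNReal.ofReal (Φ Q z - Φ Q (z + ε • e)) ∂μ ≤
      ε' * (P Q + κ * μ Ω) := fun Q hQ => by
    refine le_trans ?_ (mul_le_mul_right (iR' Q hQ) _)
    rw [← lintegral_const_mul' _ _ εt]
    refine setLIntegral_mono' measurableSet_ball fun z hz => ?_
    obtain ⟨s, hs, e'⟩ := eΦ Q z
    rw [mul_add, ← eκ]
    refine fin_ofReal hε.le (hR Q hQ z hz s hs fun s' hs' => (lΦ Q z s' hs').trans e'.le) ?_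
    have a : Φ Q z = avF μ f z s := e'
    nlinarith only [sh Q z s hs, norm_nonneg (avF μ g z s), hε, e']
  have i2 : ∫⁻ z in Ω, ENNReal.ofReal (f (z + ε • e) - f z) ∂μ ≤
      ε' * (∫⁻ y in Ω, ‖g y‖ₑ ∂μ + 2 * κ * μ Ω) := by
    rw [← setLIntegral_const, ← lintegral_add_right _ measurable_const,
      ← lintegral_const_mul' _ _ εt]
    refine lintegral_mono fun z => ?_
    have a := fin_up μ h z (ε • e)
    rw [nv] at a
    refine (fin_ofReal hε.le (ofReal_norm (g z)).le a).trans (le_of_eq ?_)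
    rw [mul_assoc, ENNReal.ofReal_mul zero_le_two, eκ, ENNReal.ofReal_ofNat]
    ring
  have i3 : ∀ Q ∈ I, ((30 * ν Q - 20 * ν Q : ℕ) : ℝ≥0∞)⁻¹ *
      ∫⁻ z in (if Q ∈ I then D Q else ∅), ENNReal.ofReal (t Q - f z) ∂μ ≤ ε' * P Q := fun Q hQ => by
    rw [if_pos hQ]
    refine (mul_le_mul_right (iD Q hQ) _).trans ?_
    rw [← mul_assoc]
    refine mul_le_mul_left ?_ _
    have a : (ν Q : ℝ≥0∞) ≤ ((30 * ν Q - 20 * ν Q : ℕ) : ℝ≥0∞) := Nat.cast_le.2 (by omega)
    refine (mul_le_mul_left (ENNReal.inv_le_inv.2 a) _).trans ?_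
    rw [ENNReal.inv_mul_le_iff (by simpa using (ν0 Q).ne') (by simp), ← ENNReal.ofReal_natCast,
      ← ENNReal.ofReal_mul (Nat.cast_nonneg _)]
    exact ENNReal.ofReal_le_ofReal (ν1 Q)
  have iA : ε'⁻¹ * ∫⁻ x, A x ∂μ ≤ ∑ Q ∈ I, (P Q + κ * μ Ω) +
      (∫⁻ y in Ω, ‖g y‖ₑ ∂μ + 2 * κ * μ Ω) + ∑ Q ∈ I, P Q := by
    rw [ENNReal.inv_mul_le_iff ε0 εt, mul_add, mul_add, Finset.mul_sum, Finset.mul_sum]
    exact ev.trans (add_le_add (add_le_add (Finset.sum_le_sum i1) i2) (Finset.sum_le_sum i3))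
  have mR' : ∀ Q ∈ I, Measurable ((ball (c Q) (40 * r Q)).indicator fun x => R Q x + κ) :=
    fun Q hQ => ((mR Q hQ).add_const _).indicator measurableSet_ball
  refine ⟨fun x => 2 * (ε'⁻¹ * A x +
    ∑ Q ∈ I, (ball (c Q) (40 * r Q)).indicator (fun x => R Q x + κ) x),
    ((mA.const_mul _).add (Finset.measurable_sum _ mR')).const_mul _, ?_, fun Q hQ x hx s hs hs' => ?_⟩
  · rw [lintegral_const_mul' _ _ (by simp), lintegral_add_left (mA.const_mul _),
      lintegral_const_mul _ mA, lintegral_finsetSum _ mR']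
    simp only [lintegral_indicator measurableSet_ball]
    refine (mul_le_mul_right (add_le_add iA (Finset.sum_le_sum iR')) _).trans (le_of_eq ?_)
    rw [Finset.sum_add_distrib, Finset.sum_const, nsmul_eq_mul]
    ring
  · have hs2 : s ∈ Icc (r Q / 2) (8 * r Q) :=
      ⟨by linarith only [hs.1, hr Q], by linarith [hs.2, hr Q]⟩
    have hx2 : x ∈ ball (c Q) (40 * r Q) := ball_subset_ball (by linarith [hr Q]) hx
    have a1 := hR Q hQ x hx2 s hs2 fun s' hs'' =>
      (hav x s' (lt_of_lt_of_le (half_pos (hr Q)) hs''.1)).trans hs'.ge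
    have a2 : ENNReal.ofReal (Φ Q (x + ε • e) - M x) ≤ A x :=
      le_trans (le_of_eq (by rw [indicator_of_mem hx])) (le_iSup₂_of_le Q hQ le_rfl)
    have a3 : R Q x + κ ≤ ∑ Q ∈ I, (ball (c Q) (40 * r Q)).indicator (fun x => R Q x + κ) x :=
      le_trans (le_of_eq (by rw [indicator_of_mem hx2])) (Finset.single_le_sum
        (f := fun Q => (ball (c Q) (40 * r Q)).indicator (fun x => R Q x + κ) x)
        (fun _ _ => zero_le) hQ)
    have a4 : ‖avF μ g x s‖ / 2 ≤ ε⁻¹ * (Φ Q (x + ε • e) - M x) +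
        (1 * (‖avF μ g x s‖ / 2 - inner ℝ e (avF μ g x s)) + K * ε) := by
      have b : inner ℝ e (avF μ g x s) - K * ε ≤ ε⁻¹ * (Φ Q (x + ε • e) - M x) := by
        rw [le_inv_mul_iff₀ hε]
        linarith only [sh Q x s hs2, hs']
      linarith
    have a5 := fin_ofReal (inv_pos.2 hε).le a2 a4
    rw [ENNReal.ofReal_inv_of_pos hε] at a5
    have a6 := fin_ofReal zero_le_one a1 (le_refl (1 * _ + K * ε))
    rw [ENNReal.ofReal_one, one_mul (R Q x)] at a6
    refine le_trans (le_of_eq ?_) (mul_le_mul_right (a5.trans (add_le_add le_rfl (a6.trans a3))) _)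
    rw [← ofReal_norm, ← ENNReal.ofReal_ofNat 2, ← ENNReal.ofReal_mul zero_le_two]
    congr 1
    ring

theorem blockFin [Nontrivial E] : ∃ C : ℝ, 0 ≤ C ∧ ∀ {f M : E → ℝ} {g : E → E} {S K : ℝ}
    (Ω : Set E) (𝒬 : Finset (ℤ × E)) (n0 : ℕ) (η : ℝ), Sm f g S K → MeasurableSet Ω → μ Ω ≠ ∞ →
    0 < η → Measurable M → (∀ x, f x ≤ M x) → (∀ x s, 0 < s → avF μ f x s ≤ M x) →
    (∀ Q ∈ 𝒬, ball Q.2 (70 * (4 : ℝ) ^ Q.1) ⊆ Ω) →
    (∀ (k : ℤ) (y : E) (s : Finset (ℤ × E)), s ⊆ 𝒬 →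
      (∀ Q ∈ s, Q.1 = k ∧ y ∈ ball Q.2 ((4 : ℝ) ^ k)) → s.card ≤ n0) →
    ∃ B : E → ℝ≥0∞, Measurable B ∧
      ∫⁻ x, B x ∂μ ≤ ENNReal.ofReal (C * (n0 + 1) * ∫ y in Ω, ‖g y‖ ∂μ + η) ∧
      ∀ Q ∈ 𝒬, ∀ x ∈ ball Q.2 ((4 : ℝ) ^ Q.1), ∀ s ∈ Icc ((4 : ℝ) ^ Q.1) (4 * (4 : ℝ) ^ Q.1),
        avF μ f x s = M x → ‖avF μ g x s‖ₑ ≤ B x := by
  classical
  obtain ⟨C, hC, hcell⟩ := blockCell μ
  obtain ⟨N, hN⟩ := fin_net (E := E)
  refine ⟨6 * C + 2 * N.card, by positivity, ?_⟩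
  intro f M g S K Ω 𝒬 n0 η h hΩ hΩf hη hM hfM hav hsub hov
  have hK := fin_K h
  obtain ⟨n, W, hQ, hsum⟩ := hcell Ω 𝒬 n0 (η / 12) h hΩ hΩf (by positivity) hsub hov
  choose! e eN e1 en using fun Q hq => hN (n Q) (hQ Q hq).1
  set Y : ℝ := K * (4 * (𝒬.card + 1) * μ.real Ω) * N.card with hY
  have hY0 : 0 ≤ Y := by positivity
  obtain ⟨ε, hε, hε1, hε2⟩ : ∃ ε : ℝ, 0 < ε ∧ (∀ Q ∈ 𝒬, 100 * ε ≤ (4 : ℝ) ^ Q.1) ∧
      ε * Y ≤ η / 2 := by
    have a : ∀ᶠ ε : ℝ in nhdsWithin 0 (Ioi 0), ∀ Q ∈ 𝒬, 100 * ε ≤ (4 : ℝ) ^ Q.1 :=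
      (Filter.eventually_all_finset _).2 fun Q _ => nhdsWithin_le_nhds
        ((by fun_prop : ContinuousAt (fun ε : ℝ => 100 * ε) 0).eventually_le_const (by
          simp only [mul_zero]; positivity))
    have b : ∀ᶠ ε : ℝ in nhdsWithin 0 (Ioi 0), ε * Y ≤ η / 2 := nhdsWithin_le_nhds
      ((by fun_prop : ContinuousAt (fun ε : ℝ => ε * Y) 0).eventually_le_const (by
        simp only [zero_mul]; positivity))
    exact ((eventually_mem_nhdsWithin.and (a.and b))).exists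
  set N' := N.filter fun u => ‖u‖ = 1 with hN'
  choose! B mB iB hB using fun u (hu : u ∈ N') => fin_dir μ h hΩ hM hfM hav
    (𝒬.filter fun Q => e Q = u) (c := fun Q => Q.2) (r := fun Q => (4 : ℝ) ^ Q.1) (W := W)
    (fun Q => by positivity) (fun Q hq => hsub Q (Finset.mem_filter.1 hq).1)
    (Finset.mem_filter.1 hu).2 (fun Q hq => by
      obtain ⟨a, rfl⟩ := Finset.mem_filter.1 hq
      exact (hQ Q a).2.2 _ (e1 Q a) (en Q a)) hε fun Q hq => hε1 Q (Finset.mem_filter.1 hq).1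
  have eN' : ∀ Q ∈ 𝒬, e Q ∈ N' := fun Q hq => Finset.mem_filter.2 ⟨eN Q hq, e1 Q hq⟩
  refine ⟨fun x => ∑ u ∈ N', B u x, Finset.measurable_sum _ mB, ?_, fun Q hq x hx s hs hs' =>
    (hB _ (eN' Q hq) Q (Finset.mem_filter.2 ⟨hq, rfl⟩) x hx s hs hs').trans
      (Finset.single_le_sum (f := fun u => B u x) (fun _ _ => zero_le) (eN' Q hq))⟩
  have hgi : IntegrableOn g Ω μ :=
    Measure.integrableOn_of_bounded hΩf (cell_cont h).aestronglyMeasurable
      (Filter.Eventually.of_forall h.bd)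
  set Γ := ∫ y in Ω, ‖g y‖ ∂μ with hΓ
  have hΓ0 : 0 ≤ Γ := integral_nonneg fun _ => norm_nonneg _
  have eΓ : ∫⁻ y in Ω, ‖g y‖ₑ ∂μ = ENNReal.ofReal Γ := (ofReal_integral_norm_eq_lintegral_enorm hgi).symm
  have cN : (N'.card : ℝ≥0∞) ≤ N.card := Nat.cast_le.2 (Finset.card_filter_le _ _)
  rw [lintegral_finsetSum _ mB]
  calc _ ≤ ∑ u ∈ N', (6 * ∑ Q ∈ 𝒬 with e Q = u,
          ENNReal.ofReal (((4 : ℝ) ^ Q.1) ^ finrank ℝ E * W Q) + (2 * ENNReal.ofReal Γ +
          ENNReal.ofReal (K * ε) * (4 * (𝒬.card + 1) * μ Ω))) := by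
        refine Finset.sum_le_sum fun u hu => (iB u hu).trans ?_
        rw [eΓ, add_assoc]
        gcongr
        exact Finset.filter_subset _ _
    _ ≤ 6 * ENNReal.ofReal (C * n0 * Γ + η / 12) + N.card * (2 * ENNReal.ofReal Γ +
          ENNReal.ofReal (K * ε) * (4 * (𝒬.card + 1) * μ Ω)) := by
        rw [Finset.sum_add_distrib, ← Finset.mul_sum, Finset.sum_fiberwise_of_maps_to eN',
          Finset.sum_const, nsmul_eq_mul, ← ENNReal.ofReal_sum_of_nonneg fun Q hq => by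
            have := (hQ Q hq).2.1; positivity]
        gcongr
    _ = ENNReal.ofReal (6 * (C * n0 * Γ + η / 12) + N.card * (2 * Γ +
          K * ε * (4 * (𝒬.card + 1) * μ.real Ω))) := by
        rw [← ofReal_measureReal hΩf]
        simp (disch := positivity) only [ENNReal.ofReal_add, ENNReal.ofReal_mul,
          ENNReal.ofReal_natCast, ENNReal.ofReal_ofNat, ENNReal.ofReal_one]
    _ ≤ _ := ENNReal.ofReal_le_ofReal (by
        have : (0 : ℝ) ≤ N.card * n0 * Γ := by positivity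
        have : (0 : ℝ) ≤ C * Γ := by positivity
        rw [hY] at hε2
        nlinarith)

end Pool.Agent.MP_a25fb7_an.Cn

end

section
set_option autoImplicit false
set_option linter.unusedSectionVars false
open MeasureTheory Metric Set Module
open scoped ENNReal

namespace Pool.Agent.MP_a25fb7_an.Cn

variable {E : Type*} [NormedAddCommGroup E] [InnerProductSpace ℝ E] [FiniteDimensional ℝ E]
  [MeasurableSpace E] [BorelSpace E] (μ : Measure E) [μ.IsAddHaarMeasure]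

/-- a countable covering by balls of radius `r` with bounded overlap -/
lemma thmg_grid {r : ℝ} (hr : 0 < r) : ∃ U : Set E, U.Countable ∧ (∀ z, ∃ u ∈ U, z ∈ ball u r) ∧
    ∀ (y : E) (s : Finset E), (∀ u ∈ s, u ∈ U ∧ y ∈ ball u r) → s.card ≤ 5 ^ finrank ℝ E := by
  classical
  obtain ⟨U, -, hdisj, hcov⟩ := Vitali.exists_disjoint_subfamily_covering_enlargement_ball
    (univ : Set E) (fun a => a) (fun _ => r / 4) (r / 4) (fun _ _ => le_rfl) 4 (by norm_num)
  refine ⟨U, hdisj.countable_of_isOpen (fun _ _ => isOpen_ball)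
    (fun a _ => nonempty_ball.2 (by positivity)), fun z => ?_, fun y s hs => ?_⟩
  · obtain ⟨b, hb, hsub⟩ := hcov z (mem_univ z)
    have hz := hsub (mem_ball_self (by positivity))
    rw [show 4 * (r / 4) = r by ring] at hz
    exact ⟨b, hb, hz⟩
  · have h2 : 0 < 2 / r := by positivity
    have hinj : Function.Injective fun u : E => (2 / r) • (u - y) := fun a b h =>
      sub_left_injective (smul_right_injective E h2.ne' h)
    rw [← Finset.card_image_of_injective s hinj]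
    refine Besicovitch.card_le_of_separated _ ?_ ?_
    · intro c hc
      obtain ⟨u, hu, rfl⟩ := Finset.mem_image.1 hc
      have h1 : ‖u - y‖ < r := by
        rw [← dist_eq_norm, dist_comm]
        exact (hs u hu).2
      rw [norm_smul, Real.norm_of_nonneg h2.le, div_mul_eq_mul_div, div_le_iff₀ hr]
      linarith only [h1]
    · intro c hc c' hc' hne
      obtain ⟨u, hu, rfl⟩ := Finset.mem_image.1 hc
      obtain ⟨u', hu', rfl⟩ := Finset.mem_image.1 hc'
      have h1 := (disjoint_ball_ball_iff (by positivity) (by positivity)).1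
        (hdisj (hs u hu).1 (hs u' hu').1 fun h => hne (by rw [h]))
      rw [← smul_sub, sub_sub_sub_cancel_right, norm_smul, Real.norm_of_nonneg h2.le,
        div_mul_eq_mul_div, le_div_iff₀ hr, ← dist_eq_norm]
      linarith only [h1]

/-- the average over a ball that lies in a comparable light ball -/
lemma thmg_light {g : E → E} {w : E → ℝ≥0∞} {L r s : ℝ} {x u : E} (hL : 0 < L) (hr : 0 < r)
    (hrs : r ≤ s) (hs : s ≤ 4 * r) (hx : x ∈ ball u r)
    (hg : ∀ y, ‖g y‖ₑ ≤ ENNReal.ofReal L + w y)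
    (hw : ∫⁻ y in ball u (70 * r), w y ∂μ ≤ ENNReal.ofReal L * μ (ball u (70 * r))) :
    ‖avF μ g x s‖ₑ ≤ ENNReal.ofReal ((1 + 70 ^ finrank ℝ E) * L) := by
  have hs0 : 0 < s := hr.trans_le hrs
  have hsub : ball x s ⊆ ball u (70 * r) := ball_subset_ball' (by linarith [mem_ball.1 hx])
  have h1 : μ (ball u (70 * r)) ≤ ENNReal.ofReal (70 ^ finrank ℝ E) * μ (ball x s) :=
    ball_le_mul μ u x (by norm_num) (by linarith)
  have h2 : ∫⁻ y in ball x s, ‖g y‖ₑ ∂μ ≤
      ENNReal.ofReal ((1 + 70 ^ finrank ℝ E) * L) * μ (ball x s) := by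
    refine (lintegral_mono hg).trans ?_
    rw [lintegral_add_left measurable_const, setLIntegral_const, add_mul, one_mul,
      ENNReal.ofReal_add hL.le (by positivity), add_mul, ENNReal.ofReal_mul (by positivity)]
    refine add_le_add le_rfl ((lintegral_mono_set hsub).trans (hw.trans ?_))
    rw [mul_comm (ENNReal.ofReal _) (ENNReal.ofReal L), mul_assoc]
    exact mul_le_mul_right h1 _
  have h0 : μ (ball x s) ≠ 0 := (ball_pos μ x hs0).ne'
  have ht : μ (ball x s) ≠ ∞ := ball_ne_top μ x s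
  have h3 : ‖(μ.real (ball x s))⁻¹‖ₑ = (μ (ball x s))⁻¹ := by
    rw [Real.enorm_of_nonneg (by positivity), measureReal_def, ENNReal.ofReal_inv_of_pos
      (ENNReal.toReal_pos h0 ht), ENNReal.ofReal_toReal ht]
  rw [avF_eq μ g x hs0, enorm_smul, h3]
  refine (mul_le_mul_right ((enorm_integral_le_lintegral_enorm _).trans h2) _).trans (le_of_eq ?_)
  rw [mul_comm, mul_assoc, ENNReal.mul_inv_cancel h0 ht, mul_one]

theorem thmG [Nontrivial E] : ∃ c C : ℝ, 0 ≤ c ∧ 0 ≤ C ∧ ∀ {f M : E → ℝ} {g : E → E} {S K L : ℝ}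
    {w : E → ℝ≥0∞}, Sm f g S K → Measurable w → 0 < L →
    (∀ y, ‖g y‖ₑ ≤ ENNReal.ofReal L + w y) → Measurable M → (∀ x, f x ≤ M x) →
    (∀ x s, 0 < s → avF μ f x s ≤ M x) →
    ∃ B : E → ℝ≥0∞, Measurable B ∧ ∫⁻ x, B x ∂μ ≤ ENNReal.ofReal C * ∫⁻ y, w y ∂μ ∧
      ∀ x s, 0 < s → avF μ f x s = M x → ‖avF μ g x s‖ₑ ≤ ENNReal.ofReal (c * L) + B x := by
  classical
  obtain ⟨C, hC, H⟩ := blockFin μ
  refine ⟨1 + 70 ^ finrank ℝ E,
    C * (((5 ^ finrank ℝ E : ℕ) : ℝ) + 1) * (4 ^ finrank ℝ E + 1) + 1, by positivity, by positivity,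
    ?_⟩
  intro f M g S K L w hsm hw hL hg hM hfM hav
  by_cases hI : ∫⁻ y, w y ∂μ = ∞
  · refine ⟨fun _ => ∞, measurable_const, ?_, fun x s _ _ => by simp only [add_top, le_top]⟩
    rw [hI, ENNReal.mul_top (ENNReal.ofReal_pos.2 (by positivity)).ne']
    exact le_top
  set Ω : Set E := {x | ENNReal.ofReal L < Mb μ 1 w x} with hΩ
  have mΩ : MeasurableSet Ω := measurableSet_lt measurable_const (measurable_Mb μ 1 w)
  have hweak := weak_Mb μ w (ENNReal.ofReal L)
  have hL' : ENNReal.ofReal L ≠ 0 := (ENNReal.ofReal_pos.2 hL).ne'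
  have hfin : μ Ω ≠ ∞ := by
    intro h
    rw [← hΩ, h, ENNReal.mul_top hL', top_le_iff] at hweak
    exact ENNReal.mul_ne_top ENNReal.ofReal_ne_top hI hweak
  have hgΩ : ENNReal.ofReal (∫ y in Ω, ‖g y‖ ∂μ) ≤
      ENNReal.ofReal (4 ^ finrank ℝ E + 1) * ∫⁻ y, w y ∂μ := by
    refine (Real.ofReal_le_enorm _).trans ((enorm_integral_le_lintegral_enorm _).trans ?_)
    simp only [enorm_norm]
    refine (lintegral_mono hg).trans ?_
    rw [lintegral_add_left measurable_const, setLIntegral_const,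
      ENNReal.ofReal_add (by positivity) zero_le_one, add_mul, ENNReal.ofReal_one, one_mul]
    exact add_le_add hweak (setLIntegral_le_lintegral _ _)
  choose U hU1 hU2 hU3 using fun k : ℤ => thmg_grid (E := E) (zpow_pos (by norm_num : (0 : ℝ) < 4) k)
  set 𝒜 : Set (ℤ × E) := {Q | Q.2 ∈ U Q.1 ∧ ball Q.2 (70 * (4 : ℝ) ^ Q.1) ⊆ Ω} with h𝒜
  have hc : 𝒜.Countable := by
    refine (countable_iUnion fun k : ℤ => (hU1 k).image (Prod.mk k)).mono fun Q hQ => ?_
    exact mem_iUnion.2 ⟨Q.1, Q.2, hQ.1, rfl⟩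
  obtain ⟨φ, hφ⟩ := countable_iff_exists_injOn.1 hc
  have hf : ∀ n : ℕ, {Q ∈ 𝒜 | φ Q ≤ n}.Finite := fun n =>
    Finite.of_injOn (f := φ) (t := Iic n) (fun Q hQ => hQ.2) (hφ.mono fun Q hQ => hQ.1)
      (finite_Iic n)
  have key := fun n : ℕ => H Ω (hf n).toFinset (5 ^ finrank ℝ E) (1 / ((n : ℝ) + 1)) hsm mΩ hfin
    (by positivity) hM hfM hav (fun Q hQ => ((hf n).mem_toFinset.1 hQ).1.2) (by
      intro k y s hs hQ
      have hinj : InjOn Prod.snd (s : Set (ℤ × E)) := fun a ha b hb h =>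
        Prod.ext ((hQ a ha).1.trans (hQ b hb).1.symm) h
      rw [← Finset.card_image_of_injOn hinj]
      refine hU3 k y _ fun u hu => ?_
      obtain ⟨Q, hQs, rfl⟩ := Finset.mem_image.1 hu
      have h1 := ((hf n).mem_toFinset.1 (hs hQs)).1.1
      rw [(hQ Q hQs).1] at h1
      exact ⟨h1, (hQ Q hQs).2⟩)
  choose B hB1 hB2 hB3 using key
  refine ⟨fun x => Filter.liminf (fun n => B n x) Filter.atTop, Measurable.liminf hB1, ?_, ?_⟩
  · refine (lintegral_liminf_le hB1).trans ?_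
    have hlim : Filter.Tendsto (fun n : ℕ => ENNReal.ofReal
        (C * (((5 ^ finrank ℝ E : ℕ) : ℝ) + 1) * ∫ y in Ω, ‖g y‖ ∂μ + 1 / ((n : ℝ) + 1)))
        Filter.atTop (nhds (ENNReal.ofReal
          (C * (((5 ^ finrank ℝ E : ℕ) : ℝ) + 1) * ∫ y in Ω, ‖g y‖ ∂μ + 0))) :=
      ENNReal.tendsto_ofReal (tendsto_const_nhds.add tendsto_one_div_add_atTop_nhds_zero_nat)
    refine (Filter.liminf_le_liminf (Filter.Eventually.of_forall hB2)).trans ?_
    rw [hlim.liminf_eq, add_zero, ENNReal.ofReal_mul (by positivity)]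
    refine (mul_le_mul_right hgΩ _).trans ?_
    rw [← mul_assoc, ← ENNReal.ofReal_mul (by positivity)]
    exact mul_le_mul_left (ENNReal.ofReal_le_ofReal (by linarith)) _
  · intro x s hs hx
    obtain ⟨k, hk1, hk2⟩ := exists_mem_Ico_zpow hs (by norm_num : (1 : ℝ) < 4)
    rw [zpow_add_one₀ (by norm_num), mul_comm] at hk2
    obtain ⟨u, hu, hxu⟩ := hU2 k x
    have hr : (0 : ℝ) < 4 ^ k := zpow_pos (by norm_num) k
    by_cases hin : ball u (70 * (4 : ℝ) ^ k) ⊆ Ω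
    · refine le_trans ?_ le_add_self
      refine Filter.le_liminf_of_le (by isBoundedDefault) ?_
      filter_upwards [Filter.eventually_ge_atTop (φ (k, u))] with n hn
      exact hB3 n (k, u) ((hf n).mem_toFinset.2 ⟨⟨hu, hin⟩, hn⟩) x hxu s ⟨hk1, hk2.le⟩ hx
    · obtain ⟨p, hp, hpΩ⟩ := not_subset.1 hin
      refine le_trans (thmg_light μ hL hr hk1 hk2.le hxu hg ?_) le_self_add
      exact (avg_le_iff μ (by positivity)).1 ((le_Mb μ 1 w hp).trans (not_lt.1 hpΩ))

end Pool.Agent.MP_a25fb7_an.Cn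

end

end

-- part MP_a25fb7_an.Cn.GlueB
section

/-!
The translation estimate for the centered maximal function, and the main theorem.
-/

set_option autoImplicit false
set_option linter.unusedSectionVars false
open MeasureTheory Metric Set Module Filter Topology
open scoped ENNReal Convolution

namespace Pool.Agent.MP_a25fb7_an.Cn

variable {E : Type*} [NormedAddCommGroup E] [InnerProductSpace ℝ E] [FiniteDimensional ℝ E]
  [MeasurableSpace E] [BorelSpace E] (μ : Measure E) [μ.IsAddHaarMeasure]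

lemma glue_aB {f : E → ℝ} (hf : Continuous f) (h0 : ∀ x, 0 ≤ f x) (x : E) {s : ℝ} (hs : 0 < s) :
    aB μ 1 (fun y => ENNReal.ofReal (f y)) x s = ENNReal.ofReal (avF μ f x s) := by
  rw [aB, lint_eq_ofReal μ hf h0, avF_eq μ f x hs, smul_eq_mul, ENNReal.rpow_one,
    ENNReal.ofReal_mul (by positivity), measureReal_def, ENNReal.ofReal_inv_of_pos (ENNReal.toReal_pos
      (ball_pos μ x hs).ne' (ball_ne_top μ x s)), ENNReal.ofReal_toReal (ball_ne_top μ x s)]

lemma glue_avF0 {F : Type*} [NormedAddCommGroup F] [NormedSpace ℝ F] [CompleteSpace F]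
    (f : E → F) (x : E) : avF μ f x 0 = f x := by
  simp only [avF, zero_smul, add_zero]
  exact setAverage_const (ball_pos μ 0 one_pos).ne' (ball_ne_top μ 0 1) _

/-- the translation estimate for smooth functions -/
lemma glue_smooth [Nontrivial E] : ∃ c C : ℝ≥0∞, c ≠ ∞ ∧ C ≠ ∞ ∧ ∀ {f : E → ℝ} {g : E → E}
    {S K T L : ℝ} {w : E → ℝ≥0∞} (h : E), Sm f g S K → (∀ x, 0 ≤ f x) → (∀ x, f x ≤ T) →
    ∫⁻ y, ENNReal.ofReal (f y) ∂μ ≠ ∞ → Measurable w → 0 ≤ L →
    (∀ y, ‖g y‖ₑ ≤ ENNReal.ofReal L + w y) →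
    ∫⁻ x, (Mc μ 1 (fun y => ENNReal.ofReal (f y)) (x + h) -
      (Mc μ 1 (fun y => ENNReal.ofReal (f y)) x + ENNReal.ofReal ‖h‖ * (c * ENNReal.ofReal L))) ∂μ ≤
      ENNReal.ofReal ‖h‖ * (C * ∫⁻ y, w y ∂μ) := by
  obtain ⟨c, C, hc, hC, hG⟩ := thmG μ
  refine ⟨ENNReal.ofReal (c + 1), ENNReal.ofReal C + 1, by finiteness, by finiteness, ?_⟩
  intro f g S K T L w h hS h0 hT hfin hw hL hg
  have cf : Continuous f := hS.cd.continuous
  set Φ : E → ℝ≥0∞ := fun y => ENNReal.ofReal (f y) with hΦ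
  have hMt : ∀ x, Mc μ 1 Φ x ≠ ∞ := fun x => by
    refine ne_top_of_le_ne_top (ENNReal.ofReal_ne_top (r := T)) (iSup₂_le fun r hr => ?_)
    rw [aB, avg_le_iff μ hr, ← setLIntegral_const]
    exact lintegral_mono fun y => ENNReal.ofReal_le_ofReal (hT y)
  set M : E → ℝ := fun x => (Mc μ 1 Φ x).toReal with hM
  have eM : ∀ x, Mc μ 1 Φ x = ENNReal.ofReal (M x) := fun x => (ENNReal.ofReal_toReal (hMt x)).symm
  have h1 : ∀ x s, 0 < s → avF μ f x s ≤ M x := fun x s hs => by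
    rw [← ENNReal.ofReal_le_ofReal_iff ENNReal.toReal_nonneg, ← glue_aB μ cf h0 x hs, ← eM]
    exact le_Mc μ 1 Φ x hs
  have hc1 : ∀ x, Continuous fun s => avF μ f x s := fun x =>
    (continuous_avF μ cf).comp (continuous_const.prodMk continuous_id)
  have h2 : ∀ x, f x ≤ M x := fun x => by
    rw [← glue_avF0 μ f x]
    exact le_of_tendsto (((hc1 x).tendsto 0).mono_left (nhdsWithin_le_nhds (s := Ioi 0)))
      (eventually_nhdsWithin_of_forall (h1 x))
  have h3 : ∀ x, ∃ s, 0 ≤ s ∧ avF μ f x s = M x := by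
    intro x
    rcases (h2 x).eq_or_lt with e | e
    · exact ⟨0, le_rfl, by rw [glue_avF0, e]⟩
    have : ENNReal.ofReal (f x) < Mc μ 1 Φ x := by
      rw [eM]; exact (ENNReal.ofReal_lt_ofReal_iff_of_nonneg (h0 x)).2 e
    simp only [Mc, lt_iSup_iff] at this
    obtain ⟨r, hr, h4⟩ := this
    obtain ⟨R, hR⟩ := eventually_atTop.1 (aB_small μ one_pos finrank_pos.ne' hfin x
      (zero_le.trans_lt h4).ne')
    obtain ⟨s, hs, hmax⟩ := isCompact_Icc.exists_isMaxOn (nonempty_Icc.2 (le_max_of_le_left hr.le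
      (c := R))) (hc1 x).continuousOn
    refine ⟨s, hs.1, le_antisymm ?_ ?_⟩
    · rcases hs.1.eq_or_lt with e' | e'
      · rw [← e', glue_avF0]; exact h2 x
      · exact h1 x s e'
    have hs0 : 0 ≤ avF μ f x s := by
      have := hmax (left_mem_Icc.2 (le_max_of_le_left hr.le (c := R)))
      simp only [mem_ofPred_eq, glue_avF0] at this
      exact (h0 x).trans this
    rw [← ENNReal.ofReal_le_ofReal_iff hs0, ← eM]
    have key : ∀ t, 0 < t → t ≤ max r R → aB μ 1 Φ x t ≤ ENNReal.ofReal (avF μ f x s) :=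
      fun t ht ht' => by
        rw [glue_aB μ cf h0 x ht]; exact ENNReal.ofReal_le_ofReal (hmax ⟨ht.le, ht'⟩)
    refine iSup₂_le fun t ht => ?_
    rcases le_total t (max r R) with a | a
    · exact key t ht a
    · exact (hR t ((le_max_right _ _).trans a)).le.trans (key r hr (le_max_left _ _))
  refine lint_le_of_approx μ fun t ht htt => ?_
  have ht0 : 0 < t.toReal := ENNReal.toReal_pos ht htt
  set τ := t.toReal / 2 / (‖h‖ * (c + 1) + 1) with hτ
  have hτ0 : 0 < τ := by positivity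
  obtain ⟨B, mB, hB1, hB2⟩ := hG (L := L + τ) hS hw (by linarith only [hL, hτ0])
    (fun y => (hg y).trans (add_le_add (ENNReal.ofReal_le_ofReal (by linarith only [hτ0])) le_rfl))
    (measurable_Mc μ 1 Φ).ennreal_toReal h2 h1
  have step : ∀ x v : E, Mc μ 1 Φ x ≤ Mc μ 1 Φ (x - v) + (ENNReal.ofReal ‖v‖ * (B x + w x) +
      ENNReal.ofReal (‖v‖ * ((c + 1) * (L + τ)) + |K| * ‖v‖ ^ 2)) := by
    intro x v
    obtain ⟨s, hs, e⟩ := h3 x
    have a1 : ‖avF μ g x s‖ₑ ≤ ENNReal.ofReal ((c + 1) * (L + τ)) + (B x + w x) := by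
      rcases hs.eq_or_lt with e' | e'
      · rw [← e', glue_avF0]
        exact (hg x).trans (add_le_add (ENNReal.ofReal_le_ofReal (by nlinarith only [hc, hL, hτ0])) le_add_self)
      · exact (hB2 x s e' e).trans
          (add_le_add (ENNReal.ofReal_le_ofReal (by linarith only [hL, hτ0])) le_self_add)
    have a2 : avF μ f (x - v) s ≤ M (x - v) := by
      rcases hs.eq_or_lt with e' | e'
      · rw [← e', glue_avF0]; exact h2 _
      · exact h1 _ s e'
    have a3 := avF_shift μ hS x (-v) s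
    rw [← sub_eq_add_neg, norm_neg, inner_neg_left, e] at a3
    have a4 : M x ≤ M (x - v) + (‖v‖ * ‖avF μ g x s‖ + |K| * ‖v‖ ^ 2) := by
      linarith only [real_inner_le_norm v (avF μ g x s), mul_le_mul_of_nonneg_right (le_abs_self K) (sq_nonneg ‖v‖), a2, a3]
    rw [eM, eM]
    refine (ENNReal.ofReal_le_ofReal a4).trans (ENNReal.ofReal_add_le.trans (add_le_add le_rfl
      (ENNReal.ofReal_add_le.trans ?_)))
    rw [ENNReal.ofReal_mul (norm_nonneg _), ofReal_norm (avF μ g x s), ENNReal.ofReal_add (by positivity)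
      (by positivity), ENNReal.ofReal_mul (norm_nonneg _), ← add_assoc, ← mul_add, add_comm (B x + w x)]
    exact add_le_add (mul_le_mul_right a1 _) le_rfl
  obtain ⟨n, hn⟩ := exists_nat_gt (|K| * ‖h‖ ^ 2 / (t.toReal / 2))
  have hn0 : (0 : ℝ) < n := lt_of_le_of_lt (by positivity) hn
  set v := (n : ℝ)⁻¹ • h with hv
  have e1 : ‖v‖ = ‖h‖ / n := by
    rw [hv, norm_smul, Real.norm_of_nonneg (by positivity), div_eq_inv_mul]
  have mΨ : ∀ j : ℕ, Measurable fun x => ENNReal.ofReal ‖v‖ *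
      (B (x + ((j + 1 : ℕ) : ℝ) • v) + w (x + ((j + 1 : ℕ) : ℝ) • v)) := fun j =>
    ((mB.add hw).comp (measurable_id.add_const _)).const_mul _
  refine ⟨fun x => ∑ j ∈ Finset.range n, ENNReal.ofReal ‖v‖ *
      (B (x + ((j + 1 : ℕ) : ℝ) • v) + w (x + ((j + 1 : ℕ) : ℝ) • v)), ∅,
    Finset.measurable_sum _ fun j _ => mΨ j, by simp, ?_, fun x _ => ?_⟩
  · rw [lintegral_finsetSum _ fun j _ => mΨ j]
    have : ∀ j : ℕ, ∫⁻ x, ENNReal.ofReal ‖v‖ *
        (B (x + ((j + 1 : ℕ) : ℝ) • v) + w (x + ((j + 1 : ℕ) : ℝ) • v)) ∂μ ≤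
        ENNReal.ofReal ‖v‖ * ((ENNReal.ofReal C + 1) * ∫⁻ y, w y ∂μ) := fun j => by
      rw [lintegral_const_mul' _ _ ENNReal.ofReal_ne_top,
        lintegral_add_right_eq_self (fun x => B x + w x), lintegral_add_left mB, add_mul, one_mul]
      exact mul_le_mul_right (add_le_add hB1 le_rfl) _
    refine (Finset.sum_le_sum fun j _ => this j).trans (le_of_eq ?_)
    rw [Finset.sum_const, Finset.card_range, nsmul_eq_mul, ← mul_assoc, ← ENNReal.ofReal_natCast,
      ← ENNReal.ofReal_mul hn0.le, e1, mul_div_cancel₀ _ hn0.ne']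
  have key : ∀ m : ℕ, Mc μ 1 Φ (x + (m : ℝ) • v) ≤ Mc μ 1 Φ x + (∑ j ∈ Finset.range m,
      ENNReal.ofReal ‖v‖ * (B (x + ((j + 1 : ℕ) : ℝ) • v) + w (x + ((j + 1 : ℕ) : ℝ) • v)) +
      m * ENNReal.ofReal (‖v‖ * ((c + 1) * (L + τ)) + |K| * ‖v‖ ^ 2)) := by
    intro m
    induction m with
    | zero => simp
    | succ m ih =>
      refine (step _ v).trans ?_
      rw [show x + ((m + 1 : ℕ) : ℝ) • v - v = x + (m : ℝ) • v by push_cast; module,
        Finset.sum_range_succ]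
      refine (add_le_add ih le_rfl).trans (le_of_eq ?_)
      rw [Nat.cast_succ (R := ℝ≥0∞)]; ring
  have k2 := key n
  rw [hv, smul_smul, mul_inv_cancel₀ hn0.ne', one_smul, ← hv] at k2
  rw [tsub_le_iff_left]
  refine k2.trans ?_
  rw [add_assoc, add_comm (ENNReal.ofReal ‖h‖ * _), add_assoc]
  refine add_le_add le_rfl (add_le_add le_rfl ?_)
  rw [← ENNReal.ofReal_natCast, ← ENNReal.ofReal_mul hn0.le, ← ENNReal.ofReal_toReal htt,
    ← ENNReal.ofReal_mul (by positivity), ← ENNReal.ofReal_mul (norm_nonneg _),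
    ← ENNReal.ofReal_add ht0.le (by positivity)]
  refine ENNReal.ofReal_le_ofReal ?_
  have b1 : ‖h‖ * (c + 1) * τ ≤ t.toReal / 2 := by
    rw [hτ, ← mul_div_assoc, div_le_iff₀ (by positivity)]; linarith only [ht0]
  have b2 : |K| * ‖h‖ ^ 2 / n ≤ t.toReal / 2 := by
    rw [div_lt_iff₀ (by positivity)] at hn
    rw [div_le_iff₀ hn0]; linarith only [hn]
  have b3 : n * (‖v‖ * ((c + 1) * (L + τ)) + |K| * ‖v‖ ^ 2) =
      ‖h‖ * ((c + 1) * L) + ‖h‖ * (c + 1) * τ + |K| * ‖h‖ ^ 2 / n := by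
    rw [e1]; field_simp
  linarith only [b1, b2, b3]

/-- smoothing of an integrable Lipschitz function -/
lemma glue_moll {u : E → ℝ} {γ : E → ℝ≥0∞} (hug : UG u γ) (h0 : ∀ x, 0 ≤ u x) {T : ℝ}
    (hT : ∀ x, u x ≤ T) (hu : Integrable u μ) {K : ℝ≥0∞} (hK : K ≠ ∞) (hγ : ∀ p, γ p ≤ K) {δ : ℝ}
    (hδ : 0 < δ) : ∃ (f : E → ℝ) (g : E → E) (S K' : ℝ), Sm f g S K' ∧ (∀ x, 0 ≤ f x) ∧
      (∀ x, f x ≤ T) ∧ ∀ x (A : ℝ≥0∞), (∀ p, dist p x ≤ δ → γ p ≤ A) →
        ‖g x‖ₑ ≤ A ∧ ENNReal.ofReal |f x - u x| ≤ ENNReal.ofReal δ * A := by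
  have cu := hug.continuous hK hγ
  let b : ContDiffBump (0 : E) := ⟨δ / 4, δ / 2, by positivity, by linarith⟩
  set φ := b.normed μ with hφ
  have c1 : HasCompactSupport φ := b.hasCompactSupport_normed
  have c2 : ContDiff ℝ (2 : ℕ∞) φ := b.contDiff_normed
  have c3 : ∀ t, φ t ≠ 0 → ‖t‖ < δ / 2 := fun t ht =>
    mem_ball_zero_iff.1 (b.support_normed_eq (μ := μ) ▸ ht)
  set f := u ⋆[ContinuousLinearMap.lsmul ℝ ℝ, μ] φ with hf
  have ef : ∀ x, f x = ∫ t, φ t * u (x - t) ∂μ := fun x => by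
    rw [hf, convolution_lsmul_swap]; simp only [smul_eq_mul, mul_comm]
  have d1 : ContDiff ℝ (2 : ℕ∞) f := c1.contDiff_convolution_right _ hu.locallyIntegrable c2
  have i1 : ∀ x, Integrable (fun t => φ t * u (x - t)) μ := fun x =>
    (c2.continuous.mul (cu.comp (continuous_sub_left x))).integrable_of_hasCompactSupport
      c1.mul_right
  have av : ∀ (a : E → ℝ) (r : ℝ), Integrable (fun t => φ t * a t) μ →
      (∀ t, ‖t‖ < δ / 2 → a t ≤ r) → ∫ t, φ t * a t ∂μ ≤ r := by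
    intro a r ha h
    refine (integral_mono ha (b.integrable_normed.mul_const r) fun t => ?_).trans
      (by rw [integral_mul_const, b.integral_normed, one_mul])
    by_cases ht : φ t = 0
    · simp [ht, ← hφ]
    · exact mul_le_mul_of_nonneg_left (h t (c3 t ht)) (b.nonneg_normed t)
  have av2 : ∀ (a a' : E → ℝ) (r : ℝ), Integrable (fun t => φ t * a t) μ →
      Integrable (fun t => φ t * a' t) μ → (∀ t, ‖t‖ < δ / 2 → |a t - a' t| ≤ r) →
      |∫ t, φ t * a t ∂μ - ∫ t, φ t * a' t ∂μ| ≤ r := by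
    intro a a' r ha ha' h
    rw [abs_sub_le_iff, ← integral_sub ha ha', ← integral_sub ha' ha]
    simp only [← mul_sub]
    exact ⟨av _ _ (by simp only [mul_sub]; exact ha.sub ha') fun t ht => (abs_le.1 (h t ht)).2,
      av _ _ (by simp only [mul_sub]; exact ha'.sub ha) fun t ht => by
        linarith only [(abs_le.1 (h t ht)).1]⟩
  have sg : ∀ {x y : E} {A : ℝ≥0∞}, A ≠ ∞ → (∀ p, dist p x ≤ dist y x → γ p ≤ A) →
      |u y - u x| ≤ A.toReal * dist y x := by
    intro x y A hA h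
    have := ENNReal.toReal_mono (ENNReal.mul_ne_top ENNReal.ofReal_ne_top hA) (hug.seg h)
    rwa [ENNReal.toReal_mul, ENNReal.toReal_ofReal (abs_nonneg _),
      ENNReal.toReal_ofReal dist_nonneg, mul_comm] at this
  have df : Differentiable ℝ f := d1.differentiable (by simp)
  have ng : ∀ x, ‖gradient f x‖ = ‖fderiv ℝ f x‖ := fun x => by simp [gradient]
  have gb : ∀ x (A : ℝ≥0∞), A ≠ ∞ → (∀ p, dist p x ≤ δ → γ p ≤ A) →
      ‖gradient f x‖ ≤ A.toReal := by
    intro x A hA h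
    rw [ng]
    refine (df x).hasFDerivAt.le_of_lip' ENNReal.toReal_nonneg ?_
    filter_upwards [ball_mem_nhds x (half_pos hδ)] with y hy
    rw [ef, ef, ← dist_eq_norm y x]
    refine av2 _ _ _ (i1 y) (i1 x) fun t ht => ?_
    rw [← dist_sub_right y x t]
    refine sg hA fun p hp => h p ?_
    have : dist (x - t) x = ‖t‖ := by simp
    rw [dist_sub_right] at hp
    linarith only [dist_triangle p (x - t) x, mem_ball.1 hy, ht, hp, this]
  obtain ⟨K1, hK1⟩ := ContDiff.lipschitzWith_of_hasCompactSupport (c1.fderiv ℝ)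
    (c2.fderiv_right (m := 1) (by norm_num)) one_ne_zero
  refine ⟨f, gradient f, K.toReal, K1 * ∫ t, ‖u t‖ ∂μ, ⟨by exact_mod_cast d1,
    fun x => (df x).hasGradientAt, fun x => gb x K hK fun p _ => hγ p, fun x y => ?_⟩,
    fun x => ?_, fun x => ?_, fun x A hA => ?_⟩
  · have e : ∀ z, fderiv ℝ f z = ∫ t, u t • fderiv ℝ φ (z - t) ∂μ := fun z =>
      (c1.hasFDerivAt_convolution_right _ hu.locallyIntegrable (c2.of_le (by norm_num)) z).fderiv
    have cd : Continuous (fderiv ℝ φ) := c2.continuous_fderiv (by simp)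
    have i2 : ∀ z, Integrable (fun t => u t • fderiv ℝ φ (z - t)) μ := fun z =>
      (cu.smul (cd.comp (continuous_sub_left z))).integrable_of_hasCompactSupport
        (((c1.fderiv ℝ).comp_homeomorph (Homeomorph.subLeft z)).smul_left)
    have e2 : ‖gradient f x - gradient f y‖ = ‖fderiv ℝ f x - fderiv ℝ f y‖ := by
      rw [gradient, gradient, ← map_sub, LinearIsometryEquiv.norm_map]
    rw [e2, e, e, ← integral_sub (i2 x) (i2 y), mul_right_comm, ← integral_const_mul]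
    refine norm_integral_le_of_norm_le (hu.norm.const_mul _) (Eventually.of_forall fun t => ?_)
    rw [← smul_sub, norm_smul, mul_comm]
    refine mul_le_mul_of_nonneg_right ?_ (norm_nonneg _)
    simpa using hK1.norm_sub_le (x - t) (y - t)
  · rw [ef]; exact integral_nonneg fun t => mul_nonneg (b.nonneg_normed t) (h0 _)
  · rw [ef]; exact av _ _ (i1 x) fun t _ => hT _
  rcases eq_or_ne A ∞ with rfl | hA'
  · rw [ENNReal.mul_top (ENNReal.ofReal_pos.2 hδ).ne']; exact ⟨le_top, le_top⟩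
  rw [← ENNReal.ofReal_toReal hA', ← ofReal_norm, ← ENNReal.ofReal_mul hδ.le]
  refine ⟨ENNReal.ofReal_le_ofReal (gb x A hA' hA), ENNReal.ofReal_le_ofReal ?_⟩
  have e : u x = ∫ t, φ t * u x ∂μ := by rw [integral_mul_const, b.integral_normed, one_mul]
  rw [ef, e]
  refine av2 _ _ _ (i1 x) (b.integrable_normed.mul_const _) fun t ht => ?_
  have : dist (x - t) x = ‖t‖ := by simp
  refine (sg hA' fun p hp => hA p (by linarith only [hδ, ht, this, hp])).trans ?_
  rw [mul_comm]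
  exact mul_le_mul_of_nonneg_right (by linarith) ENNReal.toReal_nonneg

/-- the translation estimate for the centered Hardy-Littlewood maximal function -/
theorem cshift_zero [Nontrivial E] : ∃ c C : ℝ≥0∞, c ≠ ∞ ∧ C ≠ ∞ ∧ ∀ {F : E → ℝ}
    {γ w : E → ℝ≥0∞} {L : ℝ} (h : E), AUG μ F γ → Measurable F → Measurable γ → Measurable w →
    ∫⁻ y, ENNReal.ofReal (F y) ∂μ ≠ ∞ → ∫⁻ y, γ y ∂μ ≠ ∞ → 0 ≤ L →
    (∀ y, γ y ≤ ENNReal.ofReal L + w y) →
    ∫⁻ x, (Mc μ 1 (fun y => ENNReal.ofReal (F y)) (x + h) -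
      (Mc μ 1 (fun y => ENNReal.ofReal (F y)) x + ENNReal.ofReal ‖h‖ * (c * ENNReal.ofReal L))) ∂μ ≤
      ENNReal.ofReal ‖h‖ * (C * ∫⁻ y, w y ∂μ) := by
  obtain ⟨c, C, hc, hC, hsm⟩ := glue_smooth μ
  set d := finrank ℝ E with hd
  refine ⟨c, C * ENNReal.ofReal (2 ^ d), hc, by finiteness, ?_⟩
  intro F γ w L h hug hF hγ hw hFt hγt hL0 hL
  set Φ : E → ℝ≥0∞ := fun y => ENNReal.ofReal (F y) with hΦ
  have mΦ : Measurable Φ := hF.ennreal_ofReal
  refine lint_le_of_approx μ fun t ht htt => ?_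
  set X := ENNReal.ofReal (4 ^ d) * ((1 + ENNReal.ofReal (2 ^ d)) * ∫⁻ y, γ y ∂μ) with hX
  have hXt : X ≠ ∞ := by finiteness
  have ht2 : t / 2 ≠ 0 := by simp [ht]
  have ht2' : t / 2 ≠ ∞ := ENNReal.div_ne_top htt two_ne_zero
  obtain ⟨δ', hδ', hδX⟩ := ENNReal.exists_nnreal_pos_mul_lt hXt (mul_ne_zero ht2 ht2)
  rw [← ENNReal.ofReal_coe_nnreal] at hδX
  set δ : ℝ := (δ' : ℝ) with hδd
  have hδ : 0 < δ := hδ'
  have hT := ENNReal.mul_ne_top (inv_ball_ne_top μ hδ) hFt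
  have hne : ∀ x, avE μ δ Φ x ≠ ∞ := fun x => ne_top_of_le_ne_top hT (avE_le μ δ _ x)
  have e : ∀ y, ENNReal.ofReal (avE μ δ Φ y).toReal = avE μ δ Φ y :=
    fun y => ENNReal.ofReal_toReal (hne y)
  obtain ⟨f, g, S, K, hS, h0, hfT, hf⟩ := glue_moll μ (hug.ug μ hF hγ hFt hδ)
    (fun _ => ENNReal.toReal_nonneg) (fun x => ENNReal.toReal_mono hT (avE_le μ δ _ x))
    (integrable_toReal_of_lintegral_ne_top (measurable_avE μ δ mΦ).aemeasurable
      (by rwa [lintegral_avE μ hδ mΦ])) (ENNReal.mul_ne_top (inv_ball_ne_top μ hδ) hγt)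
    (avE_le μ δ γ) hδ
  have h3 : ∀ y, avE μ δ γ y ≤ ENNReal.ofReal L + avE μ δ w y := by
    intro y
    refine (mul_le_mul_right (lintegral_mono fun p => hL (y + p)) _).trans (le_of_eq ?_)
    rw [lintegral_add_left measurable_const, mul_add, av_const μ hδ]
    rfl
  set D0 : E → ℝ≥0∞ := fun x => (μ (ball 0 δ))⁻¹ *
    ∫⁻ y in ball (0 : E) δ, ENNReal.ofReal |F (x + y) - F x| ∂μ with hD0
  have mD0 : Measurable (Function.uncurry fun x y : E => ENNReal.ofReal |F (x + y) - F x|) :=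
    ((hF.comp measurable_add).sub (hF.comp measurable_fst)).abs.ennreal_ofReal
  set D1 : E → ℝ≥0∞ := fun x => ENNReal.ofReal δ * (ENNReal.ofReal (2 ^ d) * avE μ (2 * δ) γ x)
    with hD1
  have mD1 : Measurable D1 := ((measurable_avE μ _ hγ).const_mul _).const_mul _
  have mD : Measurable fun x => D0 x + D1 x :=
    ((mD0.lintegral_prod_right' (ν := μ.restrict (ball 0 δ))).const_mul _).add mD1
  have iD1 : ∫⁻ x, D1 x ∂μ = ENNReal.ofReal δ * (ENNReal.ofReal (2 ^ d) * ∫⁻ y, γ y ∂μ) := by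
    rw [hD1, lintegral_const_mul' _ _ ENNReal.ofReal_ne_top,
      lintegral_const_mul' _ _ ENNReal.ofReal_ne_top, lintegral_avE μ (by linarith only [hδ']) hγ]
  have iD0 : ∫⁻ x, D0 x ∂μ ≤ ENNReal.ofReal δ * ∫⁻ y, γ y ∂μ := by
    rw [hD0, lintegral_const_mul' _ _ (inv_ball_ne_top μ hδ),
      lintegral_lintegral_swap mD0.aemeasurable, ← av_const μ hδ (ENNReal.ofReal δ * _)]
    refine mul_le_mul_right (setLIntegral_mono' measurableSet_ball fun y hy => ?_) _
    have := hug.transBd μ hγ y univ MeasurableSet.univ fun _ _ _ _ => mem_univ _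
    rw [Measure.restrict_univ] at this
    exact this.trans (mul_le_mul_left (ENNReal.ofReal_le_ofReal (mem_ball_zero_iff.1 hy).le) _)
  set N := Mb μ 1 fun x => D0 x + D1 x with hN
  have hS' : μ {x | t / 2 < N x} ≤ t / 2 := by
    refine (ENNReal.mul_le_mul_iff_right ht2 ht2').1 ((weak_Mb μ _ _).trans (le_trans ?_ hδX.le))
    rw [lintegral_add_right _ mD1, iD1]
    refine (mul_le_mul_right (add_le_add iD0 le_rfl) _).trans (le_of_eq ?_)
    rw [hX]; ring
  set Ψ : E → ℝ≥0∞ := fun y => ENNReal.ofReal (f y) with hΨ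
  have b0 := fun x => (hf x _ fun p hp => avE_near μ γ hp).2
  have b3 : ∀ y, Ψ y ≤ avE μ δ Φ y + D1 y := fun y => by
    rw [← e]; exact (ofReal_le_abs _ _).trans (add_le_add le_rfl (b0 y))
  have b1 : ∀ y, Φ y ≤ Ψ y + (D0 y + D1 y) := by
    intro y
    have a1 : avE μ δ Φ y ≤ Ψ y + D1 y := by
      rw [← e]
      refine (ofReal_le_abs _ (f y)).trans (add_le_add le_rfl ?_)
      rw [abs_sub_comm]; exact b0 y
    refine le_trans ?_ ((add_le_add a1 (le_refl (D0 y))).trans (le_of_eq (by ring)))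
    rw [← av_const μ hδ (Φ y), hD0, avE, ← mul_add]
    refine mul_le_mul_right (lint_le_add (mΦ.comp (measurable_const.add measurable_id))
      (Eventually.of_forall fun p => ?_)) _
    rw [abs_sub_comm]; exact ofReal_le_abs _ _
  have b2 : ∀ y, Ψ y ≤ Φ y + (D0 y + D1 y) := by
    intro y
    rw [← add_assoc]
    refine (b3 y).trans (add_le_add ?_ le_rfl)
    rw [← av_const μ hδ (Φ y), hD0, avE, ← mul_add, ← lintegral_add_left measurable_const]
    exact mul_le_mul_right (lintegral_mono fun p => ofReal_le_abs _ _) _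
  have step := hsm (w := fun y => ENNReal.ofReal (2 ^ d) * avE μ (2 * δ) w y) h hS h0 hfT
    (ne_top_of_le_ne_top (by rw [lintegral_avE μ hδ mΦ, iD1]; finiteness) (lint_le_add' mD1 b3))
    ((measurable_avE μ _ hw).const_mul _) hL0 fun y =>
    (hf y _ fun p hp => (h3 p).trans (add_le_add le_rfl (avE_near μ w hp))).1
  rw [lintegral_const_mul' _ _ ENNReal.ofReal_ne_top, lintegral_avE μ (by linarith only [hδ']) hw,
    ← mul_assoc C] at step
  refine ⟨fun x => Mc μ 1 Ψ (x + h) - (Mc μ 1 Ψ x + ENNReal.ofReal ‖h‖ * (c * ENNReal.ofReal L)),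
    {x | t / 2 < N x} ∪ (· + h) ⁻¹' {x | t / 2 < N x},
    ((measurable_Mc μ 1 _).comp (measurable_id.add_const h)).sub
      ((measurable_Mc μ 1 _).add_const _), ?_, step, fun x hx => ?_⟩
  · refine (measure_union_le _ _).trans ?_
    rw [measure_preimage_add_right]
    exact (add_le_add hS' hS').trans (ENNReal.add_halves t).le
  · rw [mem_union, not_or] at hx
    have a1 : N x ≤ t / 2 := not_lt.1 hx.1
    have a2 : N (x + h) ≤ t / 2 := not_lt.1 hx.2
    have c1 := (Mc_le_add μ 1 mD b1 (x + h)).trans (add_le_add le_rfl a2)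
    have c2 := (Mc_le_add μ 1 mD b2 x).trans (add_le_add le_rfl a1)
    rw [tsub_le_iff_right]
    refine c1.trans ((add_le_add ((le_tsub_add (a := Mc μ 1 Ψ x +
      ENNReal.ofReal ‖h‖ * (c * ENNReal.ofReal L))).trans (add_le_add le_rfl
      (add_le_add c2 le_rfl))) le_rfl).trans (le_of_eq ?_))
    beta_reduce
    generalize Mc μ 1 Ψ (x + h) - _ = A
    conv_rhs => rw [← ENNReal.add_halves t]
    ring

theorem cmain [Nontrivial E] {s : ℝ} (hs : 0 < s) (hs1 : s ≤ 1) :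
    ∃ C : ℝ≥0∞, C ≠ ∞ ∧ ∀ (f : E → ℝ) (g : E → E), Measurable f → Measurable g →
      Integrable f μ → Integrable g μ →
      (∀ φ : E → ℝ, ContDiff ℝ (⊤ : ℕ∞) φ → HasCompactSupport φ → ∀ v : E,
        ∫ x, f x * fderiv ℝ φ x v ∂μ = -∫ x, φ x * inner ℝ (g x) v ∂μ) →
      (∀ᵐ x ∂μ, Mc μ s (fun y => ‖f y‖ₑ) x < ∞) ∧
      LocallyIntegrable (fun x => (Mc μ s (fun y => ‖f y‖ₑ) x).toReal) μ ∧
      ∃ G : E → E, LocallyIntegrable G μ ∧
        (∀ φ : E → ℝ, ContDiff ℝ (⊤ : ℕ∞) φ → HasCompactSupport φ → ∀ v : E,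
          ∫ x, (Mc μ s (fun y => ‖f y‖ₑ) x).toReal * fderiv ℝ φ x v ∂μ =
            -∫ x, φ x * inner ℝ (G x) v ∂μ) ∧
        eLpNorm G (ENNReal.ofReal s⁻¹) μ ≤ C * eLpNorm g 1 μ := by
  have hfin : ∀ {Φ : E → ℝ≥0∞}, ∫⁻ y, Φ y ∂μ ≠ ∞ → ∀ᵐ x ∂μ, Mc μ s Φ x < ∞ := fun h => by
    filter_upwards [Mb_ae_lt_top μ hs hs1 h] with x hx using (Mc_le_Mb μ s _ x).trans_lt hx
  have hq1 : 1 ≤ s⁻¹ := (one_le_inv₀ hs).2 hs1
  have key : ∃ C : ℝ≥0∞, C ≠ ∞ ∧ ∀ (F : E → ℝ) (γ : E → ℝ≥0∞), AUG μ F γ → Measurable F →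
      Measurable γ → ∫⁻ y, ENNReal.ofReal (F y) ∂μ ≠ ∞ → ∫⁻ y, γ y ∂μ ≠ ∞ →
      (∀ h, eLpNorm (Dq (fun x => (Mc μ s (fun y => ENNReal.ofReal (F y)) x).toReal) h)
        (ENNReal.ofReal s⁻¹) μ ≤ 2 * (C * ∫⁻ y, γ y ∂μ)) ∧
      ∀ ε : ℝ≥0∞, ε ≠ 0 → ∃ L : ℝ, 0 ≤ L ∧ ∀ h, ∫⁻ x, ENNReal.ofReal
        (|Dq (fun x => (Mc μ s (fun y => ENNReal.ofReal (F y)) x).toReal) h x| - L) ∂μ ≤ ε := by
    rcases hs1.eq_or_lt with rfl | hs1'
    · obtain ⟨c, C, hc, hC, h⟩ := cshift_zero μ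
      refine ⟨C, hC, fun F γ hug hF hγ hFt hγt => ⟨fun v => ?_, fun ε hε => ?_⟩⟩
      · refine Dq_eLp μ (measurable_Mc μ _ _) (hfin hFt) hq1 (fun u => ?_) v
        simpa only [inv_one, ENNReal.rpow_one, ofReal_norm, ENNReal.ofReal_zero, mul_zero, add_zero] using h (L := 0) u hug hF hγ hγ hFt hγt le_rfl fun y => by simp
      · have h1 : Tendsto (fun n : ℕ => 2 * (C * ∫⁻ x, (γ x - n) ∂μ)) atTop (𝓝 (2 * (C * 0))) :=
          ENNReal.Tendsto.const_mul (ENNReal.Tendsto.const_mul (tail_small μ hγ hγt) (Or.inr hC))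
            (Or.inr (by simp))
        rw [mul_zero, mul_zero] at h1
        obtain ⟨n, hn⟩ := (h1.eventually (gt_mem_nhds (pos_iff_ne_zero.2 hε))).exists
        refine ⟨(c * n).toReal, ENNReal.toReal_nonneg, fun v => le_trans (Dq_equi μ
          (measurable_Mc μ _ _) (hfin hFt) ENNReal.toReal_nonneg (fun u => ?_) v)
          hn.le⟩
        rw [ENNReal.ofReal_toReal (ENNReal.mul_ne_top hc (ENNReal.natCast_ne_top n))]
        simpa only [ENNReal.ofReal_natCast] using h u hug hF hγ (hγ.sub_const n) hFt hγt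
          n.cast_nonneg fun y => by rw [ENNReal.ofReal_natCast]; exact le_add_tsub
    · obtain ⟨C, hC, h⟩ := cshift_frac μ hs hs1' finrank_pos.ne'
      refine ⟨C, hC, fun F γ hug hF hγ hFt hγt => ?_⟩
      have h1 := Dq_eLp μ (measurable_Mc μ _ _) (hfin hFt) hq1
        fun u => h u hF hFt (hug.transBd μ hγ)
      exact ⟨h1, equi_of_gt_one μ ((one_lt_inv₀ hs).2 hs1') (by finiteness) h1⟩
  obtain ⟨C, hC, key⟩ := key
  refine ⟨finrank ℝ E * (2 * C), by finiteness, fun f g mf mg hf hg hw => ?_⟩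
  have e : (fun y => ‖f y‖ₑ) = fun y => ENNReal.ofReal |f y| :=
    funext fun y => Real.enorm_eq_ofReal_abs _
  have hFt : ∫⁻ y, ENNReal.ofReal |f y| ∂μ ≠ ∞ := by rw [← e]; exact hf.2.ne
  obtain ⟨h1, h2⟩ := key _ _ (aug_of_weak μ mg hf hg hw) mf.abs mg.enorm hFt hg.2.ne
  obtain ⟨a1, G, a2, a3, a4⟩ := weak_grad' μ (measurable_Mc μ _ _).ennreal_toReal hq1
    (ENNReal.mul_ne_top (by simp) (ENNReal.mul_ne_top hC hg.2.ne)) h1 h2
  rw [e]
  refine ⟨hfin hFt, a1, G, a2, a3, a4.trans (le_of_eq ?_)⟩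
  rw [eLpNorm_one_eq_lintegral_enorm]; ring

end Pool.Agent.MP_a25fb7_an.Cn

end
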