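import Mathlib

-- part MP_a25fb7_an.Basic
section

/-!
Geometric measure lemmas on a finite dimensional Euclidean space: affine scaling, segments,
star-shaped unions of balls, half balls, grids of balls, the weak type (1,1) inequality.
-/

set_option autoImplicit false
set_option linter.unusedSectionVars false
open MeasureTheory Metric Set Module
open scoped ENNReal

namespace Pool.Agent.MP_a25fb7_an

variable {E : Type*} [NormedAddCommGroup E] [InnerProductSpace ℝ E] [FiniteDimensional ℝ E]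
  [MeasurableSpace E] [BorelSpace E] (μ : Measure E) [μ.IsAddHaarMeasure]

lemma aff_preimage (y : E) {σ : ℝ} (hσ : σ ≠ 0) (A : Set E) :
    μ {w | y + σ • w ∈ A} = ENNReal.ofReal |(σ ^ finrank ℝ E)⁻¹| * μ A := by
  have h : {w | y + σ • w ∈ A} = (σ • ·) ⁻¹' ((y + ·) ⁻¹' A) := rfl
  rw [h, Measure.addHaar_preimage_smul μ hσ, measure_preimage_add]

lemma ball_vol (x : E) {r : ℝ} (hr : 0 < r) :
    μ (ball x r) = ENNReal.ofReal (r ^ finrank ℝ E) * μ (ball 0 1) :=
  Measure.addHaar_ball_of_pos μ x hr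

lemma ball_pos (x : E) {r : ℝ} (hr : 0 < r) : 0 < μ (ball x r) := measure_ball_pos μ x hr

lemma ball_ne_top (x : E) (r : ℝ) : μ (ball x r) ≠ ∞ := measure_ball_lt_top.ne

lemma ball_real (x : E) {r : ℝ} (hr : 0 < r) :
    μ.real (ball x r) = r ^ finrank ℝ E * μ.real (ball 0 1) := by
  rw [measureReal_def, ball_vol μ x hr, ENNReal.toReal_mul, ENNReal.toReal_ofReal (by positivity),
    measureReal_def]

lemma unit_real_pos : 0 < μ.real (ball (0 : E) 1) :=
  ENNReal.toReal_pos (ball_pos μ 0 one_pos).ne' (ball_ne_top μ 0 1)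

/-- comparison of the volumes of two balls -/
lemma ball_le_mul (x y : E) {r s c : ℝ} (hc : 0 < c) (h : r ≤ c * s) :
    μ (ball x r) ≤ ENNReal.ofReal (c ^ finrank ℝ E) * μ (ball y s) := by
  calc μ (ball x r) ≤ μ (ball x (c * s)) := measure_mono (ball_subset_ball h)
    _ = _ := by
      rw [Measure.addHaar_ball_mul_of_pos μ x hc, Measure.addHaar_ball_center μ y s]

/-- integrating along translates of a segment -/
lemma seg_lintegral {Γ : E → ℝ≥0∞} (hΓ : Measurable Γ) {K A : Set E} (hK : MeasurableSet K)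
    (hA : MeasurableSet A) (u : E) (h : ∀ q ∈ A, ∀ t ∈ Ioo (0 : ℝ) 1, q + t • u ∈ K) :
    ∫⁻ q in A, (∫⁻ t in Ioo (0 : ℝ) 1, Γ (q + t • u)) ∂μ ≤ ∫⁻ y in K, Γ y ∂μ := by
  have hm : Measurable (Function.uncurry fun (q : E) (t : ℝ) => Γ (q + t • u)) :=
    hΓ.comp (measurable_fst.add (measurable_snd.smul_const u))
  rw [lintegral_lintegral_swap hm.aemeasurable]
  calc ∫⁻ t in Ioo (0 : ℝ) 1, ∫⁻ q in A, Γ (q + t • u) ∂μ
      ≤ ∫⁻ _ in Ioo (0 : ℝ) 1, ∫⁻ y in K, Γ y ∂μ := by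
        refine setLIntegral_mono' measurableSet_Ioo fun t ht => ?_
        rw [← lintegral_indicator hA, ← lintegral_indicator hK,
          ← lintegral_add_right_eq_self (K.indicator Γ) (t • u)]
        refine lintegral_mono fun q => ?_
        by_cases hq : q ∈ A
        · rw [indicator_of_mem hq, indicator_of_mem (h q hq t ht)]
        · rw [indicator_of_notMem hq]; exact zero_le
    _ = ∫⁻ y in K, Γ y ∂μ := by simp

lemma one_add_pow_le {x X : ℝ} (hx : 0 ≤ x) (hX : x ≤ X) (n : ℕ) :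
    (1 + x) ^ n ≤ 1 + x * (n * (1 + X) ^ n) := by
  induction n with
  | zero => simp
  | succ n ih =>
    have h1 : (1 + x) ^ n ≤ (1 + X) ^ n := pow_le_pow_left₀ (by linarith) (by linarith) n
    have h2 : (1 + X) ^ n ≤ (1 + X) ^ (n + 1) := pow_le_pow_right₀ (by linarith) (by omega)
    have h3 : (1 + x) ^ (n + 1) = (1 + x) ^ n + x * (1 + x) ^ n := by ring
    have h4 : x * (1 + x) ^ n ≤ x * (1 + X) ^ (n + 1) :=
      mul_le_mul_of_nonneg_left (h1.trans h2) hx
    have h5 : x * (n * (1 + X) ^ n) ≤ x * (n * (1 + X) ^ (n + 1)) :=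
      mul_le_mul_of_nonneg_left (mul_le_mul_of_nonneg_left h2 (Nat.cast_nonneg n)) hx
    push_cast
    nlinarith

/-- a set that is star-shaped with respect to a ball moves little under a small translation -/
lemma star_shift {W : Set E} (hW : MeasurableSet W) (hfin : μ W ≠ ∞) {z : E} {a : ℝ} (ha : 0 < a)
    (hstar : ∀ p ∈ W, ∀ q ∈ closedBall z a, ∀ t ∈ Icc (0 : ℝ) 1, (1 - t) • p + t • q ∈ W)
    (h : E) :
    μ {x | x + h ∈ W ∧ x ∉ W} ≤
      ENNReal.ofReal ((1 + ‖h‖ / a) ^ finrank ℝ E - 1) * μ W := by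
  set c : ℝ := 1 + ‖h‖ / a with hc
  have hc0 : 0 ≤ ‖h‖ / a := by positivity
  have hc1 : 1 ≤ c := by linarith
  have hcpos : 0 < c := by linarith
  have key : ∀ v : E, ‖v‖ ≤ ‖h‖ → ∀ x, x + v ∈ W → x ∈ AffineMap.homothety z c '' W := by
    intro v hv x hx
    by_cases h0 : ‖h‖ = 0
    · have hv0 : v = 0 := norm_le_zero_iff.1 (h0 ▸ hv)
      refine ⟨x, by simpa [hv0] using hx, ?_⟩
      simp [hc, h0]
    have hpos : 0 < ‖h‖ := lt_of_le_of_ne (norm_nonneg _) (Ne.symm h0)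
    have hq : z - (a / ‖h‖) • v ∈ closedBall z a := by
      rw [mem_closedBall, dist_eq_norm, sub_sub_cancel_left, norm_neg, norm_smul,
        Real.norm_of_nonneg (by positivity), div_mul_eq_mul_div, div_le_iff₀ hpos]
      exact mul_le_mul_of_nonneg_left hv ha.le
    have ht : (‖h‖ / a) / c ∈ Icc (0 : ℝ) 1 :=
      ⟨by positivity, by rw [div_le_one hcpos]; linarith⟩
    refine ⟨_, hstar _ hx _ hq _ ht, ?_⟩
    have e1 : c * (1 - ‖h‖ / a / c) = 1 := by field_simp; rw [hc]; field_simp; ring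
    have e2 : c * (‖h‖ / a / c) = c - 1 := by field_simp; rw [hc]; field_simp; ring
    have e3 : (c - 1) * (a / ‖h‖) = 1 := by rw [hc]; field_simp; ring
    simp only [AffineMap.homothety_apply, vsub_eq_sub, vadd_eq_add, smul_sub, smul_add, smul_smul,
      e2, ← mul_assoc, e3, one_smul, sub_smul]
    abel
  have h1 : {x | x + h ∈ W ∧ x ∉ W} ⊆ (AffineMap.homothety z c '' W) \ W :=
    fun x hx => ⟨key h le_rfl x hx.1, hx.2⟩
  have h2 : W ⊆ AffineMap.homothety z c '' W := fun x hx => key 0 (by simp) x (by simpa using hx)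
  refine (measure_mono h1).trans ?_
  rw [measure_sdiff h2 hW.nullMeasurableSet hfin, Measure.addHaar_image_homothety,
    abs_of_nonneg (by positivity), ENNReal.ofReal_sub _ zero_le_one, ENNReal.sub_mul (fun _ _ => hfin)]
  simp

/-- the part of a small ball centred in a big ball that lies outside the big ball -/
lemma half_ball {z y : E} {r s η : ℝ} (hy : y ∈ ball z r) (hs : 0 < s) (hη : 0 < η)
    (hη1 : η ≤ 1 / 2) (hsr : s ≤ η * r) :
    μ (ball y s \ ball z r) * 2 ≤ ENNReal.ofReal ((1 + η) ^ finrank ℝ E) * μ (ball y s) := by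
  have hr : 0 < r := pos_of_mem_ball hy
  by_cases hyz : y = z
  · have : ball y s \ ball z r = ∅ := by
      rw [sdiff_eq_empty, hyz]; exact ball_subset_ball (by nlinarith)
    simp [this]
  have hn0 : 0 < ‖y - z‖ := norm_pos_iff.2 (sub_ne_zero.2 hyz)
  set n : E := ‖y - z‖⁻¹ • (y - z) with hn
  have hn1 : ‖n‖ = 1 := by
    rw [hn, norm_smul, norm_inv, norm_norm, inv_mul_cancel₀ hn0.ne']
  set H : Set E := {u | u ∈ ball (0 : E) ((1 + η) * s) ∧ 0 < inner ℝ n u} with hH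
  set H' : Set E := {u | u ∈ ball (0 : E) ((1 + η) * s) ∧ inner ℝ n u < 0} with hH'
  have hH'm : MeasurableSet H' := by
    have h1 : IsOpen {u : E | inner ℝ n u < (0 : ℝ)} := isOpen_lt (by fun_prop) continuous_const
    exact (isOpen_ball.inter h1).measurableSet
  have e1 : μ H = μ H' := by
    have := aff_preimage μ (0 : E) (σ := -1) (by norm_num) H'
    rw [abs_inv, abs_pow] at this
    simp only [abs_neg, abs_one, one_pow, inv_one, ENNReal.ofReal_one, one_mul] at this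
    rw [← this]
    congr 1
    ext u
    simp [hH, hH', inner_neg_right]
  have e2 : μ H + μ H' ≤ μ (ball (0 : E) ((1 + η) * s)) := by
    rw [← measure_union _ hH'm]
    · exact measure_mono (union_subset (fun u hu => hu.1) (fun u hu => hu.1))
    · rw [Set.disjoint_left]
      intro u hu hu'
      exact absurd hu.2 (not_lt.2 hu'.2.le)
  have e3 : μ (ball y s \ ball z r) ≤ μ H := by
    rw [← measure_preimage_add μ ((η * s) • n - y) H]
    refine measure_mono fun p hp => ?_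
    obtain ⟨hp1, hp2⟩ := hp
    rw [mem_ball_iff_norm] at hp1 hy
    rw [mem_ball_iff_norm, not_lt] at hp2
    have hsum : p - z = (y - z) + (p - y) := by abel
    have hlow : r / 2 ≤ ‖y - z‖ := by
      have := norm_add_le (y - z) (p - y)
      rw [← hsum] at this
      nlinarith
    have hsq : ‖p - z‖ ^ 2 = ‖y - z‖ ^ 2 + 2 * inner ℝ (y - z) (p - y) + ‖p - y‖ ^ 2 := by
      rw [hsum, norm_add_sq_real]
    have hin : inner ℝ (y - z) (p - y) = ‖y - z‖ * inner ℝ n (p - y) := by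
      rw [hn, inner_smul_left]; simp only [conj_trivial]; field_simp
    have hp0 := norm_nonneg (p - y)
    have hA : ‖y - z‖ ^ 2 < ‖p - z‖ ^ 2 := by nlinarith
    have hB : ‖p - y‖ ^ 2 ≤ s * (η * r) := by nlinarith
    have hC : 0 < 2 * (‖y - z‖ * inner ℝ n (p - y)) + s * (η * r) := by linarith
    have hD : -(η * s) < inner ℝ n (p - y) := by
      by_contra hcon
      have h1 := mul_le_mul_of_nonneg_left (not_lt.1 hcon) hn0.le
      have h2 : 0 < η * s := by positivity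
      nlinarith
    have e : (η * s) • n - y + p = (η * s) • n + (p - y) := by abel
    refine ⟨?_, ?_⟩
    · change (η * s) • n - y + p ∈ ball (0 : E) ((1 + η) * s)
      rw [e, mem_ball_zero_iff]
      have := norm_add_le ((η * s) • n) (p - y)
      rw [norm_smul, hn1, Real.norm_of_nonneg (by positivity)] at this
      linarith
    · change 0 < inner ℝ n ((η * s) • n - y + p)
      rw [e, inner_add_right, inner_smul_right, real_inner_self_eq_norm_sq, hn1]
      linarith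
  calc μ (ball y s \ ball z r) * 2 ≤ μ H * 2 := by gcongr
    _ = μ H + μ H' := by rw [mul_two, ← e1]
    _ ≤ μ (ball (0 : E) ((1 + η) * s)) := e2
    _ ≤ _ := ball_le_mul μ 0 y (by linarith) le_rfl

/-- weak type (1,1) inequality for balls -/
lemma weak_type (w : E → ℝ≥0∞) (t : ℝ≥0∞) :
    t * μ {x | ∃ z r, x ∈ ball z r ∧ t * μ (ball z r) < ∫⁻ y in ball z r, w y ∂μ} ≤
      ENNReal.ofReal (4 ^ finrank ℝ E) * ∫⁻ y, w y ∂μ := by
  have key : ∀ n : ℕ, t * μ {x | ∃ z, ∃ r : ℝ, r ≤ n ∧ x ∈ ball z r ∧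
      t * μ (ball z r) < ∫⁻ y in ball z r, w y ∂μ} ≤
      ENNReal.ofReal (4 ^ finrank ℝ E) * ∫⁻ y, w y ∂μ := by
    intro n
    obtain ⟨u, hut, hdisj, hcov⟩ := Vitali.exists_disjoint_subfamily_covering_enlargement_ball
      {p : E × ℝ | 0 < p.2 ∧ p.2 ≤ n ∧ t * μ (ball p.1 p.2) < ∫⁻ y in ball p.1 p.2, w y ∂μ}
      Prod.fst Prod.snd n (fun a ha => ha.2.1) 4 (by norm_num)
    have hcount : u.Countable := hdisj.countable_of_isOpen (fun _ _ => isOpen_ball)
      (fun a ha => nonempty_ball.2 (hut ha).1)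
    have hsub : {x | ∃ z, ∃ r : ℝ, r ≤ n ∧ x ∈ ball z r ∧
        t * μ (ball z r) < ∫⁻ y in ball z r, w y ∂μ} ⊆ ⋃ b ∈ u, ball b.1 (4 * b.2) := by
      rintro x ⟨z, r, hr, hx, hlt⟩
      obtain ⟨b, hb, hsub⟩ := hcov (z, r) ⟨pos_of_mem_ball hx, hr, hlt⟩
      exact mem_biUnion hb (hsub hx)
    calc _ ≤ t * ∑' b : u, μ (ball b.1.1 (4 * b.1.2)) :=
          mul_le_mul_right ((measure_mono hsub).trans (measure_biUnion_le μ hcount _)) t
      _ = ∑' b : u, t * μ (ball b.1.1 (4 * b.1.2)) := ENNReal.tsum_mul_left.symm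
      _ ≤ ∑' b : u, ENNReal.ofReal (4 ^ finrank ℝ E) * ∫⁻ y in ball b.1.1 b.1.2, w y ∂μ := by
          refine ENNReal.tsum_le_tsum fun b => ?_
          have hb := hut b.2
          calc t * μ (ball b.1.1 (4 * b.1.2))
              ≤ t * (ENNReal.ofReal (4 ^ finrank ℝ E) * μ (ball b.1.1 b.1.2)) :=
                mul_le_mul_right (ball_le_mul μ _ _ (by norm_num) le_rfl) t
            _ = ENNReal.ofReal (4 ^ finrank ℝ E) * (t * μ (ball b.1.1 b.1.2)) := by ring
            _ ≤ _ := mul_le_mul_right hb.2.2.le _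
      _ = ENNReal.ofReal (4 ^ finrank ℝ E) * ∫⁻ y in ⋃ b ∈ u, ball b.1 b.2, w y ∂μ := by
          rw [ENNReal.tsum_mul_left,
            lintegral_biUnion hcount (fun _ _ => measurableSet_ball) hdisj]
      _ ≤ _ := mul_le_mul_right (setLIntegral_le_lintegral _ _) _
  have hU : {x | ∃ z r, x ∈ ball z r ∧ t * μ (ball z r) < ∫⁻ y in ball z r, w y ∂μ} =
      ⋃ n : ℕ, {x | ∃ z, ∃ r : ℝ, r ≤ n ∧ x ∈ ball z r ∧
        t * μ (ball z r) < ∫⁻ y in ball z r, w y ∂μ} := by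
    ext x
    simp only [mem_ofPred_eq, mem_iUnion]
    constructor
    · rintro ⟨z, r, hx, hlt⟩
      obtain ⟨n, hn⟩ := exists_nat_ge r
      exact ⟨n, z, r, hn, hx, hlt⟩
    · rintro ⟨n, z, r, -, hx, hlt⟩
      exact ⟨z, r, hx, hlt⟩
  rw [hU, Monotone.measure_iUnion, ENNReal.mul_iSup]
  · exact iSup_le key
  · rintro m n hmn x ⟨z, r, hr, hx⟩
    exact ⟨z, r, hr.trans (by exact_mod_cast hmn), hx⟩

include μ in
/-- a countable grid of balls of radius between `1` and `2`, of fineness `δ` -/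
lemma grid_exists {δ : ℝ} (hδ : 0 < δ) : ∃ J : Set (E × ℝ), J.Countable ∧
    (∀ j ∈ J, 1 ≤ j.2 ∧ j.2 ≤ 2) ∧
    (∀ (z : E) (r : ℝ), 1 ≤ r → r < 2 → ∃ j ∈ J, dist z j.1 < δ ∧ j.2 ≤ r ∧ r < j.2 + δ) ∧
    ∀ R : ℝ, ∃ n : ℝ≥0∞, n ≠ ∞ ∧ ∀ y : E,
      ∑' j : J, (ball y R).indicator (fun _ => (1 : ℝ≥0∞)) j.1.1 ≤ n := by
  classical
  obtain ⟨u, -, hdisj, hcov⟩ := Vitali.exists_disjoint_subfamily_covering_enlargement_ball
    (univ : Set E) (fun a => a) (fun _ => δ / 4) (δ / 4) (fun _ _ => le_rfl) 4 (by norm_num)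
  have hcount : u.Countable := hdisj.countable_of_isOpen (fun _ _ => isOpen_ball)
    (fun a _ => nonempty_ball.2 (by positivity))
  obtain ⟨N, hN⟩ := exists_nat_gt (1 / δ)
  let T : Finset ℝ := ((Finset.range (N + 1)).image fun i : ℕ => 1 + i * δ).filter (· ≤ 2)
  refine ⟨u ×ˢ (T : Set ℝ), hcount.prod T.countable_toSet, ?_, ?_, ?_⟩
  · rintro ⟨s, t⟩ ⟨-, ht⟩
    simp only [T, Finset.coe_filter, Finset.mem_image, mem_ofPred_eq] at ht
    obtain ⟨⟨i, -, rfl⟩, h2⟩ := ht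
    exact ⟨by have : 0 ≤ (i : ℝ) * δ := by positivity
              linarith, h2⟩
  · intro z r hr1 hr2
    obtain ⟨b, hb, hsub⟩ := hcov z (mem_univ z)
    have hz := hsub (mem_ball_self (by positivity))
    set i := ⌊(r - 1) / δ⌋₊ with hi
    have h0 : 0 ≤ (r - 1) / δ := div_nonneg (by linarith) hδ.le
    have h1 : (i : ℝ) ≤ (r - 1) / δ := Nat.floor_le h0
    have h2 : (r - 1) / δ < i + 1 := Nat.lt_floor_add_one _
    rw [le_div_iff₀ hδ] at h1
    rw [div_lt_iff₀ hδ] at h2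
    have h3 : i < N + 1 := by
      have : (i : ℝ) < N := by
        rw [div_lt_iff₀ hδ] at hN
        by_contra hcon
        have := mul_le_mul_of_nonneg_right (not_lt.1 hcon) hδ.le
        linarith
      have : i < N := by exact_mod_cast this
      omega
    refine ⟨(b, 1 + i * δ), ⟨hb, ?_⟩, ?_, by simp only; linarith, by simp only; linarith⟩
    · simp only [T, Finset.coe_filter, Finset.mem_image, mem_ofPred_eq]
      exact ⟨⟨i, Finset.mem_range.2 h3, rfl⟩, by linarith⟩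
    · have : dist z b < 4 * (δ / 4) := hz
      simp only; linarith
  · intro R
    have hv := (ball_pos μ (0 : E) (r := δ / 4) (by positivity)).ne'
    refine ⟨T.card * (μ (ball 0 (R + δ)) / μ (ball 0 (δ / 4))), ?_, fun y => ?_⟩
    · exact ENNReal.mul_ne_top (ENNReal.natCast_ne_top _) (ENNReal.div_ne_top (ball_ne_top μ _ _) hv)
    have h1 : ∑' s : u, (ball y R).indicator (fun _ => (1 : ℝ≥0∞)) s.1 ≤
        μ (ball 0 (R + δ)) / μ (ball 0 (δ / 4)) := by
      rw [ENNReal.le_div_iff_mul_le (Or.inl hv) (Or.inl (ball_ne_top μ _ _)),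
        ← ENNReal.tsum_mul_right]
      have h2 : ∀ s : u, (ball y R).indicator (fun _ => (1 : ℝ≥0∞)) s.1 * μ (ball 0 (δ / 4)) ≤
          ∫⁻ p in ball s.1 (δ / 4), (ball y (R + δ)).indicator 1 p ∂μ := by
        intro s
        by_cases hs : s.1 ∈ ball y R
        · rw [indicator_of_mem hs, one_mul, lintegral_indicator_one measurableSet_ball,
            Measure.restrict_apply measurableSet_ball, ← Measure.addHaar_ball_center μ s.1]
          refine measure_mono fun p hp => ⟨?_, hp⟩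
          rw [mem_ball] at *
          linarith [dist_triangle p s.1 y]
        · rw [indicator_of_notMem hs, zero_mul]; exact zero_le
      refine (ENNReal.tsum_le_tsum h2).trans ?_
      rw [← lintegral_biUnion hcount (fun _ _ => measurableSet_ball) hdisj]
      refine (setLIntegral_le_lintegral _ _).trans ?_
      rw [lintegral_indicator_one measurableSet_ball, Measure.addHaar_ball_center]
    rw [← (Equiv.Set.prod u (T : Set ℝ)).symm.tsum_eq, ENNReal.tsum_prod']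
    calc ∑' (a : u) (b : (T : Set ℝ)), (ball y R).indicator (fun _ => (1 : ℝ≥0∞))
          ((Equiv.Set.prod u (T : Set ℝ)).symm (a, b)).1.1
        = ∑' (a : u), T.card * (ball y R).indicator (fun _ => (1 : ℝ≥0∞)) a.1 := by
          refine tsum_congr fun a => ?_
          have : ∀ b : (T : Set ℝ), ((Equiv.Set.prod u (T : Set ℝ)).symm (a, b)).1.1 = a.1 :=
            fun _ => rfl
          simp only [this]
          rw [Finset.tsum_subtype' T (fun _ => (ball y R).indicator (fun _ => (1 : ℝ≥0∞)) a.1)]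
          simp
      _ ≤ _ := by rw [ENNReal.tsum_mul_left]; gcongr

end Pool.Agent.MP_a25fb7_an

end

-- part MP_a25fb7_an.Thin
section

/-!
The non-monotonicity defect at a scale, thin points, and the summation over dyadic scales.
-/

set_option autoImplicit false
set_option linter.unusedSectionVars false
open MeasureTheory Metric Set Module
open scoped ENNReal

namespace Pool.Agent.MP_a25fb7_an

variable {E : Type*} [NormedAddCommGroup E] [InnerProductSpace ℝ E] [FiniteDimensional ℝ E]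
  [MeasurableSpace E] [BorelSpace E] (μ : Measure E) [μ.IsAddHaarMeasure]

/-- defect in the triangle inequality for the three values `f (y - u)`, `f y`, `f (y + u)` -/
noncomputable def dfc (f : E → ℝ) (u y : E) : ℝ≥0∞ :=
  ENNReal.ofReal (|f (y + u) - f y| + |f (y - u) - f y| - |f (y + u) - f (y - u)|)

/-- average defect at scale `σ` -/
noncomputable def Qn (f : E → ℝ) (σ : ℝ) (y : E) : ℝ≥0∞ :=
  (μ (ball 0 1))⁻¹ * ∫⁻ w in ball (0 : E) 1, dfc f (σ • w) y ∂μ

/-- points whose `σ`-ball lies in `Ω` -/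
def core (Ω : Set E) (σ : ℝ) : Set E := {y | ball y σ ⊆ Ω}

lemma isClosed_core (Ω : Set E) (σ : ℝ) : IsClosed (core Ω σ) := by
  rw [← isOpen_compl_iff]
  have : (core Ω σ)ᶜ = ⋃ x ∈ Ωᶜ, ball x σ := by
    ext y
    simp only [core, mem_compl_iff, mem_ofPred_eq, not_subset, mem_iUnion, mem_ball, exists_prop]
    constructor
    · rintro ⟨x, hx, hx'⟩; exact ⟨x, hx', by rwa [dist_comm]⟩
    · rintro ⟨x, hx, hx'⟩; exact ⟨x, by rwa [dist_comm], hx⟩
  rw [this]
  exact isOpen_biUnion fun _ _ => isOpen_ball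

lemma measurable_dfc {f : E → ℝ} (hf : Measurable f) (σ : ℝ) :
    Measurable (fun p : E × E => dfc f (σ • p.2) p.1) := by
  unfold dfc
  have h1 : Measurable (fun p : E × E => f (p.1 + σ • p.2)) :=
    hf.comp (measurable_fst.add (measurable_snd.const_smul σ))
  have h2 : Measurable (fun p : E × E => f (p.1 - σ • p.2)) :=
    hf.comp (measurable_fst.sub (measurable_snd.const_smul σ))
  have h3 : Measurable (fun p : E × E => f p.1) := hf.comp measurable_fst
  exact ((((h1.sub h3).abs).add (h2.sub h3).abs).sub (h1.sub h2).abs).ennreal_ofReal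

lemma measurable_Qn {f : E → ℝ} (hf : Measurable f) (σ : ℝ) : Measurable (Qn μ f σ) :=
  ((measurable_dfc hf σ).lintegral_prod_right' (ν := μ.restrict (ball 0 1))).const_mul _

lemma Qn_neg (f : E → ℝ) (σ : ℝ) : Qn μ (fun x => -f x) σ = Qn μ f σ := by
  funext y
  unfold Qn dfc
  simp only [neg_sub_neg, abs_sub_comm]

/-- a point that lies above a level of small density is a peak -/
lemma thin_up {f : E → ℝ} (hf : Measurable f) {σ κ l : ℝ} (hσ : 0 < σ) (hκ0 : 0 ≤ κ)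
    (hκ : κ ≤ 1 / 2) {y : E}
    (h : μ (ball y σ ∩ {x | l < f x}) ≤ ENNReal.ofReal κ * μ (ball y σ)) :
    ENNReal.ofReal (1 - 2 * κ) * ENNReal.ofReal (f y - l) ≤ Qn μ f σ y := by
  set v := μ (ball (0 : E) 1) with hv
  have hv0 : v ≠ 0 := (ball_pos μ 0 one_pos).ne'
  have hvt : v ≠ ∞ := ball_ne_top μ 0 1
  set S : Set E := ball 0 1 ∩ ({w | f (y + σ • w) ≤ l} ∩ {w | f (y - σ • w) ≤ l}) with hS
  have hSm : MeasurableSet S := by
    refine measurableSet_ball.inter (MeasurableSet.inter ?_ ?_)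
    · exact measurableSet_le (hf.comp (measurable_const.add (measurable_id.const_smul σ)))
        measurable_const
    · exact measurableSet_le (hf.comp (measurable_const.sub (measurable_id.const_smul σ)))
        measurable_const
  have hA : ∀ τ : ℝ, |τ| = σ → μ {w | y + τ • w ∈ ball y σ ∩ {x | l < f x}} ≤
      ENNReal.ofReal κ * v := by
    intro τ hτ
    have hτ0 : τ ≠ 0 := by rintro rfl; simp at hτ; linarith
    rw [aff_preimage μ y hτ0, abs_inv, abs_pow, hτ]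
    refine (mul_le_mul_right h _).trans (le_of_eq ?_)
    rw [ball_vol μ y hσ, ← hv, mul_left_comm, ← mul_assoc (ENNReal.ofReal _⁻¹),
      ← ENNReal.ofReal_mul (by positivity), inv_mul_cancel₀ (by positivity)]
    simp
  have hcov : ball (0 : E) 1 ⊆ S ∪ ({w | y + σ • w ∈ ball y σ ∩ {x | l < f x}} ∪
      {w | y + (-σ) • w ∈ ball y σ ∩ {x | l < f x}}) := by
    intro w hw
    have hw' := mem_ball_zero_iff.1 hw
    have hn : ‖σ • w‖ < σ := by
      rw [norm_smul, Real.norm_of_nonneg hσ.le]; nlinarith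
    by_cases h1 : f (y + σ • w) ≤ l
    · by_cases h2 : f (y - σ • w) ≤ l
      · exact Or.inl ⟨hw, h1, h2⟩
      · refine Or.inr (Or.inr ⟨?_, ?_⟩)
        · simpa [mem_ball, dist_eq_norm] using hn
        · simpa [sub_eq_add_neg] using h2
    · exact Or.inr (Or.inl ⟨by simpa [mem_ball, dist_eq_norm] using hn, not_le.1 h1⟩)
  have h1 : v ≤ μ S + (ENNReal.ofReal κ * v + ENNReal.ofReal κ * v) :=
    (measure_mono hcov).trans ((measure_union_le _ _).trans (add_le_add le_rfl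
      ((measure_union_le _ _).trans (add_le_add (hA σ (abs_of_pos hσ))
        (hA (-σ) (by rw [abs_neg, abs_of_pos hσ]))))))
  have h2 : ENNReal.ofReal (1 - 2 * κ) * v ≤ μ S := by
    have e : v = ENNReal.ofReal (1 - 2 * κ) * v + (ENNReal.ofReal κ * v + ENNReal.ofReal κ * v) := by
      rw [← add_mul, ← add_mul, ← ENNReal.ofReal_add hκ0 hκ0,
        ← ENNReal.ofReal_add (by linarith) (by linarith)]
      rw [show 1 - 2 * κ + (κ + κ) = 1 by ring]; simp
    have hfin : ENNReal.ofReal κ * v + ENNReal.ofReal κ * v ≠ ∞ :=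
      ENNReal.add_ne_top.2 ⟨ENNReal.mul_ne_top ENNReal.ofReal_ne_top hvt,
        ENNReal.mul_ne_top ENNReal.ofReal_ne_top hvt⟩
    exact (ENNReal.add_le_add_iff_right hfin).1 (e ▸ h1)
  have h3 : ENNReal.ofReal (f y - l) * μ S ≤ ∫⁻ w in ball (0 : E) 1, dfc f (σ • w) y ∂μ := by
    rw [← setLIntegral_const]
    refine le_trans (setLIntegral_mono' hSm fun w hw => ?_) (lintegral_mono_set inter_subset_left)
    obtain ⟨-, a1, a2⟩ := hw
    simp only [mem_ofPred_eq] at a1 a2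
    rcases le_or_gt (f y) l with hy | hy
    · rw [ENNReal.ofReal_of_nonpos (by linarith)]; exact zero_le
    refine ENNReal.ofReal_le_ofReal ?_
    rw [abs_of_nonpos (by linarith), abs_of_nonpos (a := f (y - σ • w) - f y) (by linarith)]
    rcases abs_cases (f (y + σ • w) - f (y - σ • w)) with h | h <;> linarith [h.1]
  unfold Qn
  rw [← hv]
  calc ENNReal.ofReal (1 - 2 * κ) * ENNReal.ofReal (f y - l)
      = v⁻¹ * (ENNReal.ofReal (f y - l) * (ENNReal.ofReal (1 - 2 * κ) * v)) := by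
        rw [mul_comm (ENNReal.ofReal (f y - l)), mul_comm _ v, mul_assoc, ← mul_assoc v⁻¹,
          ENNReal.inv_mul_cancel hv0 hvt, one_mul]
    _ ≤ v⁻¹ * (ENNReal.ofReal (f y - l) * μ S) := by gcongr
    _ ≤ _ := by gcongr

/-- a point that lies below a level of small density is a valley -/
lemma thin_down {f : E → ℝ} (hf : Measurable f) {σ κ l : ℝ} (hσ : 0 < σ) (hκ0 : 0 ≤ κ)
    (hκ : κ ≤ 1 / 2) {y : E}
    (h : μ (ball y σ ∩ {x | f x < l}) ≤ ENNReal.ofReal κ * μ (ball y σ)) :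
    ENNReal.ofReal (1 - 2 * κ) * ENNReal.ofReal (l - f y) ≤ Qn μ f σ y := by
  have := thin_up μ (f := fun x => -f x) (l := -l) hf.neg hσ hκ0 hκ (y := y)
    (by simpa using h)
  rw [Qn_neg] at this
  rwa [show -f y - -l = l - f y by ring] at this

lemma tele_sum {a W : ℤ → ℝ≥0∞} {M : ℝ≥0∞} (h : ∀ k, a k + W (k + 1) ≤ W k)
    (hM : ∀ k, W k ≤ M) : ∑' k, a k ≤ M := by
  have key : ∀ (m : ℤ) (n : ℕ), ∑ i ∈ Finset.range n, a (m + i) + W (m + n) ≤ W m := by
    intro m n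
    induction n with
    | zero => simp
    | succ n ih =>
      rw [Finset.sum_range_succ, add_assoc]
      refine le_trans (add_le_add le_rfl ?_) ih
      have := h (m + n)
      rwa [add_assoc, ← Nat.cast_succ] at this
  rw [ENNReal.tsum_eq_iSup_sum]
  refine iSup_le fun s => ?_
  obtain ⟨m, hm⟩ := s.bddBelow
  obtain ⟨M', hM'⟩ := s.bddAbove
  have hsub : s ⊆ (Finset.range ((M' - m).toNat + 1)).image fun i : ℕ => m + i := by
    intro k hk
    have h1 : m ≤ k := hm hk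
    have h2 : k ≤ M' := hM' hk
    exact Finset.mem_image.2 ⟨(k - m).toNat, Finset.mem_range.2 (by omega), by omega⟩
  calc ∑ k ∈ s, a k ≤ _ := Finset.sum_le_sum_of_subset hsub
    _ = ∑ i ∈ Finset.range ((M' - m).toNat + 1), a (m + i) :=
        Finset.sum_image (fun i _ j _ hij => by simpa using hij)
    _ ≤ W m := le_trans le_self_add (key m _)
    _ ≤ M := hM m

/-- variation along `u` over the segments whose circumscribed ball lies in `Ω` -/
noncomputable def Vs (f : E → ℝ) (Ω : Set E) (σ : ℝ) (u : E) : ℝ≥0∞ :=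
  ∫⁻ y in {y | y + (1 / 2 : ℝ) • u ∈ core Ω (σ / 2)}, ENNReal.ofReal |f (y + u) - f y| ∂μ

lemma measurableSet_shift_core (Ω : Set E) (σ : ℝ) (u : E) :
    MeasurableSet {y | y + u ∈ core Ω σ} :=
  ((isClosed_core Ω σ).preimage (continuous_id.add continuous_const)).measurableSet

lemma tele_step {f : E → ℝ} (hf : Measurable f) (Ω : Set E) {σ : ℝ} {u : E} (hu : ‖u‖ ≤ σ) :
    ∫⁻ y in core Ω σ, dfc f u y ∂μ + Vs μ f Ω (2 * σ) ((2 : ℝ) • u) ≤ 2 * Vs μ f Ω σ u := by
  have hc := (isClosed_core Ω σ).measurableSet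
  have m1 : Measurable fun y => f (y + u) := hf.comp (measurable_id.add_const u)
  have m2 : Measurable fun y => f (y - u) := hf.comp (measurable_id.sub_const u)
  have e1 : Vs μ f Ω (2 * σ) ((2 : ℝ) • u) =
      ∫⁻ y in core Ω σ, ENNReal.ofReal |f (y + u) - f (y - u)| ∂μ := by
    unfold Vs
    rw [← lintegral_indicator (measurableSet_shift_core _ _ _), ← lintegral_indicator hc,
      ← lintegral_sub_right_eq_self _ u]
    refine lintegral_congr fun y => ?_
    have a1 : y - u + (1 / 2 : ℝ) • (2 : ℝ) • u = y := by rw [smul_smul]; norm_num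
    have a2 : y - u + (2 : ℝ) • u = y + u := by rw [two_smul]; abel
    have a3 : 2 * σ / 2 = σ := by ring
    by_cases hy : y ∈ core Ω σ
    · rw [indicator_of_mem hy, indicator_of_mem (by rwa [mem_ofPred_eq, a1, a3]), a2]
    · rw [indicator_of_notMem hy, indicator_of_notMem (by rwa [mem_ofPred_eq, a1, a3])]
  have hsub : ∀ y ∈ core Ω σ, ∀ v : E, ‖v‖ ≤ σ / 2 → y + v ∈ core Ω (σ / 2) := by
    intro y hy v hv p hp
    refine hy ?_
    rw [mem_ball, dist_eq_norm] at *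
    have : p - y = (p - (y + v)) + v := by abel
    rw [this]; linarith [norm_add_le (p - (y + v)) v]
  have hh : ‖(1 / 2 : ℝ) • u‖ ≤ σ / 2 := by
    rw [norm_smul, Real.norm_of_nonneg (by norm_num)]; linarith
  have e2 : ∫⁻ y in core Ω σ, ENNReal.ofReal |f (y + u) - f y| ∂μ ≤ Vs μ f Ω σ u :=
    lintegral_mono_set fun y hy => hsub y hy _ hh
  have e3 : ∫⁻ y in core Ω σ, ENNReal.ofReal |f (y - u) - f y| ∂μ ≤ Vs μ f Ω σ u := by
    unfold Vs
    rw [← lintegral_indicator (measurableSet_shift_core _ _ _), ← lintegral_indicator hc,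
      ← lintegral_sub_right_eq_self (indicator {y | y + (1 / 2 : ℝ) • u ∈ core Ω (σ / 2)} _) u]
    refine lintegral_mono fun y => ?_
    by_cases hy : y ∈ core Ω σ
    · have a1 : y - u + (1 / 2 : ℝ) • u = y + -((1 / 2 : ℝ) • u) := by module
      have a2 : y - u ∈ {y | y + (1 / 2 : ℝ) • u ∈ core Ω (σ / 2)} := by
        rw [mem_ofPred_eq, a1]; exact hsub y hy _ (by rwa [norm_neg])
      rw [indicator_of_mem hy, indicator_of_mem a2, sub_add_cancel, abs_sub_comm]
    · rw [indicator_of_notMem hy]; exact zero_le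
  have m3 : Measurable fun y => ENNReal.ofReal |f (y + u) - f (y - u)| :=
    (m1.sub m2).abs.ennreal_ofReal
  have m4 : Measurable fun y => ENNReal.ofReal |f (y - u) - f y| := (m2.sub hf).abs.ennreal_ofReal
  rw [e1, ← lintegral_add_right _ m3, two_mul]
  refine le_trans (le_of_eq ?_) (add_le_add e2 e3)
  rw [← lintegral_add_right _ m4]
  refine lintegral_congr fun y => ?_
  unfold dfc
  have t1 : |f (y + u) - f (y - u)| ≤ |f (y + u) - f y| + |f (y - u) - f y| := by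
    have := abs_sub_le (f (y + u)) (f y) (f (y - u))
    rwa [abs_sub_comm (f y)] at this
  rw [← ENNReal.ofReal_add (by linarith) (abs_nonneg _),
    ← ENNReal.ofReal_add (abs_nonneg _) (abs_nonneg _)]
  congr 1; ring

/-- the translation estimate on `Ω` with constant `Γ` -/
def TransBd (f : E → ℝ) (Ω : Set E) (Γ : ℝ≥0∞) : Prop :=
  ∀ (w : E) (A : Set E), MeasurableSet A → (∀ q ∈ A, ∀ t ∈ Ioo (0 : ℝ) 1, q + t • w ∈ Ω) →
    ∫⁻ q in A, ENNReal.ofReal |f (q + w) - f q| ∂μ ≤ ENNReal.ofReal ‖w‖ * Γ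

/-- the defects are summable over the dyadic scales -/
lemma thin_sum {f : E → ℝ} (hf : Measurable f) {Ω : Set E} {Γ : ℝ≥0∞} (hV : TransBd μ f Ω Γ)
    {σ : ℝ} (hσ : 0 < σ) :
    ∑' k : ℤ, ENNReal.ofReal (σ * 2 ^ k)⁻¹ *
      ∫⁻ y in core Ω (σ * 2 ^ k), Qn μ f (σ * 2 ^ k) y ∂μ ≤ 2 * Γ := by
  set v := μ (ball (0 : E) 1) with hv
  have hv0 : v ≠ 0 := (ball_pos μ 0 one_pos).ne'
  have hvt : v ≠ ∞ := ball_ne_top μ 0 1
  have hs : ∀ k : ℤ, 0 < σ * 2 ^ k := fun k => by positivity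
  have key : ∀ w ∈ ball (0 : E) 1, ∑' k : ℤ, ENNReal.ofReal (σ * 2 ^ k)⁻¹ *
      ∫⁻ y in core Ω (σ * 2 ^ k), dfc f ((σ * 2 ^ k) • w) y ∂μ ≤ 2 * Γ := by
    intro w hw
    have hw' := (mem_ball_zero_iff.1 hw).le
    have hn : ∀ k : ℤ, ‖(σ * 2 ^ k) • w‖ ≤ σ * 2 ^ k := fun k => by
      rw [norm_smul, Real.norm_of_nonneg (hs k).le]; nlinarith [hs k]
    refine tele_sum (W := fun k => 2 * ENNReal.ofReal (σ * 2 ^ k)⁻¹ *
      Vs μ f Ω (σ * 2 ^ k) ((σ * 2 ^ k) • w)) (fun k => ?_) (fun k => ?_)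
    · have e1 : σ * (2 : ℝ) ^ (k + 1) = 2 * (σ * 2 ^ k) := by
        rw [zpow_add_one₀ (by norm_num)]; ring
      have e2 : 2 * ENNReal.ofReal (2 * (σ * 2 ^ k))⁻¹ = ENNReal.ofReal (σ * 2 ^ k)⁻¹ := by
        rw [← ENNReal.ofReal_ofNat 2, ← ENNReal.ofReal_mul (by norm_num)]
        congr 1; field_simp
      simp only [e1, e2]
      rw [mul_smul 2, ← mul_add, mul_comm 2 (ENNReal.ofReal _), mul_assoc (ENNReal.ofReal _)]
      exact mul_le_mul_right (tele_step μ hf Ω (hn k)) _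
    · have h1 : Vs μ f Ω (σ * 2 ^ k) ((σ * 2 ^ k) • w) ≤ ENNReal.ofReal (σ * 2 ^ k) * Γ := by
        have hlt : ‖(σ * 2 ^ k) • w‖ < σ * 2 ^ k := by
          rw [norm_smul, Real.norm_of_nonneg (hs k).le]
          nlinarith [hs k, mem_ball_zero_iff.1 hw]
        refine (hV _ _ (measurableSet_shift_core _ _ _) fun q hq t ht => hq ?_).trans
          (mul_le_mul_left (ENNReal.ofReal_le_ofReal (hn k)) _)
        rw [mem_ball, dist_eq_norm]
        have : q + t • (σ * 2 ^ k) • w - (q + (1 / 2 : ℝ) • (σ * 2 ^ k) • w) =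
            (t - 1 / 2) • (σ * 2 ^ k) • w := by module
        rw [this, norm_smul, Real.norm_eq_abs]
        have h2 : |t - 1 / 2| ≤ 1 / 2 := abs_le.2 ⟨by linarith [ht.1], by linarith [ht.2]⟩
        nlinarith [norm_nonneg ((σ * 2 ^ k) • w), abs_nonneg (t - 1 / 2)]
      calc 2 * ENNReal.ofReal (σ * 2 ^ k)⁻¹ * Vs μ f Ω (σ * 2 ^ k) ((σ * 2 ^ k) • w)
          ≤ 2 * ENNReal.ofReal (σ * 2 ^ k)⁻¹ * (ENNReal.ofReal (σ * 2 ^ k) * Γ) := by gcongr
        _ = 2 * Γ := by
          rw [mul_assoc, ← mul_assoc (ENNReal.ofReal _), ← ENNReal.ofReal_mul (by positivity),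
            inv_mul_cancel₀ (hs k).ne']
          simp
  have e : ∀ k : ℤ, ENNReal.ofReal (σ * 2 ^ k)⁻¹ *
      ∫⁻ y in core Ω (σ * 2 ^ k), Qn μ f (σ * 2 ^ k) y ∂μ =
      v⁻¹ * ∫⁻ w in ball (0 : E) 1, ENNReal.ofReal (σ * 2 ^ k)⁻¹ *
        ∫⁻ y in core Ω (σ * 2 ^ k), dfc f ((σ * 2 ^ k) • w) y ∂μ ∂μ := by
    intro k
    unfold Qn
    rw [← hv, lintegral_const_mul' _ _ (ENNReal.inv_ne_top.2 hv0),
      lintegral_const_mul' _ _ ENNReal.ofReal_ne_top, mul_left_comm,
      lintegral_lintegral_swap (measurable_dfc hf _).aemeasurable]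
  simp only [e]
  rw [ENNReal.tsum_mul_left, ← lintegral_tsum]
  · calc _ ≤ v⁻¹ * ∫⁻ _ in ball (0 : E) 1, 2 * Γ ∂μ := by
          gcongr v⁻¹ * ?_
          exact setLIntegral_mono' measurableSet_ball key
      _ = 2 * Γ := by
          rw [setLIntegral_const, ← hv, mul_comm, mul_assoc, ENNReal.mul_inv_cancel hv0 hvt, mul_one]
  · intro k
    exact (((measurable_dfc hf _).lintegral_prod_left'
      (μ := μ.restrict (core Ω (σ * 2 ^ k)))).const_mul _).aemeasurable

end Pool.Agent.MP_a25fb7_an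

end

-- part MP_a25fb7_an.Medium
section

/-!
Upper gradients, the Poincare inequality between two levels, cells of balls, and the summation
over the cells of medium density.
-/

set_option autoImplicit false
set_option linter.unusedSectionVars false
open MeasureTheory Metric Set Module
open scoped ENNReal

namespace Pool.Agent.MP_a25fb7_an

variable {E : Type*} [NormedAddCommGroup E] [InnerProductSpace ℝ E] [FiniteDimensional ℝ E]
  [MeasurableSpace E] [BorelSpace E] (μ : Measure E) [μ.IsAddHaarMeasure]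

/-- `γ` is an upper gradient of `f` along segments -/
def UG (f : E → ℝ) (γ : E → ℝ≥0∞) : Prop :=
  ∀ (q u : E) (a b : ℝ), a ≤ b → ENNReal.ofReal |f (q + b • u) - f (q + a • u)| ≤
    ENNReal.ofReal ‖u‖ * ∫⁻ t in Ioo a b, γ (q + t • u)

lemma UG.transBd {f : E → ℝ} {γ : E → ℝ≥0∞} (h : UG f γ) (hγ : Measurable γ) {Ω : Set E}
    (hΩ : MeasurableSet Ω) : TransBd μ f Ω (∫⁻ y in Ω, γ y ∂μ) := by
  intro w A hA hsub
  calc ∫⁻ q in A, ENNReal.ofReal |f (q + w) - f q| ∂μ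
      ≤ ∫⁻ q in A, ENNReal.ofReal ‖w‖ * (∫⁻ t in Ioo (0 : ℝ) 1, γ (q + t • w)) ∂μ := by
        refine lintegral_mono fun q => ?_
        simpa using h q w 0 1 zero_le_one
    _ ≤ _ := by
        rw [lintegral_const_mul' _ _ ENNReal.ofReal_ne_top]
        exact mul_le_mul_right (seg_lintegral μ hγ hΩ hA w hsub) _

lemma UG.level {f : E → ℝ} {γ : E → ℝ≥0∞} (h : UG f γ) (hf : Continuous f) {q u : E} {a b : ℝ}
    (ha : f q ≤ a) (hb : b ≤ f (q + u)) :
    ENNReal.ofReal (b - a) ≤ ENNReal.ofReal ‖u‖ *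
      ∫⁻ t in Ioo (0 : ℝ) 1, (f ⁻¹' Ioo a b).indicator γ (q + t • u) := by
  set φ : ℝ → ℝ := fun t => f (q + t • u) with hφ
  have hφc : Continuous φ := hf.comp (by fun_prop)
  have c1 : IsCompact (Icc (0 : ℝ) 1 ∩ {t | φ t ≤ a}) :=
    isCompact_Icc.inter_right (isClosed_le hφc continuous_const)
  obtain ⟨t1, ⟨ht1, ht1'⟩, hmax⟩ := c1.exists_isGreatest
    ⟨0, ⟨left_mem_Icc.2 zero_le_one, by simpa [hφ] using ha⟩⟩
  have c2 : IsCompact (Icc t1 1 ∩ {t | b ≤ φ t}) :=
    isCompact_Icc.inter_right (isClosed_le continuous_const hφc)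
  obtain ⟨t2, ⟨ht2, ht2'⟩, hmin⟩ := c2.exists_isLeast
    ⟨1, ⟨right_mem_Icc.2 ht1.2, by simpa [hφ] using hb⟩⟩
  simp only [mem_ofPred_eq] at ht1' ht2'
  have h1 : b - a ≤ |φ t2 - φ t1| := le_trans (by linarith) (le_abs_self _)
  refine (ENNReal.ofReal_le_ofReal h1).trans ((h q u t1 t2 ht2.1).trans ?_)
  refine mul_le_mul_right ?_ _
  refine le_trans (setLIntegral_mono' measurableSet_Ioo fun t ht => ?_)
    (lintegral_mono_set (Ioo_subset_Ioo ht1.1 ht2.2))
  rw [indicator_of_mem]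
  refine ⟨lt_of_not_ge fun hc => ?_, lt_of_not_ge fun hc => ?_⟩
  · have := hmax ⟨⟨ht1.1.trans ht.1.le, ht.2.le.trans ht2.2⟩, hc⟩
    linarith [ht.1]
  · have := hmin ⟨⟨ht.1.le, ht.2.le.trans ht2.2⟩, hc⟩
    linarith [ht.2]

/-- Poincare inequality between two levels on a ball -/
lemma poincare {f : E → ℝ} {γ : E → ℝ≥0∞} (h : UG f γ) (hf : Continuous f) (hγ : Measurable γ)
    (z : E) (R : ℝ) (a b : ℝ) :
    ENNReal.ofReal (b - a) * (μ (ball z R ∩ {x | f x ≤ a}) * μ (ball z R ∩ {x | b < f x})) ≤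
      ENNReal.ofReal (2 * R) * μ (ball (0 : E) (2 * R)) *
        ∫⁻ y in ball z R, (f ⁻¹' Ioo a b).indicator γ y ∂μ := by
  set Sm := ball z R ∩ {x | f x ≤ a} with hSm
  set Sp := ball z R ∩ {x | b < f x} with hSp
  have mSm : MeasurableSet Sm :=
    measurableSet_ball.inter (measurableSet_le hf.measurable measurable_const)
  have mSp : MeasurableSet Sp :=
    measurableSet_ball.inter (measurableSet_lt measurable_const hf.measurable)
  set Γ := (f ⁻¹' Ioo a b).indicator γ with hΓ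
  have mΓ : Measurable Γ := hγ.indicator (hf.measurable measurableSet_Ioo)
  set I := ∫⁻ y in ball z R, Γ y ∂μ with hI
  have mA : ∀ u : E, MeasurableSet (Sm ∩ {q | q + u ∈ Sp}) := fun u =>
    mSm.inter (mSp.preimage (measurable_id.add_const u))
  have mF : Measurable (Function.uncurry fun (q u : E) => Sp.indicator (1 : E → ℝ≥0∞) (q + u)) :=
    (measurable_one.indicator mSp).comp (measurable_fst.add measurable_snd)
  have e1 : μ Sm * μ Sp = ∫⁻ u, μ (Sm ∩ {q | q + u ∈ Sp}) ∂μ := by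
    calc μ Sm * μ Sp = ∫⁻ q in Sm, (∫⁻ u, Sp.indicator 1 (q + u) ∂μ) ∂μ := by
          simp only [lintegral_add_left_eq_self (Sp.indicator (1 : E → ℝ≥0∞)),
            lintegral_indicator_one mSp]
          rw [setLIntegral_const, mul_comm]
      _ = ∫⁻ u, (∫⁻ q in Sm, Sp.indicator 1 (q + u) ∂μ) ∂μ :=
          lintegral_lintegral_swap mF.aemeasurable
      _ = _ := by
          refine lintegral_congr fun u => ?_
          have hm : MeasurableSet {q | q + u ∈ Sp} := mSp.preimage (measurable_id.add_const u)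
          rw [inter_comm, ← Measure.restrict_apply hm, ← lintegral_indicator_one hm]
          rfl
  have e2 : ∀ u : E, ENNReal.ofReal (b - a) * μ (Sm ∩ {q | q + u ∈ Sp}) ≤
      (ball (0 : E) (2 * R)).indicator (fun _ => ENNReal.ofReal (2 * R) * I) u := by
    intro u
    by_cases hu : u ∈ ball (0 : E) (2 * R)
    · rw [indicator_of_mem hu, ← setLIntegral_const]
      calc ∫⁻ _ in Sm ∩ {q | q + u ∈ Sp}, ENNReal.ofReal (b - a) ∂μ
          ≤ ∫⁻ q in Sm ∩ {q | q + u ∈ Sp}, ENNReal.ofReal ‖u‖ *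
              (∫⁻ t in Ioo (0 : ℝ) 1, Γ (q + t • u)) ∂μ :=
            setLIntegral_mono' (mA u) fun q hq => h.level hf hq.1.2 (le_of_lt hq.2.2)
        _ ≤ ENNReal.ofReal ‖u‖ * I := by
            rw [lintegral_const_mul' _ _ ENNReal.ofReal_ne_top]
            refine mul_le_mul_right (seg_lintegral μ mΓ measurableSet_ball (mA u) u
              fun q hq t ht => ?_) _
            exact (convex_ball z R).add_smul_mem hq.1.1 hq.2.1 ⟨ht.1.le, ht.2.le⟩
        _ ≤ _ := mul_le_mul_left (ENNReal.ofReal_le_ofReal (mem_ball_zero_iff.1 hu).le) _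
    · have : Sm ∩ {q | q + u ∈ Sp} = ∅ := by
        rw [eq_empty_iff_forall_notMem]
        rintro q ⟨hq1, hq2⟩
        refine hu (mem_ball_zero_iff.2 ?_)
        have a1 := mem_ball_iff_norm.1 hq1.1
        have a2 := mem_ball_iff_norm.1 hq2.1
        have : u = (q + u - z) - (q - z) := by abel
        rw [this]; linarith [norm_sub_le (q + u - z) (q - z)]
      simp [this]
  rw [e1, ← lintegral_const_mul' _ _ ENNReal.ofReal_ne_top]
  refine (lintegral_mono e2).trans (le_of_eq ?_)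
  rw [lintegral_indicator measurableSet_ball, setLIntegral_const]
  ring

lemma vol_mul_le {s : Set ℝ} {c X : ℝ≥0∞} (hc : c ≠ 0) (hc' : c ≠ ∞)
    (h : ∀ a ∈ s, ∀ b ∈ s, a < b → ENNReal.ofReal (b - a) * c ≤ X) : volume s * c ≤ X := by
  rw [← ENNReal.le_div_iff_mul_le (Or.inl hc) (Or.inl hc')]
  refine (Real.volume_le_diam s).trans (ediam_le fun a ha b hb => ?_)
  rw [ENNReal.le_div_iff_mul_le (Or.inl hc) (Or.inl hc'), edist_dist, Real.dist_eq]
  rcases lt_trichotomy a b with hab | hab | hab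
  · rw [abs_sub_comm, abs_of_pos (by linarith)]; exact h a ha b hb hab
  · simp [hab]
  · rw [abs_of_pos (by linarith)]; exact h b hb a ha hab

lemma int_count {T : Set ℤ} {m : ℕ} (h : ∀ k ∈ T, ∀ k' ∈ T, k' ≤ k + m) :
    ∑' k, T.indicator (fun _ => (1 : ℝ≥0∞)) k ≤ 2 * m + 1 := by
  rcases T.eq_empty_or_nonempty with rfl | ⟨k0, hk0⟩
  · simp
  rw [tsum_eq_sum (s := Finset.Icc (k0 - m) (k0 + m))]
  · calc _ ≤ ∑ _ ∈ Finset.Icc (k0 - m) (k0 + m), (1 : ℝ≥0∞) :=
          Finset.sum_le_sum fun k _ => indicator_le_self' (fun _ _ => zero_le) k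
      _ = _ := by
          rw [Finset.sum_const, Int.card_Icc, nsmul_eq_mul, mul_one]
          have : (k0 + m + 1 - (k0 - m)).toNat = 2 * m + 1 := by omega
          rw [this]; push_cast; rfl
  · intro k hk
    refine indicator_of_notMem (fun hT => hk ?_) _
    have h1 := h k hT k0 hk0
    have h2 := h k0 hk0 k hT
    exact Finset.mem_Icc.2 ⟨by omega, by omega⟩

/-- the ball of the cell `(k, j)` with radius changed by `e` at unit scale -/
def cb (k : ℤ) (j : E × ℝ) (e : ℝ) : Set E := ball ((2 : ℝ) ^ k • j.1) (2 ^ k * (j.2 + e))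

/-- weight of a cell at scale `2 ^ k` -/
noncomputable def wt (E : Type*) [AddCommGroup E] [Module ℝ E] (k : ℤ) : ℝ≥0∞ :=
  ENNReal.ofReal (((2 : ℝ) ^ k) ^ finrank ℝ E / 2 ^ k)

/-- levels at which a cell has medium density and touches the complement of `U` -/
def LamM (U : ℝ → Set E) (f : E → ℝ) (δ A : ℝ) (ε : ℝ≥0∞) (k : ℤ) (j : E × ℝ) : Set ℝ :=
  {l | cb k j (-δ) ⊆ U l ∧ ¬ ball ((2 : ℝ) ^ k • j.1) (A * 2 ^ k) ⊆ U l ∧
    ε * μ (cb k j (-(2 * δ))) ≤ μ (cb k j (-(2 * δ)) ∩ {x | l < f x}) ∧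
    ε * μ (cb k j (-(2 * δ))) ≤ μ (cb k j (-(2 * δ)) ∩ {x | f x ≤ l})}

lemma ordConnected_LamM {U : ℝ → Set E} (hU : Antitone U) (f : E → ℝ) (δ A : ℝ) (ε : ℝ≥0∞)
    (k : ℤ) (j : E × ℝ) : OrdConnected (LamM μ U f δ A ε k j) := by
  refine ⟨fun a ha b hb l hl => ⟨hb.1.trans (hU hl.2), fun hc => ha.2.1 (hc.trans (hU hl.1)),
    hb.2.2.1.trans (measure_mono ?_), ha.2.2.2.trans (measure_mono ?_)⟩⟩
  · exact inter_subset_inter_right _ fun x hx => lt_of_le_of_lt hl.2 hx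
  · exact inter_subset_inter_right _ fun x hx => le_trans hx hl.1

lemma medium_cell {ε : ℝ≥0∞} (hε : ε ≠ 0) (hε' : ε ≠ ∞) : ∃ C : ℝ≥0∞, C ≠ ∞ ∧
    ∀ {U : ℝ → Set E} {f : E → ℝ} {γ : E → ℝ≥0∞} {δ A : ℝ} (k : ℤ) (j : E × ℝ), Antitone U →
      UG f γ → Continuous f → Measurable γ → 0 < δ → δ ≤ 1 / 4 → 1 ≤ j.2 → j.2 ≤ 2 →
      wt E k * volume (LamM μ U f δ A ε k j) ≤
        C * ∫⁻ y in cb k j (-(2 * δ)), (f ⁻¹' LamM μ U f δ A ε k j).indicator γ y ∂μ := by
  set v := μ (ball (0 : E) 1) with hv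
  have hv0 : v ≠ 0 := (ball_pos μ 0 one_pos).ne'
  have hvt : v ≠ ∞ := ball_ne_top μ 0 1
  set d := finrank ℝ E with hd
  refine ⟨ENNReal.ofReal (4 * 16 ^ d) / (ε * ε * v), ENNReal.div_ne_top ENNReal.ofReal_ne_top
    (mul_ne_zero (mul_ne_zero hε hε) hv0), ?_⟩
  intro U f γ δ A k j hU h hf hγ hδ hδ1 hj1 hj2
  set Λ := LamM μ U f δ A ε k j with hΛ
  set ρ : ℝ := 2 ^ k with hρ
  have hρ0 : 0 < ρ := by positivity
  set I := ∫⁻ y in cb k j (-(2 * δ)), (f ⁻¹' Λ).indicator γ y ∂μ with hI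
  set R : ℝ := ρ * (j.2 + -(2 * δ)) with hR
  have hR1 : ρ / 2 ≤ R := by rw [hR]; nlinarith
  have hR2 : R ≤ 2 * ρ := by rw [hR]; nlinarith
  set m : ℝ≥0∞ := ENNReal.ofReal ((ρ / 2) ^ d) * v with hm
  have hm0 : m ≠ 0 := mul_ne_zero (ENNReal.ofReal_pos.2 (by positivity)).ne' hv0
  have hmt : m ≠ ∞ := ENNReal.mul_ne_top ENNReal.ofReal_ne_top hvt
  have hmK : m ≤ μ (cb k j (-(2 * δ))) := by
    rw [hm, hv, ← ball_vol μ ((2 : ℝ) ^ k • j.1) (by positivity)]
    exact measure_mono (ball_subset_ball hR1)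
  have h1 : volume Λ * ((ε * m) * (ε * m)) ≤
      ENNReal.ofReal (4 * ρ) * (ENNReal.ofReal ((4 * ρ) ^ d) * v) * I := by
    refine vol_mul_le (mul_ne_zero (mul_ne_zero hε hm0) (mul_ne_zero hε hm0))
      (ENNReal.mul_ne_top (ENNReal.mul_ne_top hε' hmt) (ENNReal.mul_ne_top hε' hmt))
      fun a ha b hb _ => ?_
    refine le_trans ?_ ((poincare μ h hf hγ ((2 : ℝ) ^ k • j.1) R a b).trans ?_)
    · refine mul_le_mul_right (mul_le_mul' ?_ ?_) _
      · exact (mul_le_mul_right hmK ε).trans ha.2.2.2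
      · exact (mul_le_mul_right hmK ε).trans hb.2.2.1
    · refine mul_le_mul' (mul_le_mul' (ENNReal.ofReal_le_ofReal (by linarith)) ?_) ?_
      · rw [hv, ← ball_vol μ (0 : E) (by positivity)]
        exact measure_mono (ball_subset_ball (by linarith))
      · refine lintegral_mono fun y => indicator_le_indicator_of_subset ?_ (fun _ => zero_le) y
        exact fun x hx => (ordConnected_LamM μ hU f δ A ε k j).out ha hb ⟨hx.1.le, hx.2.le⟩
  have hc0 : ε * ε * v ≠ 0 := mul_ne_zero (mul_ne_zero hε hε) hv0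
  have hct : ε * ε * v ≠ ∞ := ENNReal.mul_ne_top (ENNReal.mul_ne_top hε' hε') hvt
  rw [ENNReal.div_eq_inv_mul, mul_assoc, ← ENNReal.div_eq_inv_mul,
    ENNReal.le_div_iff_mul_le (Or.inl hc0) (Or.inl hct)]
  set c : ℝ≥0∞ := ENNReal.ofReal (ρ * ρ ^ d / 4 ^ d) * v with hc
  have hcc0 : c ≠ 0 := mul_ne_zero (ENNReal.ofReal_pos.2 (by positivity)).ne' hv0
  have hcct : c ≠ ∞ := ENNReal.mul_ne_top ENNReal.ofReal_ne_top hvt
  refine (ENNReal.mul_le_mul_iff_left hcc0 hcct).1 (le_trans (le_of_eq ?_) (h1.trans (le_of_eq ?_)))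
  · have e : ENNReal.ofReal (ρ ^ d / ρ) * ENNReal.ofReal (ρ * ρ ^ d / 4 ^ d) =
        ENNReal.ofReal ((ρ / 2) ^ d) * ENNReal.ofReal ((ρ / 2) ^ d) := by
      rw [← ENNReal.ofReal_mul (by positivity), ← ENNReal.ofReal_mul (by positivity)]
      congr 1
      rw [show (4 : ℝ) = 2 * 2 by norm_num, mul_pow, div_pow]; field_simp
    calc wt E k * volume Λ * (ε * ε * v) * c
        = (ENNReal.ofReal (ρ ^ d / ρ) * ENNReal.ofReal (ρ * ρ ^ d / 4 ^ d)) *
          (volume Λ * (ε * ε * v) * v) := by rw [hc]; unfold wt; rw [← hρ, ← hd]; ring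
      _ = _ := by rw [e, hm]; ring
  · have e : ENNReal.ofReal (4 * ρ) * ENNReal.ofReal ((4 * ρ) ^ d) =
        ENNReal.ofReal (4 * 16 ^ d) * ENNReal.ofReal (ρ * ρ ^ d / 4 ^ d) := by
      rw [← ENNReal.ofReal_mul (by positivity), ← ENNReal.ofReal_mul (by positivity)]
      congr 1
      rw [show (16 : ℝ) = 4 * 4 by norm_num, mul_pow, mul_pow]; field_simp
    calc _ = (ENNReal.ofReal (4 * ρ) * ENNReal.ofReal ((4 * ρ) ^ d)) * v * I := by ring
      _ = _ := by rw [e, hc]; ring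

lemma smul_mem_ball_iff {ρ : ℝ} (hρ : 0 < ρ) (s y : E) (R : ℝ) :
    y ∈ ball (ρ • s) (ρ * R) ↔ s ∈ ball (ρ⁻¹ • y) R := by
  rw [mem_ball_iff_norm, mem_ball_iff_norm', show y - ρ • s = ρ • (ρ⁻¹ • y - s) by
    rw [smul_sub, smul_smul, mul_inv_cancel₀ hρ.ne', one_smul], norm_smul,
    Real.norm_of_nonneg hρ.le, mul_lt_mul_iff_right₀ hρ]

open Classical in
/-- summation over all cells of medium density -/
lemma medium_sum {ε : ℝ≥0∞} (hε : ε ≠ 0) (hε' : ε ≠ ∞) {δ : ℝ} (hδ : 0 < δ) (hδ1 : δ ≤ 1 / 4)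
    (A : ℝ) {J : Set (E × ℝ)} (hJ : J.Countable) (hJ1 : ∀ j ∈ J, 1 ≤ j.2 ∧ j.2 ≤ 2)
    (hJ2 : ∀ R : ℝ, ∃ n : ℝ≥0∞, n ≠ ∞ ∧ ∀ y : E,
      ∑' j : J, (ball y R).indicator (fun _ => (1 : ℝ≥0∞)) j.1.1 ≤ n) :
    ∃ C : ℝ≥0∞, C ≠ ∞ ∧ ∀ {U : ℝ → Set E} {f : E → ℝ} {γ : E → ℝ≥0∞} {Ω : Set E}, Antitone U →
      UG f γ → Continuous f → Measurable γ → MeasurableSet Ω →
      ∑' k : ℤ, ∑' j : J, wt E k *
        (if cb k j.1 (-(2 * δ)) ⊆ Ω then volume (LamM μ U f δ A ε k j.1) else 0) ≤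
        C * ∫⁻ y in Ω, γ y ∂μ := by
  obtain ⟨C, hC, hcell⟩ := medium_cell μ hε hε'
  obtain ⟨n, hn, hcnt⟩ := hJ2 2
  obtain ⟨m, hm⟩ := pow_unbounded_of_one_lt ((A + 2) / δ) (one_lt_two (α := ℝ))
  have := hJ.to_subtype
  refine ⟨C * ((2 * m + 1) * n), ENNReal.mul_ne_top hC (ENNReal.mul_ne_top (by finiteness) hn), ?_⟩
  intro U f γ Ω hU h hf hγ hΩ
  set S : ℤ → J → Set E := fun k j => if cb k j.1 (-(2 * δ)) ⊆ Ω then
    cb k j.1 (-(2 * δ)) ∩ f ⁻¹' LamM μ U f δ A ε k j.1 else ∅ with hS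
  have mS : ∀ k j, MeasurableSet (S k j) := by
    intro k j
    simp only [hS]
    split_ifs
    · exact measurableSet_ball.inter
        (hf.measurable (ordConnected_LamM μ hU f δ A ε k j.1).measurableSet)
    · exact MeasurableSet.empty
  have h1 : ∀ (k : ℤ) (j : J), wt E k *
      (if cb k j.1 (-(2 * δ)) ⊆ Ω then volume (LamM μ U f δ A ε k j.1) else 0) ≤
      C * ∫⁻ y, (S k j).indicator γ y ∂μ := by
    intro k j
    simp only [hS]
    split_ifs
    · refine (hcell k j.1 hU h hf hγ hδ hδ1 (hJ1 _ j.2).1 (hJ1 _ j.2).2).trans (le_of_eq ?_)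
      rw [← lintegral_indicator (s := cb k j.1 (-(2 * δ))) measurableSet_ball, indicator_indicator]
    · simp
  have h2 : ∀ y, ∑' k : ℤ, ∑' j : J, (S k j).indicator γ y ≤
      ((2 * m + 1) * n) * Ω.indicator γ y := by
    intro y
    set T : Set ℤ := {k | ball y (δ * 2 ^ k) ⊆ U (f y) ∧ ¬ ball y ((A + 2) * 2 ^ k) ⊆ U (f y)}
    have hT : ∑' k, T.indicator (fun _ => (1 : ℝ≥0∞)) k ≤ 2 * m + 1 := by
      refine int_count fun k hk k' hk' => ?_
      by_contra hcon
      refine hk.2 (Subset.trans (ball_subset_ball ?_) hk'.1)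
      have a1 : (2 : ℝ) ^ (k + m) ≤ 2 ^ k' := zpow_le_zpow_right₀ one_le_two (by omega)
      rw [zpow_add₀ two_ne_zero, zpow_natCast] at a1
      rw [div_lt_iff₀ hδ] at hm
      have a2 : (0 : ℝ) < 2 ^ k := by positivity
      nlinarith
    have hterm : ∀ (k : ℤ) (j : J), (S k j).indicator γ y ≤ T.indicator (fun _ => 1) k *
        ((ball (((2 : ℝ) ^ k)⁻¹ • y) 2).indicator (fun _ => 1) j.1.1 * Ω.indicator γ y) := by
      intro k j
      by_cases hy : y ∈ S k j
      · have hρ : (0 : ℝ) < 2 ^ k := by positivity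
        have hy' := hy
        simp only [hS] at hy'
        split_ifs at hy' with hsub
        · obtain ⟨hy1, hy2⟩ := hy'
          have hj := hJ1 _ j.2
          have hd : dist y ((2 : ℝ) ^ k • j.1.1) < 2 ^ k * (j.1.2 + -(2 * δ)) := hy1
          have b1 : k ∈ T := by
            refine ⟨Subset.trans (ball_subset_ball' ?_) hy2.1,
              fun hc => hy2.2.1 (Subset.trans (ball_subset_ball' ?_) hc)⟩
            · nlinarith
            · rw [dist_comm]; nlinarith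
          have b2 : j.1.1 ∈ ball (((2 : ℝ) ^ k)⁻¹ • y) 2 := by
            rw [← smul_mem_ball_iff hρ, mem_ball]; nlinarith
          rw [indicator_of_mem hy, indicator_of_mem b1, indicator_of_mem b2,
            indicator_of_mem (hsub hy1), one_mul, one_mul]
        · exact absurd hy' (notMem_empty y)
      · rw [indicator_of_notMem hy]; exact zero_le
    calc _ ≤ ∑' k : ℤ, ∑' j : J, T.indicator (fun _ => (1 : ℝ≥0∞)) k *
          ((ball (((2 : ℝ) ^ k)⁻¹ • y) 2).indicator (fun _ => 1) j.1.1 * Ω.indicator γ y) :=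
          ENNReal.tsum_le_tsum fun k => ENNReal.tsum_le_tsum fun j => hterm k j
      _ ≤ ∑' k : ℤ, T.indicator (fun _ => (1 : ℝ≥0∞)) k * (n * Ω.indicator γ y) := by
          refine ENNReal.tsum_le_tsum fun k => ?_
          rw [ENNReal.tsum_mul_left, ENNReal.tsum_mul_right]
          gcongr
          exact hcnt _
      _ ≤ _ := by rw [ENNReal.tsum_mul_right, mul_assoc]; gcongr
  calc _ ≤ ∑' k : ℤ, ∑' j : J, C * ∫⁻ y, (S k j).indicator γ y ∂μ :=
        ENNReal.tsum_le_tsum fun k => ENNReal.tsum_le_tsum fun j => h1 k j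
    _ = C * ∫⁻ y, ∑' k : ℤ, ∑' j : J, (S k j).indicator γ y ∂μ := by
        rw [lintegral_tsum fun k => (Measurable.tsum fun j =>
          hγ.indicator (mS k j)).aemeasurable, ← ENNReal.tsum_mul_left]
        refine tsum_congr fun k => ?_
        rw [lintegral_tsum fun j => (hγ.indicator (mS k j)).aemeasurable, ENNReal.tsum_mul_left]
    _ ≤ C * ∫⁻ y, ((2 * m + 1) * n) * Ω.indicator γ y ∂μ :=
        mul_le_mul_right (lintegral_mono h2) _
    _ = _ := by
        rw [lintegral_const_mul _ (hγ.indicator hΩ), lintegral_indicator hΩ, ← mul_assoc]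

end Pool.Agent.MP_a25fb7_an

end

-- part MP_a25fb7_an.Low
section

/-!
Balls of low density: either the defects carry the excess of the average over the level, or a
small ball of medium density with a much larger average sits at the boundary.
-/

set_option autoImplicit false
set_option linter.unusedSectionVars false
open MeasureTheory Metric Set Module
open scoped ENNReal

namespace Pool.Agent.MP_a25fb7_an

variable {E : Type*} [NormedAddCommGroup E] [InnerProductSpace ℝ E] [FiniteDimensional ℝ E]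
  [MeasurableSpace E] [BorelSpace E] (μ : Measure E) [μ.IsAddHaarMeasure]

lemma exists_small (d : ℕ) {c : ℝ} (hc : 0 < c) :
    ∃ x : ℝ, 0 < x ∧ x ≤ 1 / 4 ∧ (1 + 2 * x) ^ d ≤ 1 + c := by
  have hK : (0 : ℝ) < d * (1 + 1) ^ d + 1 := by positivity
  refine ⟨min (1 / 4) (c / (2 * (d * (1 + 1) ^ d + 1))), by positivity, min_le_left _ _, ?_⟩
  set x := min (1 / 4) (c / (2 * (d * (1 + 1) ^ d + 1))) with hx
  have h0 : 0 < x := by positivity
  have h1 : x ≤ 1 / 4 := min_le_left _ _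
  have h2 : x ≤ c / (2 * (d * (1 + 1) ^ d + 1)) := min_le_right _ _
  rw [le_div_iff₀ (by positivity)] at h2
  have := one_add_pow_le (x := 2 * x) (X := 1) (by linarith) (by linarith) d
  nlinarith

lemma sub_ne_top {S : Set E} {z : E} {r : ℝ} (h : S ⊆ ball z r) : μ S ≠ ∞ :=
  ne_top_of_le_ne_top (ball_ne_top μ z r) (measure_mono h)

lemma integrableOn_ball {g : E → ℝ} (hg : Continuous g) (z : E) (r : ℝ) :
    IntegrableOn g (ball z r) μ :=
  (hg.continuousOn.integrableOn_compact (isCompact_closedBall z r)).mono_set ball_subset_closedBall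

lemma lint_ball_ne_top {g : E → ℝ} (hg : Continuous g) (z : E) (r : ℝ) :
    ∫⁻ y in ball z r, ENNReal.ofReal (g y) ∂μ ≠ ∞ :=
  (integrableOn_ball μ hg z r).lintegral_lt_top.ne

lemma thin_up' {f : E → ℝ} (hf : Measurable f) {σ κ l : ℝ} (hσ : 0 < σ) (hκ0 : 0 ≤ κ)
    (hκ : κ < 1 / 2) {y : E} (h : μ.real (ball y σ ∩ {x | l < f x}) ≤ κ * μ.real (ball y σ)) :
    ENNReal.ofReal (f y - l) ≤ ENNReal.ofReal (1 - 2 * κ)⁻¹ * Qn μ f σ y := by
  have h1 := thin_up μ hf hσ hκ0 hκ.le (y := y) (l := l) (by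
    rw [← ofReal_measureReal (sub_ne_top μ inter_subset_left),
      ← ofReal_measureReal (ball_ne_top μ y σ), ← ENNReal.ofReal_mul hκ0]
    exact ENNReal.ofReal_le_ofReal h)
  refine le_trans (le_of_eq ?_) (mul_le_mul_right h1 _)
  rw [← mul_assoc, ← ENNReal.ofReal_mul (inv_nonneg.2 (by linarith)),
    inv_mul_cancel₀ (by linarith)]
  simp

lemma thin_down' {f : E → ℝ} (hf : Measurable f) {σ κ l : ℝ} (hσ : 0 < σ) (hκ0 : 0 ≤ κ)
    (hκ : κ < 1 / 2) {y : E} (h : μ.real (ball y σ ∩ {x | f x < l}) ≤ κ * μ.real (ball y σ)) :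
    ENNReal.ofReal (l - f y) ≤ ENNReal.ofReal (1 - 2 * κ)⁻¹ * Qn μ f σ y := by
  have := thin_up' μ (f := fun x => -f x) (l := -l) hf.neg hσ hκ0 hκ (y := y)
    (by simpa using h)
  rw [Qn_neg] at this
  rwa [show -f y - -l = l - f y by ring] at this

lemma ofReal_le_add (x h : ℝ) :
    ENNReal.ofReal x ≤ ENNReal.ofReal h + ENNReal.ofReal (x - h) := by
  refine le_trans (le_of_eq ?_) ENNReal.ofReal_add_le
  congr 1; ring

lemma cheb {g : E → ℝ} {S T : Set E} (hT : MeasurableSet T) (hS : T ⊆ S) {h : ℝ} (hh : 0 ≤ h)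
    (hg : ∀ x ∈ T, h ≤ g x) (hfin : ∫⁻ y in S, ENNReal.ofReal (g y) ∂μ ≠ ∞) :
    h * μ.real T ≤ (∫⁻ y in S, ENNReal.ofReal (g y) ∂μ).toReal := by
  have : ENNReal.ofReal h * μ T ≤ ∫⁻ y in S, ENNReal.ofReal (g y) ∂μ := by
    rw [← setLIntegral_const]
    exact (setLIntegral_mono' hT fun x hx => ENNReal.ofReal_le_ofReal (hg x hx)).trans
      (lintegral_mono_set hS)
  have := ENNReal.toReal_mono hfin this
  rwa [ENNReal.toReal_mul, ENNReal.toReal_ofReal hh] at this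

lemma half_ball' {z y : E} {r s η : ℝ} (hy : y ∈ ball z r) (hs : 0 < s) (hη : 0 < η)
    (hη1 : η ≤ 1 / 2) (hsr : s ≤ η * r) :
    μ.real (ball y s \ ball z r) * 2 ≤ (1 + η) ^ finrank ℝ E * μ.real (ball y s) := by
  have := ENNReal.toReal_mono (ENNReal.mul_ne_top ENNReal.ofReal_ne_top (ball_ne_top μ y s))
    (half_ball μ hy hs hη hη1 hsr)
  rwa [ENNReal.toReal_mul, ENNReal.toReal_mul, ENNReal.toReal_ofReal (by positivity),
    ENNReal.toReal_ofNat] at this

lemma ar1 {τ ρ r : ℝ} (hτ0 : 0 < τ) (hτ1 : τ ≤ 1 / 4) (hρ : 0 < ρ) (hρr : ρ ≤ r) :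
    r ≤ (1 + 2 * τ) * (r - τ * ρ) := by
  nlinarith [mul_pos hτ0 hρ, mul_le_mul_of_nonneg_left hρr hτ0.le]

theorem low_ball0 : ∃ η τ ε : ℝ, 0 < η ∧ η ≤ 1 / 4 ∧ 0 < τ ∧ τ ≤ 1 / 4 ∧ 0 < ε ∧ ε ≤ 1 / 4 ∧
    ∃ C : ℝ≥0∞, C ≠ ∞ ∧
    ∀ (g : E → ℝ) (ρ r a : ℝ) (z : E), Continuous g → 0 < ρ → ρ ≤ r → r ≤ 3 * ρ → 0 < a →
      a * μ.real (ball z r) < ∫ y in ball z r, g y ∂μ →
      μ.real (ball z r ∩ {x | 0 < g x}) ≤ ε * μ.real (ball z r) →
      ENNReal.ofReal (a * ρ ^ finrank ℝ E) ≤ C * ∫⁻ y in ball z (r + ρ),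
          (Qn μ g (τ * ρ) y + Qn μ g (η * ρ) y + Qn μ g (2 * η * ρ) y) ∂μ ∨
      ∃ y ∈ ball z r, 2 * a * μ.real (ball y (η * ρ)) < ∫ x in ball y (η * ρ), g x ∂μ ∧
        1 / 4 * μ.real (ball y (η * ρ)) ≤ μ.real (ball y (η * ρ) ∩ {x | 2 * a < g x}) ∧
        1 / 4 * μ.real (ball y (η * ρ)) ≤ μ.real (ball y (η * ρ) ∩ {x | g x ≤ 0}) := by
  set d := finrank ℝ E with hd
  set D : ℝ := 2 ^ d with hD
  have hD1 : 1 ≤ D := one_le_pow₀ one_le_two
  set v := μ.real (ball (0 : E) 1) with hv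
  have hv0 : 0 < v := unit_real_pos μ
  obtain ⟨η, hη0, hη1, hη2⟩ := exists_small d (c := 1 / (32 * D)) (by positivity)
  set β : ℝ := (η / 3) ^ d with hβ
  have hβ0 : 0 < β := by positivity
  have hβ1 : β ≤ 1 := pow_le_one₀ (by positivity) (by linarith)
  obtain ⟨τ, hτ0, hτ1, hτ2⟩ := exists_small d (c := β / 64) (by positivity)
  set κ : ℝ := 1 / 2 - 1 / (64 * D) with hκ
  have hκ1 : 1 / (64 * D) ≤ 1 / 64 := one_div_le_one_div_of_le (by norm_num) (by linarith)
  have hκ2 : 0 < 1 / (64 * D) := by positivity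
  have hκ0 : 31 / 64 ≤ κ := by linarith
  have hκ3 : κ < 1 / 2 := by linarith
  set c : ℝ := (1 - 2 * κ)⁻¹ with hc
  have hc0 : 0 < c := inv_pos.2 (by linarith)
  have hηd : η ^ d ≤ 1 := pow_le_one₀ hη0.le (by linarith)
  refine ⟨η, τ, min (β / 32) ((τ / 3) ^ d / 4), hη0, hη1, hτ0, hτ1, by positivity,
    (min_le_left _ _).trans (by linarith), ENNReal.ofReal (4 * c / (η ^ d * v)),
    ENNReal.ofReal_ne_top, ?_⟩
  intro g ρ r a z hg hρ hρr hr3 ha havg hlow
  have hr : 0 < r := by linarith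
  set B := ball z r with hB
  set s := η * ρ with hs
  set t := τ * ρ with ht
  have hs0 : 0 < s := by positivity
  have ht0 : 0 < t := by positivity
  have hs2 : 2 * η * ρ = 2 * s := by rw [hs]; ring
  have hsρ : s ≤ ρ / 4 := by rw [hs]; linarith [mul_le_mul_of_nonneg_right hη1 hρ.le]
  have htρ : t ≤ ρ / 4 := by rw [ht]; linarith [mul_le_mul_of_nonneg_right hτ1 hρ.le]
  rw [hs2]
  set Q : E → ℝ≥0∞ := fun y => Qn μ g t y + Qn μ g s y + Qn μ g (2 * s) y with hQ
  have mQ : Measurable Q := ((measurable_Qn μ hg.measurable _).add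
    (measurable_Qn μ hg.measurable _)).add (measurable_Qn μ hg.measurable _)
  set Θ := ∫⁻ y in ball z (r + ρ), Q y ∂μ with hΘ
  by_cases hΘt : Θ = ∞
  · left
    rw [hΘt, ENNReal.mul_top (ENNReal.ofReal_pos.2 (by positivity)).ne']
    exact le_top
  set θ := Θ.toReal with hθ
  have hθ0 : 0 ≤ θ := ENNReal.toReal_nonneg
  set Bv := μ.real B with hBv
  set W : ℝ := s ^ d * v with hW
  have hW0 : 0 < W := by positivity
  have hWy : ∀ y : E, μ.real (ball y s) = W := fun y => ball_real μ y hs0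
  have hW2 : ∀ y : E, μ.real (ball y (2 * s)) = D * W := fun y => by
    rw [ball_real μ y (by linarith), mul_pow, hW]; ring
  have hB1 : Bv = r ^ d * v := ball_real μ z hr
  have hB2 : ρ ^ d * v ≤ Bv := by rw [hB1]; gcongr
  have hB3 : Bv ≤ (3 * ρ) ^ d * v := by rw [hB1]; gcongr
  have hB0 : 0 < Bv := by rw [hB1]; positivity
  have hWB : β * Bv ≤ W := by
    calc β * Bv ≤ β * ((3 * ρ) ^ d * v) := by gcongr
      _ = W := by rw [hβ, hW, hs, ← mul_assoc, ← mul_pow]; congr 2; ring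
  have hlow1 : μ.real (B ∩ {x | 0 < g x}) ≤ W / 32 := by
    have := mul_le_mul_of_nonneg_right (min_le_left (β / 32) ((τ / 3) ^ d / 4)) hB0.le
    linarith
  have hlow2 : μ.real (B ∩ {x | 0 < g x}) ≤ 1 / 4 * (t ^ d * v) := by
    have h1 := mul_le_mul_of_nonneg_right (min_le_right (β / 32) ((τ / 3) ^ d / 4)) hB0.le
    have h2 : (τ / 3) ^ d / 4 * Bv ≤ (τ / 3) ^ d / 4 * ((3 * ρ) ^ d * v) := by gcongr
    have h3 : (τ / 3) ^ d / 4 * ((3 * ρ) ^ d * v) = 1 / 4 * (t ^ d * v) := by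
      have : t ^ d = (τ / 3) ^ d * (3 * ρ) ^ d := by rw [← mul_pow, ht]; congr 1; ring
      rw [this]; ring
    linarith
  -- the boundary layer
  set L := B \ ball z (r - t) with hL
  have mL : MeasurableSet L := measurableSet_ball.diff measurableSet_ball
  have hLv : μ.real L ≤ β / 64 * Bv := by
    have h1 : μ.real L = Bv - μ.real (ball z (r - t)) :=
      measureReal_sdiff (ball_subset_ball (by linarith)) measurableSet_ball (ball_ne_top μ z r)
    have h2 : μ.real (ball z (r - t)) = (r - t) ^ d * v := ball_real μ z (by linarith)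
    have h3 : r ^ d ≤ (1 + 2 * τ) ^ d * (r - t) ^ d := by
      rw [← mul_pow]
      refine pow_le_pow_left₀ hr.le ?_ d
      exact ar1 hτ0 hτ1 hρ hρr
    have h4 : (r - t) ^ d ≤ r ^ d := pow_le_pow_left₀ (by linarith) (by linarith) d
    have h5 : 0 ≤ (r - t) ^ d := pow_nonneg (by linarith) d
    have h6 : r ^ d ≤ (r - t) ^ d + β / 64 * r ^ d := by
      linarith [mul_le_mul_of_nonneg_right hτ2 h5, mul_le_mul_of_nonneg_left h4 hβ0.le]
    rw [h1, h2, hB1]; linarith [mul_le_mul_of_nonneg_right h6 hv0.le]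
  -- positive and negative parts
  have hPt := lint_ball_ne_top μ hg z r
  have hNt := lint_ball_ne_top μ hg.neg z r
  set P := (∫⁻ y in B, ENNReal.ofReal (g y) ∂μ).toReal with hP
  set N := (∫⁻ y in B, ENNReal.ofReal (-g y) ∂μ).toReal with hN
  have hN0 : 0 ≤ N := ENNReal.toReal_nonneg
  have hPN : a * Bv < P - N := by
    rwa [integral_eq_lintegral_pos_part_sub_lintegral_neg_part (integrableOn_ball μ hg z r)] at havg
  have hleft : a * W / 4 ≤ c * θ → ENNReal.ofReal (a * ρ ^ d) ≤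
      ENNReal.ofReal (4 * c / (η ^ d * v)) * Θ := by
    intro h
    rw [← ENNReal.ofReal_toReal hΘt, ← ENNReal.ofReal_mul (by positivity)]
    refine ENNReal.ofReal_le_ofReal ?_
    rw [div_mul_eq_mul_div, le_div_iff₀ (by positivity)]
    rw [hW, hs, mul_pow] at h
    linarith
  let bad : ℝ → Prop := fun h => ∃ y ∈ B, κ * W < μ.real (ball y s ∩ {x | h < g x}) ∧
    κ * (D * W) < μ.real (ball y (2 * s) ∩ {x | h < g x})
  have hPb : ∀ h, 0 ≤ h → ¬ bad h → P ≤ h * μ.real L + c * θ := by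
    intro h hh hb
    have h1 : ∀ y ∈ B, ENNReal.ofReal (g y) ≤
        L.indicator (fun _ => ENNReal.ofReal h) y + ENNReal.ofReal c * Q y := by
      intro y hy
      by_cases hyL : y ∈ L
      · rw [indicator_of_mem hyL]
        refine (ofReal_le_add _ h).trans (add_le_add le_rfl ?_)
        by_cases h2 : κ * W < μ.real (ball y s ∩ {x | h < g x})
        · have h3 : ¬ κ * (D * W) < μ.real (ball y (2 * s) ∩ {x | h < g x}) :=
            fun h3 => hb ⟨y, hy, h2, h3⟩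
          refine (thin_up' μ hg.measurable (σ := 2 * s) (by linarith) (by linarith) hκ3
            (by rw [hW2]; exact not_lt.1 h3)).trans (mul_le_mul_right ?_ _)
          exact le_add_self
        · refine (thin_up' μ hg.measurable hs0 (by linarith) hκ3
            (by rw [hWy]; exact not_lt.1 h2)).trans (mul_le_mul_right ?_ _)
          exact le_add_self.trans le_self_add
      · have hin : y ∈ ball z (r - t) := by
          by_contra hcon; exact hyL ⟨hy, hcon⟩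
        have hsub : ball y t ⊆ B := ball_subset_ball' (by rw [mem_ball] at hin; linarith)
        have h2 := thin_up' μ hg.measurable (l := 0) (y := y) ht0 (by linarith) hκ3 (by
          rw [ball_real μ y ht0]
          have h3 : μ.real (ball y t ∩ {x | 0 < g x}) ≤ μ.real (B ∩ {x | 0 < g x}) :=
            measureReal_mono (inter_subset_inter_left _ hsub) (sub_ne_top μ inter_subset_left)
          have h4 : 0 < t ^ d * v := mul_pos (pow_pos ht0 d) hv0
          linarith [mul_le_mul_of_nonneg_right hκ0 h4.le])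
        rw [sub_zero] at h2
        refine h2.trans (le_trans (mul_le_mul_right ?_ _) le_add_self)
        exact le_self_add.trans le_self_add
    have h2 : ∫⁻ y in B, ENNReal.ofReal (g y) ∂μ ≤ ENNReal.ofReal h * μ L + ENNReal.ofReal c * Θ := by
      refine (setLIntegral_mono' measurableSet_ball h1).trans ?_
      rw [lintegral_add_right _ (mQ.const_mul _), lintegral_const_mul _ mQ]
      refine add_le_add ?_ (mul_le_mul_right (lintegral_mono_set (ball_subset_ball (by linarith))) _)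
      refine (setLIntegral_le_lintegral _ _).trans (le_of_eq ?_)
      rw [lintegral_indicator mL, setLIntegral_const]
    have h3 := ENNReal.toReal_mono (ENNReal.add_ne_top.2 ⟨ENNReal.mul_ne_top ENNReal.ofReal_ne_top
      (sub_ne_top μ sdiff_subset), ENNReal.mul_ne_top ENNReal.ofReal_ne_top hΘt⟩) h2
    rwa [ENNReal.toReal_add (ENNReal.mul_ne_top ENNReal.ofReal_ne_top (sub_ne_top μ sdiff_subset))
      (ENNReal.mul_ne_top ENNReal.ofReal_ne_top hΘt), ENNReal.toReal_mul, ENNReal.toReal_mul,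
      ENNReal.toReal_ofReal hh, ENNReal.toReal_ofReal hc0.le] at h3
  have hex : ∃ n : ℕ, ¬ bad (2 ^ n * (8 * a)) := by
    obtain ⟨M, hM⟩ := (isCompact_closedBall z (r + ρ)).bddAbove_image hg.continuousOn
    obtain ⟨n, hn⟩ := pow_unbounded_of_one_lt (M / (8 * a)) (one_lt_two (α := ℝ))
    rw [div_lt_iff₀ (by positivity)] at hn
    refine ⟨n, fun ⟨y, hy, h1, _⟩ => ?_⟩
    have : ball y s ∩ {x | 2 ^ n * (8 * a) < g x} = ∅ := by
      rw [eq_empty_iff_forall_notMem]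
      rintro x ⟨hx1, hx2⟩
      have hx3 : x ∈ closedBall z (r + ρ) := by
        rw [mem_closedBall]; rw [mem_ball] at hx1 hy
        linarith [dist_triangle x y z]
      have := hM (mem_image_of_mem g hx3)
      simp only [mem_ofPred_eq] at hx2
      linarith
    rw [this, measureReal_empty] at h1
    linarith [mul_le_mul_of_nonneg_right hκ0 hW0.le]
  classical
  have hspec := Nat.find_spec hex
  have hLW : μ.real L ≤ W / 64 := by linarith
  rcases Nat.eq_zero_or_eq_succ_pred (Nat.find hex) with h0 | h0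
  · left
    rw [h0, pow_zero, one_mul] at hspec
    have h1 := hPb _ (by positivity) hspec
    refine hleft ?_
    have h2 : 8 * a * μ.real L ≤ 8 * a * (1 / 64 * Bv) := by
      have : β / 64 * Bv ≤ 1 / 64 * Bv := by gcongr
      gcongr; linarith
    have h3 : W ≤ Bv := by
      refine le_trans ?_ hB2
      rw [hW]; gcongr; linarith
    linarith [mul_le_mul_of_nonneg_left h3 ha.le, mul_pos ha hW0]
  set h0' : ℝ := 2 ^ (Nat.find hex).pred * (8 * a) with hh0
  have hbad : bad h0' := by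
    by_contra hcon
    exact Nat.find_min hex (m := (Nat.find hex).pred) (by omega) hcon
  have hge : 8 * a ≤ h0' := le_mul_of_one_le_left (by positivity) (one_le_pow₀ one_le_two)
  have hpos : 0 < h0' := by linarith
  have hnb : ¬ bad (2 * h0') := by
    rw [h0, Nat.succ_eq_add_one, pow_succ] at hspec
    rwa [show 2 * h0' = 2 ^ (Nat.find hex).pred * 2 * (8 * a) by rw [hh0]; ring]
  have hP2 := hPb _ (by positivity) hnb
  by_cases hbig : h0' * W / 32 ≤ c * θ
  · left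
    exact hleft (by linarith [mul_le_mul_of_nonneg_right hge hW0.le])
  right
  rw [not_le] at hbig
  have hN1 : N ≤ h0' * W / 16 := by
    linarith [mul_pos ha hB0, mul_le_mul_of_nonneg_left hLW hpos.le]
  obtain ⟨y, hy, hd1, hd2⟩ := hbad
  set Z := (ball y (2 * s) \ B) ∩ {x | g x ≤ h0'} with hZ
  have mZ : MeasurableSet Z := (measurableSet_ball.diff measurableSet_ball).inter
    (measurableSet_le hg.measurable measurable_const)
  have hZt : μ Z ≠ ∞ := sub_ne_top μ (inter_subset_left.trans sdiff_subset)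
  have hhalf : ∀ σ, 0 < σ → σ ≤ 2 * s → μ.real (ball y σ \ B) * 2 ≤
      (1 + 1 / (32 * D)) * μ.real (ball y σ) := by
    intro σ h1 h2
    refine (half_ball' μ (η := 2 * η) hy h1 (by linarith) (by linarith)
      (by rw [hs] at h2; linarith [mul_le_mul_of_nonneg_left hρr hη0.le])).trans ?_
    gcongr
  have hZv : μ.real Z ≤ W / 16 := by
    have h1 := hhalf (2 * s) (by linarith) le_rfl
    rw [hW2] at h1
    have h2 : μ.real (ball y (2 * s) ∩ {x | h0' < g x}) ≤
        μ.real (B ∩ {x | 0 < g x}) + μ.real ((ball y (2 * s) \ B) \ {x | g x ≤ h0'}) := by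
      refine le_trans (measureReal_mono ?_ ?_) (measureReal_union_le _ _)
      · rintro x ⟨hx1, hx2⟩
        by_cases hxB : x ∈ B
        · exact Or.inl ⟨hxB, lt_trans hpos hx2⟩
        · exact Or.inr ⟨⟨hx1, hxB⟩, fun h => absurd (show h0' < g x from hx2) (not_lt.2 h)⟩
      · exact ne_top_of_le_ne_top (ENNReal.add_ne_top.2 ⟨sub_ne_top μ inter_subset_left,
          sub_ne_top μ (sdiff_subset.trans sdiff_subset)⟩) (measure_union_le _ _)
    have h3 := measureReal_inter_add_sdiff (μ := μ) (s := ball y (2 * s) \ B)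
      (measurableSet_le hg.measurable (measurable_const (a := h0'))) (sub_ne_top μ sdiff_subset)
    have h4 : (1 + 1 / (32 * D)) * (D * W) = D * W + W / 32 := by field_simp
    have h5 : κ * (D * W) = D * W / 2 - W / 64 := by rw [hκ]; field_simp
    rw [← hZ] at h3
    linarith
  have hneg : ∀ y' ∈ ball y s, ENNReal.ofReal (-h0' - g y') ≤ ENNReal.ofReal c * Q y' := by
    intro y' hy'
    refine (thin_down' μ hg.measurable hs0 (by linarith) hκ3 ?_).trans
      (mul_le_mul_right (le_add_self.trans le_self_add) _)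
    have h1 : μ.real (ball y' s ∩ {x | g x < -h0'}) ≤ μ.real (B ∩ {x | g x < -h0'}) + μ.real Z := by
      refine le_trans (measureReal_mono ?_ ?_) (measureReal_union_le _ _)
      · rintro x ⟨hx1, hx2⟩
        by_cases hxB : x ∈ B
        · exact Or.inl ⟨hxB, hx2⟩
        · refine Or.inr ⟨⟨?_, hxB⟩, ?_⟩
          · rw [mem_ball] at *; linarith [dist_triangle x y' y]
          · simp only [mem_ofPred_eq] at hx2 ⊢; linarith
      · exact ne_top_of_le_ne_top (ENNReal.add_ne_top.2 ⟨sub_ne_top μ inter_subset_left, hZt⟩)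
          (measure_union_le _ _)
    have h2 : h0' * μ.real (B ∩ {x | g x < -h0'}) ≤ N :=
      cheb μ (g := fun x => -g x) (measurableSet_ball.inter
        (measurableSet_lt hg.measurable measurable_const)) inter_subset_left hpos.le
        (fun x hx => by have := hx.2; simp only [mem_ofPred_eq] at this; linarith) hNt
    have h3 : μ.real (B ∩ {x | g x < -h0'}) ≤ W / 16 := by
      by_contra hcon
      linarith [mul_lt_mul_of_pos_left (not_le.1 hcon) hpos]
    rw [hWy]; linarith [mul_le_mul_of_nonneg_right hκ0 hW0.le]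
  have hGsub : ball y s ⊆ ball z (r + ρ) :=
    ball_subset_ball' (by rw [mem_ball] at hy; linarith)
  have hNG : (∫⁻ x in ball y s, ENNReal.ofReal (-g x) ∂μ).toReal ≤ N + h0' * μ.real Z + c * θ := by
    have h1 : ∀ x ∈ ball y s, ENNReal.ofReal (-g x) ≤
        B.indicator (fun x => ENNReal.ofReal (-g x)) x + Z.indicator (fun _ => ENNReal.ofReal h0') x
          + ENNReal.ofReal c * Q x := by
      intro x hx
      by_cases hxB : x ∈ B
      · rw [indicator_of_mem hxB]; exact le_self_add.trans le_self_add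
      by_cases hxg : g x ≤ h0'
      · have hxZ : x ∈ Z := ⟨⟨ball_subset_ball (by linarith) hx, hxB⟩, hxg⟩
        rw [indicator_of_notMem hxB, indicator_of_mem hxZ, zero_add]
        refine (ofReal_le_add _ h0').trans (add_le_add le_rfl ?_)
        rw [show -g x - h0' = -h0' - g x by ring]
        exact hneg x hx
      · rw [ENNReal.ofReal_of_nonpos (by linarith)]; exact zero_le
    have h2 : ∫⁻ x in ball y s, ENNReal.ofReal (-g x) ∂μ ≤ ∫⁻ x in B, ENNReal.ofReal (-g x) ∂μ +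
        ENNReal.ofReal h0' * μ Z + ENNReal.ofReal c * Θ := by
      refine (setLIntegral_mono' measurableSet_ball h1).trans ?_
      rw [lintegral_add_right _ (mQ.const_mul _), lintegral_const_mul _ mQ,
        lintegral_add_right _ (measurable_const.indicator mZ)]
      refine add_le_add (add_le_add ?_ ?_) (mul_le_mul_right (lintegral_mono_set hGsub) _)
      · refine (setLIntegral_le_lintegral _ _).trans (le_of_eq ?_)
        rw [lintegral_indicator measurableSet_ball]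
      · refine (setLIntegral_le_lintegral _ _).trans (le_of_eq ?_)
        rw [lintegral_indicator mZ, setLIntegral_const]
    have f1 := ENNReal.mul_ne_top (ENNReal.ofReal_ne_top (r := h0')) hZt
    have f2 := ENNReal.mul_ne_top (ENNReal.ofReal_ne_top (r := c)) hΘt
    have h3 := ENNReal.toReal_mono (ENNReal.add_ne_top.2 ⟨ENNReal.add_ne_top.2 ⟨hNt, f1⟩, f2⟩) h2
    rwa [ENNReal.toReal_add (ENNReal.add_ne_top.2 ⟨hNt, f1⟩) f2, ENNReal.toReal_add hNt f1,
      ENNReal.toReal_mul, ENNReal.toReal_mul, ENNReal.toReal_ofReal hpos.le,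
      ENNReal.toReal_ofReal hc0.le] at h3
  have hPG : h0' * μ.real (ball y s ∩ {x | h0' < g x}) ≤
      (∫⁻ x in ball y s, ENNReal.ofReal (g x) ∂μ).toReal :=
    cheb μ (measurableSet_ball.inter (measurableSet_lt measurable_const hg.measurable))
      inter_subset_left hpos.le (fun x hx => le_of_lt hx.2) (lint_ball_ne_top μ hg y s)
  refine ⟨y, hy, ?_, ?_, ?_⟩
  · rw [integral_eq_lintegral_pos_part_sub_lintegral_neg_part (integrableOn_ball μ hg y s), hWy]
    have h1 : h0' * (31 / 64 * W) ≤ h0' * μ.real (ball y s ∩ {x | h0' < g x}) :=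
      mul_le_mul_of_nonneg_left (by linarith [mul_le_mul_of_nonneg_right hκ0 hW0.le]) hpos.le
    have h2 : h0' * μ.real Z ≤ h0' * (W / 16) := by gcongr
    linarith [mul_pos hpos hW0, mul_le_mul_of_nonneg_right hge hW0.le]
  · rw [hWy]
    have h1 : μ.real (ball y s ∩ {x | h0' < g x}) ≤ μ.real (ball y s ∩ {x | 2 * a < g x}) :=
      measureReal_mono (inter_subset_inter_right _ fun x hx => by
        simp only [mem_ofPred_eq] at hx ⊢; linarith) (sub_ne_top μ inter_subset_left)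
    linarith [mul_le_mul_of_nonneg_right hκ0 hW0.le]
  · have h1 := hhalf s hs0 (by linarith)
    have h2 : μ.real (ball y s) ≤ μ.real (ball y s ∩ {x | g x ≤ 0}) +
        (μ.real (ball y s \ B) + μ.real (B ∩ {x | 0 < g x})) := by
      refine le_trans (measureReal_mono ?_ ?_) ((measureReal_union_le _ _).trans
        (add_le_add le_rfl (measureReal_union_le _ _)))
      · intro x hx
        by_cases hx0 : g x ≤ 0
        · exact Or.inl ⟨hx, hx0⟩
        by_cases hxB : x ∈ B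
        · exact Or.inr (Or.inr ⟨hxB, not_le.1 hx0⟩)
        · exact Or.inr (Or.inl ⟨hx, hxB⟩)
      · refine sub_ne_top μ (z := z) (r := r + ρ) (union_subset (inter_subset_left.trans hGsub)
          (union_subset (sdiff_subset.trans hGsub) (inter_subset_left.trans ?_)))
        exact ball_subset_ball (by linarith)
    rw [hWy] at h1 h2 ⊢
    have h3 : 1 / (32 * D) ≤ 1 / 32 := one_div_le_one_div_of_le (by norm_num) (by linarith)
    linarith [mul_le_mul_of_nonneg_right h3 hW0.le]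

end Pool.Agent.MP_a25fb7_an

end

-- part MP_a25fb7_an.Cells
section

/-!
Cells of balls: membership, comparison of volumes, and the translation estimate for one cell.
-/

set_option autoImplicit false
set_option linter.unusedSectionVars false
open MeasureTheory Metric Set Module
open scoped ENNReal

namespace Pool.Agent.MP_a25fb7_an

variable {E : Type*} [NormedAddCommGroup E] [InnerProductSpace ℝ E] [FiniteDimensional ℝ E]
  [MeasurableSpace E] [BorelSpace E] (μ : Measure E) [μ.IsAddHaarMeasure]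

/-- the ball of centre `z` and radius `r` belongs to the cell `(k, j)` -/
def InCell (δ : ℝ) (k : ℤ) (j : E × ℝ) (z : E) (r : ℝ) : Prop :=
  dist z ((2 : ℝ) ^ k • j.1) < δ * 2 ^ k ∧ 2 ^ k * j.2 ≤ r ∧ r < 2 ^ k * (j.2 + δ)

lemma exists_cell {δ : ℝ} {J : Set (E × ℝ)}
    (hJ : ∀ (z : E) (r : ℝ), 1 ≤ r → r < 2 → ∃ j ∈ J, dist z j.1 < δ ∧ j.2 ≤ r ∧ r < j.2 + δ)
    (z : E) {r : ℝ} {k : ℤ} (h1 : 2 ^ k ≤ r) (h2 : r < 2 ^ (k + 1)) :
    ∃ j ∈ J, InCell δ k j z r := by
  have hρ : (0 : ℝ) < 2 ^ k := by positivity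
  rw [zpow_add_one₀ two_ne_zero] at h2
  obtain ⟨j, hj, a1, a2, a3⟩ := hJ (((2 : ℝ) ^ k)⁻¹ • z) (r / 2 ^ k)
    (by rwa [le_div_iff₀ hρ, one_mul]) (by rw [div_lt_iff₀ hρ]; linarith)
  refine ⟨j, hj, ?_, ?_, ?_⟩
  · have := (smul_mem_ball_iff hρ j.1 z δ).2 (by rwa [mem_ball, dist_comm])
    rwa [mem_ball, mul_comm] at this
  · rw [le_div_iff₀ hρ] at a2; linarith
  · rw [div_lt_iff₀ hρ] at a3; linarith

lemma InCell.inner {δ : ℝ} {k : ℤ} {j : E × ℝ} {z : E} {r : ℝ} (h : InCell δ k j z r) :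
    cb k j (-δ) ⊆ ball z r :=
  ball_subset_ball' (by rw [dist_comm]; linarith [h.1, h.2.1])

lemma InCell.outer {δ : ℝ} {k : ℤ} {j : E × ℝ} {z : E} {r : ℝ} (h : InCell δ k j z r) :
    ball z r ⊆ cb k j (2 * δ) :=
  ball_subset_ball' (by linarith [h.1, h.2.2])

lemma cb_mono (k : ℤ) (j : E × ℝ) {e e' : ℝ} (h : e ≤ e') : cb k j e ⊆ cb k j e' :=
  ball_subset_ball (mul_le_mul_of_nonneg_left (by linarith) (by positivity))

lemma InCell.inner' {δ : ℝ} (hδ : 0 < δ) {k : ℤ} {j : E × ℝ} {z : E} {r : ℝ}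
    (h : InCell δ k j z r) : cb k j (-(2 * δ)) ⊆ ball z r :=
  (cb_mono k j (by linarith)).trans h.inner

lemma InCell.radius {δ : ℝ} (hδ : δ ≤ 1 / 4) {k : ℤ} {j : E × ℝ} (hj1 : 1 ≤ j.2) (hj2 : j.2 ≤ 2)
    {z : E} {r : ℝ} (h : InCell δ k j z r) :
    2 ^ k ≤ r ∧ r ≤ 9 / 4 * 2 ^ k ∧ dist z ((2 : ℝ) ^ k • j.1) ≤ 2 ^ k / 4 := by
  have hρ : (0 : ℝ) < 2 ^ k := by positivity
  obtain ⟨h1, h2, h3⟩ := h
  refine ⟨by nlinarith, by nlinarith, by nlinarith⟩

lemma cb_compare {c : ℝ} (hc : 0 < c) : ∃ δ : ℝ, 0 < δ ∧ δ ≤ 1 / 4 ∧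
    ∀ (k : ℤ) (j : E × ℝ), 1 ≤ j.2 →
      μ.real (cb k j (2 * δ)) ≤ (1 + c) * μ.real (cb k j (-(2 * δ))) := by
  obtain ⟨x, hx0, hx1, hx2⟩ := exists_small (finrank ℝ E) hc
  refine ⟨x / 4, by positivity, by linarith, fun k j hj => ?_⟩
  have hρ : (0 : ℝ) < 2 ^ k := by positivity
  have h1 : 0 < j.2 + -(2 * (x / 4)) := by linarith
  unfold cb
  rw [ball_real μ ((2 : ℝ) ^ k • j.1) (by positivity),
    ball_real μ ((2 : ℝ) ^ k • j.1) (by positivity), ← mul_assoc]
  refine mul_le_mul_of_nonneg_right ?_ (unit_real_pos μ).le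
  refine le_trans ?_ (mul_le_mul_of_nonneg_right hx2 (by positivity))
  rw [← mul_pow]
  refine pow_le_pow_left₀ (by positivity) ?_ _
  rw [mul_left_comm]
  refine mul_le_mul_of_nonneg_left ?_ hρ.le
  nlinarith

lemma dens_transfer {K B B' S : Set E} {z : E} {R c : ℝ} (hK : MeasurableSet K) (h1 : K ⊆ B)
    (h2 : B ⊆ ball z R) (h3 : B' ⊆ ball z R) (h : μ.real (ball z R) ≤ (1 + c) * μ.real K) :
    μ.real (B' ∩ S) ≤ μ.real (B ∩ S) + c * μ.real K := by
  have e : μ.real (ball z R \ K) = μ.real (ball z R) - μ.real K :=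
    measureReal_sdiff (h1.trans h2) hK (ball_ne_top μ z R)
  have h4 : μ.real (B' ∩ S) ≤ μ.real (B ∩ S) + μ.real (ball z R \ K) := by
    refine le_trans (measureReal_mono ?_ ?_) (measureReal_union_le _ _)
    · rintro x ⟨hx1, hx2⟩
      by_cases hx : x ∈ K
      · exact Or.inl ⟨h1 hx, hx2⟩
      · exact Or.inr ⟨h3 hx1, hx⟩
    · exact sub_ne_top μ (union_subset (inter_subset_left.trans h2) sdiff_subset)
  linarith

lemma medium_of_ball {U : ℝ → Set E} {f : E → ℝ} {δ A e l r : ℝ} {k : ℤ} {j : E × ℝ} {z : E}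
    (hδ : 0 < δ) (he : 0 ≤ e) (hc : InCell δ k j z r)
    (hcmp : μ.real (cb k j (2 * δ)) ≤ (1 + e) * μ.real (cb k j (-(2 * δ))))
    (hU : ball z r ⊆ U l) (hA : ¬ ball ((2 : ℝ) ^ k • j.1) (A * 2 ^ k) ⊆ U l)
    (h1 : 2 * e * μ.real (ball z r) ≤ μ.real (ball z r ∩ {x | l < f x}))
    (h2 : 2 * e * μ.real (ball z r) ≤ μ.real (ball z r ∩ {x | f x ≤ l})) :
    l ∈ LamM μ U f δ A (ENNReal.ofReal e) k j := by
  have hKB := hc.inner' hδ
  have key : ∀ S : Set E, 2 * e * μ.real (ball z r) ≤ μ.real (ball z r ∩ S) →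
      ENNReal.ofReal e * μ (cb k j (-(2 * δ))) ≤ μ (cb k j (-(2 * δ)) ∩ S) := by
    intro S hS
    have a1 := dens_transfer μ (S := S) (K := cb k j (-(2 * δ))) measurableSet_ball Subset.rfl
      (hKB.trans hc.outer) hc.outer hcmp
    have a2 : μ.real (cb k j (-(2 * δ))) ≤ μ.real (ball z r) :=
      measureReal_mono hKB (ball_ne_top μ z r)
    rw [← ofReal_measureReal (sub_ne_top μ hKB),
      ← ofReal_measureReal (sub_ne_top μ (inter_subset_left.trans hKB)), ← ENNReal.ofReal_mul he]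
    refine ENNReal.ofReal_le_ofReal ?_
    linarith [mul_le_mul_of_nonneg_left a2 he]
  exact ⟨hc.inner.trans hU, hA, key _ h1, key _ h2⟩

/-- points outside `U` whose translate lies in a ball of the cell that is contained in `U` -/
def Sh (U : Set E) (δ : ℝ) (k : ℤ) (j : E × ℝ) (h : E) : Set E :=
  {x | x ∉ U ∧ ‖h‖ ≤ 2 ^ k ∧ ∃ z r, InCell δ k j z r ∧ x + h ∈ ball z r ∧ ball z r ⊆ U}

lemma cell_shift : ∃ C : ℝ≥0∞, C ≠ ∞ ∧ ∀ (U : Set E) (δ : ℝ) (k : ℤ) (j : E × ℝ) (h : E),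
    δ ≤ 1 / 4 → 1 ≤ j.2 → j.2 ≤ 2 → μ (Sh U δ k j h) ≤ C * ENNReal.ofReal ‖h‖ * wt E k := by
  set d := finrank ℝ E with hd
  refine ⟨ENNReal.ofReal (2 * (d * 3 ^ d) * 3 ^ d) * μ (ball 0 1),
    ENNReal.mul_ne_top ENNReal.ofReal_ne_top (ball_ne_top μ _ _), ?_⟩
  intro U δ k j h hδ hj1 hj2
  have hρ : (0 : ℝ) < 2 ^ k := by positivity
  by_cases hh : ‖h‖ ≤ 2 ^ k
  swap
  · have : Sh U δ k j h = ∅ := eq_empty_iff_forall_notMem.2 fun x hx => hh hx.2.1
    simp [this]
  set W : Set E := ⋃ p ∈ {p : E × ℝ | InCell δ k j p.1 p.2 ∧ ball p.1 p.2 ⊆ U}, ball p.1 p.2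
    with hW
  have hWo : IsOpen W := isOpen_biUnion fun _ _ => isOpen_ball
  have hWs : W ⊆ ball ((2 : ℝ) ^ k • j.1) (3 * 2 ^ k) := by
    refine iUnion₂_subset fun p hp => ball_subset_ball' ?_
    obtain ⟨-, a2, a3⟩ := hp.1.radius hδ hj1 hj2
    linarith
  have hstar : ∀ p ∈ W, ∀ q ∈ closedBall ((2 : ℝ) ^ k • j.1) (2 ^ k / 2), ∀ t ∈ Icc (0 : ℝ) 1,
      (1 - t) • p + t • q ∈ W := by
    intro p hp q hq t ht
    obtain ⟨b, hb, hp⟩ := mem_iUnion₂.1 hp
    refine mem_biUnion hb (convex_ball b.1 b.2 hp ?_ (by linarith [ht.2]) ht.1 (by ring))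
    obtain ⟨a1, -, a3⟩ := hb.1.radius hδ hj1 hj2
    rw [mem_closedBall] at hq
    rw [mem_ball]
    linarith [dist_triangle_right q b.1 ((2 : ℝ) ^ k • j.1)]
  have h1 := star_shift μ hWo.measurableSet (sub_ne_top μ hWs) (by positivity) hstar h
  have h2 : Sh U δ k j h ⊆ {x | x + h ∈ W ∧ x ∉ W} := by
    rintro x ⟨hx, -, z, r, hc, hxh, hsub⟩
    refine ⟨mem_biUnion (x := (z, r)) ⟨hc, hsub⟩ hxh, fun hxW => hx ?_⟩
    obtain ⟨b, hb, hp⟩ := mem_iUnion₂.1 hxW
    exact hb.2 hp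
  refine (measure_mono h2).trans (h1.trans ?_)
  have h3 : (1 + ‖h‖ / (2 ^ k / 2)) ^ d - 1 ≤ ‖h‖ / (2 ^ k / 2) * (d * 3 ^ d) := by
    have := one_add_pow_le (x := ‖h‖ / (2 ^ k / 2)) (X := 2) (by positivity)
      (by rw [div_le_iff₀ (by positivity)]; linarith) d
    norm_num at this ⊢
    linarith
  refine (mul_le_mul' (ENNReal.ofReal_le_ofReal h3) (measure_mono hWs)).trans (le_of_eq ?_)
  rw [ball_vol μ _ (by positivity), ← mul_assoc, ← ENNReal.ofReal_mul (by positivity), wt,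
    mul_assoc _ _ (ENNReal.ofReal _), ← ENNReal.ofReal_mul (norm_nonneg _),
    mul_right_comm _ (μ (ball 0 1)), ← ENNReal.ofReal_mul (by positivity), ← hd]
  congr 2
  rw [mul_pow]; field_simp

/-- a ball of high density through a point near which the function is below the level contains a
ball of medium density through that point -/
lemma halving {S : Set E} (hS : MeasurableSet S) {p z : E} {r s e : ℝ} (hp : p ∈ ball z r)
    (hs : 0 < s) (he : 0 < e) (he1 : e ≤ 1 / 2) (hsmall : Disjoint (ball p (2 * s)) S)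
    (hd : e * μ.real (ball z r) < μ.real (ball z r ∩ S)) :
    ∃ z' r', p ∈ ball z' r' ∧ ball z' r' ⊆ ball z r ∧ s < r' ∧
      e * μ.real (ball z' r') ≤ μ.real (ball z' r' ∩ S) ∧
      (1 / 2) ^ (finrank ℝ E + 1) * μ.real (ball z' r') ≤ μ.real (ball z' r' ∩ Sᶜ) := by
  classical
  have hr : 0 < r := pos_of_mem_ball hp
  set c : ℕ → E := fun i => p + (1 / 2 : ℝ) ^ i • (z - p) with hc
  set ρ : ℕ → ℝ := fun i => (1 / 2) ^ i * r with hρ
  have hρ0 : ∀ i, 0 < ρ i := fun i => by positivity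
  have hpz : ‖z - p‖ < r := by rwa [mem_ball, dist_comm, dist_eq_norm] at hp
  have hmem : ∀ i, p ∈ ball (c i) (ρ i) := by
    intro i
    rw [mem_ball, dist_comm, dist_eq_norm, hc, hρ]
    simp only [add_sub_cancel_left, norm_smul, Real.norm_of_nonneg (by positivity : (0:ℝ) ≤ (1 / 2) ^ i)]
    exact mul_lt_mul_of_pos_left hpz (by positivity)
  have hnest : ∀ i, ball (c (i + 1)) (ρ (i + 1)) ⊆ ball (c i) (ρ i) := by
    intro i
    refine ball_subset_ball' ?_
    have : c (i + 1) - c i = -((1 / 2 : ℝ) ^ (i + 1) • (z - p)) := by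
      simp only [hc, pow_succ]; module
    rw [dist_eq_norm, this, norm_neg, norm_smul, Real.norm_of_nonneg (by positivity), hρ]
    have h1 := mul_lt_mul_of_pos_left hpz (by positivity : (0 : ℝ) < (1 / 2) ^ (i + 1))
    simp only [pow_succ] at h1 ⊢
    linarith
  have hsub : ∀ i, ball (c i) (ρ i) ⊆ ball z r := by
    intro i
    induction i with
    | zero => simp [hc, hρ]
    | succ i ih => exact (hnest i).trans ih
  have hlow : ∀ i, ρ i ≤ s → ¬ e * μ.real (ball (c i) (ρ i)) < μ.real (ball (c i) (ρ i) ∩ S) := by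
    intro i hi
    have h1 : ball (c i) (ρ i) ⊆ ball p (2 * s) := ball_subset_ball' (by
      have := hmem i
      rw [mem_ball, dist_comm] at this; linarith)
    rw [(hsmall.mono_left h1).inter_eq, measureReal_empty, not_lt]
    exact mul_nonneg he.le measureReal_nonneg
  have hex : ∃ i, ¬ e * μ.real (ball (c i) (ρ i)) < μ.real (ball (c i) (ρ i) ∩ S) := by
    obtain ⟨n, hn⟩ := exists_pow_lt_of_lt_one (x := s / r) (y := (1 / 2 : ℝ)) (by positivity)
      (by norm_num)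
    rw [lt_div_iff₀ hr] at hn
    exact ⟨n, hlow n hn.le⟩
  have hspec := Nat.find_spec hex
  have h0 : Nat.find hex ≠ 0 := by
    intro h0
    rw [h0] at hspec
    exact hspec (by simpa [hc, hρ] using hd)
  obtain ⟨i, hi⟩ := Nat.exists_eq_succ_of_ne_zero h0
  have hmin := not_not.1 (Nat.find_min hex (m := i) (by omega))
  rw [hi, not_lt, Nat.succ_eq_add_one] at hspec
  refine ⟨c i, ρ i, hmem i, hsub i, lt_of_not_ge fun h => hlow i h hmin, hmin.le, ?_⟩
  have h1 := measureReal_inter_add_sdiff (μ := μ) (s := ball (c (i + 1)) (ρ (i + 1))) hS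
    (ball_ne_top μ _ _)
  have h2 : μ.real (ball (c (i + 1)) (ρ (i + 1)) \ S) ≤ μ.real (ball (c i) (ρ i) ∩ Sᶜ) :=
    measureReal_mono (inter_subset_inter_left _ (hnest i)) (sub_ne_top μ inter_subset_left)
  have h3 : μ.real (ball (c (i + 1)) (ρ (i + 1))) =
      (1 / 2) ^ finrank ℝ E * μ.real (ball (c i) (ρ i)) := by
    rw [ball_real μ _ (hρ0 _), ball_real μ _ (hρ0 _), ← mul_assoc, ← mul_pow]
    congr 2
    simp only [hρ, pow_succ]; ring
  have h4 := mul_le_mul_of_nonneg_right he1 (measureReal_nonneg (μ := μ)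
    (s := ball (c (i + 1)) (ρ (i + 1))))
  rw [pow_succ, mul_right_comm, ← h3]
  linarith

end Pool.Agent.MP_a25fb7_an

end

-- part MP_a25fb7_an.LowSum
section

/-!
Summation over the cells of low density.
-/

set_option autoImplicit false
set_option linter.unusedSectionVars false
open MeasureTheory Metric Set Module
open scoped ENNReal

namespace Pool.Agent.MP_a25fb7_an

variable {E : Type*} [NormedAddCommGroup E] [InnerProductSpace ℝ E] [FiniteDimensional ℝ E]
  [MeasurableSpace E] [BorelSpace E] (μ : Measure E) [μ.IsAddHaarMeasure]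

/-- union of the balls on which the average of `f` exceeds `l` -/
def Ul (f : E → ℝ) (l : ℝ) : Set E :=
  {x | ∃ z r, x ∈ ball z r ∧ l * μ.real (ball z r) < ∫ y in ball z r, f y ∂μ}

lemma Ul_anti (f : E → ℝ) : Antitone (Ul μ f) := by
  rintro a b hab x ⟨z, r, hx, h⟩
  exact ⟨z, r, hx, lt_of_le_of_lt (mul_le_mul_of_nonneg_right hab measureReal_nonneg) h⟩

lemma ball_subset_Ul {f : E → ℝ} {l r : ℝ} {z : E}
    (h : l * μ.real (ball z r) < ∫ y in ball z r, f y ∂μ) : ball z r ⊆ Ul μ f l :=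
  fun _ hx => ⟨z, r, hx, h⟩

/-- levels at which a cell contains a ball of low density and touches the complement of `Ul` -/
def LamL (f : E → ℝ) (δ ε : ℝ) (k : ℤ) (j : E × ℝ) : Set ℝ :=
  {l | ¬ ball ((2 : ℝ) ^ k • j.1) (4 * 2 ^ k) ⊆ Ul μ f l ∧ ∃ z r, InCell δ k j z r ∧
    l * μ.real (ball z r) < ∫ y in ball z r, f y ∂μ ∧
    μ.real (ball z r ∩ {x | l < f x}) ≤ ε * μ.real (ball z r)}

lemma Qn_sub (f : E → ℝ) (a σ : ℝ) : Qn μ (fun x => f x - a) σ = Qn μ f σ := by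
  funext y
  unfold Qn dfc
  simp only [sub_sub_sub_cancel_right]

lemma integral_sub_const {f : E → ℝ} (hf : Continuous f) (z : E) (r a : ℝ) :
    ∫ y in ball z r, (f y - a) ∂μ = ∫ y in ball z r, f y ∂μ - a * μ.real (ball z r) := by
  rw [integral_sub (integrableOn_ball μ hf z r) (integrableOn_ball μ continuous_const z r),
    setIntegral_const, smul_eq_mul, mul_comm]

lemma grid_ind {J : Set (E × ℝ)} {n : ℝ≥0∞} {R : ℝ}
    (hn : ∀ y : E, ∑' j : J, (ball y R).indicator (fun _ => (1 : ℝ≥0∞)) j.1.1 ≤ n)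
    {ρ : ℝ} (hρ : 0 < ρ) (y : E) :
    ∑' j : J, (ball (ρ • j.1.1) (R * ρ)).indicator (fun _ => (1 : ℝ≥0∞)) y ≤ n := by
  refine le_trans (le_of_eq (tsum_congr fun j => ?_)) (hn (ρ⁻¹ • y))
  by_cases h : j.1.1 ∈ ball (ρ⁻¹ • y) R
  · rw [indicator_of_mem h, indicator_of_mem (by rwa [mul_comm, smul_mem_ball_iff hρ])]
  · rw [indicator_of_notMem h, indicator_of_notMem (by rwa [mul_comm, smul_mem_ball_iff hρ])]

lemma grid_sum {J : Set (E × ℝ)} (hJ : J.Countable) {n : ℝ≥0∞} {R : ℝ}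
    (hn : ∀ y : E, ∑' j : J, (ball y R).indicator (fun _ => (1 : ℝ≥0∞)) j.1.1 ≤ n)
    {ρ : ℝ} (hρ : 0 < ρ) {G : E → ℝ≥0∞} (hG : Measurable G) :
    ∑' j : J, ∫⁻ y in ball (ρ • j.1.1) (R * ρ), G y ∂μ ≤ n * ∫⁻ y, G y ∂μ := by
  have := hJ.to_subtype
  simp only [← lintegral_indicator measurableSet_ball]
  rw [← lintegral_tsum fun j => (hG.indicator measurableSet_ball).aemeasurable,
    ← lintegral_const_mul _ hG]
  refine lintegral_mono fun y => ?_
  refine le_trans (le_of_eq ?_) (mul_le_mul_left (grid_ind hn hρ y) (G y))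
  rw [← ENNReal.tsum_mul_right]
  refine tsum_congr fun j => ?_
  by_cases h : y ∈ ball (ρ • j.1.1) (R * ρ) <;> simp [h]

lemma thin_sum' {f : E → ℝ} (hf : Measurable f) {Ω : Set E} {Γ : ℝ≥0∞} (hV : TransBd μ f Ω Γ)
    {σ : ℝ} (hσ : 0 < σ) (hσ1 : σ ≤ 1) :
    ∑' k : ℤ, ENNReal.ofReal ((2 : ℝ) ^ k)⁻¹ *
      ∫⁻ y, (core Ω (σ * 2 ^ k)).indicator (Qn μ f (σ * 2 ^ k)) y ∂μ ≤ 2 * Γ := by
  refine le_trans (ENNReal.tsum_le_tsum fun k => ?_) (thin_sum μ hf hV hσ)
  rw [lintegral_indicator (isClosed_core _ _).measurableSet]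
  have hρ : (0 : ℝ) < 2 ^ k := by positivity
  exact mul_le_mul_left (ENNReal.ofReal_le_ofReal
    (inv_anti₀ (by positivity) (mul_le_of_le_one_left hρ.le hσ1))) _

open Classical in
lemma low_cell : ∃ η τ ε : ℝ, 0 < η ∧ η ≤ 1 / 4 ∧ 0 < τ ∧ τ ≤ 1 / 4 ∧ 0 < ε ∧ ε ≤ 1 / 16 ∧
    ∃ (C : ℝ≥0∞) (m : ℤ), C ≠ ∞ ∧ ∀ (δ e : ℝ) (J : Set (E × ℝ)), 0 < δ → δ ≤ 1 / 4 → 0 < e →
      e ≤ ε → (∀ j ∈ J, 1 ≤ j.2 ∧ j.2 ≤ 2) →
      (∀ (z : E) (r : ℝ), 1 ≤ r → r < 2 → ∃ j ∈ J, dist z j.1 < δ ∧ j.2 ≤ r ∧ r < j.2 + δ) →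
      (∀ (k : ℤ) (j : E × ℝ), 1 ≤ j.2 →
        μ.real (cb k j (2 * δ)) ≤ (1 + e) * μ.real (cb k j (-(2 * δ)))) →
      ∀ (f : E → ℝ) (Ω : Set E) (k : ℤ) (j : J), Continuous f →
        ball ((2 : ℝ) ^ k • j.1.1) (6 * 2 ^ k) ⊆ Ω →
        volume (LamL μ f δ ε k j.1) * ENNReal.ofReal ((2 ^ k) ^ finrank ℝ E) ≤
          C * ∫⁻ y in ball ((2 : ℝ) ^ k • j.1.1) (4 * 2 ^ k),
            ((core Ω (τ * 2 ^ k)).indicator (Qn μ f (τ * 2 ^ k)) y +
              (core Ω (η * 2 ^ k)).indicator (Qn μ f (η * 2 ^ k)) y +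
              (core Ω (2 * η * 2 ^ k)).indicator (Qn μ f (2 * η * 2 ^ k)) y) ∂μ +
          ENNReal.ofReal ((2 ^ k) ^ finrank ℝ E) * ∑' j' : J,
            (ball ((2 : ℝ) ^ k • j.1.1) (4 * 2 ^ k)).indicator (fun _ => (1 : ℝ≥0∞))
              ((2 : ℝ) ^ (k + m) • j'.1.1) *
            (if cb (k + m) j'.1 (-(2 * δ)) ⊆ Ω then
              volume (LamM μ (Ul μ f) f δ (16 / η) (ENNReal.ofReal e) (k + m) j'.1) else 0) := by
  obtain ⟨η, τ, ε, hη0, hη1, hτ0, hτ1, hε0, hε1, C, hC, hlow⟩ := low_ball0 μ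
  obtain ⟨m, hm1, hm2⟩ := exists_mem_Ico_zpow hη0 (one_lt_two (α := ℝ))
  refine ⟨η, τ, ε / 4, hη0, hη1, hτ0, hτ1, by positivity, by linarith, C, m, hC, ?_⟩
  intro δ e J hδ hδ1 he he1 hJ1 hJ2 hcmp f Ω k j hf hΩ
  have hρ : (0 : ℝ) < 2 ^ k := by positivity
  obtain ⟨hj1, hj2⟩ := hJ1 _ j.2
  refine vol_mul_le (ENNReal.ofReal_pos.2 (by positivity)).ne' ENNReal.ofReal_ne_top ?_
  rintro a ⟨haU, za, ra, hca, -, hda⟩ b ⟨-, z, r, hc, hav, -⟩ hab
  obtain ⟨hr1, hr2, hr3⟩ := hc.radius hδ1 hj1 hj2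
  have hK := hcmp k j.1 hj1
  have h1 := dens_transfer μ (S := {x | a < f x}) (K := cb k j.1 (-(2 * δ))) measurableSet_ball
    (hca.inner' hδ) hca.outer hc.outer hK
  have h2 : μ.real (ball za ra) ≤ μ.real (cb k j.1 (2 * δ)) :=
    measureReal_mono hca.outer (ball_ne_top μ _ _)
  have h3 : μ.real (cb k j.1 (-(2 * δ))) ≤ μ.real (ball z r) :=
    measureReal_mono (hc.inner' hδ) (ball_ne_top μ _ _)
  have h4 : μ.real (ball z r ∩ {x | 0 < f x - a}) ≤ ε * μ.real (ball z r) := by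
    simp only [sub_pos]
    have k0 : 0 ≤ μ.real (cb k j.1 (-(2 * δ))) := measureReal_nonneg
    have k1 := mul_le_mul_of_nonneg_left (h2.trans hK) hε0.le
    have k2 := mul_le_mul_of_nonneg_left h3 hε0.le
    have k3 := mul_le_mul_of_nonneg_right he1 k0
    have k4 := mul_le_mul_of_nonneg_right (show e ≤ 1 by linarith) (mul_nonneg hε0.le k0)
    linarith [mul_nonneg hε0.le k0]
  rcases hlow (fun x => f x - a) (2 ^ k) r (b - a) z (hf.sub continuous_const) hρ hr1 (by linarith)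
    (by linarith) (by rw [integral_sub_const μ hf]; linarith) h4 with h | ⟨y, hy, g1, g2, g3⟩
  · refine le_trans ?_ le_self_add
    rw [← ENNReal.ofReal_mul (by linarith)]
    refine h.trans (mul_le_mul_right ?_ _)
    have hsub : ball z (r + 2 ^ k) ⊆ ball ((2 : ℝ) ^ k • j.1.1) (4 * 2 ^ k) :=
      ball_subset_ball' (by linarith)
    refine (lintegral_mono_set hsub).trans (le_of_eq (setLIntegral_congr_fun measurableSet_ball
      fun y hy => ?_))
    have hcore : ∀ σ : ℝ, σ ≤ 1 → y ∈ core Ω (σ * 2 ^ k) := by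
      intro σ hσ
      refine Subset.trans (ball_subset_ball' ?_) hΩ
      rw [mem_ball] at hy
      linarith [mul_le_mul_of_nonneg_right hσ hρ.le]
    simp only [Qn_sub]
    rw [indicator_of_mem (hcore τ (by linarith)), indicator_of_mem (hcore η (by linarith)),
      indicator_of_mem (hcore (2 * η) (by linarith))]
  · refine le_trans ?_ le_add_self
    rw [mul_comm]
    refine mul_le_mul_right ?_ _
    have e1 : (2 : ℝ) ^ (k + m) = 2 ^ m * 2 ^ k := by rw [zpow_add₀ two_ne_zero, mul_comm]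
    have e2 : (2 : ℝ) ^ (k + m + 1) = 2 ^ (m + 1) * 2 ^ k := by
      rw [add_assoc, zpow_add₀ two_ne_zero, mul_comm]
    have p1 : (2 : ℝ) ^ (k + m) ≤ η * 2 ^ k := by rw [e1]; exact mul_le_mul_of_nonneg_right hm1 hρ.le
    have p2 : η * 2 ^ k < 2 ^ (k + m + 1) := by rw [e2]; exact mul_lt_mul_of_pos_right hm2 hρ
    obtain ⟨j', hj', hc'⟩ := exists_cell hJ2 y p1 p2
    obtain ⟨-, -, hs3⟩ := hc'.radius hδ1 (hJ1 _ hj').1 (hJ1 _ hj').2
    have p3 : η * 2 ^ k ≤ 1 / 4 * 2 ^ k := mul_le_mul_of_nonneg_right hη1 hρ.le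
    have p4 : dist y ((2 : ℝ) ^ k • j.1.1) < 5 / 2 * 2 ^ k := by
      rw [mem_ball] at hy
      linarith [dist_triangle y z ((2 : ℝ) ^ k • j.1.1)]
    have p5 : dist ((2 : ℝ) ^ (k + m) • j'.1) ((2 : ℝ) ^ k • j.1.1) < 4 * 2 ^ k := by
      linarith [dist_triangle_left ((2 : ℝ) ^ (k + m) • j'.1) ((2 : ℝ) ^ k • j.1.1) y]
    refine le_trans ?_ (ENNReal.le_tsum ⟨j', hj'⟩)
    have p6 : cb (k + m) j' (-(2 * δ)) ⊆ Ω :=
      (hc'.inner' hδ).trans (Subset.trans (ball_subset_ball' (by linarith)) hΩ)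
    rw [indicator_of_mem (mem_ball.2 p5), one_mul, if_pos p6, ← Real.volume_Icc]
    refine measure_mono fun l hl => ?_
    have hG : 0 ≤ μ.real (ball y (η * 2 ^ k)) := measureReal_nonneg
    have hG' := mul_le_mul_of_nonneg_right (show 2 * e ≤ 1 / 4 by linarith) hG
    refine medium_of_ball μ hδ he.le hc' (hcmp _ _ (hJ1 _ hj').1) (ball_subset_Ul μ ?_)
      (fun hcon => haU (Subset.trans (ball_subset_ball' ?_) (hcon.trans (Ul_anti μ f hl.1))))
      (hG'.trans (g2.trans (measureReal_mono (inter_subset_inter_right _ fun x hx => ?_)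
        (sub_ne_top μ inter_subset_left))))
      (hG'.trans (g3.trans (measureReal_mono (inter_subset_inter_right _ fun x hx => ?_)
        (sub_ne_top μ inter_subset_left))))
    · rw [integral_sub_const μ hf] at g1
      linarith [mul_le_mul_of_nonneg_right hl.2 hG, mul_le_mul_of_nonneg_right hab.le hG]
    · rw [dist_comm]
      rw [zpow_add_one₀ two_ne_zero] at p2
      have : 8 * 2 ^ k ≤ 16 / η * 2 ^ (k + m) := by
        rw [div_mul_eq_mul_div, le_div_iff₀ hη0]; linarith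
      linarith
    · simp only [mem_ofPred_eq] at hx ⊢; linarith [hl.2]
    · simp only [mem_ofPred_eq] at hx ⊢; linarith [hl.1]

lemma wt_eq (k m : ℤ) :
    wt E k = ENNReal.ofReal (2 ^ m / (2 ^ m) ^ finrank ℝ E) * wt E (k + m) := by
  unfold wt
  rw [← ENNReal.ofReal_mul (by positivity), zpow_add₀ two_ne_zero, mul_pow]
  congr 1
  field_simp

open Classical in
/-- summation over all cells of low density -/
lemma low_sum : ∃ ε : ℝ, 0 < ε ∧ ε ≤ 1 / 16 ∧ ∀ (δ e : ℝ) (J : Set (E × ℝ)), 0 < δ → δ ≤ 1 / 4 →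
    0 < e → e ≤ ε → J.Countable → (∀ j ∈ J, 1 ≤ j.2 ∧ j.2 ≤ 2) →
    (∀ (z : E) (r : ℝ), 1 ≤ r → r < 2 → ∃ j ∈ J, dist z j.1 < δ ∧ j.2 ≤ r ∧ r < j.2 + δ) →
    (∀ R : ℝ, ∃ n : ℝ≥0∞, n ≠ ∞ ∧ ∀ y : E,
      ∑' j : J, (ball y R).indicator (fun _ => (1 : ℝ≥0∞)) j.1.1 ≤ n) →
    (∀ (k : ℤ) (j : E × ℝ), 1 ≤ j.2 →
      μ.real (cb k j (2 * δ)) ≤ (1 + e) * μ.real (cb k j (-(2 * δ)))) →
    ∃ C : ℝ≥0∞, C ≠ ∞ ∧ ∀ {f : E → ℝ} {γ : E → ℝ≥0∞} {Ω : Set E},
      UG f γ → Continuous f → Measurable γ → MeasurableSet Ω →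
      ∑' k : ℤ, ∑' j : J, wt E k * (if ball ((2 : ℝ) ^ k • j.1.1) (6 * 2 ^ k) ⊆ Ω then
        volume (LamL μ f δ ε k j.1) else 0) ≤ C * ∫⁻ y in Ω, γ y ∂μ := by
  obtain ⟨η, τ, ε, hη0, hη1, hτ0, hτ1, hε0, hε1, C, m, hC, hcell⟩ := low_cell μ
  refine ⟨ε, hε0, hε1, ?_⟩
  intro δ e J hδ hδ1 he he1 hJ hJ1 hJ2 hJ3 hcmp
  obtain ⟨C2, hC2, hmed⟩ := medium_sum μ (ENNReal.ofReal_pos.2 he).ne' ENNReal.ofReal_ne_top hδ hδ1
    (16 / η) hJ hJ1 hJ3
  obtain ⟨n, hn, hcnt⟩ := hJ3 4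
  set c := ENNReal.ofReal (2 ^ m / (2 ^ m) ^ finrank ℝ E) with hc
  have hct : c ≠ ∞ := ENNReal.ofReal_ne_top
  refine ⟨C * n * 6 + c * n * C2, by finiteness, ?_⟩
  intro f γ Ω h hf hγ hΩ
  have hT := h.transBd μ hγ hΩ
  set Γ := ∫⁻ y in Ω, γ y ∂μ with hΓ
  set T : ℝ → ℤ → E → ℝ≥0∞ := fun σ k => (core Ω (σ * 2 ^ k)).indicator (Qn μ f (σ * 2 ^ k))
    with hTd
  have mT : ∀ σ k, Measurable (T σ k) := fun σ k =>
    (measurable_Qn μ hf.measurable _).indicator (isClosed_core _ _).measurableSet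
  set M : ℤ → J → ℝ≥0∞ := fun k j => if cb k j.1 (-(2 * δ)) ⊆ Ω then
    volume (LamM μ (Ul μ f) f δ (16 / η) (ENNReal.ofReal e) k j.1) else 0 with hM
  have h1 : ∀ (k : ℤ) (j : J), wt E k * (if ball ((2 : ℝ) ^ k • j.1.1) (6 * 2 ^ k) ⊆ Ω then
      volume (LamL μ f δ ε k j.1) else 0) ≤
      ENNReal.ofReal ((2 : ℝ) ^ k)⁻¹ * C * ∫⁻ y in ball ((2 : ℝ) ^ k • j.1.1) (4 * 2 ^ k),
        (T τ k y + T η k y + T (2 * η) k y) ∂μ +
      wt E k * ∑' j' : J, (ball ((2 : ℝ) ^ k • j.1.1) (4 * 2 ^ k)).indicator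
        (fun _ => (1 : ℝ≥0∞)) ((2 : ℝ) ^ (k + m) • j'.1.1) * M (k + m) j' := by
    intro k j
    split_ifs with hsub
    swap
    · simp
    have e1 : wt E k = ENNReal.ofReal ((2 : ℝ) ^ k)⁻¹ * ENNReal.ofReal ((2 ^ k) ^ finrank ℝ E) := by
      rw [wt, ← ENNReal.ofReal_mul (by positivity), div_eq_inv_mul]
    rw [e1, mul_assoc, mul_assoc, mul_assoc, ← mul_add, mul_comm (ENNReal.ofReal (_ ^ finrank ℝ E))]
    exact mul_le_mul_right (hcell δ e J hδ hδ1 he he1 hJ1 hJ2 hcmp f Ω k j hf hsub) _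
  have h2 : ∀ k : ℤ, ∑' j : J, wt E k * (if ball ((2 : ℝ) ^ k • j.1.1) (6 * 2 ^ k) ⊆ Ω then
      volume (LamL μ f δ ε k j.1) else 0) ≤
      C * n * (ENNReal.ofReal ((2 : ℝ) ^ k)⁻¹ * ∫⁻ y, T τ k y ∂μ +
        ENNReal.ofReal ((2 : ℝ) ^ k)⁻¹ * ∫⁻ y, T η k y ∂μ +
        ENNReal.ofReal ((2 : ℝ) ^ k)⁻¹ * ∫⁻ y, T (2 * η) k y ∂μ) +
      c * n * ∑' j' : J, wt E (k + m) * M (k + m) j' := by
    intro k
    have hρ : (0 : ℝ) < 2 ^ k := by positivity
    refine (ENNReal.tsum_le_tsum (h1 k)).trans ?_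
    rw [ENNReal.tsum_add, ENNReal.tsum_mul_left, ENNReal.tsum_mul_left]
    refine add_le_add ?_ ?_
    · refine (mul_le_mul_right (grid_sum μ hJ hcnt hρ
        (((mT τ k).add (mT η k)).add (mT (2 * η) k))) _).trans (le_of_eq ?_)
      simp only [Pi.add_apply]
      rw [lintegral_add_right _ (mT _ k), lintegral_add_right _ (mT _ k)]
      ring
    · rw [ENNReal.tsum_comm, ENNReal.tsum_mul_left, wt_eq k m, ← hc]
      have : ∑' (j' : J) (j : J), (ball ((2 : ℝ) ^ k • j.1.1) (4 * 2 ^ k)).indicator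
          (fun _ => (1 : ℝ≥0∞)) ((2 : ℝ) ^ (k + m) • j'.1.1) * M (k + m) j' ≤
          n * ∑' j' : J, M (k + m) j' := by
        rw [← ENNReal.tsum_mul_left]
        refine ENNReal.tsum_le_tsum fun j' => ?_
        rw [ENNReal.tsum_mul_right]
        exact mul_le_mul_left (grid_ind hcnt hρ _) _
      refine (mul_le_mul_right this _).trans (le_of_eq (by ring))
  refine (ENNReal.tsum_le_tsum h2).trans ?_
  rw [ENNReal.tsum_add, ENNReal.tsum_mul_left, ENNReal.tsum_mul_left, ENNReal.tsum_add,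
    ENNReal.tsum_add, add_mul]
  refine add_le_add ?_ ?_
  · refine (mul_le_mul_right (add_le_add (add_le_add
      (thin_sum' μ hf.measurable hT hτ0 (by linarith))
      (thin_sum' μ hf.measurable hT hη0 (by linarith)))
      (thin_sum' μ hf.measurable hT (by linarith) (by linarith))) _).trans (le_of_eq (by ring))
  · rw [mul_assoc _ C2]
    refine mul_le_mul_right (le_trans (le_of_eq ?_) (hmed (Ul_anti μ f) h hf hγ hΩ)) _
    exact (Equiv.addRight m).tsum_eq fun k => ∑' j' : J, wt E k * M k j'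

end Pool.Agent.MP_a25fb7_an

end
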